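import Pool.Agent.Lib.MP_f23696_ag.C.Sum
import Pool.Agent.Lib.MP_f23696_ag.Table

/-!
# MP_f23696_ag, module BAD

`bad_case`: the step of the main induction when the only available divisors lie over other places.
The arithmetic is `Pool.Agent.MP_f23696_ag.Table.table` (helper49).
-/

namespace Pool.Agent.MLD.C

open scoped Classical
noncomputable section

universe u v w

namespace Bad

variable {k : Type u} [Field k] {F : Type v} [Field F] [Algebra k F] {m : ℕ}

/-- sum of two homogeneous valuations over the same place -/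
def add (V V' : HV k F m) : HV k F m := ⟨V.P, V.n + V'.n, fun i => V.w i + V'.w i⟩

/-- multiple of a homogeneous valuation -/
def mul (c : ℕ) (V : HV k F m) : HV k F m := ⟨V.P, c * V.n, fun i => c * V.w i⟩

theorem add_val (V V' : HV k F m) (h : V'.P = V.P) (g : F) (u : Fin m → ℤ) :
    (add V V').val g u = V.val g u + V'.val g u := by
  unfold HV.val add
  rw [h]
  simp only [add_mul, Finset.sum_add_distrib]
  push_cast
  ring

theorem mul_val (c : ℕ) (V : HV k F m) (g : F) (u : Fin m → ℤ) :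
    (mul c V).val g u = c * V.val g u := by
  unfold HV.val mul
  simp only [mul_assoc, ← Finset.mul_sum]
  push_cast
  ring

theorem ld_of [Cv k F] (V : HV k F m) (γ : (F × (Fin m → ℤ)) →₀ ℝ) :
    V.ld γ = (V.disc : ℝ) - γ.sum fun h r => r * (V.val h.1 h.2 : ℝ) := rfl

theorem add_ld [Cv k F] (V V' : HV k F m) (h : V'.P = V.P) (γ : (F × (Fin m → ℤ)) →₀ ℝ) :
    (add V V').ld γ = V.ld γ + V'.ld γ := by
  have h1 : (add V V').disc = V.disc + V'.disc := by
    unfold HV.disc add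
    rw [h]
    simp only [Finset.sum_add_distrib]
    push_cast
    ring
  rw [ld_of, ld_of, ld_of, h1]
  have h2 : (γ.sum fun h r => r * ((add V V').val h.1 h.2 : ℝ)) =
      (γ.sum fun h r => r * (V.val h.1 h.2 : ℝ)) + γ.sum fun h r => r * (V'.val h.1 h.2 : ℝ) := by
    unfold Finsupp.sum
    rw [← Finset.sum_add_distrib]
    refine Finset.sum_congr rfl fun a _ => ?_
    dsimp only
    rw [add_val V V' h]
    push_cast
    ring
  rw [h2]
  push_cast
  ring

theorem mul_ld [Cv k F] (c : ℕ) (V : HV k F m) (γ : (F × (Fin m → ℤ)) →₀ ℝ) :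
    (mul c V).ld γ = c * V.ld γ := by
  have h1 : (mul c V).disc = c * V.disc := by
    unfold HV.disc mul
    simp only [← Finset.mul_sum]
    push_cast
    ring
  rw [ld_of, ld_of, h1]
  have h2 : (γ.sum fun h r => r * ((mul c V).val h.1 h.2 : ℝ)) =
      c * (γ.sum fun h r => r * (V.val h.1 h.2 : ℝ)) := by
    unfold Finsupp.sum
    rw [Finset.mul_sum]
    refine Finset.sum_congr rfl fun a _ => ?_
    dsimp only
    rw [mul_val]
    push_cast
    ring
  rw [h2]
  push_cast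
  ring

/-- horizontal valuations do not depend on the place -/
theorem horiz_val (P P' : Pl k F) (w : Fin m → ℤ) (g : F) (u : Fin m → ℤ) :
    (⟨P, 0, w⟩ : HV k F m).val g u = (⟨P', 0, w⟩ : HV k F m).val g u := by
  simp [HV.val]

theorem horiz_ld [Cv k F] (P P' : Pl k F) (w : Fin m → ℤ) (γ : (F × (Fin m → ℤ)) →₀ ℝ) :
    (⟨P, 0, w⟩ : HV k F m).ld γ = (⟨P', 0, w⟩ : HV k F m).ld γ := by
  simp [HV.ld, HV.disc, HV.valR, HV.val]

/-- primitive vectors -/
theorem primitive (w : Fin m → ℤ) (hw : w ≠ 0) :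
    ∃ (D : ℕ) (e c : Fin m → ℤ), 0 < D ∧ (∀ i, w i = D * e i) ∧ ∑ i, e i * c i = 1 := by
  obtain ⟨d, hd⟩ := (IsPrincipalIdealRing.principal (Ideal.span (Set.range w))).principal
  have hd' : Ideal.span (Set.range w) = Ideal.span {d} := hd
  have h1 : ∀ i, d ∣ w i := by
    intro i
    have : w i ∈ Ideal.span {d} := by
      rw [← hd']
      exact Ideal.subset_span ⟨i, rfl⟩
    exact Ideal.mem_span_singleton.1 this
  have h2 : d ∈ Ideal.span (Set.range w) := by
    rw [hd']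
    exact Ideal.mem_span_singleton_self d
  obtain ⟨c, hc⟩ := Ideal.mem_span_range_iff_exists_fun.1 h2
  have hd0 : d ≠ 0 := by
    intro h
    apply hw
    funext i
    have := h1 i
    rw [h, zero_dvd_iff] at this
    exact this
  choose e he using h1
  have hs : ∑ i, e i * c i = 1 := by
    have : d * ∑ i, e i * c i = d * 1 := by
      rw [Finset.mul_sum, mul_one]
      calc ∑ i, d * (e i * c i) = ∑ i, c i * w i := by
            refine Finset.sum_congr rfl fun i _ => ?_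
            rw [he i]; ring
        _ = d := hc
    exact mul_left_cancel₀ hd0 this
  refine ⟨d.natAbs, fun i => d.sign * e i, fun i => d.sign * c i, Int.natAbs_pos.2 hd0, ?_, ?_⟩
  · intro i
    rw [he i]
    calc d * e i = (d.sign * d.natAbs) * e i := by rw [Int.sign_mul_natAbs]
      _ = _ := by ring
  · have hsg : d.sign * d.sign = 1 := by
      rcases lt_or_gt_of_ne hd0 with h | h
      · rw [Int.sign_eq_neg_one_of_neg h]; norm_num
      · rw [Int.sign_eq_one_of_pos h]; norm_num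
    calc ∑ i, d.sign * e i * (d.sign * c i) = ∑ i, (d.sign * d.sign) * (e i * c i) := by
          refine Finset.sum_congr rfl fun i _ => ?_
          ring
      _ = 1 := by rw [← Finset.mul_sum, hs, hsg]; norm_num

end Bad

open Bad

section STEP
variable {k : Type u} [Field k] [IsAlgClosed k] [CharZero k] {F : Type v} [Field F] [Algebra k F] [Cv k F]
  {m : ℕ}

/-- The bad case: the only available divisors are over other places. -/
theorem bad_case (A S : F → (Fin m → ℤ) → Prop) (γ : (F × (Fin m → ℤ)) →₀ ℝ)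
    (B : Finset (Pl k F)) (hB : GoodB A γ B) (hA0 : ∀ g u, A g u → g ≠ 0)
    (hSA : ∀ g u, S g u → A g u) (hSB : ∀ g u, S g u → ∀ Q ∉ B, ordAt Q g = 0)
    (V : HV k F m) (hVn : 1 ≤ V.n) (hVB : V.P ∈ B)
    (hVA : ∀ g u, A g u → 0 ≤ V.val g u) (hVS : ∀ g u, S g u → V.val g u = 0)
    (x : Pl k F → HV k F m) (hxP : ∀ Q, (x Q).P = Q) (hxn : ∀ Q, 1 ≤ (x Q).n)
    (hxA : ∀ Q, ∀ g u, A g u → 0 ≤ (x Q).val g u) (hxS : ∀ Q, ∀ g u, S g u → (x Q).val g u = 0)
    (hxl : ∀ Q, (x Q).ld γ ≤ 1) (Q₀ : Pl k F) (hQ₀ : Q₀ ∈ B) (hQV : Q₀ ≠ V.P)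
    (f : F) (u : Fin m → ℤ) (hf : A f u) (hf0 : 0 < (x Q₀).val f u) :
    ∃ V' : HV k F m, (∀ g t, A g t → V.val g t ≤ V'.val g t) ∧ (∀ g t, S g t → V'.val g t = 0) ∧
      0 < V'.val f u ∧ V'.ld γ ≤ V.ld γ + 1 := by
  set μ : Pl k F → ℕ := fun Q => if Q ∈ B then (x Q).n else 1 with hμdef
  have hμB : ∀ Q ∈ B, μ Q = (x Q).n := fun Q hQ => by simp [hμdef, hQ]
  have hμ1 : ∀ Q, 1 ≤ μ Q := by
    intro Q
    by_cases hQ : Q ∈ B
    · rw [hμB Q hQ]; exact hxn Q
    · simp [hμdef, hQ]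
  have hμF : ∀ Q, Q ∉ B → μ Q = 1 := fun Q hQ => by simp [hμdef, hQ]
  -- the horizontal valuation for a common multiple
  have key : ∀ N : ℕ, (∀ Q ∈ B, μ Q ∣ N) →
      (∀ Q ∈ B, (mul (N / μ Q) (x Q)).n = N) := by
    intro N hN Q hQ
    change N / μ Q * (x Q).n = N
    rw [← hμB Q hQ]
    exact Nat.div_mul_cancel (hN Q hQ)
  set N₀ : ℕ := ∏ Q ∈ B, μ Q with hN₀
  have hN₀pos : 0 < N₀ := Finset.prod_pos fun Q _ => hμ1 Q
  have hN₀d : ∀ Q ∈ B, μ Q ∣ N₀ := fun Q hQ => Finset.dvd_prod_of_mem _ hQ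
  set wN : ℕ → Fin m → ℤ := fun N i => ∑ Q ∈ B, ((N / μ Q : ℕ) : ℤ) * (x Q).w i with hwN
  have hsum : ∀ N : ℕ, (∀ Q ∈ B, μ Q ∣ N) →
      sumHV B (fun Q => mul (N / μ Q) (x Q)) V.P N = ⟨V.P, 0, wN N⟩ := by
    intro N hN
    unfold sumHV
    have := key N hN V.P hVB
    simp only [this, Nat.sub_self]
    rfl
  have hZpos : ∀ g t, A g t → ∑ Q ∈ B, ((N₀ / μ Q : ℕ) : ℤ) * (x Q).val g t ≤
      (⟨V.P, 0, wN N₀⟩ : HV k F m).val g t := by
    intro g t hgt
    rw [← hsum N₀ hN₀d]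
    refine le_trans (le_of_eq ?_) (sum_le A γ B hB (fun Q => mul (N₀ / μ Q) (x Q)) V.P N₀ hVB
      (fun Q _ => hxP Q)
      (fun Q hQ _ => key N₀ hN₀d Q hQ) (le_of_eq (key N₀ hN₀d V.P hVB).symm) g t (hA0 g t hgt) hgt)
    exact Finset.sum_congr rfl fun Q _ => (mul_val _ _ _ _).symm
  have hZS : ∀ g t, S g t → (⟨V.P, 0, wN N₀⟩ : HV k F m).val g t = 0 := by
    intro g t hgt
    rw [← hsum N₀ hN₀d]
    refine sum_S B (fun Q => mul (N₀ / μ Q) (x Q)) V.P N₀ hVB (fun Q _ => hxP Q)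
      (fun Q hQ _ => key N₀ hN₀d Q hQ) (le_of_eq (key N₀ hN₀d V.P hVB).symm) g t
      (hA0 g t (hSA g t hgt)) (hSB g t hgt) ?_
    intro Q _
    rw [mul_val, hxS Q g t hgt, mul_zero]
  have hZld : (⟨V.P, 0, wN N₀⟩ : HV k F m).ld γ ≤
      ∑ Q ∈ B, ((N₀ / μ Q : ℕ) : ℝ) * (x Q).ld γ - N₀ * ((B.card : ℝ) - 2) := by
    rw [← hsum N₀ hN₀d]
    refine le_trans (sum_ld A γ B hB (fun Q => mul (N₀ / μ Q) (x Q)) V.P N₀ hVB
      (fun Q _ => hxP Q)
      (fun Q hQ _ => key N₀ hN₀d Q hQ) (le_of_eq (key N₀ hN₀d V.P hVB).symm)) (le_of_eq ?_)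
    congr 1
    exact Finset.sum_congr rfl fun Q _ => mul_ld _ _ _
  have hZf : 0 < (⟨V.P, 0, wN N₀⟩ : HV k F m).val f u := by
    refine lt_of_lt_of_le ?_ (hZpos f u hf)
    have h1 : 0 < N₀ / μ Q₀ := Nat.div_pos (Nat.le_of_dvd hN₀pos (hN₀d Q₀ hQ₀)) (hμ1 Q₀)
    have h2 : ((N₀ / μ Q₀ : ℕ) : ℤ) * (x Q₀).val f u ≤
        ∑ Q ∈ B, ((N₀ / μ Q : ℕ) : ℤ) * (x Q).val f u :=
      Finset.single_le_sum (f := fun Q => ((N₀ / μ Q : ℕ) : ℤ) * (x Q).val f u)
        (fun Q _ => mul_nonneg (by positivity) (hxA Q f u hf)) hQ₀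
    refine lt_of_lt_of_le ?_ h2
    exact mul_pos (by exact_mod_cast h1) hf0
  have hw0 : wN N₀ ≠ 0 := by
    intro h
    rw [h] at hZf
    simp [HV.val] at hZf
  obtain ⟨D, e, c, hD, hwe, hec⟩ := primitive (wN N₀) hw0
  have hZmul : (⟨V.P, 0, wN N₀⟩ : HV k F m) = mul D ⟨V.P, 0, e⟩ := by
    unfold mul
    congr 1
    funext i
    exact hwe i
  set E₀ : HV k F m := ⟨V.P, 0, e⟩ with hE₀
  have hDz : (0 : ℤ) < D := by exact_mod_cast hD
  have hEval : ∀ g t, (⟨V.P, 0, wN N₀⟩ : HV k F m).val g t = D * E₀.val g t := by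
    intro g t
    rw [hZmul, mul_val]
  have hEA : ∀ g t, A g t → 0 ≤ E₀.val g t := by
    intro g t hgt
    have h1 : 0 ≤ (⟨V.P, 0, wN N₀⟩ : HV k F m).val g t :=
      le_trans (Finset.sum_nonneg fun Q _ => mul_nonneg (by positivity) (hxA Q g t hgt))
        (hZpos g t hgt)
    rw [hEval] at h1
    by_contra h
    push Not at h
    have := mul_neg_of_pos_of_neg hDz h
    linarith
  by_cases hE1 : E₀.ld γ ≤ 1
  · refine ⟨add V E₀, ?_, ?_, ?_, ?_⟩
    · intro g t hgt
      rw [add_val V E₀ rfl]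
      have := hEA g t hgt
      linarith
    · intro g t hgt
      rw [add_val V E₀ rfl, hVS g t hgt, zero_add]
      have h1 := hZS g t hgt
      rw [hEval] at h1
      rcases mul_eq_zero.1 h1 with h | h
      · exact absurd h hDz.ne'
      · exact h
    · rw [add_val V E₀ rfl]
      have h1 := hVA f u hf
      have h2 : 0 < E₀.val f u := by
        rw [hEval] at hZf
        exact (mul_pos_iff_of_pos_left hDz).1 hZf
      linarith
    · rw [add_ld V E₀ rfl]
      linarith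
  · push Not at hE1
    -- apply the table
    have hN₀R : (0 : ℝ) < N₀ := by exact_mod_cast hN₀pos
    have hcast : ∀ Q ∈ B, ((N₀ / μ Q : ℕ) : ℝ) = N₀ / μ Q := by
      intro Q hQ
      rw [Nat.cast_div (hN₀d Q hQ)]
      have := hμ1 Q
      positivity
    have h1R : (D : ℝ) < N₀ * (2 - ∑ Q ∈ B, (1 - 1 / (μ Q : ℝ))) := by
      have h3 : (D : ℝ) < D * E₀.ld γ := by
        have hDR : (0 : ℝ) < D := by exact_mod_cast hD
        nlinarith
      have h4 : (D : ℝ) * E₀.ld γ = (⟨V.P, 0, wN N₀⟩ : HV k F m).ld γ := by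
        rw [hZmul, mul_ld]
      rw [h4] at h3
      replace h3 := lt_of_lt_of_le h3 hZld
      have h5 : ∑ Q ∈ B, ((N₀ / μ Q : ℕ) : ℝ) * (x Q).ld γ ≤ ∑ Q ∈ B, (N₀ : ℝ) * (1 / μ Q) := by
        refine Finset.sum_le_sum fun Q hQ => ?_
        rw [hcast Q hQ]
        have hp : (0 : ℝ) ≤ N₀ / μ Q := by positivity
        calc (N₀ : ℝ) / μ Q * (x Q).ld γ ≤ N₀ / μ Q * 1 :=
              mul_le_mul_of_nonneg_left (hxl Q) hp
          _ = N₀ * (1 / μ Q) := by ring
      rw [← Finset.mul_sum] at h5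
      have h6 : ∑ Q ∈ B, (1 - 1 / (μ Q : ℝ)) = B.card - ∑ Q ∈ B, (1 / (μ Q : ℝ)) := by
        rw [Finset.sum_sub_distrib]
        simp
      rw [h6]
      nlinarith
    set d : ℚ := (D : ℚ) / N₀ with hd
    have hN₀Q : (0 : ℚ) < N₀ := by exact_mod_cast hN₀pos
    have hd0 : 0 < d := by
      have : (0 : ℚ) < D := by exact_mod_cast hD
      positivity
    have hd1 : d < 2 - ∑ Q ∈ B, (1 - 1 / (μ Q : ℚ)) := by
      rw [hd, div_lt_iff₀ hN₀Q]
      have : ((D : ℚ) : ℝ) < (((2 - ∑ Q ∈ B, (1 - 1 / (μ Q : ℚ))) * N₀ : ℚ) : ℝ) := by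
        push_cast
        linarith
      exact_mod_cast this
    have hd2 : ∀ N : ℕ, (∀ Q ∈ B, μ Q ∣ N) → ∃ t : ℤ, d * N = t := by
      intro N hN
      refine ⟨∑ i, wN N i * c i, ?_⟩
      have h1 : ∀ i, (N₀ : ℤ) * wN N i = N * wN N₀ i := by
        intro i
        simp only [hwN, Finset.mul_sum]
        refine Finset.sum_congr rfl fun Q hQ => ?_
        obtain ⟨a, ha⟩ := hN Q hQ
        obtain ⟨b, hb⟩ := hN₀d Q hQ
        have hμp : 0 < μ Q := hμ1 Q
        have e1 : N / μ Q = a := by rw [ha, Nat.mul_div_cancel_left a hμp]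
        have e2 : N₀ / μ Q = b := by rw [hb, Nat.mul_div_cancel_left b hμp]
        rw [e1, e2]
        have e3 : (N₀ : ℤ) = μ Q * b := by exact_mod_cast hb
        have e4 : (N : ℤ) = μ Q * a := by exact_mod_cast ha
        rw [e3, e4]
        ring
      have h2 : (N₀ : ℤ) * ∑ i, wN N i * c i = D * N := by
        calc (N₀ : ℤ) * ∑ i, wN N i * c i = ∑ i, ((N₀ : ℤ) * wN N i) * c i := by
              rw [Finset.mul_sum]
              exact Finset.sum_congr rfl fun i _ => by ring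
          _ = ∑ i, (D * N : ℤ) * (e i * c i) := by
              refine Finset.sum_congr rfl fun i _ => ?_
              rw [h1 i, hwe i]
              ring
          _ = D * N := by rw [← Finset.mul_sum, hec, mul_one]
      have h3 : ((N₀ : ℤ) : ℚ) * ((∑ i, wN N i * c i : ℤ) : ℚ) = D * N := by
        exact_mod_cast h2
      rw [hd, div_mul_eq_mul_div, ← h3]
      push_cast
      field_simp
    obtain ⟨j, r, Qs, ν, hQs, _, hdvd, hht, hν, htab⟩ :=
      Pool.Agent.MP_f23696_ag.Table.table (F := B) (μ := μ) (P := V.P) (Q₁ := Q₀) (n := V.n)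
        hVB hQV hVn hμ1 hμF d hd0 hd1 hd2
    set cQ : Pl k F → ℕ := fun Q => ν Q / μ Q with hcQ
    have hcQμ : ∀ Q ∈ B, cQ Q * (x Q).n = ν Q := by
      intro Q hQ
      rw [← hμB Q hQ]
      exact Nat.div_mul_cancel (hdvd Q)
    set X : Pl k F → HV k F m := fun Q =>
      if Q = V.P then add V (mul (cQ Q) (x Q)) else mul (cQ Q) (x Q) with hX
    have hXP : ∀ Q ∈ B, (X Q).P = Q := by
      intro Q _
      by_cases h : Q = V.P
      · simp only [hX, h, if_true]; rfl
      · simp only [hX, h, if_false]; exact hxP Q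
    have hXn : ∀ Q ∈ B, (X Q).n = j + (if Q = Qs then r else 0) := by
      intro Q hQ
      rw [← hht Q]
      by_cases h : Q = V.P
      · simp only [hX, if_pos h]
        change V.n + cQ Q * (x Q).n = _
        rw [hcQμ Q hQ]
        ring
      · simp only [hX, if_neg h]
        change cQ Q * (x Q).n = _
        rw [hcQμ Q hQ]
        ring
    have hXval : ∀ Q g t, (X Q).val g t =
        cQ Q * (x Q).val g t + (if Q = V.P then V.val g t else 0) := by
      intro Q g t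
      by_cases h : Q = V.P
      · simp only [hX, if_pos h]
        rw [add_val V _ (by change (x Q).P = V.P; rw [hxP, h]), mul_val]
        ring
      · simp only [hX, if_neg h]
        rw [mul_val]
        ring
    have hXld : ∀ Q, (X Q).ld γ =
        cQ Q * (x Q).ld γ + (if Q = V.P then V.ld γ else 0) := by
      intro Q
      by_cases h : Q = V.P
      · simp only [hX, if_pos h]
        rw [add_ld V _ (by change (x Q).P = V.P; rw [hxP, h]), mul_ld]
        ring
      · simp only [hX, if_neg h]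
        rw [mul_ld]
        ring
    have hj : ∀ Q ∈ B, Q ≠ Qs → (X Q).n = j := by
      intro Q hQ hne
      rw [hXn Q hQ, if_neg hne, add_zero]
    have hRj : j ≤ (X Qs).n := by
      rw [hXn Qs hQs]
      exact Nat.le_add_right _ _
    have hle : ∀ g t, A g t → V.val g t + ∑ Q ∈ B, (cQ Q : ℤ) * (x Q).val g t ≤
        (sumHV B X Qs j).val g t := by
      intro g t hgt
      refine le_trans (le_of_eq ?_) (sum_le A γ B hB X Qs j hQs hXP hj hRj g t (hA0 g t hgt) hgt)
      simp only [hXval, Finset.sum_add_distrib, Finset.sum_ite_eq', hVB, if_true]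
      ring
    refine ⟨sumHV B X Qs j, ?_, ?_, ?_, ?_⟩
    · intro g t hgt
      refine le_trans ?_ (hle g t hgt)
      have : 0 ≤ ∑ Q ∈ B, (cQ Q : ℤ) * (x Q).val g t :=
        Finset.sum_nonneg fun Q _ => mul_nonneg (by positivity) (hxA Q g t hgt)
      linarith
    · intro g t hgt
      refine sum_S B X Qs j hQs hXP hj hRj g t (hA0 g t (hSA g t hgt)) (hSB g t hgt) ?_
      intro Q _
      rw [hXval, hxS Q g t hgt, hVS g t hgt]
      simp
    · refine lt_of_lt_of_le ?_ (hle f u hf)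
      have h1 : 0 < cQ Q₀ := by
        rcases Nat.eq_zero_or_pos (cQ Q₀) with h | h
        · have := hcQμ Q₀ hQ₀
          rw [h, zero_mul] at this
          omega
        · exact h
      have h2 : (cQ Q₀ : ℤ) * (x Q₀).val f u ≤ ∑ Q ∈ B, (cQ Q : ℤ) * (x Q).val f u :=
        Finset.single_le_sum (f := fun Q => (cQ Q : ℤ) * (x Q).val f u)
          (fun Q _ => mul_nonneg (by positivity) (hxA Q f u hf)) hQ₀
      have h3 : 0 < (cQ Q₀ : ℤ) * (x Q₀).val f u := mul_pos (by exact_mod_cast h1) hf0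
      have h4 := hVA f u hf
      linarith
    · refine le_trans (sum_ld A γ B hB X Qs j hQs hXP hj hRj) ?_
      simp only [hXld, Finset.sum_add_distrib, Finset.sum_ite_eq', hVB, if_true]
      have h1 : ∑ Q ∈ B, (cQ Q : ℝ) * (x Q).ld γ ≤ ∑ Q ∈ B, (cQ Q : ℝ) := by
        refine Finset.sum_le_sum fun Q _ => ?_
        calc (cQ Q : ℝ) * (x Q).ld γ ≤ cQ Q * 1 :=
              mul_le_mul_of_nonneg_left (hxl Q) (by positivity)
          _ = cQ Q := mul_one _
      have h2 : ∑ Q ∈ B, (cQ Q : ℝ) = ∑ Q ∈ B, ((ν Q : ℝ) / μ Q) := by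
        refine Finset.sum_congr rfl fun Q _ => ?_
        rw [hcQ]
        rw [Nat.cast_div (hdvd Q)]
        have := hμ1 Q
        positivity
      have h3 : ∑ Q ∈ B, ((ν Q : ℝ) / μ Q) ≤ 1 + j * ((B.card : ℝ) - 2) := by
        have : ((∑ Q ∈ B, ((ν Q : ℚ) / μ Q) : ℚ) : ℝ) ≤ ((1 + j * ((B.card : ℚ) - 2) : ℚ) : ℝ) := by
          exact_mod_cast htab
        push_cast at this
        exact this
      linarith

end STEP

end

end Pool.Agent.MLD.C
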