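import Pool.Agent.Lib.MP_f23696_ag.C.Ctx
import Pool.Agent.Lib.MP_f23696_ag.DefsC

/-!
# The bridge from the transcendence basis to the internal vocabulary over a curve (module BRG)
-/

namespace Pool.Agent.MLD.C

open scoped Classical
noncomputable section

universe u v w

namespace Brg

variable {k : Type u} [Field k] {m : ℕ} {K : Type v} [Field K] [Algebra k K]

/-- a derivation restricts to `k(t)` -/
theorem der_adjoin (D : Derivation k K K) (t : K) (ht : D t ∈ IntermediateField.adjoin k {t})
    (f : K) (hf : f ∈ IntermediateField.adjoin k {t}) :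
    D f ∈ IntermediateField.adjoin k {t} := by
  induction hf using IntermediateField.adjoin_induction with
  | mem x hx =>
    rw [Set.mem_singleton_iff] at hx
    subst hx
    exact ht
  | algebraMap x => rw [D.map_algebraMap]; exact zero_mem _
  | add x y hx hy h1 h2 => rw [map_add]; exact add_mem h1 h2
  | inv x hx h =>
    rw [D.leibniz_inv, smul_eq_mul]
    exact mul_mem (neg_mem (pow_mem (inv_mem hx) _)) h
  | mul x y hx hy h1 h2 =>
    rw [D.leibniz]
    exact add_mem (mul_mem hx h2) (mul_mem hy h1)

/-- the value of a derivation at an algebraic element -/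
theorem der_aeval (K₀ E : IntermediateField k K) (hE : E ≤ K₀)
    (D : Derivation k K K) (hD : ∀ f ∈ E, D f ∈ K₀) (g : K) (hg : g ∈ K₀) (p : Polynomial E) :
    ∃ r ∈ K₀, D (Polynomial.aeval g p) =
      r + Polynomial.aeval g (Polynomial.derivative p) * D g := by
  induction p using Polynomial.induction_on' with
  | add p q hp hq =>
    obtain ⟨r, hr, h1⟩ := hp
    obtain ⟨s, hs, h2⟩ := hq
    refine ⟨r + s, add_mem hr hs, ?_⟩
    rw [map_add, map_add, h1, h2, Polynomial.derivative_add, map_add]
    ring
  | monomial n c =>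
    refine ⟨g ^ n * D c, mul_mem (pow_mem hg n) (hD c c.2), ?_⟩
    rw [Polynomial.derivative_monomial, Polynomial.aeval_monomial, Polynomial.aeval_monomial,
      D.leibniz, D.leibniz_pow]
    simp only [smul_eq_mul, nsmul_eq_mul, map_mul, map_natCast, IntermediateField.algebraMap_apply]
    ring

theorem der_alg [CharZero k] (K₀ E : IntermediateField k K) (hE : E ≤ K₀)
    (D : Derivation k K K) (hD : ∀ f ∈ E, D f ∈ K₀) (g : K) (hg : g ∈ K₀) (ha : IsAlgebraic E g) :
    D g ∈ K₀ := by
  have hint : IsIntegral E g := ha.isIntegral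
  obtain ⟨r, hr, h1⟩ := der_aeval K₀ E hE D hD g hg (minpoly E g)
  rw [minpoly.aeval, map_zero] at h1
  haveI : CharZero E := charZero_of_injective_algebraMap (algebraMap k E).injective
  have hsep : (minpoly E g).Separable := (minpoly.irreducible hint).separable
  have h2 : Polynomial.aeval g (Polynomial.derivative (minpoly E g)) ≠ 0 :=
    hsep.aeval_derivative_ne_zero (minpoly.aeval E g)
  have h3 : D g = -r / Polynomial.aeval g (Polynomial.derivative (minpoly E g)) := by
    rw [eq_div_iff h2]
    linear_combination -h1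
  rw [h3]
  refine div_mem (neg_mem hr) ?_
  have h4 : ∀ p : Polynomial E, Polynomial.aeval g p ∈ K₀ := by
    intro p
    rw [Polynomial.aeval_eq_sum_range]
    refine sum_mem fun i _ => ?_
    rw [Algebra.smul_def]
    exact mul_mem (hE (p.coeff i).2) (pow_mem hg i)
  exact h4 _

/-- the restriction of a derivation to `K₀` -/
def res (K₀ : IntermediateField k K) (D : Derivation k K K) (h : ∀ f ∈ K₀, D f ∈ K₀) :
    Derivation k K₀ K₀ where
  toFun f := ⟨D f, h f f.2⟩
  map_add' a b := by
    apply Subtype.ext
    simp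
  map_smul' a b := by
    apply Subtype.ext
    simp
  map_one_eq_zero' := by
    apply Subtype.ext
    simp
  leibniz' a b := by
    apply Subtype.ext
    simp

theorem res_apply (K₀ : IntermediateField k K) (D : Derivation k K K) (h : ∀ f ∈ K₀, D f ∈ K₀)
    (f : K₀) : ((res K₀ D h f : K₀) : K) = D f := rfl

theorem alg_sub (K₀ : IntermediateField k K) (z : K₀) (g : K₀)
    (h : IsAlgebraic (IntermediateField.adjoin k {(z : K)}) (g : K)) :
    IsAlgebraic (IntermediateField.adjoin k {z}) g := by
  have he : (IntermediateField.adjoin k {z}).map K₀.val = IntermediateField.adjoin k {(z : K)} := by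
    rw [IntermediateField.adjoin_map]
    simp
  let f : IntermediateField.adjoin k {z} ≃ₐ[k] IntermediateField.adjoin k {(z : K)} :=
    ((IntermediateField.adjoin k {z}).equivMap K₀.val).trans (IntermediateField.equivOfEq he)
  refine IsAlgebraic.of_ringHom_of_comp_eq (f := f.toRingHom) (g := K₀.val.toRingHom) h
    f.surjective Subtype.val_injective ?_
  ext a
  rfl

theorem fin (K₀ : IntermediateField k K) (hfg : K₀.FG) (z : K₀)
    (halg : ∀ g : K₀, IsAlgebraic (IntermediateField.adjoin k {z}) g) :
    FiniteDimensional (IntermediateField.adjoin k {z}) K₀ := by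
  have h1 : Algebra.EssFiniteType k K₀ := IntermediateField.essFiniteType_iff.mpr hfg
  have h2 : (⊤ : IntermediateField k K₀).FG := IntermediateField.fg_top_iff.mpr h1
  have h3 : (⊤ : IntermediateField (IntermediateField.adjoin k {z}) K₀).FG := by
    apply IntermediateField.FG.of_restrictScalars (K := k)
    rwa [IntermediateField.restrictScalars_top]
  obtain ⟨s, hs⟩ := h3
  have h4 : FiniteDimensional (IntermediateField.adjoin k {z})
      (IntermediateField.adjoin (IntermediateField.adjoin k {z}) (s : Set K₀)) :=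
    IntermediateField.finiteDimensional_adjoin fun x _ => (halg x).isIntegral
  rw [hs] at h4
  exact IntermediateField.topEquiv.toLinearEquiv.finiteDimensional

theorem algind (K₀ : IntermediateField k K) (y : Fin (m + 1) → K)
    (hind : AlgebraicIndependent k y) (hy0 : y 0 ∈ K₀)
    (halg : ∀ g ∈ K₀, IsAlgebraic (IntermediateField.adjoin k {y 0}) g) :
    AlgebraicIndependent K₀ (fun i : Fin m => y i.succ) := by
  have h1 := hind.adjoin_of_disjoint (s := {0}) (t := {0}ᶜ) disjoint_compl_right
  rw [Set.image_singleton] at h1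
  have h2 : AlgebraicIndependent (Algebra.adjoin k {y 0}) (fun i : Fin m => y i.succ) :=
    h1.comp (fun i : Fin m => ⟨i.succ, by simp [Fin.succ_ne_zero]⟩) (by
      intro a b hab
      have := congrArg Subtype.val hab
      exact Fin.succ_injective _ this)
  have h0 : Algebra.adjoin k {y 0} ≤ K₀.toSubalgebra := by
    rw [Algebra.adjoin_le_iff, Set.singleton_subset_iff]
    exact hy0
  letI : Algebra (Algebra.adjoin k {y 0}) K₀ := (Subalgebra.inclusion h0).toAlgebra
  haveI : IsScalarTower (Algebra.adjoin k {y 0}) K₀ K :=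
    IsScalarTower.of_algebraMap_eq fun x => rfl
  haveI : Algebra.IsAlgebraic (Algebra.adjoin k {y 0}) K₀ := by
    constructor
    intro g
    have h3 := IntermediateField.isAlgebraic_adjoin_iff.mp (halg g g.2)
    rw [← isAlgebraic_algHom_iff (IsScalarTower.toAlgHom (Algebra.adjoin k {y 0}) K₀ K)
      Subtype.val_injective]
    exact h3
  exact h2.extendScalars K₀

theorem li (K₀ : IntermediateField k K) (x : Fin m → K) (hx : AlgebraicIndependent K₀ x)
    (s : Finset (Fin m → ℤ)) (g : (Fin m → ℤ) → K₀)
    (h : ∑ u ∈ s, (g u : K) * ∏ i, x i ^ u i = 0) : ∀ u ∈ s, g u = 0 := by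
  set N : ℕ := ∑ u ∈ s, ∑ i, (u i).natAbs with hN
  have hN1 : ∀ u ∈ s, ∀ i, 0 ≤ u i + N := by
    intro u hu i
    have h1 : (u i).natAbs ≤ ∑ i, (u i).natAbs :=
      Finset.single_le_sum (f := fun i => (u i).natAbs) (fun _ _ => Nat.zero_le _)
        (Finset.mem_univ i)
    have h2 : ∑ i, (u i).natAbs ≤ N :=
      Finset.single_le_sum (f := fun u : Fin m → ℤ => ∑ i, (u i).natAbs)
        (fun _ _ => Nat.zero_le _) hu
    omega
  set e : (Fin m → ℤ) → (Fin m →₀ ℕ) := fun u =>
    Finsupp.equivFunOnFinite.symm (fun i => (u i + N).toNat) with he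
  have he1 : ∀ u i, e u i = (u i + N).toNat := fun u i => rfl
  have hy : ∀ i, x i ≠ 0 := fun i => hx.ne_zero i
  have key : ∑ u ∈ s, MvPolynomial.monomial (e u) (g u) = 0 := by
    have hinj := hx
    rw [AlgebraicIndependent] at hinj
    apply hinj
    rw [map_zero, map_sum]
    have h2 : (∏ i : Fin m, x i ^ N) * (∑ u ∈ s, (g u : K) * ∏ i, x i ^ u i) = 0 := by
      rw [h, mul_zero]
    rw [← h2, Finset.mul_sum]
    apply Finset.sum_congr rfl
    intro u hu
    rw [MvPolynomial.aeval_monomial, Finsupp.prod_fintype _ _ (by simp)]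
    have e2 : ∏ i, x i ^ (e u i) = (∏ i : Fin m, x i ^ N) * ∏ i, x i ^ u i := by
      rw [← Finset.prod_mul_distrib]
      apply Finset.prod_congr rfl
      intro i _
      rw [he1, ← zpow_natCast, Int.toNat_of_nonneg (hN1 u hu i),
        zpow_add₀ (hy _), zpow_natCast, mul_comm]
    rw [e2, IntermediateField.algebraMap_apply]
    ring
  intro u hu
  have h3 := congrArg (MvPolynomial.coeff (e u)) key
  rw [MvPolynomial.coeff_sum, MvPolynomial.coeff_zero, Finset.sum_eq_single_of_mem u hu] at h3
  · rwa [MvPolynomial.coeff_monomial, if_pos rfl] at h3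
  · intro v hv hne
    rw [MvPolynomial.coeff_monomial, if_neg]
    intro h4
    apply hne
    funext i
    have h5 := congrArg (fun f => f i) h4
    simp only [he1] at h5
    have h6 := hN1 v hv i
    have h7 := hN1 u hu i
    omega

end Brg

variable {k : Type u} {K : Type v} [Field k] [CharZero k] [Field K] [Algebra k K] {m : ℕ}

theorem bridge (K₀ : IntermediateField k K) (y : Fin (m + 1) → K)
    (hind : AlgebraicIndependent k y) (hy0 : y 0 ∈ K₀) (hfg : K₀.FG)
    (halg : ∀ g ∈ K₀, IsAlgebraic (IntermediateField.adjoin k {y 0}) g)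
    (hgen : IntermediateField.adjoin k ((K₀ : Set K) ∪ Set.range y) = ⊤)
    (D : Fin (m + 1) → Derivation k K K) (hD : ∀ i j, D i (y j) = if i = j then 1 else 0) :
    ∃ (_ : Cv k K₀) (C : Ctx k K₀ K m), C.der = D ∧ (∀ i, C.x i = y i.succ) ∧
      ∀ f : K, IsSemiInvC K₀ y f ↔ ∃ g u, f = C.mon g u := by
  have hle : IntermediateField.adjoin k {y 0} ≤ K₀ := by
    rw [IntermediateField.adjoin_le_iff, Set.singleton_subset_iff]
    exact hy0
  have hD0 : ∀ f ∈ K₀, D 0 f ∈ K₀ := by
    intro f hf
    refine Brg.der_alg K₀ _ hle (D 0) (fun a ha => hle (Brg.der_adjoin (D 0) (y 0) ?_ a ha)) f hf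
      (halg f hf)
    rw [hD, if_pos rfl]
    exact one_mem _
  have hDS : ∀ (j : Fin m) (f : K), f ∈ K₀ → D j.succ f = 0 := by
    intro j f hf
    have h1 : D j.succ (y 0) = 0 := by rw [hD, if_neg (Fin.succ_ne_zero j)]
    have h2 : ∀ a ∈ IntermediateField.adjoin k {y 0}, D j.succ a = 0 := by
      intro a ha
      induction ha using IntermediateField.adjoin_induction with
      | mem x hx =>
        rw [Set.mem_singleton_iff] at hx
        subst hx
        exact h1
      | algebraMap x => rw [Derivation.map_algebraMap]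
      | add x y hx hy h3 h4 => rw [map_add, h3, h4, add_zero]
      | inv x hx h3 => rw [Derivation.leibniz_inv, h3, smul_zero]
      | mul x y hx hy h3 h4 => rw [Derivation.leibniz, h3, h4, smul_zero, smul_zero, add_zero]
    -- use the differential of the minimal polynomial
    have h3 : ∀ p : Polynomial (IntermediateField.adjoin k {y 0}),
        D j.succ (Polynomial.aeval f p) =
          Polynomial.aeval f (Polynomial.derivative p) * D j.succ f := by
      intro p
      induction p using Polynomial.induction_on' with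
      | add p q hp hq =>
        rw [map_add, map_add, hp, hq, Polynomial.derivative_add, map_add]
        ring
      | monomial n c =>
        rw [Polynomial.derivative_monomial, Polynomial.aeval_monomial, Polynomial.aeval_monomial,
          Derivation.leibniz, Derivation.leibniz_pow, IntermediateField.algebraMap_apply,
          h2 _ c.2]
        simp only [smul_eq_mul, nsmul_eq_mul, map_mul, map_natCast,
          IntermediateField.algebraMap_apply]
        ring
    have h4 := h3 (minpoly _ f)
    rw [minpoly.aeval, map_zero] at h4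
    haveI : CharZero (IntermediateField.adjoin k {y 0}) :=
      charZero_of_injective_algebraMap
        (algebraMap k (IntermediateField.adjoin k {y 0})).injective
    have hint : IsIntegral (IntermediateField.adjoin k {y 0}) f := (halg f hf).isIntegral
    have hsep : (minpoly (IntermediateField.adjoin k {y 0}) f).Separable :=
      (minpoly.irreducible hint).separable
    exact (mul_eq_zero.mp h4.symm).resolve_left
      (hsep.aeval_derivative_ne_zero (minpoly.aeval _ f))
  have ht : Transcendental k (⟨y 0, hy0⟩ : K₀) := by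
    have h1 : Transcendental k (y 0) := hind.transcendental 0
    intro h2
    apply h1
    exact h2.algHom K₀.val
  have halg' : ∀ g : K₀, IsAlgebraic (IntermediateField.adjoin k {(⟨y 0, hy0⟩ : K₀)}) g :=
    fun g => Brg.alg_sub K₀ ⟨y 0, hy0⟩ g (halg g g.2)
  letI cv : Cv k K₀ :=
    { z := ⟨y 0, hy0⟩
      tr := ht
      fin := Brg.fin K₀ hfg _ halg'
      d := Brg.res K₀ (D 0) hD0
      dz := by
        apply Subtype.ext
        rw [Brg.res_apply, hD, if_pos rfl]
        rfl }
  have hai := Brg.algind K₀ y hind hy0 halg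
  refine ⟨cv, ⟨K₀.val, fun i => y i.succ, fun i => hind.ne_zero _, ?_, ?_, D, ?_, ?_, ?_, ?_⟩,
    rfl, fun _ => rfl, ?_⟩
  · intro s g h
    exact Brg.li K₀ _ hai s g h
  · rw [← hgen]
    apply le_antisymm
    · rw [IntermediateField.adjoin_le_iff]
      rintro f (⟨g, rfl⟩ | ⟨i, rfl⟩)
      · exact IntermediateField.subset_adjoin _ _ (Or.inl g.2)
      · exact IntermediateField.subset_adjoin _ _ (Or.inr ⟨i.succ, rfl⟩)
    · rw [IntermediateField.adjoin_le_iff]
      rintro f (hf | ⟨i, rfl⟩)
      · exact IntermediateField.subset_adjoin _ _ (Or.inl ⟨⟨f, hf⟩, rfl⟩)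
      · refine Fin.cases ?_ (fun i => ?_) i
        · exact IntermediateField.subset_adjoin _ _ (Or.inl ⟨⟨y 0, hy0⟩, rfl⟩)
        · exact IntermediateField.subset_adjoin _ _ (Or.inr ⟨i, rfl⟩)
  · intro g
    rfl
  · intro i
    rw [hD, if_neg (Fin.succ_ne_zero i).symm]
  · intro j g
    exact hDS j g g.2
  · intro j i
    rw [hD]
    simp only [Fin.succ_inj]
    by_cases h : i = j
    · rw [if_pos h, if_pos h.symm]
    · rw [if_neg h, if_neg (fun h' => h h'.symm)]
  · intro f
    rw [IsSemiInvC]
    constructor
    · rintro ⟨g, hg, w, rfl⟩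
      exact ⟨⟨g, hg⟩, w, rfl⟩
    · rintro ⟨g, u, rfl⟩
      exact ⟨g, g.2, u, rfl⟩

end

end Pool.Agent.MLD.C
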