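import Pool.Agent.Lib.MP_f23696_ag.C.Ctx

/-!
Formal properties of the places of a function field (module PLA of the project LSC-C).
-/

namespace Pool.Agent.MLD.C

open scoped Classical
noncomputable section

universe u v w w'

section ORD
variable {k : Type u} [Field k] {F : Type v} [Field F] [Algebra k F]

theorem pl_ext {P P' : Pl k F} (h : ∀ g, ordAt P g = ordAt P' g) : P = P' :=
  Pl.ext (funext h)

theorem ordAt_mul (P : Pl k F) {g h : F} (hg : g ≠ 0) (hh : h ≠ 0) :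
    ordAt P (g * h) = ordAt P g + ordAt P h := P.ord_mul g h hg hh

theorem ordAt_add (P : Pl k F) {g h : F} (hg : g ≠ 0) (hh : h ≠ 0) (hs : g + h ≠ 0) :
    min (ordAt P g) (ordAt P h) ≤ ordAt P (g + h) := P.ord_add g h hg hh hs

theorem ordAt_zero (P : Pl k F) : ordAt P (0 : F) = 0 := P.ord_zero

theorem ordAt_C (P : Pl k F) (c : k) : ordAt P (algebraMap k F c) = 0 := by
  by_cases hc : c = 0
  · rw [hc, map_zero]; exact P.ord_zero
  · exact P.ord_algebraMap c hc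

namespace PLA

theorem o_one {o : F → ℤ} (hm : ∀ a b : F, a ≠ 0 → b ≠ 0 → o (a * b) = o a + o b) : o 1 = 0 := by
  have := hm 1 1 one_ne_zero one_ne_zero
  rw [mul_one] at this
  omega

theorem o_inv {o : F → ℤ} (hm : ∀ a b : F, a ≠ 0 → b ≠ 0 → o (a * b) = o a + o b) {a : F}
    (ha : a ≠ 0) : o a⁻¹ = -o a := by
  have h := hm a a⁻¹ ha (inv_ne_zero ha)
  rw [mul_inv_cancel₀ ha, o_one hm] at h
  omega

theorem o_pow {o : F → ℤ} (hm : ∀ a b : F, a ≠ 0 → b ≠ 0 → o (a * b) = o a + o b) {a : F}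
    (ha : a ≠ 0) (n : ℕ) : o (a ^ n) = n * o a := by
  induction n with
  | zero => simp [o_one hm]
  | succ n ih =>
    rw [pow_succ, hm _ _ (pow_ne_zero n ha) ha, ih]
    push_cast
    ring

theorem o_zpow {o : F → ℤ} (hm : ∀ a b : F, a ≠ 0 → b ≠ 0 → o (a * b) = o a + o b) {a : F}
    (ha : a ≠ 0) (n : ℤ) : o (a ^ n) = n * o a := by
  obtain ⟨m, rfl | rfl⟩ := n.eq_nat_or_neg
  · rw [zpow_natCast, o_pow hm ha]
  · rw [zpow_neg, zpow_natCast, o_inv hm (pow_ne_zero m ha), o_pow hm ha]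
    ring

end PLA

theorem ordAt_inv (P : Pl k F) (g : F) : ordAt P g⁻¹ = -ordAt P g := by
  by_cases hg : g = 0
  · rw [hg, inv_zero, ordAt_zero, neg_zero]
  · exact PLA.o_inv (o := ordAt P) (fun a b ha hb => ordAt_mul P ha hb) hg

/-- the place of a nontrivial discrete valuation with values in `ℤ` (not normalised) -/
theorem exists_place {o : F → ℤ} (hm : ∀ a b : F, a ≠ 0 → b ≠ 0 → o (a * b) = o a + o b)
    (ha : ∀ a b : F, a ≠ 0 → b ≠ 0 → a + b ≠ 0 → min (o a) (o b) ≤ o (a + b))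
    (hk : ∀ c : k, c ≠ 0 → o (algebraMap k F c) = 0) (hn : ∃ a : F, a ≠ 0 ∧ o a ≠ 0) :
    ∃ (P : Pl k F) (n : ℕ), 1 ≤ n ∧ ∀ g, g ≠ 0 → o g = n * ordAt P g := by
  have hex : ∃ n : ℕ, 0 < n ∧ ∃ a : F, a ≠ 0 ∧ o a = n := by
    obtain ⟨a, ha0, ha1⟩ := hn
    rcases lt_or_gt_of_ne ha1 with h | h
    · exact ⟨(-o a).toNat, by omega, a⁻¹, inv_ne_zero ha0, by rw [PLA.o_inv hm ha0]; omega⟩
    · exact ⟨(o a).toNat, by omega, a, ha0, by omega⟩
  obtain ⟨hn0, t, ht, hot⟩ := Nat.find_spec hex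
  set n : ℕ := Nat.find hex with hndef
  have hmin : ∀ j : ℕ, 0 < j → (∃ a : F, a ≠ 0 ∧ o a = j) → n ≤ j := fun j hj hja =>
    Nat.find_min' hex ⟨hj, hja⟩
  have hnZ : (0 : ℤ) < n := by exact_mod_cast hn0
  have hdvd : ∀ g : F, g ≠ 0 → (n : ℤ) ∣ o g := by
    intro g hg
    have h1 : o (g * t ^ (-(o g / n))) = o g % n := by
      rw [hm _ _ hg (zpow_ne_zero _ ht), PLA.o_zpow hm ht, hot]
      have := Int.emod_add_mul_ediv (o g) n
      linarith [mul_comm (n : ℤ) (o g / n)]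
    have h2 : 0 ≤ o g % n := Int.emod_nonneg _ hnZ.ne'
    have h3 : o g % n < n := Int.emod_lt_of_pos _ hnZ
    have h4 : o g % n = 0 := by
      by_contra hne
      have := hmin (o g % n).toNat (by omega)
        ⟨_, mul_ne_zero hg (zpow_ne_zero _ ht), by rw [h1]; omega⟩
      omega
    exact Int.dvd_of_emod_eq_zero h4
  have hdiv : ∀ g : F, g ≠ 0 → o g = n * (o g / n) := fun g hg =>
    (Int.mul_ediv_cancel' (hdvd g hg)).symm
  let q : F → ℤ := fun g => if g = 0 then 0 else o g / n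
  have hq : ∀ g : F, g ≠ 0 → q g = o g / n := fun g hg => if_neg hg
  have hq' : ∀ g : F, g ≠ 0 → o g = n * q g := fun g hg => by rw [hq g hg]; exact hdiv g hg
  refine ⟨{ ord := q
            ord_mul := ?_
            ord_add := ?_
            ord_algebraMap := ?_
            exists_ord_eq_one := ?_
            ord_zero := if_pos rfl }, n, hn0, fun g hg => hq' g hg⟩
  · intro a b ha0 hb0
    have h1 := hm a b ha0 hb0
    rw [hq' _ (mul_ne_zero ha0 hb0), hq' _ ha0, hq' _ hb0, ← mul_add] at h1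
    exact mul_left_cancel₀ hnZ.ne' h1
  · intro a b ha0 hb0 hab
    have h1 := ha a b ha0 hb0 hab
    rw [hq' _ hab, hq' _ ha0, hq' _ hb0] at h1
    rcases min_le_iff.1 h1 with h | h
    · exact min_le_iff.2 (Or.inl (le_of_mul_le_mul_left h hnZ))
    · exact min_le_iff.2 (Or.inr (le_of_mul_le_mul_left h hnZ))
  · intro c hc
    have h0 : algebraMap k F c ≠ 0 := (map_ne_zero _).2 hc
    have h1 := hq' _ h0
    rw [hk c hc] at h1
    rcases mul_eq_zero.1 h1.symm with h | h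
    · exact absurd h hnZ.ne'
    · exact h
  · refine ⟨t, ht, ?_⟩
    have h1 := hq' _ ht
    rw [hot] at h1
    have h2 : (n : ℤ) * q t = n * 1 := by rw [← h1, mul_one]
    exact mul_left_cancel₀ hnZ.ne' h2

end ORD

end

end Pool.Agent.MLD.C
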