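import Pool.Agent.Lib.MP_f23696_ag.C.Pla

/-!
Nonconstant elements of a function field of one variable, integrality, residue field
(module PLB of the project LSC-C).
-/

namespace Pool.Agent.MLD.C

open scoped Classical
noncomputable section

universe u v w w'

section CRV
variable {k : Type u} [Field k] [IsAlgClosed k] {F : Type v} [Field F] [Algebra k F] [Cv k F]

namespace PLB

open IntermediateField.algebraAdjoinAdjoin in
theorem trdeg_eq (k : Type u) [Field k] [IsAlgClosed k] (F : Type v) [Field F] [Algebra k F]
    [Cv k F] : Algebra.trdeg k F ≤ 1 := by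
  have hfin : FiniteDimensional (IntermediateField.adjoin k {Cv.z k (F := F)}) F := Cv.fin
  set S : Set F := {Cv.z k (F := F)} with hS
  have halg : Algebra.IsAlgebraic (IntermediateField.adjoin k S) F := inferInstance
  have h2 : Algebra.IsAlgebraic (Algebra.adjoin k S) F := by
    exact (IsFractionRing.comap_isAlgebraic_iff (A := Algebra.adjoin k S)
      (K := IntermediateField.adjoin k S) (C := F)).2 halg
  have h3 := Algebra.IsAlgebraic.trdeg_le_cardinalMk k S
  rwa [hS, Cardinal.mk_singleton] at h3

theorem essFin (k : Type u) [Field k] [IsAlgClosed k] (F : Type v) [Field F] [Algebra k F]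
    [Cv k F] : Algebra.EssFiniteType k F := by
  have hfin : FiniteDimensional (IntermediateField.adjoin k {Cv.z k (F := F)}) F := Cv.fin
  have h1 : Algebra.EssFiniteType k (IntermediateField.adjoin k {Cv.z k (F := F)}) :=
    IntermediateField.essFiniteType_iff.2 ⟨{Cv.z k (F := F)}, by simp⟩
  have h2 : Algebra.EssFiniteType (IntermediateField.adjoin k {Cv.z k (F := F)}) F :=
    inferInstance
  exact Algebra.EssFiniteType.comp k (IntermediateField.adjoin k {Cv.z k (F := F)}) F

omit [Cv k F] in
theorem transc (g : F) (hg : ∀ c : k, g ≠ algebraMap k F c) : Transcendental k g := by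
  intro h
  have hi : IsIntegral k g := h.isIntegral
  have h1 : (minpoly k g).degree = 1 :=
    IsAlgClosed.degree_eq_one_of_irreducible k (minpoly.irreducible hi)
  obtain ⟨c, hc⟩ := minpoly.mem_range_of_degree_eq_one k g h1
  exact hg c hc.symm

end PLB

/-- an element that is not a constant is transcendental and `F` is finite over `k(g)` (PLB) -/
theorem nonconst (g : F) (hg : ∀ c : k, g ≠ algebraMap k F c) :
    Transcendental k g ∧ FiniteDimensional (IntermediateField.adjoin k {g}) F := by
  have ht : Transcendental k g := PLB.transc g hg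
  refine ⟨ht, ?_⟩
  have hai : AlgebraicIndependent k ![g] :=
    algebraicIndependent_iff_transcendental.2 ht
  have hb : IsTranscendenceBasis k ![g] := by
    apply hai.isTranscendenceBasis_of_lift_trdeg_le_of_finite
    have := PLB.trdeg_eq k F
    simpa using this
  have halg := hb.isAlgebraic_field
  have hr : Set.range ![g] = {g} := by simp
  rw [hr] at halg
  have hess : Algebra.EssFiniteType (IntermediateField.adjoin k {g}) F := by
    have := PLB.essFin k F
    exact Algebra.EssFiniteType.of_comp k (IntermediateField.adjoin k {g}) F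
  exact Algebra.finite_of_essFiniteType_of_isAlgebraic

namespace PLB

omit [IsAlgClosed k] [Cv k F] in
theorem ord_pow (P : Pl k F) {a : F} (ha : a ≠ 0) (n : ℕ) :
    ordAt P (a ^ n) = n * ordAt P a :=
  PLA.o_pow (o := ordAt P) (fun _ _ ha hb => ordAt_mul P ha hb) ha n

omit [IsAlgClosed k] [Cv k F] in
/-- weak form of the ultrametric inequality: with the convention that `0` is bounded below -/
theorem sum_ge (P : Pl k F) {ι : Type*} (s : Finset ι) (f : ι → F) (m : ℤ)
    (h : ∀ i ∈ s, f i = 0 ∨ m ≤ ordAt P (f i)) :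
    ∑ i ∈ s, f i = 0 ∨ m ≤ ordAt P (∑ i ∈ s, f i) := by
  induction s using Finset.induction_on with
  | empty => left; simp
  | insert a s ha ih =>
    rw [Finset.sum_insert ha]
    have h1 := ih fun i hi => h i (Finset.mem_insert_of_mem hi)
    have h2 := h a (Finset.mem_insert_self a s)
    by_cases h0 : f a + ∑ i ∈ s, f i = 0
    · left; exact h0
    right
    by_cases hfa : f a = 0
    · rw [hfa, zero_add] at h0 ⊢
      exact h1.resolve_left h0
    by_cases hsu : ∑ i ∈ s, f i = 0
    · rw [hsu, add_zero] at h0 ⊢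
      exact h2.resolve_left h0
    exact (le_min (h2.resolve_left hfa) (h1.resolve_left hsu)).trans
      (ordAt_add P hfa hsu h0)

end PLB

omit [IsAlgClosed k] [Cv k F] in
/-- a discrete valuation that is nonnegative on `k[g]`, `g` not constant, is nonnegative on the
elements integral over `k[g]` (PLB) -/
theorem integral_nonneg (P : Pl k F) (R : Subalgebra k F) (hR : ∀ a ∈ R, 0 ≤ ordAt P a) (b : F)
    (hb : IsIntegral R b) : 0 ≤ ordAt P b := by
  by_contra hneg
  push Not at hneg
  have hb0 : b ≠ 0 := by
    rintro rfl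
    rw [ordAt_zero] at hneg
    exact lt_irrefl _ hneg
  obtain ⟨p, hp, hpb⟩ := hb
  have hpb' : b ^ p.natDegree = -∑ i ∈ Finset.range p.natDegree, (p.coeff i : F) * b ^ i := by
    rw [Polynomial.eval₂_eq_sum_range, Finset.sum_range_succ, hp.coeff_natDegree, map_one,
      one_mul] at hpb
    rw [eq_neg_iff_add_eq_zero, add_comm]
    exact hpb
  set n := p.natDegree with hn
  have hbn : b ^ n ≠ 0 := pow_ne_zero n hb0
  have hn0 : n ≠ 0 := by
    intro h0
    rw [h0, Finset.range_zero, Finset.sum_empty, neg_zero, pow_zero] at hpb'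
    exact one_ne_zero hpb'
  have hterm : ∀ i ∈ Finset.range n, -((p.coeff i : F) * b ^ i) = 0 ∨
      ((n : ℤ) - 1) * ordAt P b ≤ ordAt P (-((p.coeff i : F) * b ^ i)) := by
    intro i hi
    have hi' := Finset.mem_range.1 hi
    by_cases hc : (p.coeff i : F) = 0
    · left; rw [hc]; simp
    right
    have h1 : -((p.coeff i : F) * b ^ i) = (-(p.coeff i : F)) * b ^ i := by ring
    rw [h1, ordAt_mul P (neg_ne_zero.2 hc) (pow_ne_zero i hb0), PLB.ord_pow P hb0]
    have h2 : 0 ≤ ordAt P (-(p.coeff i : F)) := hR _ (neg_mem (p.coeff i).2)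
    have h3 : ((n : ℤ) - 1) * ordAt P b ≤ (i : ℤ) * ordAt P b := by
      apply mul_le_mul_of_nonpos_right _ hneg.le
      have : (i : ℤ) < n := by exact_mod_cast hi'
      omega
    linarith
  have hsum := PLB.sum_ge P (Finset.range n) (fun i => -((p.coeff i : F) * b ^ i)) _ hterm
  rw [Finset.sum_neg_distrib, ← hpb'] at hsum
  rcases hsum with h | h
  · exact hbn h
  · rw [PLB.ord_pow P hb0] at h
    nlinarith

namespace PLB

omit [Cv k F] in
/-- if `g` has no value then the order of every nonzero polynomial in `g` is zero -/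
theorem ord_poly (P : Pl k F) {g : F}
    (h : ∀ c : k, g ≠ algebraMap k F c ∧ ordAt P (g - algebraMap k F c) = 0)
    (p : Polynomial k) (hp : p ≠ 0) : ordAt P (Polynomial.aeval g p) = 0 := by
  have hspl := IsAlgClosed.splits p
  have hpr := hspl.eq_prod_roots
  rw [hpr]
  rw [map_mul, Polynomial.aeval_C, map_multiset_prod]
  have hl : algebraMap k F p.leadingCoeff ≠ 0 :=
    (map_ne_zero _).2 (Polynomial.leadingCoeff_ne_zero.2 hp)
  have key : ∀ s : Multiset k,
      (Multiset.map (Polynomial.aeval g)
        (Multiset.map (fun a => Polynomial.X - Polynomial.C a) s)).prod ≠ 0 ∧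
      ordAt P (Multiset.map (Polynomial.aeval g)
        (Multiset.map (fun a => Polynomial.X - Polynomial.C a) s)).prod = 0 := by
    intro s
    induction s using Multiset.induction_on with
    | empty =>
      rw [Multiset.map_zero, Multiset.map_zero, Multiset.prod_zero]
      exact ⟨one_ne_zero, by
        have := ordAt_C P (1 : k)
        rwa [map_one] at this⟩
    | cons a s ih =>
      simp only [Multiset.map_cons, Multiset.prod_cons, map_sub, Polynomial.aeval_X,
        Polynomial.aeval_C]
      have h1 : g - algebraMap k F a ≠ 0 := sub_ne_zero.2 (h a).1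
      refine ⟨mul_ne_zero h1 ih.1, ?_⟩
      rw [ordAt_mul P h1 ih.1, (h a).2, ih.2]
      rfl
  rw [ordAt_mul P hl (key _).1, ordAt_C, (key _).2]
  rfl

end PLB

/-- the residue field is `k` (PLB) -/
theorem ordAt_value (P : Pl k F) {g : F} (hg : g ≠ 0) (h : 0 ≤ ordAt P g) :
    ∃ c : k, g = algebraMap k F c ∨ 0 < ordAt P (g - algebraMap k F c) := by
  by_contra hcon
  push Not at hcon
  have hval : ∀ c : k, g ≠ algebraMap k F c ∧ ordAt P (g - algebraMap k F c) = 0 := by
    intro c
    refine ⟨(hcon c).1, le_antisymm (hcon c).2 ?_⟩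
    by_cases hc : c = 0
    · rw [hc, map_zero, sub_zero]; exact h
    have h1 : g + algebraMap k F (-c) ≠ 0 := by
      rw [map_neg, ← sub_eq_add_neg]
      exact sub_ne_zero.2 (hcon c).1
    have h2 : algebraMap k F (-c) ≠ 0 := (map_ne_zero _).2 (neg_ne_zero.2 hc)
    have h3 := ordAt_add P hg h2 h1
    rw [ordAt_C, min_eq_right h, map_neg, ← sub_eq_add_neg] at h3
    exact h3
  obtain ⟨htr, hfin⟩ := nonconst g fun c => (hval c).1
  -- the order vanishes on `k(g)`
  have hfield : ∀ a ∈ IntermediateField.adjoin k {g}, ordAt P a = 0 := by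
    intro a ha
    obtain ⟨p, q, hpq⟩ := (IntermediateField.mem_adjoin_simple_iff k a).1 ha
    by_cases hp : p = 0
    · rw [hpq, hp, map_zero, zero_div, ordAt_zero]
    by_cases hq : q = 0
    · rw [hpq, hq, map_zero, div_zero, ordAt_zero]
    have htp : ∀ r : Polynomial k, r ≠ 0 → Polynomial.aeval g r ≠ 0 := by
      intro r hr h0
      exact hr ((transcendental_iff.1 htr) r h0)
    rw [hpq, div_eq_mul_inv, ordAt_mul P (htp p hp) (inv_ne_zero (htp q hq)), ordAt_inv,
      PLB.ord_poly P hval p hp, PLB.ord_poly P hval q hq]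
    rfl
  have hall : ∀ b : F, 0 ≤ ordAt P b := by
    intro b
    have hint : IsIntegral (IntermediateField.adjoin k {g}) b := IsIntegral.of_finite _ b
    exact integral_nonneg P (IntermediateField.adjoin k {g}).toSubalgebra
      (fun a ha => (hfield a ha).ge) b hint
  obtain ⟨t, ht, ht1⟩ := P.exists_ord_eq_one
  have h1 := hall t⁻¹
  rw [ordAt_inv] at h1
  have h2 : ordAt P t = 1 := ht1
  omega

end CRV

end

end Pool.Agent.MLD.C
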