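import Pool.Agent.Lib.MP_f23696_ag.C.Plp
import Pool.Agent.Lib.MP_f23696_ag.C.Bad

/-!
Module STEP of the project LSC-C (MP_f23696_ag): the one-step lemma, arbitrary quotient curve.
-/

namespace Pool.Agent.MLD.C

open scoped Classical
noncomputable section

universe u v w

namespace Step

variable {k : Type u} [Field k] {F : Type v} [Field F] [Algebra k F] {m : ℕ}

theorem val_mul (V : HV k F m) {g h : F} (hg : g ≠ 0) (hh : h ≠ 0) (u t : Fin m → ℤ) :
    V.val (g * h) (u + t) = V.val g u + V.val h t := by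
  unfold HV.val
  rw [ordAt_mul V.P hg hh]
  simp only [Pi.add_apply, mul_add, Finset.sum_add_distrib]
  ring

theorem val_inv (V : HV k F m) (g : F) (u : Fin m → ℤ) :
    V.val g⁻¹ (-u) = -V.val g u := by
  unfold HV.val
  rw [ordAt_inv]
  simp only [Pi.neg_apply, mul_neg, Finset.sum_neg_distrib]
  ring

/-- the sum of two compatible valuations -/
def add (V W : HV k F m) : HV k F m :=
  ⟨if V.n = 0 then W.P else V.P, V.n + W.n, fun i => V.w i + W.w i⟩

theorem add_n_kap (V W : HV k F m) (h : W.n = 0 ∨ V.n = 0 ∨ W.P = V.P) (f : Pl k F → ℤ) :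
    ((add V W).n : ℤ) * f (add V W).P = V.n * f V.P + W.n * f W.P := by
  unfold add
  by_cases hV : V.n = 0
  · simp [hV]
  · rcases h with h | h | h
    · simp [hV, h]
    · exact absurd h hV
    · simp only [if_neg hV, h]
      push_cast
      ring

theorem add_val (V W : HV k F m) (h : W.n = 0 ∨ V.n = 0 ∨ W.P = V.P) (g : F)
    (u : Fin m → ℤ) : (add V W).val g u = V.val g u + W.val g u := by
  have h1 : ((add V W).n : ℤ) * ordAt (add V W).P g = V.n * ordAt V.P g + W.n * ordAt W.P g :=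
    add_n_kap V W h fun P => ordAt P g
  unfold HV.val
  rw [h1]
  have : ∑ i, (add V W).w i * u i = ∑ i, V.w i * u i + ∑ i, W.w i * u i := by
    rw [← Finset.sum_add_distrib]
    refine Finset.sum_congr rfl fun i _ => ?_
    simp only [add]
    ring
  rw [this]
  ring

theorem add_disc [Cv k F] (V W : HV k F m) (h : W.n = 0 ∨ V.n = 0 ∨ W.P = V.P) :
    (add V W).disc = V.disc + W.disc := by
  have h1 : ((add V W).n : ℤ) * kap (add V W).P = V.n * kap V.P + W.n * kap W.P :=
    add_n_kap V W h fun P => kap P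
  unfold HV.disc
  rw [h1]
  have : ∑ i, (add V W).w i = ∑ i, V.w i + ∑ i, W.w i := by
    rw [← Finset.sum_add_distrib]
    rfl
  rw [this]
  ring

theorem add_ld [Cv k F] (V W : HV k F m) (h : W.n = 0 ∨ V.n = 0 ∨ W.P = V.P)
    (γ : (F × (Fin m → ℤ)) →₀ ℝ) : (add V W).ld γ = V.ld γ + W.ld γ := by
  unfold HV.ld HV.valR
  rw [add_disc V W h]
  have : (γ.sum fun h r => r * ((add V W).val h.1 h.2 : ℝ)) =
      (γ.sum fun h r => r * (V.val h.1 h.2 : ℝ)) + γ.sum fun h r => r * (W.val h.1 h.2 : ℝ) := by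
    rw [← Finsupp.sum_add]
    refine Finsupp.sum_congr fun x _ => ?_
    rw [add_val V W h]
    push_cast
    ring
  rw [this]
  push_cast
  ring

/-- a nonunit semi-invariant is positive at some invariant prime divisor -/
theorem exists_pos [Cv k F] (L : LocData k F m) (f : F) (u : Fin m → ℤ) (hf : L.A f u)
    (hn : ¬ L.S f u) : ∃ W ∈ L.E, 0 < W.val f u := by
  by_contra hcon
  push Not at hcon
  have hf0 : f ≠ 0 := L.A_ne f u hf
  obtain ⟨h, t, hS, hA⟩ := L.nrm f⁻¹ (-u) (inv_ne_zero hf0) (by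
    intro W hW
    rw [val_inv]
    have := hcon W hW
    omega)
  have := L.N_mul f u (h * f⁻¹) (t + -u) hf hn hA
  apply this
  have e1 : f * (h * f⁻¹) = h := by
    field_simp
  have e2 : u + (t + -u) = t := by
    abel
  rw [e1, e2]
  exact hS

/-- if there is no vertical divisor over `Q`, then a function with poles only at `Q` is a quotient
of semi-invariants of the local ring -/
theorem frac [Cv k F] (L : LocData k F m) (Q : Pl k F) (hcon : ∀ X ∈ L.E, X.P = Q → X.n < 1)
    {h : F} (h0 : h ≠ 0) (hpos : ∀ P, P ≠ Q → 0 ≤ ordAt P h) :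
    ∃ s t, L.S s t ∧ L.A (s * h) t := by
  obtain ⟨s, t, hS, hA⟩ := L.nrm h 0 h0 (by
    intro X hX
    unfold HV.val
    simp only [Pi.zero_apply, mul_zero, Finset.sum_const_zero, add_zero]
    by_cases hXn : X.n = 0
    · simp [hXn]
    · have hXQ : X.P ≠ Q := fun e => hXn (by have := hcon X hX e; omega)
      exact mul_nonneg (by positivity) (hpos X.P hXQ))
  rw [add_zero] at hA
  exact ⟨s, t, hS, hA⟩

/-- if there is no vertical divisor over `Q`, then the places `P` and `P'` of two centred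
vertical valuations coincide -/
theorem claim [IsAlgClosed k] [CharZero k] [Cv k F] (L : LocData k F m) (V W : HV k F m)
    (hVA : ∀ g u, L.A g u → 0 ≤ V.val g u)
    (hVS : ∀ g u, L.S g u → V.val g u = 0) (hWA : ∀ g u, L.A g u → 0 ≤ W.val g u)
    (hWS : ∀ g u, L.S g u → W.val g u = 0) (hVn : 1 ≤ V.n) (hWn : 1 ≤ W.n) (hVW : V.P ≠ W.P)
    (Q : Pl k F) : ∃ X ∈ L.E, X.P = Q ∧ 1 ≤ X.n := by
  by_contra hcon
  push Not at hcon
  -- the places of `V` and `W` are not `Q`
  have key : ∀ U : HV k F m, (∀ g u, L.A g u → 0 ≤ U.val g u) →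
      (∀ g u, L.S g u → U.val g u = 0) → 1 ≤ U.n → U.P ≠ Q := by
    intro U hUA hUS hUn e
    obtain ⟨h, h0, hQ, hpos⟩ := exists_pole Q
    obtain ⟨s, t, hS, hA⟩ := frac L Q hcon h0 hpos
    have hs0 := L.A_ne s t (L.S_A s t hS)
    have h1 := hUA _ _ hA
    have h2 := hUS _ _ hS
    have h3 := val_mul U hs0 h0 t 0
    rw [add_zero] at h3
    rw [h3, h2, zero_add] at h1
    unfold HV.val at h1
    simp only [Pi.zero_apply, mul_zero, Finset.sum_const_zero, add_zero] at h1
    rw [e] at h1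
    have : (0 : ℤ) < U.n := by exact_mod_cast hUn
    nlinarith
  obtain ⟨h, h0, hpos, a, b, hab, ha, hb⟩ := exists_sep Q V.P W.P hVW (key V hVA hVS hVn)
    (key W hWA hWS hWn)
  obtain ⟨s, t, hS, hA⟩ := frac L Q hcon h0 hpos
  have hsA := L.S_A s t hS
  have hs0 := L.A_ne s t hsA
  have hprod : ∀ (c : k), h - algebraMap k F c ≠ 0 → L.A (s * (h - algebraMap k F c)) t := by
    intro c hc
    by_cases hc0 : c = 0
    · subst hc0
      simpa using hA
    · have h1 := L.S_mul _ _ _ _ (L.S_C (-c) (neg_ne_zero.mpr hc0)) hS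
      have h2 := L.S_A _ _ h1
      rw [zero_add] at h2
      have e : s * h + algebraMap k F (-c) * s = s * (h - algebraMap k F c) := by
        rw [map_neg]
        ring
      have h3 := L.A_add _ _ _ hA h2 (by
        rw [e]
        exact mul_ne_zero hs0 hc)
      rw [e] at h3
      exact h3
  have hnot : ∀ (U : HV k F m) (c : k), (∀ g u, L.S g u → U.val g u = 0) → 1 ≤ U.n →
      0 < ordAt U.P (h - algebraMap k F c) → h - algebraMap k F c ≠ 0 →
      ¬ L.S (s * (h - algebraMap k F c)) t := by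
    intro U c hUS hUn hc hc0 hcS
    have h1 := hUS _ _ hcS
    have h3 := val_mul U hs0 hc0 t 0
    rw [add_zero] at h3
    rw [h3, hUS _ _ hS, zero_add] at h1
    unfold HV.val at h1
    simp only [Pi.zero_apply, mul_zero, Finset.sum_const_zero, add_zero] at h1
    have : (0 : ℤ) < U.n := by exact_mod_cast hUn
    have := mul_pos this hc
    omega
  have ha0 : h - algebraMap k F a ≠ 0 := by
    intro e
    rw [e, ordAt_zero] at ha
    exact lt_irrefl _ ha
  have hb0 : h - algebraMap k F b ≠ 0 := by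
    intro e
    rw [e, ordAt_zero] at hb
    exact lt_irrefl _ hb
  have hAa := hprod a ha0
  have hAb := hprod b hb0
  have hNa := hnot V a hVS hVn ha ha0
  have hNb := hnot W b hWS hWn hb hb0
  have hC1 := L.S_A _ _ (L.S_C (-1) (neg_ne_zero.mpr one_ne_zero))
  have hNb' := L.N_mul _ _ _ _ hAb hNb hC1
  have hAb' := L.A_mul _ _ _ _ hAb hC1
  rw [add_zero] at hNb' hAb'
  have hfin := L.N_add _ _ _ hAa hAb' hNa hNb'
  apply hfin
  have e : s * (h - algebraMap k F a) + s * (h - algebraMap k F b) * algebraMap k F (-1) =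
      algebraMap k F (b - a) * s := by
    rw [map_neg, map_one, map_sub]
    ring
  rw [e]
  have := L.S_mul _ _ _ _ (L.S_C (b - a) (sub_ne_zero.mpr (Ne.symm hab))) hS
  rwa [zero_add] at this

end Step

section STEP
variable {k : Type u} [Field k] [IsAlgClosed k] [CharZero k] {F : Type v} [Field F] [Algebra k F]
  [Cv k F] {m : ℕ}

theorem step (L : LocData k F m) (V : HV k F m) (hVA : ∀ g u, L.A g u → 0 ≤ V.val g u)
    (hVS : ∀ g u, L.S g u → V.val g u = 0) (f : F) (u : Fin m → ℤ) (hf : L.A f u)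
    (hn : ¬ L.S f u) :
    ∃ V' : HV k F m, (∀ g t, L.A g t → V.val g t ≤ V'.val g t) ∧
      (∀ g t, L.S g t → V'.val g t = 0) ∧ 0 < V'.val f u ∧ V'.ld L.γ ≤ V.ld L.γ + 1 := by
  by_cases hV0 : 0 < V.val f u
  · exact ⟨V, fun g t _ => le_rfl, hVS, hV0, by linarith⟩
  obtain ⟨W₀, hW₀E, hW₀f⟩ := Step.exists_pos L f u hf hn
  by_cases hcomp : W₀.n = 0 ∨ V.n = 0 ∨ W₀.P = V.P
  · refine ⟨Step.add V W₀, fun g t hA => ?_, fun g t hS => ?_, ?_, ?_⟩
    · rw [Step.add_val V W₀ hcomp]
      have := L.E_A W₀ hW₀E g t hA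
      omega
    · rw [Step.add_val V W₀ hcomp, hVS g t hS, L.E_S W₀ hW₀E g t hS, add_zero]
    · rw [Step.add_val V W₀ hcomp]
      have := hVA f u hf
      omega
    · rw [Step.add_ld V W₀ hcomp]
      have := L.E_ld W₀ hW₀E
      linarith
  push Not at hcomp
  obtain ⟨hWn, hVn, hWV⟩ := hcomp
  have hclaim : ∀ Q : Pl k F, ∃ X ∈ L.E, X.P = Q ∧ 1 ≤ X.n :=
    Step.claim L V W₀ hVA hVS (L.E_A W₀ hW₀E) (L.E_S W₀ hW₀E) (by omega) (by omega)
      (Ne.symm hWV)
  choose x hxE hxP hxn using hclaim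
  let y : Pl k F → HV k F m := fun Q => if Q = W₀.P then W₀ else x Q
  have hyE : ∀ Q, y Q ∈ L.E := by
    intro Q
    simp only [y]
    split_ifs with h
    · exact hW₀E
    · exact hxE Q
  have hyP : ∀ Q, (y Q).P = Q := by
    intro Q
    simp only [y]
    split_ifs with h
    · exact h.symm
    · exact hxP Q
  have hyn : ∀ Q, 1 ≤ (y Q).n := by
    intro Q
    simp only [y]
    split_ifs with h
    · omega
    · exact hxn Q
  have hy0 : y W₀.P = W₀ := by
    simp [y]
  let B : Finset (Pl k F) := insert V.P (insert W₀.P L.B)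
  have hBL : ∀ Q, Q ∉ B → Q ∉ L.B := by
    intro Q hQ hQL
    exact hQ (Finset.mem_insert_of_mem (Finset.mem_insert_of_mem hQL))
  have hB : GoodB L.A L.γ B :=
    { kap_one := fun Q hQ => L.kap_one Q (hBL Q hQ)
      pos := fun Q hQ g t hA => L.gen_pos Q (hBL Q hQ) g t hA
      ne := L.γ_ne
      gam := fun h hh Q hQ => L.γ_B h hh Q (hBL Q hQ) }
  have hSB : ∀ g t, L.S g t → ∀ Q ∉ B, ordAt Q g = 0 := by
    intro g t hS Q hQ
    have hA := L.S_A g t hS
    have h1 := L.E_S (y Q) (hyE Q) g t hS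
    have h2 := L.gen_w (y Q) (hyE Q) (by rw [hyP]; exact hBL Q hQ) g t hA
    have h3 := L.gen_pos Q (hBL Q hQ) g t hA
    have h4 : (1 : ℤ) ≤ (y Q).n := by exact_mod_cast hyn Q
    unfold HV.val at h1
    rw [hyP] at h1
    nlinarith
  exact bad_case L.A L.S L.γ B hB L.A_ne L.S_A hSB V (by omega) (Finset.mem_insert_self _ _)
    hVA hVS y hyP hyn (fun Q => L.E_A (y Q) (hyE Q)) (fun Q => L.E_S (y Q) (hyE Q))
    (fun Q => L.E_ld (y Q) (hyE Q)) W₀.P
    (Finset.mem_insert_of_mem (Finset.mem_insert_self _ _)) hWV f u hf (by rw [hy0]; exact hW₀f)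

end STEP

end

end Pool.Agent.MLD.C
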