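import Pool.Agent.Lib.MP_f23696_ag.C.Pla
import Pool.Agent.Lib.MP_f23696_ag.C.Plb
import Pool.Agent.Lib.MP_f23696_ag.C.Step

/-!
LSC-C module CHAIN: the rank drop and the induction, over a curve.
-/

namespace Pool.Agent.MLD.C

open scoped Classical
noncomputable section

universe u v w w'

namespace Chain

section
variable {k : Type u} [Field k] {F : Type v} [Field F] [Algebra k F] {m : ℕ}

theorem val_mul (V : HV k F m) {g h : F} (hg : g ≠ 0) (hh : h ≠ 0) (u t : Fin m → ℤ) :
    V.val (g * h) (u + t) = V.val g u + V.val h t := by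
  unfold HV.val
  rw [ordAt_mul V.P hg hh]
  simp only [Pi.add_apply, mul_add, Finset.sum_add_distrib]
  ring

theorem val_C (V : HV k F m) (c : k) : V.val (algebraMap k F c) 0 = 0 := by
  unfold HV.val
  rw [ordAt_C]
  simp

theorem val_one (V : HV k F m) : V.val (1 : F) 0 = 0 := by
  have := val_C V (1 : k)
  rwa [map_one] at this

theorem val_C_mul (V : HV k F m) {c : k} (hc : c ≠ 0) {g : F} (hg : g ≠ 0)
    (u : Fin m → ℤ) : V.val (algebraMap k F c * g) u = V.val g u := by
  have hc' : (algebraMap k F c : F) ≠ 0 := by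
    rw [Ne, map_eq_zero]; exact hc
  have := val_mul V hc' hg 0 u
  rw [zero_add, val_C, zero_add] at this
  exact this

theorem val_pow (V : HV k F m) {g : F} (hg : g ≠ 0) (u : Fin m → ℤ) (a : ℕ) :
    V.val (g ^ a) (a • u) = a * V.val g u := by
  induction a with
  | zero => simp [val_one]
  | succ a ih =>
    rw [pow_succ, succ_nsmul, val_mul V (pow_ne_zero a hg) hg, ih]
    push_cast
    ring

theorem val_add (V : HV k F m) {g h : F} (hg : g ≠ 0) (hh : h ≠ 0) (hs : g + h ≠ 0)
    (u : Fin m → ℤ) : min (V.val g u) (V.val h u) ≤ V.val (g + h) u := by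
  have h1 := ordAt_add V.P hg hh hs
  unfold HV.val
  have hn : (0 : ℤ) ≤ V.n := Int.natCast_nonneg _
  rcases min_le_iff.1 h1 with h2 | h2
  · exact (min_le_left _ _).trans (by nlinarith)
  · exact (min_le_right _ _).trans (by nlinarith)

/-- the difference `g - c h` of two elements of the same value -/
theorem sub_lift [IsAlgClosed k] [Cv k F] (V : HV k F m) {g h : F} (hg : g ≠ 0) (hh : h ≠ 0) (u : Fin m → ℤ)
    (hV : 1 ≤ V.n) (hval : V.val g u = V.val h u) :
    ∃ c : k, c ≠ 0 ∧ (g = algebraMap k F c * h ∨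
      (g - algebraMap k F c * h ≠ 0 ∧ V.val h u < V.val (g - algebraMap k F c * h) u)) := by
  have hn : (1 : ℤ) ≤ V.n := by exact_mod_cast hV
  have hord : ordAt V.P g = ordAt V.P h := by
    unfold HV.val at hval
    have : (V.n : ℤ) * (ordAt V.P g - ordAt V.P h) = 0 := by linarith
    rcases mul_eq_zero.1 this with h0 | h0
    · exfalso; omega
    · omega
  have hr0 : g / h ≠ 0 := div_ne_zero hg hh
  have hr : ordAt V.P (g / h) = 0 := by
    rw [div_eq_mul_inv, ordAt_mul V.P hg (inv_ne_zero hh), ordAt_inv, hord]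
    ring
  obtain ⟨c, hc⟩ := ordAt_value V.P hr0 hr.ge
  rcases hc with hc | hc
  · have hc0 : c ≠ 0 := by
      rintro rfl
      rw [map_zero] at hc
      exact hr0 hc
    refine ⟨c, hc0, Or.inl ?_⟩
    rw [← hc, div_mul_cancel₀ _ hh]
  · have hc0 : c ≠ 0 := by
      rintro rfl
      rw [map_zero, sub_zero, hr] at hc
      exact lt_irrefl _ hc
    have hne : g / h - algebraMap k F c ≠ 0 := by
      intro h0
      rw [h0, ordAt_zero] at hc
      exact lt_irrefl _ hc
    have heq : g - algebraMap k F c * h = (g / h - algebraMap k F c) * h := by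
      rw [sub_mul, div_mul_cancel₀ _ hh]
    refine ⟨c, hc0, Or.inr ⟨?_, ?_⟩⟩
    · rw [heq]; exact mul_ne_zero hne hh
    · rw [heq]
      unfold HV.val
      rw [ordAt_mul V.P hne hh]
      nlinarith

/-- ultrametric: if `g = c h + G` and `G` has large value then `g` and `h` have the same value -/
theorem val_le_of_sub (V : HV k F m) {g h : F} (hg : g ≠ 0) (hh : h ≠ 0) (u : Fin m → ℤ)
    {c : k} (hc : c ≠ 0) (hG : g - algebraMap k F c * h ≠ 0) :
    min (V.val g u) (V.val (g - algebraMap k F c * h) u) ≤ V.val h u := by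
  have hm1 : (-1 : k) ≠ 0 := neg_ne_zero.2 one_ne_zero
  have hc' : (algebraMap k F c : F) ≠ 0 := by
    rw [Ne, map_eq_zero]; exact hc
  have hG' : algebraMap k F (-1 : k) * (g - algebraMap k F c * h) ≠ 0 := by
    apply mul_ne_zero _ hG
    rw [Ne, map_eq_zero]; exact hm1
  have hsum : g + algebraMap k F (-1 : k) * (g - algebraMap k F c * h) = algebraMap k F c * h := by
    rw [map_neg, map_one]; ring
  have h1 := val_add V hg hG' (by rw [hsum]; exact mul_ne_zero hc' hh) u
  rw [hsum, val_C_mul V hc hh, val_C_mul V hm1 hG] at h1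
  exact h1

end

section
variable {F : Type v} [Field F] {m : ℕ}

/-- the rational vector space generated by the degrees -/
def sp (S : F → (Fin m → ℤ) → Prop) : Submodule ℚ (Fin m → ℚ) :=
  Submodule.span ℚ {x : Fin m → ℚ | ∃ g u, S g u ∧ x = fun i => (u i : ℚ)}

omit [Field F] in
theorem rk_eq (S : F → (Fin m → ℤ) → Prop) : rk S = Module.finrank ℚ (sp S) := rfl

omit [Field F] in
theorem sp_mono {S T : F → (Fin m → ℤ) → Prop} (h : ∀ g u, S g u → T g u) :
    sp S ≤ sp T := by
  apply Submodule.span_mono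
  rintro x ⟨g, u, hgu, rfl⟩
  exact ⟨g, u, h g u hgu, rfl⟩

theorem rk_mono {S T : F → (Fin m → ℤ) → Prop} (h : ∀ g u, S g u → T g u) :
    rk S ≤ rk T := Submodule.finrank_mono (sp_mono h)

theorem sp_eq_of_rk_eq {S T : F → (Fin m → ℤ) → Prop} (h : ∀ g u, S g u → T g u)
    (hr : rk S = rk T) : sp S = sp T :=
  Submodule.eq_of_le_of_finrank_eq (sp_mono h) hr

theorem nsm (b : ℕ) (t : Fin m → ℤ) (i : Fin m) : (b • t) i = (b : ℤ) * t i := by
  rw [Pi.smul_apply, nsmul_eq_mul]

/-- integral combinations: if `x` is in the rational span of the degrees of a multiplicative set -/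
theorem span_lemma (Z : F → (Fin m → ℤ) → Prop) (h1 : ∃ g, Z g 0)
    (hmul : ∀ g u h t, Z g u → Z h t → Z (g * h) (u + t)) (u : Fin m → ℤ)
    (hu : (fun i => (u i : ℚ)) ∈ sp Z) :
    ∃ (a : ℕ) (g h : F) (t s : Fin m → ℤ), 1 ≤ a ∧ Z g t ∧ Z h s ∧ a • u + t = s := by
  -- multiples
  have hpow : ∀ (a : ℕ) (t : Fin m → ℤ), (∃ g, Z g t) → ∃ g, Z g (a • t) := by
    intro a t ht
    induction a with
    | zero => simpa using h1
    | succ a ih =>
      obtain ⟨g, hg⟩ := ih
      obtain ⟨g', hg'⟩ := ht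
      refine ⟨g * g', ?_⟩
      rw [succ_nsmul]
      exact hmul _ _ _ _ hg hg'
  have hadd : ∀ s t : Fin m → ℤ, (∃ g, Z g s) → (∃ g, Z g t) → ∃ g, Z g (s + t) := by
    rintro s t ⟨g, hg⟩ ⟨g', hg'⟩
    exact ⟨_, hmul _ _ _ _ hg hg'⟩
  have key : ∀ x ∈ sp Z, ∃ (a : ℕ) (t s : Fin m → ℤ), 1 ≤ a ∧ (∃ g, Z g t) ∧ (∃ g, Z g s) ∧
      ∀ i, (a : ℚ) * x i = (s i : ℚ) - (t i : ℚ) := by
    intro x hx
    induction hx using Submodule.span_induction with
    | mem x hx =>
      obtain ⟨g, t, hgt, rfl⟩ := hx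
      exact ⟨1, 0, t, le_rfl, h1, ⟨g, hgt⟩, fun i => by simp⟩
    | zero => exact ⟨1, 0, 0, le_rfl, h1, h1, fun i => by simp⟩
    | add x y _ _ hx hy =>
      obtain ⟨a, t, s, ha, ht, hs, he⟩ := hx
      obtain ⟨b, t', s', hb, ht', hs', he'⟩ := hy
      refine ⟨a * b, b • t + a • t', b • s + a • s', Nat.mul_pos ha hb,
        hadd _ _ (hpow b t ht) (hpow a t' ht'), hadd _ _ (hpow b s hs) (hpow a s' hs'), ?_⟩
      intro i
      simp only [Pi.add_apply, nsm]
      push_cast
      have h2 := he i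
      have h3 := he' i
      linear_combination (b : ℚ) * h2 + (a : ℚ) * h3
    | smul q x _ hx =>
      obtain ⟨a, t, s, ha, ht, hs, he⟩ := hx
      have hq : (q.den : ℚ) * q = q.num := by
        rw [mul_comm]; exact Rat.mul_den_eq_num q
      have hden : 1 ≤ q.den := q.den_pos
      rcases le_total 0 q.num with h0 | h0
      · obtain ⟨p, hp⟩ := Int.eq_ofNat_of_zero_le h0
        refine ⟨q.den * a, p • t, p • s, Nat.mul_pos hden ha, hpow p t ht, hpow p s hs, ?_⟩
        intro i
        rw [nsm, nsm]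
        simp only [Pi.smul_apply, smul_eq_mul]
        push_cast
        have h2 := he i
        have h3 : (q.den : ℚ) * q = p := by rw [hq, hp]; simp
        linear_combination (a : ℚ) * x i * h3 + (p : ℚ) * h2
      · obtain ⟨p, hp⟩ := Int.eq_ofNat_of_zero_le (neg_nonneg.2 h0)
        refine ⟨q.den * a, p • s, p • t, Nat.mul_pos hden ha, hpow p s hs, hpow p t ht, ?_⟩
        intro i
        rw [nsm, nsm]
        simp only [Pi.smul_apply, smul_eq_mul]
        push_cast
        have h2 := he i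
        have h3 : (q.den : ℚ) * q = -p := by
          rw [hq]
          have : (q.num : ℤ) = -p := by omega
          rw [this]; simp
        linear_combination (a : ℚ) * x i * h3 - (p : ℚ) * h2
  obtain ⟨a, t, s, ha, ⟨g, hg⟩, ⟨h, hh⟩, he⟩ := key _ hu
  refine ⟨a, g, h, t, s, ha, hg, hh, ?_⟩
  funext i
  have h2 := he i
  have h3 : ((a : ℤ) * u i : ℚ) = ((s i - t i : ℤ) : ℚ) := by push_cast; exact h2
  have h4 : (a : ℤ) * u i = s i - t i := by exact_mod_cast h3
  simp only [Pi.add_apply, nsm]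
  linarith

end

section
variable {k : Type u} [Field k] {F : Type v} [Field F] [Algebra k F] [Cv k F] {m : ℕ}

theorem A_one (L : LocData k F m) : L.A 1 0 := by
  have := L.S_A _ _ (L.S_C 1 one_ne_zero)
  rwa [map_one] at this

theorem A_C_mul (L : LocData k F m) {c : k} (hc : c ≠ 0) {g : F} {u : Fin m → ℤ}
    (h : L.A g u) : L.A (algebraMap k F c * g) u := by
  have := L.A_mul _ _ _ _ (L.S_A _ _ (L.S_C c hc)) h
  rwa [zero_add] at this

theorem A_sub (L : LocData k F m) {c : k} (hc : c ≠ 0) {g h : F} {u : Fin m → ℤ}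
    (hg : L.A g u) (hh : L.A h u) (hne : g - algebraMap k F c * h ≠ 0) :
    L.A (g - algebraMap k F c * h) u := by
  have h1 : g - algebraMap k F c * h = g + algebraMap k F (-c) * h := by rw [map_neg]; ring
  rw [h1] at hne ⊢
  exact L.A_add _ _ _ hg (A_C_mul L (neg_ne_zero.2 hc) hh) hne

theorem A_pow (L : LocData k F m) {g : F} {u : Fin m → ℤ} (h : L.A g u) (a : ℕ) :
    L.A (g ^ a) (a • u) := by
  induction a with
  | zero => simpa using A_one L
  | succ a ih => rw [pow_succ, succ_nsmul]; exact L.A_mul _ _ _ _ ih h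

omit [Cv k F] in
theorem kapV_le (A : F → (Fin m → ℤ) → Prop) (V : HV k F m) : kapV A V ≤ 1 := by
  unfold kapV; split_ifs <;> simp

end

end Chain

open Chain

section CHAIN
variable {k : Type u} [Field k] [IsAlgClosed k] [CharZero k] {F : Type v} [Field F] [Algebra k F] [Cv k F]
  {m : ℕ}

theorem drop (L : LocData k F m) (V V' : HV k F m) (hVA : ∀ g u, L.A g u → 0 ≤ V.val g u)
    (hle : ∀ g t, L.A g t → V.val g t ≤ V'.val g t) (f : F) (u : Fin m → ℤ)
    (hf : L.A f u) (h0 : V.val f u = 0) (h1 : 0 < V'.val f u) :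
    rk (zeroSet L.A V') + kapV L.A V' < rk (zeroSet L.A V) + kapV L.A V := by
  have hsub : ∀ g t, zeroSet L.A V' g t → zeroSet L.A V g t := by
    rintro g t ⟨hA, hz⟩
    exact ⟨hA, le_antisymm (hz ▸ hle g t hA) (hVA g t hA)⟩
  have hrk : rk (zeroSet L.A V') ≤ rk (zeroSet L.A V) := rk_mono hsub
  have hf0 : f ≠ 0 := L.A_ne _ _ hf
  -- two elements in the same degree when the ranks agree
  have hequal : rk (zeroSet L.A V') = rk (zeroSet L.A V) →
      ∃ (Φ h : F) (s : Fin m → ℤ), L.A Φ s ∧ L.A h s ∧ V.val Φ s = 0 ∧ V.val h s = 0 ∧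
        0 < V'.val Φ s ∧ V'.val h s = 0 := by
    intro hr
    have hspan := sp_eq_of_rk_eq hsub hr
    have hmem : (fun i => (u i : ℚ)) ∈ sp (zeroSet L.A V') := by
      rw [hspan]
      exact Submodule.subset_span ⟨f, u, ⟨hf, h0⟩, rfl⟩
    obtain ⟨a, g, h, t, s, ha, hg, hh, he⟩ := span_lemma (zeroSet L.A V')
      ⟨1, A_one L, val_one V'⟩ (by
        rintro g u h t ⟨hgA, hgz⟩ ⟨hhA, hhz⟩
        refine ⟨L.A_mul _ _ _ _ hgA hhA, ?_⟩
        rw [val_mul V' (L.A_ne _ _ hgA) (L.A_ne _ _ hhA), hgz, hhz, add_zero]) u hmem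
    have hg0 : g ≠ 0 := L.A_ne _ _ hg.1
    refine ⟨f ^ a * g, h, s, ?_, hh.1, ?_, (hsub _ _ hh).2, ?_, hh.2⟩
    · rw [← he]; exact L.A_mul _ _ _ _ (A_pow L hf a) hg.1
    · rw [← he, val_mul V (pow_ne_zero a hf0) hg0, val_pow V hf0, h0, (hsub _ _ hg).2]; ring
    · rw [← he, val_mul V' (pow_ne_zero a hf0) hg0, val_pow V' hf0, hg.2]
      have : (1 : ℤ) ≤ a := by exact_mod_cast ha
      nlinarith
  rcases Nat.eq_zero_or_pos V.n with hn | hn
  · -- horizontal case
    by_cases hk : kapV L.A V = 0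
    · -- any two elements of the zero set in the same degree are proportional
      have hprop : ∀ g h t, zeroSet L.A V g t → zeroSet L.A V h t →
          ∃ c : k, g = algebraMap k F c * h := by
        intro g h t hg hh
        by_contra hcon
        have : kapV L.A V = 1 := by
          unfold kapV
          rw [if_pos]
          exact ⟨hn, g, h, t, hg, hh, hcon⟩
        omega
      have hk' : kapV L.A V' = 0 := by
        unfold kapV
        rw [if_neg]
        rintro ⟨-, g, h, t, hg, hh, hcon⟩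
        exact hcon (hprop g h t (hsub _ _ hg) (hsub _ _ hh))
      rw [hk, hk']
      have hne : rk (zeroSet L.A V') ≠ rk (zeroSet L.A V) := by
        intro hr
        obtain ⟨Φ, h, s, hFA, hhA, hF, hh, hF', hh'⟩ := hequal hr
        obtain ⟨c, hc⟩ := hprop Φ h s ⟨hFA, hF⟩ ⟨hhA, hh⟩
        have hc0 : c ≠ 0 := by
          rintro rfl
          rw [map_zero, zero_mul] at hc
          exact L.A_ne _ _ hFA hc
        rw [hc, val_C_mul V' hc0 (L.A_ne _ _ hhA), hh'] at hF'
        exact lt_irrefl _ hF'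
      omega
    · have hk1 : kapV L.A V = 1 := by have := kapV_le L.A V; omega
      rw [hk1]
      have hk'1 := kapV_le L.A V'
      rcases lt_or_eq_of_le hrk with hlt | heq
      · omega
      · obtain ⟨Φ, h, s, hFA, hhA, hF, hh, hF', hh'⟩ := hequal heq
        have hn' : V'.n ≠ 0 := by
          intro hn'
          have : V'.val Φ s = V'.val h s := by
            unfold HV.val
            rw [hn']; simp
          omega
        have hk' : kapV L.A V' = 0 := by
          unfold kapV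
          rw [if_neg]
          rintro ⟨h2, -⟩
          exact hn' h2
        omega
  · -- vertical case
    have hk' : kapV L.A V' = 0 := by
      unfold kapV
      rw [if_neg]
      rintro ⟨hn', g, h, t, hg, hh, hcon⟩
      have hg0 : g ≠ 0 := L.A_ne _ _ hg.1
      have hh0 : h ≠ 0 := L.A_ne _ _ hh.1
      obtain ⟨c, hc0, hc⟩ := sub_lift V hg0 hh0 t hn ((hsub _ _ hg).2.trans (hsub _ _ hh).2.symm)
      rcases hc with hc | ⟨hG, hc⟩
      · exact hcon ⟨c, hc⟩
      · rw [(hsub _ _ hh).2] at hc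
        have hGA := A_sub L hc0 hg.1 hh.1 hG
        have h2 := hle _ _ hGA
        have h3 : V'.val (g - algebraMap k F c * h) t = V'.val g t := by
          unfold HV.val
          rw [hn']; simp
        rw [h3, hg.2] at h2
        omega
    have hne : rk (zeroSet L.A V') ≠ rk (zeroSet L.A V) := by
      intro hr
      obtain ⟨Φ, h, s, hFA, hhA, hF, hh, hF', hh'⟩ := hequal hr
      have hF0 : Φ ≠ 0 := L.A_ne _ _ hFA
      have hh0 : h ≠ 0 := L.A_ne _ _ hhA
      obtain ⟨c, hc0, hc⟩ := sub_lift V hF0 hh0 s hn (hF.trans hh.symm)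
      rcases hc with hc | ⟨hG, hc⟩
      · rw [hc, val_C_mul V' hc0 hh0, hh'] at hF'
        exact lt_irrefl _ hF'
      · rw [hh] at hc
        have hGA := A_sub L hc0 hFA hhA hG
        have h2 := hle _ _ hGA
        have h3 := val_le_of_sub V' hF0 hh0 s hc0 hG
        rw [hh'] at h3
        rcases min_le_iff.1 h3 with h4 | h4 <;> omega
    omega

theorem chain (L : LocData k F m) (V : HV k F m) (hVA : ∀ g u, L.A g u → 0 ≤ V.val g u)
    (hVS : ∀ g u, L.S g u → V.val g u = 0) :
    ∃ V' : HV k F m, (∀ g u, L.A g u → 0 ≤ V'.val g u) ∧ (∀ g u, L.S g u → V'.val g u = 0) ∧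
      (∀ g u, L.A g u → ¬ L.S g u → 0 < V'.val g u) ∧
      V'.ld L.γ + rk L.S ≤ V.ld L.γ + rk (zeroSet L.A V) + kapV L.A V := by
  obtain ⟨N, hN⟩ : ∃ N, rk (zeroSet L.A V) + kapV L.A V = N := ⟨_, rfl⟩
  induction N using Nat.strong_induction_on generalizing V with
  | _ N ih =>
    by_cases hall : ∀ g u, L.A g u → ¬ L.S g u → 0 < V.val g u
    · refine ⟨V, hVA, hVS, hall, ?_⟩
      have h1 : rk L.S ≤ rk (zeroSet L.A V) :=
        rk_mono fun g u h => ⟨L.S_A g u h, hVS g u h⟩
      have h2 : (rk L.S : ℝ) ≤ rk (zeroSet L.A V) := by exact_mod_cast h1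
      have h3 : (0 : ℝ) ≤ kapV L.A V := Nat.cast_nonneg _
      linarith
    · push Not at hall
      obtain ⟨f, u, hfA, hfS, hf⟩ := hall
      have hf0 : V.val f u = 0 := le_antisymm hf (hVA f u hfA)
      obtain ⟨V₁, h1, h2, h3, h4⟩ := step L V hVA hVS f u hfA hfS
      have hd := drop L V V₁ hVA h1 f u hfA hf0 h3
      have hV₁ : ∀ g u, L.A g u → 0 ≤ V₁.val g u := fun g u h => (hVA g u h).trans (h1 g u h)
      obtain ⟨V', h5, h6, h7, h8⟩ := ih _ (hN ▸ hd) V₁ hV₁ h2 rfl
      refine ⟨V', h5, h6, h7, ?_⟩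
      have h9 : ((rk (zeroSet L.A V₁) + kapV L.A V₁ + 1 : ℕ) : ℝ) ≤
          ((rk (zeroSet L.A V) + kapV L.A V : ℕ) : ℝ) := by exact_mod_cast hd
      push_cast at h9
      linarith

end CHAIN

end

end Pool.Agent.MLD.C
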