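import Pool.Agent.Lib.MP_f23696_ag.Ctx

/-!
Internal vocabulary for the project LSC over curves (MP_f23696_ag): places of a function field `F`
of one variable, homogeneous valuations, torus-graded subalgebras of `K = F(x_1, …, x_m)`.
This is the version of `Pool.Agent.Lib.MP_f23696_ag.Ctx` with `k(z)` replaced by `F`.
-/

namespace Pool.Agent.MLD.C

open scoped Classical
noncomputable section

universe u v w

/-- A place of `F/k`: a normalised discrete valuation. -/
@[ext] structure Pl (k : Type u) (F : Type v) [Field k] [Field F] [Algebra k F] extends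
    DVal k F where
  ord_zero : ord 0 = 0

/-- `F` is a function field of one variable over `k`, with a transcendental element `z` and the
derivation `d/dz`. -/
class Cv (k : Type u) (F : Type v) [Field k] [Field F] [Algebra k F] where
  z : F
  tr : Transcendental k z
  fin : FiniteDimensional (IntermediateField.adjoin k {z}) F
  d : Derivation k F F
  dz : d z = 1

variable {k : Type u} [Field k] {F : Type v} [Field F] [Algebra k F]

/-- Order of `g` at the place `P`. -/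
def ordAt (P : Pl k F) (g : F) : ℤ := P.ord g

/-- `1 + ord_P(dz)`: `1 - ord_P(dt/dz)` for a uniformiser `t`. -/
def kap [Cv k F] (P : Pl k F) : ℤ :=
  1 - ordAt P (Cv.d (k := k) (F := F) (Classical.choose P.exists_ord_eq_one))

/-- A homogeneous valuation: `(P, n, w)` takes the value `n ord_P(g) + ⟨w,u⟩` at `g x^u`. -/
@[ext] structure HV (k : Type u) (F : Type v) [Field k] [Field F] [Algebra k F] (m : ℕ) where
  P : Pl k F
  n : ℕ
  w : Fin m → ℤ

variable {m : ℕ}

def HV.val (V : HV k F m) (g : F) (u : Fin m → ℤ) : ℤ :=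
  V.n * ordAt V.P g + ∑ i, V.w i * u i

/-- `1 +` the order of `dz ∧ dx_1 ∧ ⋯ ∧ dx_m`. -/
def HV.disc [Cv k F] (V : HV k F m) : ℤ := V.n * kap V.P + ∑ i, V.w i

def HV.valR (V : HV k F m) (γ : (F × (Fin m → ℤ)) →₀ ℝ) : ℝ :=
  γ.sum fun h r => r * (V.val h.1 h.2 : ℝ)

/-- log discrepancy of `V` with respect to the local equation `γ`. -/
def HV.ld [Cv k F] (V : HV k F m) (γ : (F × (Fin m → ℤ)) →₀ ℝ) : ℝ := (V.disc : ℝ) - V.valR γ

/-- rank of the group generated by the degrees of the elements satisfying `S`. -/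
def rk (S : F → (Fin m → ℤ) → Prop) : ℕ :=
  Module.finrank ℚ (Submodule.span ℚ {x : Fin m → ℚ | ∃ g u, S g u ∧ x = fun i => (u i : ℚ)})

/-- the elements of `A` at which `V` vanishes. -/
def zeroSet (A : F → (Fin m → ℤ) → Prop) (V : HV k F m) : F → (Fin m → ℤ) → Prop :=
  fun g u => A g u ∧ V.val g u = 0

/-- `1` if `V` is horizontal and the invariant functions on its centre are not all constant. -/
def kapV (A : F → (Fin m → ℤ) → Prop) (V : HV k F m) : ℕ :=
  if V.n = 0 ∧ ∃ g h u, zeroSet A V g u ∧ zeroSet A V h u ∧ ¬ ∃ c : k, g = algebraMap k F c * h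
  then 1 else 0

/-- The data at a point `y` needed for the combinatorial part: `A g u` means that `g x^u` is a
nonzero element of the ring, `S g u` that moreover it does not vanish at `y`, `E` is the set of the
valuations of the invariant prime divisors through `y`. -/
structure LocData (k : Type u) (F : Type v) [Field k] [Field F] [Algebra k F] [Cv k F] (m : ℕ) where
  A : F → (Fin m → ℤ) → Prop
  S : F → (Fin m → ℤ) → Prop
  B : Finset (Pl k F)
  γ : (F × (Fin m → ℤ)) →₀ ℝ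
  E : Set (HV k F m)
  kap_one : ∀ Q ∉ B, kap Q = 1
  A_ne : ∀ g u, A g u → g ≠ 0
  S_A : ∀ g u, S g u → A g u
  A_mul : ∀ g u h t, A g u → A h t → A (g * h) (u + t)
  S_mul : ∀ g u h t, S g u → S h t → S (g * h) (u + t)
  S_C : ∀ c : k, c ≠ 0 → S (algebraMap k F c) 0
  A_add : ∀ g h u, A g u → A h u → g + h ≠ 0 → A (g + h) u
  N_mul : ∀ g u h t, A g u → ¬ S g u → A h t → ¬ S (g * h) (u + t)
  N_add : ∀ g h u, A g u → A h u → ¬ S g u → ¬ S h u → ¬ S (g + h) u
  gen_pos : ∀ Q ∉ B, ∀ g u, A g u → 0 ≤ ordAt Q g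
  gen_w : ∀ V ∈ E, V.P ∉ B → ∀ g u, A g u → 0 ≤ ∑ i, V.w i * u i
  γ_ne : ∀ h ∈ γ.support, h.1 ≠ 0
  γ_B : ∀ h ∈ γ.support, ∀ Q ∉ B, ordAt Q h.1 = 0
  E_A : ∀ V ∈ E, ∀ g u, A g u → 0 ≤ V.val g u
  E_S : ∀ V ∈ E, ∀ g u, S g u → V.val g u = 0
  E_ld : ∀ V ∈ E, V.ld γ ≤ 1
  nrm : ∀ g u, g ≠ 0 → (∀ V ∈ E, 0 ≤ V.val g u) → ∃ h t, S h t ∧ A (h * g) (t + u)

/-- The field `K = F(x_1, …, x_m)` with its partial derivatives. -/
structure Ctx (k : Type u) (F : Type v) (K : Type w) [Field k] [Field F] [Algebra k F] [Cv k F]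
    [Field K] [Algebra k K] (m : ℕ) where
  ι : F →ₐ[k] K
  x : Fin m → K
  x_ne : ∀ i, x i ≠ 0
  li : ∀ (s : Finset (Fin m → ℤ)) (g : (Fin m → ℤ) → F),
    ∑ u ∈ s, ι (g u) * ∏ i, x i ^ u i = 0 → ∀ u ∈ s, g u = 0
  gen : IntermediateField.adjoin k (Set.range ι ∪ Set.range x) = ⊤
  der : Fin (m + 1) → Derivation k K K
  der0_ι : ∀ g, der 0 (ι g) = ι (Cv.d (k := k) (F := F) g)
  der0_x : ∀ i, der 0 (x i) = 0
  derS_ι : ∀ (j : Fin m) (g : F), der j.succ (ι g) = 0
  derS_x : ∀ j i : Fin m, der j.succ (x i) = if i = j then 1 else 0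

variable {K : Type w} [Field K] [Algebra k K] [Cv k F]

/-- the semi-invariant `g x^u`. -/
def Ctx.mon (C : Ctx k F K m) (g : F) (u : Fin m → ℤ) : K := C.ι g * ∏ i, C.x i ^ u i

/-- A normal affine variety with an effective action of the `m`-dimensional torus, of dimension
`m + 1`: the coordinate ring `A ⊆ K` is generated by semi-invariants. -/
structure TV (C : Ctx k F K m) where
  A : Subalgebra k K
  gens : Finset (F × (Fin m → ℤ))
  gens_ne : ∀ h ∈ gens, h.1 ≠ 0
  adj : Algebra.adjoin k ((fun h : F × (Fin m → ℤ) => C.mon h.1 h.2) '' (gens : Set _)) = A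
  frac : ∀ f : K, ∃ a b : A, (b : K) ≠ 0 ∧ f = (a : K) / b
  normal : ∀ f : K, IsIntegral A f → f ∈ A

variable {C : Ctx k F K m}

/-- `g x^u` is a nonzero element of the coordinate ring. -/
def TV.hA (X : TV C) (g : F) (u : Fin m → ℤ) : Prop := g ≠ 0 ∧ C.mon g u ∈ X.A

/-- `g x^u` is an element of the coordinate ring not in `p`. -/
def TV.hS (X : TV C) (p : Ideal X.A) (g : F) (u : Fin m → ℤ) : Prop :=
  g ≠ 0 ∧ ∃ h : C.mon g u ∈ X.A, (⟨C.mon g u, h⟩ : X.A) ∉ p

/-- `V` is nonnegative on `A` and positive exactly on the semi-invariants in `p`. -/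
def HV.CenterEq (V : HV k F m) (X : TV C) (p : Ideal X.A) : Prop :=
  (∀ g u, X.hA g u → 0 ≤ V.val g u) ∧ ∀ g u, X.hA g u → (0 < V.val g u ↔ ¬ X.hS p g u)

/-- `p` is generated by semi-invariants. -/
def TV.Inv (X : TV C) (p : Ideal X.A) : Prop :=
  ∀ a : X.A, a ∈ p → ∀ (s : Finset (Fin m → ℤ)) (g : (Fin m → ℤ) → F),
    (a : K) = ∑ u ∈ s, C.mon (g u) u → ∀ u ∈ s, ∀ h : C.mon (g u) u ∈ X.A,
      (⟨C.mon (g u) u, h⟩ : X.A) ∈ p

/-- The unit of `K` given by a nonzero semi-invariant (junk value `1` if `g = 0`). -/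
def Ctx.monU (C : Ctx k F K m) (h : F × (Fin m → ℤ)) : Kˣ :=
  if H : C.mon h.1 h.2 ≠ 0 then Units.mk0 _ H else 1

/-- homogeneous local equation as a local equation. -/
def Ctx.toEq (C : Ctx k F K m) (γ : (F × (Fin m → ℤ)) →₀ ℝ) : Kˣ →₀ ℝ :=
  γ.mapDomain C.monU

/-- `B` contains the special places of the curve, of the ring `A` and of the equation `γ`. -/
structure GoodB (A : F → (Fin m → ℤ) → Prop) (γ : (F × (Fin m → ℤ)) →₀ ℝ)
    (B : Finset (Pl k F)) : Prop where
  kap_one : ∀ Q ∉ B, kap Q = 1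
  pos : ∀ Q ∉ B, ∀ g u, A g u → 0 ≤ ordAt Q g
  ne : ∀ h ∈ γ.support, h.1 ≠ 0
  gam : ∀ h ∈ γ.support, ∀ Q ∉ B, ordAt Q h.1 = 0

/-- the sum of the valuations `X Q`, `Q ∈ B`, of height `j` (of height `≥ j` for `Q = R`). -/
def sumHV (B : Finset (Pl k F)) (X : Pl k F → HV k F m) (R : Pl k F) (j : ℕ) : HV k F m :=
  ⟨R, (X R).n - j, fun i => ∑ Q ∈ B, (X Q).w i⟩

end

end Pool.Agent.MLD.C
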