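import Pool.Agent.Lib.MP_f23696_ag.C.Pla
import Pool.Agent.Lib.MP_f23696_ag.C.Plb
import Pool.Agent.Lib.MP_f23696_ag.Hahn

/-!
Expansion of the elements of a function field in a uniformiser (module EXP of the project LSC-C).
-/

namespace Pool.Agent.MLD.C

open scoped Classical
noncomputable section

universe u v w w'

namespace EXP

section VAL
variable {k : Type u} [Field k] {F : Type v} [Field F] [Algebra k F]

theorem ordAt_one (P : Pl k F) : ordAt P (1 : F) = 0 := by
  have := ordAt_C P (1 : k)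
  rwa [map_one] at this

theorem ordAt_neg (P : Pl k F) (g : F) : ordAt P (-g) = ordAt P g := by
  by_cases hg : g = 0
  · rw [hg, neg_zero]
  · have h1 : (-g) = algebraMap k F (-1) * g := by
      rw [map_neg, map_one, neg_one_mul]
    rw [h1, ordAt_mul P _ hg, ordAt_C, zero_add]
    rw [map_neg, map_one]
    exact neg_ne_zero.2 one_ne_zero

/-- integral elements form a valuation ring -/
def O (P : Pl k F) : ValuationSubring F where
  carrier := {g | 0 ≤ ordAt P g}
  mul_mem' := by
    intro a b ha hb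
    show 0 ≤ ordAt P (a * b)
    by_cases h1 : a = 0
    · rw [h1, zero_mul, ordAt_zero]
    by_cases h2 : b = 0
    · rw [h2, mul_zero, ordAt_zero]
    rw [ordAt_mul P h1 h2]
    exact add_nonneg ha hb
  one_mem' := by
    show 0 ≤ ordAt P 1
    rw [ordAt_one]
  add_mem' := by
    intro a b ha hb
    show 0 ≤ ordAt P (a + b)
    by_cases h1 : a = 0
    · rw [h1, zero_add]; exact hb
    by_cases h2 : b = 0
    · rw [h2, add_zero]; exact ha
    by_cases h3 : a + b = 0
    · rw [h3, ordAt_zero]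
    exact le_trans (le_min ha hb) (ordAt_add P h1 h2 h3)
  zero_mem' := by
    show 0 ≤ ordAt P 0
    rw [ordAt_zero]
  neg_mem' := by
    intro a ha
    show 0 ≤ ordAt P (-a)
    rw [ordAt_neg]
    exact ha
  mem_or_inv_mem' := by
    intro a
    show 0 ≤ ordAt P a ∨ 0 ≤ ordAt P a⁻¹
    rw [ordAt_inv]
    rcases le_total 0 (ordAt P a) with h | h
    · exact Or.inl h
    · exact Or.inr (by omega)

/-- elements of the maximal ideal -/
def Sm (P : Pl k F) (g : F) : Prop := g = 0 ∨ 0 < ordAt P g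

theorem sm_add {P : Pl k F} {a b : F} (ha : Sm P a) (hb : Sm P b) : Sm P (a + b) := by
  by_cases h1 : a = 0
  · rw [h1, zero_add]; exact hb
  by_cases h2 : b = 0
  · rw [h2, add_zero]; exact ha
  by_cases h3 : a + b = 0
  · exact Or.inl h3
  right
  have h4 := ha.resolve_left h1
  have h5 := hb.resolve_left h2
  exact lt_of_lt_of_le (lt_min h4 h5) (ordAt_add P h1 h2 h3)

theorem sm_neg {P : Pl k F} {a : F} (ha : Sm P a) : Sm P (-a) := by
  rcases ha with h | h
  · left; rw [h, neg_zero]
  · right; rwa [ordAt_neg]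

theorem sm_mul {P : Pl k F} {a b : F} (ha : Sm P a) (hb : 0 ≤ ordAt P b) : Sm P (a * b) := by
  by_cases h1 : a = 0
  · left; rw [h1, zero_mul]
  by_cases h2 : b = 0
  · left; rw [h2, mul_zero]
  right
  have h4 := ha.resolve_left h1
  rw [ordAt_mul P h1 h2]
  omega

theorem sm_alg {P : Pl k F} {c : k} (h : Sm P (algebraMap k F c)) : c = 0 := by
  rcases h with h | h
  · exact (map_eq_zero _).1 h
  · rw [ordAt_C] at h
    exact absurd h (lt_irrefl _)

/-- the value in `k` of an integral element -/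
def cv (P : Pl k F) (g : F) : k :=
  if h : ∃ c : k, Sm P (g - algebraMap k F c) then h.choose else 0

theorem cv_uniq {P : Pl k F} {g : F} {a : k} (h : Sm P (g - algebraMap k F a)) : cv P g = a := by
  have hex : ∃ c : k, Sm P (g - algebraMap k F c) := ⟨a, h⟩
  have h1 := hex.choose_spec
  have h2 : cv P g = hex.choose := dif_pos hex
  rw [h2]
  have h3 := sm_add h1 (sm_neg h)
  have h4 : g - algebraMap k F hex.choose + -(g - algebraMap k F a)
      = algebraMap k F (a - hex.choose) := by
    rw [map_sub]; ring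
  rw [h4] at h3
  have := sm_alg h3
  exact (sub_eq_zero.1 this).symm

theorem cv_alg (P : Pl k F) (a : k) : cv P (algebraMap k F a) = a :=
  cv_uniq (Or.inl (sub_self _))

theorem cv_sm {P : Pl k F} {g : F} (h : Sm P g) : cv P g = 0 :=
  cv_uniq (by rw [map_zero, sub_zero]; exact h)

end VAL

section RING
variable {k : Type u} [Field k] [IsAlgClosed k] {F : Type v} [Field F] [Algebra k F] [Cv k F]

theorem cv_spec {P : Pl k F} {g : F} (h : 0 ≤ ordAt P g) :
    Sm P (g - algebraMap k F (cv P g)) := by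
  have hex : ∃ c : k, Sm P (g - algebraMap k F c) := by
    by_cases hg : g = 0
    · exact ⟨0, Or.inl (by rw [hg, map_zero, sub_zero])⟩
    · obtain ⟨c, hc⟩ := ordAt_value P hg h
      rcases hc with hc | hc
      · exact ⟨c, Or.inl (by rw [hc, sub_self])⟩
      · exact ⟨c, Or.inr hc⟩
  have h2 : cv P g = hex.choose := dif_pos hex
  rw [h2]
  exact hex.choose_spec

theorem cv_add {P : Pl k F} {g h : F} (hg : 0 ≤ ordAt P g) (hh : 0 ≤ ordAt P h) :
    cv P (g + h) = cv P g + cv P h := by
  apply cv_uniq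
  have := sm_add (cv_spec hg) (cv_spec hh)
  convert this using 1
  rw [map_add]; ring

theorem cv_mul {P : Pl k F} {g h : F} (hg : 0 ≤ ordAt P g) (hh : 0 ≤ ordAt P h) :
    cv P (g * h) = cv P g * cv P h := by
  apply cv_uniq
  have h1 := sm_mul (cv_spec hg) hh
  have h2 := sm_mul (cv_spec hh) (b := algebraMap k F (cv P g)) (by rw [ordAt_C])
  have := sm_add h1 h2
  convert this using 1
  rw [map_mul]; ring

theorem sm_of_cv {P : Pl k F} {g : F} (hg : 0 ≤ ordAt P g) (h : cv P g = 0) : Sm P g := by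
  have := cv_spec hg
  rwa [h, map_zero, sub_zero] at this

variable {P : Pl k F} {t : F}

/-- the shift -/
def Tt (P : Pl k F) (t g : F) : F := (g - algebraMap k F (cv P g)) / t

theorem Tt_mem (ht0 : t ≠ 0) (ht : ordAt P t = 1) {g : F} (hg : 0 ≤ ordAt P g) :
    0 ≤ ordAt P (Tt P t g) := by
  unfold Tt
  by_cases h : g - algebraMap k F (cv P g) = 0
  · rw [h, zero_div, ordAt_zero]
  · have h1 := (cv_spec hg).resolve_left h
    rw [div_eq_mul_inv, ordAt_mul P h (inv_ne_zero ht0), ordAt_inv, ht]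
    omega

theorem Tt_add {g h : F} (hg : 0 ≤ ordAt P g) (hh : 0 ≤ ordAt P h) :
    Tt P t (g + h) = Tt P t g + Tt P t h := by
  unfold Tt
  rw [cv_add hg hh, map_add]
  ring

theorem Tt_mul (ht0 : t ≠ 0) {g h : F} (hg : 0 ≤ ordAt P g) (hh : 0 ≤ ordAt P h) :
    Tt P t (g * h) = algebraMap k F (cv P g) * Tt P t h + Tt P t g * h := by
  unfold Tt
  rw [cv_mul hg hh, map_mul]
  field_simp
  ring

/-- the expansion -/
def ex (P : Pl k F) (t g : F) : PowerSeries k := PowerSeries.mk fun i => cv P ((Tt P t)^[i] g)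

omit [IsAlgClosed k] [Cv k F] in
theorem coeff_ex_zero (g : F) : PowerSeries.coeff 0 (ex P t g) = cv P g := by
  unfold ex
  rw [PowerSeries.coeff_mk]
  rfl

omit [IsAlgClosed k] [Cv k F] in
theorem coeff_ex_succ (g : F) (i : ℕ) :
    PowerSeries.coeff (i + 1) (ex P t g) = PowerSeries.coeff i (ex P t (Tt P t g)) := by
  unfold ex
  rw [PowerSeries.coeff_mk, PowerSeries.coeff_mk, Function.iterate_succ_apply]

theorem ex_eq (g : F) : ex P t g = PowerSeries.C (cv P g) + PowerSeries.X * ex P t (Tt P t g) := by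
  ext i
  cases i with
  | zero =>
    rw [coeff_ex_zero, map_add, PowerSeries.coeff_zero_C, PowerSeries.coeff_zero_X_mul, add_zero]
  | succ i =>
    rw [coeff_ex_succ, map_add, PowerSeries.coeff_succ_X_mul, PowerSeries.coeff_C,
      if_neg (Nat.succ_ne_zero i), zero_add]

theorem ex_add (ht0 : t ≠ 0) (ht : ordAt P t = 1) {g h : F} (hg : 0 ≤ ordAt P g)
    (hh : 0 ≤ ordAt P h) : ex P t (g + h) = ex P t g + ex P t h := by
  ext i
  induction i generalizing g h with
  | zero => rw [map_add, coeff_ex_zero, coeff_ex_zero, coeff_ex_zero, cv_add hg hh]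
  | succ i ih =>
    rw [map_add, coeff_ex_succ, coeff_ex_succ, coeff_ex_succ, Tt_add hg hh,
      ih (Tt_mem ht0 ht hg) (Tt_mem ht0 ht hh), map_add]

theorem ex_alg (c : k) : ex P t (algebraMap k F c) = PowerSeries.C c := by
  have h0 : ∀ i, PowerSeries.coeff i (ex P t (0 : F)) = 0 := by
    intro i
    have hT : Tt P t (0 : F) = 0 := by
      unfold Tt
      rw [cv_sm (Or.inl rfl), map_zero, sub_zero, zero_div]
    induction i with
    | zero => rw [coeff_ex_zero, cv_sm (Or.inl rfl)]
    | succ i ih => rw [coeff_ex_succ, hT, ih]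
  have h1 : Tt P t (algebraMap k F c) = 0 := by
    unfold Tt
    rw [cv_alg, sub_self, zero_div]
  rw [ex_eq, h1, cv_alg]
  have : ex P t (0 : F) = 0 := by
    ext i
    rw [h0, map_zero]
  rw [this, mul_zero, add_zero]

theorem ex_mul (ht0 : t ≠ 0) (ht : ordAt P t = 1) {g h : F} (hg : 0 ≤ ordAt P g)
    (hh : 0 ≤ ordAt P h) : ex P t (g * h) = ex P t g * ex P t h := by
  ext i
  induction i generalizing g h with
  | zero =>
    rw [coeff_ex_zero, cv_mul hg hh, PowerSeries.coeff_zero_eq_constantCoeff_apply, map_mul,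
      ← PowerSeries.coeff_zero_eq_constantCoeff_apply, coeff_ex_zero,
      ← PowerSeries.coeff_zero_eq_constantCoeff_apply, coeff_ex_zero]
  | succ i ih =>
    have hTg := Tt_mem ht0 ht hg
    have hTh := Tt_mem ht0 ht hh
    have hc : 0 ≤ ordAt P (algebraMap k F (cv P g)) := by rw [ordAt_C]
    have m1 : 0 ≤ ordAt P (algebraMap k F (cv P g) * Tt P t h) := (O P).mul_mem _ _ hc hTh
    have m2 : 0 ≤ ordAt P (Tt P t g * h) := (O P).mul_mem _ _ hTg hh
    rw [coeff_ex_succ, Tt_mul ht0 hg hh, ex_add ht0 ht m1 m2, map_add, ih hTg hh,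
      ih hc hTh, ex_alg]
    conv_rhs => rw [ex_eq g, add_mul, mul_assoc, map_add, PowerSeries.coeff_succ_X_mul]
    rw [PowerSeries.coeff_C_mul, PowerSeries.coeff_C_mul, coeff_ex_succ]

/-- the expansion as a ring homomorphism -/
def exR (P : Pl k F) {t : F} (ht0 : t ≠ 0) (ht : ordAt P t = 1) : O P →+* PowerSeries k where
  toFun g := ex P t (g : F)
  map_one' := by
    have := ex_alg (P := P) (t := t) (1 : k)
    rw [map_one, map_one] at this
    exact this
  map_mul' a b := ex_mul ht0 ht a.2 b.2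
  map_zero' := by
    have := ex_alg (P := P) (t := t) (0 : k)
    rw [map_zero, map_zero] at this
    exact this
  map_add' a b := ex_add ht0 ht a.2 b.2

theorem ex_t (ht0 : t ≠ 0) (ht : ordAt P t = 1) : ex P t t = PowerSeries.X := by
  have hs : Sm P t := Or.inr (by rw [ht]; exact one_pos)
  have h1 : cv P t = 0 := cv_sm hs
  have h2 : Tt P t t = 1 := by
    unfold Tt
    rw [h1, map_zero, sub_zero, div_self ht0]
  have h3 := ex_alg (P := P) (t := t) (1 : k)
  rw [map_one, map_one] at h3
  rw [ex_eq, h1, h2, h3, map_zero, zero_add, mul_one]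

end RING

section STRETCH
variable {E : Type w} [Field E]

/-- `s ↦ s^n` -/
def stH (n : ℕ) : ℕ →+ ℤ := (AddMonoidHom.mulLeft (n : ℤ)).comp (Nat.castAddMonoidHom ℤ)

theorem stH_apply (n i : ℕ) : stH n i = (n : ℤ) * i := rfl

def st (E : Type w) [Field E] (n : ℕ) (hn : 1 ≤ n) : PowerSeries E →+* LaurentSeries E :=
  (HahnSeries.embDomainRingHom (stH n)
    (fun a b h => by
      rw [stH_apply, stH_apply] at h
      have hn' : (n : ℤ) ≠ 0 := by omega
      exact_mod_cast mul_left_cancel₀ hn' h)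
    (fun a b => by
      rw [stH_apply, stH_apply]
      have hn' : (0 : ℤ) < n := by omega
      rw [mul_le_mul_iff_right₀ hn']
      exact Nat.cast_le)).comp
    (RingEquiv.toRingHom HahnSeries.toPowerSeries.symm)

theorem st_coeff (n : ℕ) (hn : 1 ≤ n) (f : PowerSeries E) (i : ℕ) :
    (st E n hn f).coeff ((n : ℤ) * i) = PowerSeries.coeff i f := by
  unfold st
  exact (HahnSeries.embDomain_coeff (a := i)).trans (HahnSeries.coeff_toPowerSeries_symm)

theorem st_coeff_of_ne (n : ℕ) (hn : 1 ≤ n) (f : PowerSeries E) (j : ℤ)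
    (hj : ∀ i : ℕ, j ≠ (n : ℤ) * i) : (st E n hn f).coeff j = 0 := by
  unfold st
  exact HahnSeries.embDomain_of_notMem_range (by
    rintro ⟨i, hi⟩
    exact hj i hi.symm)

theorem st_C (n : ℕ) (hn : 1 ≤ n) (c : E) : st E n hn (PowerSeries.C c) = HahnSeries.C c := by
  ext j
  rw [HahnSeries.C_apply]
  by_cases hj : ∃ i : ℕ, j = (n : ℤ) * i
  · obtain ⟨i, hi⟩ := hj
    rw [hi, st_coeff, PowerSeries.coeff_C]
    by_cases h : i = 0
    · rw [if_pos h, h, Nat.cast_zero, mul_zero, HahnSeries.coeff_single_same]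
    · have h1 : (n : ℤ) * i ≠ 0 := by
        have hn0 : (n : ℤ) ≠ 0 := by omega
        have hi0 : (i : ℤ) ≠ 0 := by exact_mod_cast h
        exact mul_ne_zero hn0 hi0
      rw [if_neg h, HahnSeries.coeff_single_of_ne h1]
  · push Not at hj
    rw [st_coeff_of_ne n hn _ j hj, HahnSeries.coeff_single_of_ne]
    have := hj 0
    rwa [Nat.cast_zero, mul_zero] at this

end STRETCH

theorem heul_fn {k : Type u} [Field k] {Γ : Type w} [AddCommMonoid Γ] [PartialOrder Γ]
    [IsOrderedCancelAddMonoid Γ] {R : Type v} [CommRing R] [Algebra k R] (l : Γ →+ ℤ) :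
    ∃ E : HahnSeries Γ R → HahnSeries Γ R, (∀ a b, E (a + b) = E a + E b) ∧
      (∀ a b, E (a * b) = a * E b + b * E a) ∧
      ∀ f γ, (E f).coeff γ = (l γ : R) * f.coeff γ := by
  obtain ⟨D, hD⟩ := heul_exists (k := k) (Γ := Γ) (R := R) l
  exact ⟨fun f => D f, fun a b => map_add D a b, fun a b => D.leibniz a b, hD⟩

section DER
variable {k : Type u} [Field k] [CharZero k] {F : Type v} [Field F] [Algebra k F] [Cv k F]
  {L : Type w} [Field L]

/-- a derivation that kills `k` and `z` is zero -/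
theorem der_zero (ψ : F →+* L) (δ : F → L) (hadd : ∀ a b, δ (a + b) = δ a + δ b)
    (hmul : ∀ a b, δ (a * b) = ψ a * δ b + ψ b * δ a) (hk : ∀ c : k, δ (algebraMap k F c) = 0)
    (hz : δ (Cv.z k) = 0) (g : F) : δ g = 0 := by
  have h0 : δ 0 = 0 := by
    have := hk 0
    rwa [map_zero] at this
  have h1 : δ 1 = 0 := by
    have := hk 1
    rwa [map_one] at this
  let K0 : IntermediateField k F :=
    { carrier := {x | δ x = 0}
      mul_mem' := by
        intro a b ha hb
        show δ (a * b) = 0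
        rw [hmul, show δ a = 0 from ha, show δ b = 0 from hb, mul_zero, mul_zero, add_zero]
      add_mem' := by
        intro a b ha hb
        show δ (a + b) = 0
        rw [hadd, show δ a = 0 from ha, show δ b = 0 from hb, add_zero]
      algebraMap_mem' := fun c => hk c
      inv_mem' := by
        intro a ha
        show δ a⁻¹ = 0
        by_cases h : a = 0
        · rw [h, inv_zero, h0]
        · have h2 := hmul a a⁻¹
          rw [mul_inv_cancel₀ h, h1, show δ a = 0 from ha, mul_zero, add_zero] at h2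
          exact ((mul_eq_zero.1 h2.symm).resolve_left ((map_ne_zero ψ).2 h)) }
  have hK0 : IntermediateField.adjoin k {(Cv.z k : F)} ≤ K0 := by
    rw [IntermediateField.adjoin_le_iff]
    rintro x hx
    rw [Set.mem_singleton_iff] at hx
    rw [hx]
    exact hz
  have hmem : ∀ x : K0, δ (x : F) = 0 := fun x => x.2
  have halg : IsIntegral K0 g := by
    have := Cv.fin (k := k) (F := F)
    have h2 : IsIntegral (IntermediateField.adjoin k {(Cv.z k : F)}) g := IsIntegral.of_finite _ g
    obtain ⟨p, hp, hp2⟩ := h2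
    refine ⟨p.map (IntermediateField.inclusion hK0).toRingHom, hp.map _, ?_⟩
    rw [Polynomial.eval₂_map]
    exact hp2
  have hpoly : ∀ p : Polynomial K0, δ (Polynomial.aeval g p) =
      ψ (Polynomial.aeval g (Polynomial.derivative p)) * δ g := by
    intro p
    induction p using Polynomial.induction_on' with
    | add p q hp hq =>
      rw [map_add, hadd, hp, hq, Polynomial.derivative_add, map_add, map_add, add_mul]
    | monomial i a =>
      have hpow : ∀ j : ℕ, δ (g ^ j) = (j : L) * ψ g ^ (j - 1) * δ g := by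
        intro j
        induction j with
        | zero => rw [pow_zero, h1, Nat.cast_zero, zero_mul, zero_mul]
        | succ j ih =>
          rw [pow_succ, hmul, ih]
          cases j with
          | zero => simp
          | succ j =>
            simp only [Nat.add_sub_cancel, map_pow, Nat.cast_add, Nat.cast_one]
            ring
      rw [Polynomial.derivative_monomial, Polynomial.aeval_monomial, Polynomial.aeval_monomial,
        hmul, hpow]
      have h3 : δ (algebraMap K0 F a) = 0 := hmem a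
      rw [h3, mul_zero, add_zero, map_mul, map_mul, map_mul, map_pow, map_natCast, map_natCast]
      ring
  have : CharZero K0 := by
    have : CharZero F := charZero_of_injective_algebraMap (algebraMap k F).injective
    exact inferInstance
  have h4 := hpoly (minpoly K0 g)
  rw [minpoly.aeval, h0] at h4
  have hsep : (minpoly K0 g).Separable := (minpoly.irreducible halg).separable
  have h5 := hsep.aeval_derivative_ne_zero (minpoly.aeval K0 g)
  exact (mul_eq_zero.1 h4.symm).resolve_left ((map_ne_zero ψ).2 h5)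

end DER

end EXP

section MAIN
variable {k : Type u} [Field k] [IsAlgClosed k] {F : Type v} [Field F] [Algebra k F] [Cv k F]

/-- expansion in a uniformiser `t = s^n` (EXP) -/
theorem expand [CharZero k] (P : Pl k F) (n : ℕ) (hn : 1 ≤ n) (E : Type w) [Field E]
    [Algebra k E] :
    ∃ ψ : F →ₐ[k] LaurentSeries E, (∀ g, g ≠ 0 → (ψ g).order = n * ordAt P g) ∧
      (∀ g i, ∃ c : k, (ψ g).coeff i = algebraMap k E c) ∧
      ∀ f : LaurentSeries E, (∀ i : ℤ, f.coeff i = (i : E) * (ψ (Cv.z k)).coeff i) →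
        f ≠ 0 ∧ f.order = n * kap P := by
  have hcE : CharZero E := charZero_of_injective_algebraMap (algebraMap k E).injective
  obtain ⟨ht0, ht⟩ := Classical.choose_spec P.exists_ord_eq_one
  set t := Classical.choose P.exists_ord_eq_one with htdef
  have ht1 : ordAt P t = 1 := ht
  have hn0 : (n : ℤ) ≠ 0 := by omega
  let θ : EXP.O P →+* LaurentSeries E :=
    (EXP.st E n hn).comp ((PowerSeries.map (algebraMap k E)).comp (EXP.exR P ht0 ht1))
  have hθ : ∀ g : EXP.O P, θ g =
      EXP.st E n hn (PowerSeries.map (algebraMap k E) (EXP.ex P t (g : F))) := fun g => rfl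
  have hθc : ∀ (g : EXP.O P) (i : ℕ), (θ g).coeff ((n : ℤ) * i) =
      algebraMap k E (PowerSeries.coeff i (EXP.ex P t (g : F))) := by
    intro g i
    rw [hθ, EXP.st_coeff, PowerSeries.coeff_map]
  have hθn : ∀ (g : EXP.O P) (j : ℤ), (∀ i : ℕ, j ≠ (n : ℤ) * i) → (θ g).coeff j = 0 := by
    intro g j hj
    rw [hθ]
    exact EXP.st_coeff_of_ne n hn _ j hj
  -- units
  have hθu : ∀ g : EXP.O P, (g : F) ≠ 0 → ordAt P (g : F) = 0 → θ g ≠ 0 ∧ (θ g).order = 0 := by
    intro g hg0 hg
    have h0 : (θ g).coeff 0 ≠ 0 := by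
      have h1 := hθc g 0
      rw [Nat.cast_zero, mul_zero] at h1
      rw [h1, Ne, map_eq_zero, EXP.coeff_ex_zero]
      intro h2
      have h3 := EXP.sm_of_cv g.2 h2
      rcases h3 with h3 | h3
      · exact hg0 h3
      · rw [hg] at h3
        exact lt_irrefl _ h3
    have hne : θ g ≠ 0 := by
      intro h
      rw [h] at h0
      exact h0 rfl
    refine ⟨hne, le_antisymm (HahnSeries.order_le_of_coeff_ne_zero h0) ?_⟩
    rw [HahnSeries.le_order_iff_forall hne]
    intro j hj
    refine hθn g j fun i hi => ?_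
    have : (0 : ℤ) ≤ (n : ℤ) * i := by positivity
    omega
  have htO : (0 : ℤ) ≤ ordAt P t := by rw [ht1]; exact zero_le_one
  have hθt : θ ⟨t, htO⟩ = HahnSeries.single (n : ℤ) 1 := by
    ext j
    by_cases hj : ∃ i : ℕ, j = (n : ℤ) * i
    · obtain ⟨i, hi⟩ := hj
      rw [hi, hθc]
      show algebraMap k E (PowerSeries.coeff i (EXP.ex P t t)) = _
      rw [EXP.ex_t ht0 ht1, PowerSeries.coeff_X]
      by_cases h1 : i = 1
      · rw [if_pos h1, h1, Nat.cast_one, mul_one, HahnSeries.coeff_single_same, map_one]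
      · rw [if_neg h1, HahnSeries.coeff_single_of_ne, map_zero]
        intro h2
        apply h1
        have h3 : (n : ℤ) * i = n * 1 := by rw [h2, mul_one]
        exact_mod_cast mul_left_cancel₀ hn0 h3
    · push Not at hj
      rw [hθn _ j hj, HahnSeries.coeff_single_of_ne]
      intro h2
      apply hj 1
      rw [h2, Nat.cast_one, mul_one]
  -- injectivity
  have hpow : ∀ a : ℕ, ordAt P (t ^ a) = a := by
    intro a
    have := PLA.o_pow (o := ordAt P) (fun a b ha hb => ordAt_mul P ha hb) ht0 a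
    rw [this, ht1, mul_one]
  have hinj : Function.Injective θ := by
    rw [injective_iff_map_eq_zero]
    intro g hg
    by_contra hne
    have hg0 : (g : F) ≠ 0 := fun h => hne (Subtype.ext h)
    obtain ⟨a, ha⟩ := Int.eq_ofNat_of_zero_le (show 0 ≤ ordAt P (g : F) from g.2)
    have hu0 : (g : F) * (t ^ a)⁻¹ ≠ 0 := mul_ne_zero hg0 (inv_ne_zero (pow_ne_zero a ht0))
    have hu : ordAt P ((g : F) * (t ^ a)⁻¹) = 0 := by
      rw [ordAt_mul P hg0 (inv_ne_zero (pow_ne_zero a ht0)), ordAt_inv, hpow, ha]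
      exact add_neg_cancel _
    have hfac : g = (⟨t, htO⟩ : EXP.O P) ^ a * ⟨(g : F) * (t ^ a)⁻¹, hu.ge⟩ := by
      apply Subtype.ext
      show (g : F) = t ^ a * ((g : F) * (t ^ a)⁻¹)
      rw [mul_comm (g : F), mul_inv_cancel_left₀ (pow_ne_zero a ht0)]
    rw [hfac, map_mul, map_pow, hθt] at hg
    rcases mul_eq_zero.1 hg with h | h
    · exact (pow_ne_zero a (HahnSeries.single_ne_zero one_ne_zero)) h
    · exact (hθu ⟨_, hu.ge⟩ hu0 hu).1 h
  let ψ0 : F →+* LaurentSeries E := IsFractionRing.lift (A := EXP.O P) hinj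
  have hψ0 : ∀ g : EXP.O P, ψ0 (g : F) = θ g := fun g => IsFractionRing.lift_algebraMap hinj g
  have hcomm : ∀ c : k, ψ0 (algebraMap k F c) = algebraMap k (LaurentSeries E) c := by
    intro c
    have hc : (0 : ℤ) ≤ ordAt P (algebraMap k F c) := by rw [ordAt_C]
    have h1 := hψ0 ⟨algebraMap k F c, hc⟩
    rw [hθ] at h1
    have h2 : EXP.st E n hn (PowerSeries.map (algebraMap k E) (EXP.ex P t (algebraMap k F c))) =
        HahnSeries.C (algebraMap k E c) := by
      rw [EXP.ex_alg, PowerSeries.map_C]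
      exact EXP.st_C n hn _
    exact (h1.trans h2).trans (by
      rw [HahnSeries.algebraMap_apply', PowerSeries.algebraMap_apply, HahnSeries.ofPowerSeries_C])
  let ψ : F →ₐ[k] LaurentSeries E := { ψ0 with commutes' := hcomm }
  have hψ : ∀ g : EXP.O P, ψ (g : F) = θ g := hψ0
  have hψt : ψ t = HahnSeries.single (n : ℤ) 1 := (hψ ⟨t, htO⟩).trans hθt
  have hψne : ∀ g : F, g ≠ 0 → ψ g ≠ 0 := fun g hg => (map_ne_zero ψ).2 hg
  have hmulo : ∀ a b : F, a ≠ 0 → b ≠ 0 → (ψ (a * b)).order = (ψ a).order + (ψ b).order := by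
    intro a b ha hb
    rw [map_mul]
    exact HahnSeries.order_mul (hψne a ha) (hψne b hb)
  have hord : ∀ g, g ≠ 0 → (ψ g).order = n * ordAt P g := by
    intro g hg
    have htz : t ^ ordAt P g ≠ 0 := zpow_ne_zero _ ht0
    have hu0 : g * (t ^ ordAt P g)⁻¹ ≠ 0 := mul_ne_zero hg (inv_ne_zero htz)
    have hu : ordAt P (g * (t ^ ordAt P g)⁻¹) = 0 := by
      rw [ordAt_mul P hg (inv_ne_zero htz), ordAt_inv,
        PLA.o_zpow (o := ordAt P) (fun a b ha hb => ordAt_mul P ha hb) ht0, ht1, mul_one]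
      exact add_neg_cancel _
    have hfac : g = g * (t ^ ordAt P g)⁻¹ * t ^ ordAt P g := by
      rw [mul_assoc, inv_mul_cancel₀ htz, mul_one]
    have h1 : (ψ (g * (t ^ ordAt P g)⁻¹)).order = 0 := by
      have h2 : ψ (g * (t ^ ordAt P g)⁻¹) = θ ⟨g * (t ^ ordAt P g)⁻¹, hu.ge⟩ := hψ ⟨_, hu.ge⟩
      rw [h2]
      exact (hθu ⟨_, hu.ge⟩ hu0 hu).2
    have h3 : (ψ t).order = n := by
      rw [hψt]
      exact HahnSeries.order_single one_ne_zero
    have h4 : (ψ g).order = (ψ (g * (t ^ ordAt P g)⁻¹)).order + (ψ (t ^ ordAt P g)).order := by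
      conv_lhs => rw [hfac]
      exact hmulo _ _ hu0 htz
    rw [h4, h1, PLA.o_zpow (o := fun g => (ψ g).order) hmulo ht0, h3, zero_add, mul_comm]
  have hcoef : ∀ g i, ∃ c : k, (ψ g).coeff i = algebraMap k E c := by
    intro g i
    -- integral case
    have hint : ∀ g : EXP.O P, ∀ i : ℤ, ∃ c : k, (ψ (g : F)).coeff i = algebraMap k E c := by
      intro g i
      rw [hψ]
      by_cases hi : ∃ j : ℕ, i = (n : ℤ) * j
      · obtain ⟨j, hj⟩ := hi
        exact ⟨_, by rw [hj, hθc]⟩
      · push Not at hi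
        exact ⟨0, by rw [hθn _ i hi, map_zero]⟩
    by_cases hg : g = 0
    · exact ⟨0, by rw [hg, map_zero, map_zero]; rfl⟩
    set N := (ordAt P g).natAbs with hN
    have hpos : 0 ≤ ordAt P (t ^ N * g) := by
      rw [ordAt_mul P (pow_ne_zero N ht0) hg, hpow]
      omega
    have h1 := hint ⟨t ^ N * g, hpos⟩ (i + (N • (n : ℤ)))
    obtain ⟨c, hc⟩ := h1
    refine ⟨c, ?_⟩
    rw [← hc]
    show _ = (ψ (t ^ N * g)).coeff _
    rw [map_mul, map_pow, hψt]
    have h2 : (HahnSeries.single (n : ℤ) (1 : E)) ^ N = HahnSeries.single (N • (n : ℤ)) 1 := by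
      rw [HahnSeries.single_pow, one_pow]
    have h3 : ((HahnSeries.single (n : ℤ) (1 : E)) ^ N * ψ g).coeff (i + N • (n : ℤ)) =
        1 * (ψ g).coeff i := by
      rw [h2]
      exact HahnSeries.coeff_single_mul_add
    exact (one_mul _).symm.trans h3.symm
  refine ⟨ψ, hord, hcoef, ?_⟩
  intro f hf
  obtain ⟨D, hDadd, hDmul, hD⟩ := EXP.heul_fn (k := k) (Γ := ℤ) (R := E) (AddMonoidHom.id ℤ)
  have hDc : ∀ (a : LaurentSeries E) (i : ℤ), (D a).coeff i = (i : E) * a.coeff i :=
    fun a i => hD a i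
  have hfz : f = D (ψ (Cv.z k)) := by
    ext i
    rw [hf, hDc]
  have hDk : ∀ c : k, D (ψ (algebraMap k F c)) = 0 := by
    intro c
    ext i
    rw [hDc]
    have h1 : ψ (algebraMap k F c) = HahnSeries.C (algebraMap k E c) := by
      rw [AlgHom.commutes, HahnSeries.algebraMap_apply', PowerSeries.algebraMap_apply,
        HahnSeries.ofPowerSeries_C]
    rw [h1]
    by_cases hi : i = 0
    · rw [hi, Int.cast_zero, zero_mul]; rfl
    · have h2 : (HahnSeries.C (algebraMap k E c) : LaurentSeries E).coeff i = 0 := by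
        rw [HahnSeries.C_apply]
        exact HahnSeries.coeff_single_of_ne hi
      rw [h2, mul_zero]; rfl
  have hdz : Cv.d (k := k) (F := F) (Cv.z k) = 1 := Cv.dz
  have key : ∀ g : F, D (ψ g) = ψ (Cv.d (k := k) (F := F) g) * f := by
    intro g
    have h1 := EXP.der_zero (k := k) ψ.toRingHom
      (fun g => D (ψ g) - ψ (Cv.d (k := k) (F := F) g) * f) ?_ ?_ ?_ ?_ g
    · exact sub_eq_zero.1 h1
    · intro a b
      show D (ψ (a + b)) - ψ (Cv.d (k := k) (F := F) (a + b)) * f = _
      rw [map_add, map_add, map_add, hDadd, add_mul]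
      exact add_sub_add_comm _ _ _ _
    · intro a b
      show D (ψ (a * b)) - ψ (Cv.d (k := k) (F := F) (a * b)) * f =
        ψ a * (D (ψ b) - ψ (Cv.d (k := k) (F := F) b) * f) +
          ψ b * (D (ψ a) - ψ (Cv.d (k := k) (F := F) a) * f)
      rw [Derivation.leibniz, map_mul, hDmul, map_add, smul_eq_mul, smul_eq_mul, map_mul, map_mul]
      ring
    · intro c
      show D (ψ (algebraMap k F c)) - ψ (Cv.d (k := k) (F := F) (algebraMap k F c)) * f = 0
      rw [hDk, Derivation.map_algebraMap, map_zero, zero_mul, sub_zero]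
    · show D (ψ (Cv.z k)) - ψ (Cv.d (k := k) (F := F) (Cv.z k)) * f = 0
      rw [hdz, map_one, one_mul, hfz, sub_self]
  have hkt := key t
  have hDt : D (ψ t) = HahnSeries.single (n : ℤ) (n : E) := by
    ext i
    rw [hDc, hψt]
    by_cases hi : i = n
    · rw [hi, HahnSeries.coeff_single_same, HahnSeries.coeff_single_same, mul_one, Int.cast_natCast]
    · rw [HahnSeries.coeff_single_of_ne hi, HahnSeries.coeff_single_of_ne hi, mul_zero]
  have hnE : (n : E) ≠ 0 := by
    have : n ≠ 0 := by omega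
    exact_mod_cast this
  have hprod : ψ (Cv.d (k := k) (F := F) t) * f ≠ 0 := by
    rw [← hkt, hDt]
    exact HahnSeries.single_ne_zero hnE
  have hf0 : f ≠ 0 := right_ne_zero_of_mul hprod
  have hd0 : ψ (Cv.d (k := k) (F := F) t) ≠ 0 := left_ne_zero_of_mul hprod
  have hdt0 : Cv.d (k := k) (F := F) t ≠ 0 := by
    intro h
    rw [h, map_zero] at hd0
    exact hd0 rfl
  refine ⟨hf0, ?_⟩
  have h1 : (ψ (Cv.d (k := k) (F := F) t) * f).order =
      (ψ (Cv.d (k := k) (F := F) t)).order + f.order := HahnSeries.order_mul hd0 hf0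
  rw [← hkt, hDt, hord _ hdt0] at h1
  have h2 : (HahnSeries.single (n : ℤ) (n : E) : LaurentSeries E).order = n :=
    HahnSeries.order_single hnE
  rw [h2] at h1
  unfold kap
  rw [← htdef, mul_sub, mul_one]
  linarith

end MAIN

end

end Pool.Agent.MLD.C
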