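import Pool.Agent.Lib.MP_f23696_ag.C.Ctx

/-!
# The graded algebra over a curve (module GR of project LSC-C)

Every element of the coordinate ring `A` is a finite sum of semi-invariants of `A`, the components
are unique, and the semi-invariants of `A` are sums of monomials in the generators.
-/

set_option autoImplicit false

namespace Pool.Agent.MLD.C

open scoped Classical
noncomputable section

universe u v w w'

section GR
variable {k : Type u} [Field k] {F : Type v} [Field F] [Algebra k F] [Cv k F] {m : ℕ}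
  {K : Type w} [Field K] [Algebra k K] {C : Ctx k F K m}

theorem mon_mul (C : Ctx k F K m) (g h : F) (u t : Fin m → ℤ) :
    C.mon (g * h) (u + t) = C.mon g u * C.mon h t := by
  unfold Ctx.mon
  rw [map_mul]
  have h1 : ∏ i, C.x i ^ (u + t) i = (∏ i, C.x i ^ u i) * ∏ i, C.x i ^ t i := by
    rw [← Finset.prod_mul_distrib]
    exact Finset.prod_congr rfl fun i _ => by rw [Pi.add_apply, zpow_add₀ (C.x_ne i)]
  rw [h1]; ring

theorem mon_ne_zero (C : Ctx k F K m) {g : F} (hg : g ≠ 0) (u : Fin m → ℤ) :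
    C.mon g u ≠ 0 := by
  unfold Ctx.mon
  refine mul_ne_zero ?_ (Finset.prod_ne_zero_iff.2 fun i _ => zpow_ne_zero _ (C.x_ne i))
  intro h
  exact hg ((map_eq_zero C.ι).1 h)

namespace GR

theorem mon_one (C : Ctx k F K m) : C.mon 1 0 = 1 := by
  simp [Ctx.mon]

theorem mon_C (C : Ctx k F K m) (c : k) : C.mon (algebraMap k F c) 0 = algebraMap k K c := by
  simp [Ctx.mon]

/-- `mon` in a fixed degree -/
def monHom (C : Ctx k F K m) (u : Fin m → ℤ) : F →+ K where
  toFun g := C.mon g u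
  map_zero' := by simp [Ctx.mon]
  map_add' g h := by simp only [Ctx.mon, map_add, add_mul]

theorem monHom_apply (C : Ctx k F K m) (u : Fin m → ℤ) (g : F) :
    monHom C u g = C.mon g u := rfl

/-- the element with given components -/
def ev (C : Ctx k F K m) : ((Fin m → ℤ) →₀ F) →+ K := Finsupp.liftAddHom (monHom C)

theorem ev_single (C : Ctx k F K m) (u : Fin m → ℤ) (g : F) :
    ev C (Finsupp.single u g) = C.mon g u := by
  rw [ev, Finsupp.liftAddHom_apply_single, monHom_apply]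

theorem ev_apply (C : Ctx k F K m) (Φ : (Fin m → ℤ) →₀ F) :
    ev C Φ = ∑ u ∈ Φ.support, C.mon (Φ u) u := rfl

theorem ev_inj (C : Ctx k F K m) : Function.Injective (ev C) := by
  rw [injective_iff_map_eq_zero]
  intro Φ hF
  have h1 := C.li Φ.support Φ hF
  ext1 u
  by_contra hu
  exact hu (h1 u (Finsupp.mem_support_iff.2 hu))

theorem mon_prod (C : Ctx k F K m) (α : (F × (Fin m → ℤ)) →₀ ℕ) :
    (α.prod fun h a => C.mon h.1 h.2 ^ a) =
      C.mon (α.prod fun h a => h.1 ^ a) (α.sum fun h a => a • h.2) := by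
  have hpow : ∀ (g : F) (u : Fin m → ℤ) (a : ℕ), C.mon g u ^ a = C.mon (g ^ a) (a • u) := by
    intro g u a
    induction a with
    | zero => simp [mon_one]
    | succ a ih => rw [pow_succ, ih, pow_succ, succ_nsmul, mon_mul]
  unfold Finsupp.prod Finsupp.sum
  induction α.support using Finset.induction_on with
  | empty => simp [mon_one]
  | insert h s hs ih =>
    rw [Finset.prod_insert hs, Finset.prod_insert hs, Finset.sum_insert hs, mon_mul, ih]
    congr 1
    exact hpow h.1 h.2 (α h)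

/-- every element of `A` is a combination of monomials in the generators -/
theorem expand (X : TV C) (a : K) (ha : a ∈ X.A) :
    ∃ p : MvPolynomial (F × (Fin m → ℤ)) k,
      (∀ α ∈ p.support, α.support ⊆ X.gens) ∧
      a = ∑ α ∈ p.support, C.mon (algebraMap k F (p.coeff α) * α.prod fun h a => h.1 ^ a)
        (α.sum fun h a => a • h.2) := by
  set f : F × (Fin m → ℤ) → K := fun h => C.mon h.1 h.2 with hf
  have h1 : X.A = (MvPolynomial.supported k (X.gens : Set (F × (Fin m → ℤ)))).map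
      (MvPolynomial.aeval f) := by
    rw [MvPolynomial.supported, AlgHom.map_adjoin, ← X.adj, ← Set.image_comp]
    congr 1
    refine Set.image_congr fun h _ => ?_
    simp [hf]
  rw [h1] at ha
  obtain ⟨p, hp, rfl⟩ := ha
  refine ⟨p, ?_, ?_⟩
  · intro α hα
    have h2 : (p.vars : Set (F × (Fin m → ℤ))) ⊆ X.gens := MvPolynomial.mem_supported.1 hp
    intro h hh
    have h3 : h ∈ p.vars := MvPolynomial.mem_vars_iff_mem_support h |>.2 ⟨α, hα, hh⟩
    exact_mod_cast h2 (Finset.mem_coe.2 h3)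
  · change (MvPolynomial.aeval f) p = _
    rw [MvPolynomial.aeval_def, MvPolynomial.eval₂_eq]
    refine Finset.sum_congr rfl fun α _ => ?_
    have h3 : (∏ h ∈ α.support, f h ^ α h) =
        C.mon (α.prod fun h a => h.1 ^ a) (α.sum fun h a => a • h.2) := mon_prod C α
    rw [h3, ← mon_C C, ← mon_mul, zero_add]

/-- expansion of an element of `A` into its components, which are sums of monomials -/
theorem comp (X : TV C) (Φ : (Fin m → ℤ) →₀ F) (hF : ev C Φ ∈ X.A) :
    ∃ p : MvPolynomial (F × (Fin m → ℤ)) k,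
      (∀ α ∈ p.support, α.support ⊆ X.gens) ∧
      ∀ u, Φ u = ∑ α ∈ p.support.filter fun α => (α.sum fun h a => a • h.2) = u,
        algebraMap k F (p.coeff α) * α.prod fun h a => h.1 ^ a := by
  obtain ⟨p, hp, hs⟩ := expand X _ hF
  refine ⟨p, hp, fun u => ?_⟩
  have h1 : ev C Φ = ev C (∑ α ∈ p.support, Finsupp.single (α.sum fun h a => a • h.2)
      (algebraMap k F (p.coeff α) * α.prod fun h a => h.1 ^ a)) := by
    rw [hs, map_sum]
    exact Finset.sum_congr rfl fun α _ => (ev_single C _ _).symm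
  have h2 := ev_inj C h1
  rw [h2, Finsupp.finsetSum_apply, Finset.sum_filter]
  refine Finset.sum_congr rfl fun α _ => ?_
  rw [Finsupp.single_apply]

theorem mem_of_comp (X : TV C) (p : MvPolynomial (F × (Fin m → ℤ)) k)
    (hp : ∀ α ∈ p.support, α.support ⊆ X.gens) (u : Fin m → ℤ) :
    C.mon (∑ α ∈ p.support.filter fun α => (α.sum fun h a => a • h.2) = u,
      algebraMap k F (p.coeff α) * α.prod fun h a => h.1 ^ a) u ∈ X.A := by
  rw [← monHom_apply, map_sum]
  refine sum_mem fun α hα => ?_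
  obtain ⟨h1, h2⟩ := Finset.mem_filter.1 hα
  rw [monHom_apply]
  have h3 : C.mon (algebraMap k F (p.coeff α) * α.prod fun h a => h.1 ^ a) u =
      algebraMap k K (p.coeff α) * α.prod fun h a => C.mon h.1 h.2 ^ a := by
    rw [mon_prod, ← mon_C C, ← mon_mul, zero_add, h2]
  rw [h3]
  refine mul_mem (Subalgebra.algebraMap_mem _ _) (prod_mem fun h hh => pow_mem ?_ _)
  rw [← X.adj]
  exact Algebra.subset_adjoin ⟨h, by exact_mod_cast hp α h1 hh, rfl⟩

theorem comp_mem (X : TV C) (Φ : (Fin m → ℤ) →₀ F) (hF : ev C Φ ∈ X.A) (u : Fin m → ℤ) :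
    C.mon (Φ u) u ∈ X.A := by
  obtain ⟨p, hp, hs⟩ := comp X Φ hF
  rw [hs u]
  exact mem_of_comp X p hp u

end GR

open GR

theorem mon_inj (C : Ctx k F K m) {g h : F} {u t : Fin m → ℤ} (hg : g ≠ 0)
    (he : C.mon g u = C.mon h t) : g = h ∧ u = t := by
  rw [← ev_single, ← ev_single] at he
  have h1 := ev_inj C he
  rcases (Finsupp.single_eq_single_iff _ _ _ _).1 h1 with h2 | h2
  · exact ⟨h2.2, h2.1⟩
  · exact absurd h2.1 hg

theorem gr1 (X : TV C) (a : X.A) : ∃ (s : Finset (Fin m → ℤ)) (g : (Fin m → ℤ) → F),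
    (a : K) = ∑ u ∈ s, C.mon (g u) u ∧ ∀ u ∈ s, X.hA (g u) u := by
  obtain ⟨p, hp, hs⟩ := expand X a.1 a.2
  set Φ : (Fin m → ℤ) →₀ F := ∑ α ∈ p.support,
    Finsupp.single (α.sum fun h a => a • h.2)
      (algebraMap k F (p.coeff α) * α.prod fun h a => h.1 ^ a) with hF
  have h1 : ev C Φ = a := by
    rw [hF, map_sum, hs]
    exact Finset.sum_congr rfl fun α _ => ev_single C _ _
  refine ⟨Φ.support, Φ, ?_, ?_⟩
  · rw [← h1, ev_apply]
  · intro u hu
    exact ⟨Finsupp.mem_support_iff.1 hu, comp_mem X Φ (by rw [h1]; exact a.2) u⟩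

theorem gr2 (X : TV C) (s : Finset (Fin m → ℤ)) (g : (Fin m → ℤ) → F)
    (h : ∑ u ∈ s, C.mon (g u) u ∈ X.A) : ∀ u ∈ s, C.mon (g u) u ∈ X.A := by
  intro u hu
  set Φ : (Fin m → ℤ) →₀ F := ∑ t ∈ s, Finsupp.single t (g t) with hF
  have h1 : ev C Φ = ∑ u ∈ s, C.mon (g u) u := by
    rw [hF, map_sum]
    exact Finset.sum_congr rfl fun t _ => ev_single C _ _
  have h2 : Φ u = g u := by
    rw [hF, Finsupp.finsetSum_apply]
    simp only [Finsupp.single_apply]
    rw [Finset.sum_ite_eq' s u, if_pos hu]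
  rw [← h2]
  exact comp_mem X Φ (by rw [h1]; exact h) u

theorem gr3 (X : TV C) (g : F) (u : Fin m → ℤ) (h : X.hA g u) :
    ∃ (T : Finset ((F × (Fin m → ℤ)) →₀ ℕ)) (c : ((F × (Fin m → ℤ)) →₀ ℕ) → k),
      (∀ α ∈ T, α.support ⊆ X.gens ∧ (α.sum fun h a => a • h.2) = u) ∧
      g = ∑ α ∈ T, algebraMap k F (c α) * α.prod fun h a => h.1 ^ a := by
  obtain ⟨p, hp, hs⟩ := comp X (Finsupp.single u g) (by rw [ev_single]; exact h.2)
  refine ⟨p.support.filter fun α => (α.sum fun h a => a • h.2) = u, fun α => p.coeff α, ?_, ?_⟩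
  · intro α hα
    obtain ⟨h1, h2⟩ := Finset.mem_filter.1 hα
    exact ⟨hp α h1, h2⟩
  · have := hs u
    rwa [Finsupp.single_eq_same] at this

theorem ratio (X : TV C) {g : F} (hg : g ≠ 0) (u : Fin m → ℤ) :
    ∃ g₁ g₂ u₁ u₂, X.hA g₁ u₁ ∧ X.hA g₂ u₂ ∧ g₁ = g * g₂ ∧ u₁ = u + u₂ := by
  obtain ⟨a, b, hb, hab⟩ := X.frac (C.mon g u)
  obtain ⟨s, h, hs, hA⟩ := gr1 X b
  have hne : s.Nonempty := by
    rw [Finset.nonempty_iff_ne_empty]
    rintro rfl
    rw [Finset.sum_empty] at hs
    exact hb hs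
  obtain ⟨t, ht⟩ := hne
  have h1 : (a : K) = ∑ t ∈ s, C.mon (g * h t) (u + t) := by
    have h2 : (a : K) = C.mon g u * b := by rw [hab]; field_simp
    rw [h2, hs, Finset.mul_sum]
    exact Finset.sum_congr rfl fun t _ => (mon_mul C _ _ _ _).symm
  have h3 : ∑ t' ∈ s.map (addLeftEmbedding u), C.mon (g * h (t' - u)) t' ∈ X.A := by
    rw [Finset.sum_map]
    have h4 : ∑ t ∈ s, C.mon (g * h (addLeftEmbedding u t - u)) (addLeftEmbedding u t) = a := by
      rw [h1]
      refine Finset.sum_congr rfl fun t _ => ?_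
      simp only [addLeftEmbedding_apply, add_sub_cancel_left]
    rw [h4]
    exact a.2
  have h5 := gr2 X _ _ h3 (u + t) (Finset.mem_map.2 ⟨t, ht, rfl⟩)
  rw [add_sub_cancel_left] at h5
  exact ⟨g * h t, h t, u + t, t, ⟨mul_ne_zero hg (hA t ht).1, h5⟩, hA t ht, rfl, rfl⟩

theorem noeth (X : TV C) : IsNoetherianRing X.A := by
  have h1 : X.A.FG := by
    rw [← X.adj]
    have h2 : ((fun h : F × (Fin m → ℤ) => C.mon h.1 h.2) '' (X.gens : Set _)) =
        ((X.gens.image fun h : F × (Fin m → ℤ) => C.mon h.1 h.2 : Finset K) : Set K) := by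
      rw [Finset.coe_image]
    rw [h2]
    exact Subalgebra.fg_adjoin_finset _
  have h3 : Algebra.FiniteType k X.A := (Subalgebra.fg_iff_finiteType _).1 h1
  exact Algebra.FiniteType.isNoetherianRing k X.A

end GR

end

end Pool.Agent.MLD.C
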