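import Pool.Agent.Lib.MP_f23696_ag.C.Pla
import Pool.Agent.Lib.MP_f23696_ag.C.Plb
import Pool.Agent.Lib.MP_f23696_ag.Dvr

/-!
Number of zeros of a function on a curve (module PLD of the project LSC-C).
-/

set_option linter.deprecated false

namespace Pool.Agent.MLD.C

open scoped Classical
noncomputable section

universe u v w w'

open scoped IntermediateField.algebraAdjoinAdjoin

variable {k : Type u} [Field k] {F : Type v} [Field F] [Algebra k F]

namespace PLD

open IsDedekindDomain

/-- the place of a prime of a Dedekind subalgebra -/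
theorem adic (A : Subalgebra k F) [IsDedekindDomain A] [IsFractionRing A F]
    (v : HeightOneSpectrum A) : ∃ P : Pl k F, P.toDVal.HasCenter A v.asIdeal ∧
      ∀ a : A, a ≠ 0 → ∀ n : ℕ, (n : ℤ) ≤ ordAt P (a : F) ↔ a ∈ v.asIdeal ^ n := by
  set w := v.valuation F with hwdef
  have hw : ∀ f : F, f ≠ 0 → w f ≠ 0 := fun f hf => (Valuation.ne_zero_iff _).2 hf
  have h0 : ∀ f : F, f ≠ 0 → ∀ n : ℤ, (n ≤ -(WithZero.log (w f)) ↔ w f ≤ WithZero.exp (-n)) := by
    intro f hf n
    rw [← WithZero.log_le_log (hw f hf) WithZero.exp_ne_zero, WithZero.log_exp]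
    omega
  have hA : ∀ a : A, a ≠ 0 → ∀ n : ℕ,
      (n : ℤ) ≤ -(WithZero.log (w (a : F))) ↔ a ∈ v.asIdeal ^ n := by
    intro a ha n
    rw [h0 _ (by simpa using ha), ← v.intValuation_le_pow_iff_mem, ← v.valuation_of_algebraMap (K := F)]
    rfl
  obtain ⟨π, hπ⟩ := v.valuation_exists_uniformizer F
  let P : Pl k F :=
    { ord := fun f => -(WithZero.log (w f))
      ord_mul := by
        intro a b ha hb
        simp only [map_mul]
        rw [WithZero.log_mul (hw a ha) (hw b hb)]
        ring
      ord_add := by
        intro a b ha hb hab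
        rcases le_total (w a) (w b) with h | h
        · have h3 : w (a + b) ≤ w b := (w.map_add a b).trans (max_le h le_rfl)
          have := (WithZero.log_le_log (hw _ hab) (hw b hb)).2 h3
          exact (min_le_right _ _).trans (neg_le_neg this)
        · have h3 : w (a + b) ≤ w a := (w.map_add a b).trans (max_le le_rfl h)
          have := (WithZero.log_le_log (hw _ hab) (hw a ha)).2 h3
          exact (min_le_left _ _).trans (neg_le_neg this)
      ord_algebraMap := by
        intro c hc
        have hc' : algebraMap k A c ≠ 0 := (map_ne_zero_iff _ (algebraMap k A).injective).2 hc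
        have hi' : algebraMap k A c⁻¹ ≠ 0 :=
          (map_ne_zero_iff _ (algebraMap k A).injective).2 (inv_ne_zero hc)
        have h1 := (hA _ hc' 0).2 (by simp)
        have h2 := (hA _ hi' 0).2 (by simp)
        have h3 : WithZero.log (w ((algebraMap k A c : A) : F)) +
            WithZero.log (w ((algebraMap k A c⁻¹ : A) : F)) = 0 := by
          rw [← WithZero.log_mul (hw _ (by simpa using hc')) (hw _ (by simpa using hi')), ← map_mul,
            ← Subalgebra.coe_mul, ← map_mul, mul_inv_cancel₀ hc]
          simp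
        change -(WithZero.log (w (algebraMap k F c))) = 0
        have h5 : algebraMap k F c = ((algebraMap k A c : A) : F) := rfl
        rw [h5]
        simp only [Nat.cast_zero] at h1 h2
        omega
      exists_ord_eq_one := by
        refine ⟨π, ?_, ?_⟩
        · rintro rfl
          rw [map_zero] at hπ
          exact WithZero.exp_ne_zero hπ.symm
        · simp only [hwdef, hπ, WithZero.log_exp, neg_neg]
      ord_zero := by simp }
  refine ⟨P, ⟨?_, ?_⟩, hA⟩
  · intro a ha
    have := (hA a (by simpa using ha) 0).2 (by simp)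
    simp only [Nat.cast_zero] at this
    exact this
  · intro a
    constructor
    · intro hap ha
      have := (hA a (by simpa using ha) 1).2 (by simpa using hap)
      change 0 < -(WithZero.log (w (a : F)))
      simp only [Nat.cast_one] at this
      omega
    · intro h
      by_cases ha : (a : F) = 0
      · have : a = 0 := Subtype.ext ha
        rw [this]; exact v.asIdeal.zero_mem
      · have h1 : 0 < -(WithZero.log (w (a : F))) := h ha
        have := (hA a (by simpa using ha) 1).1 (by simp only [Nat.cast_one]; omega)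
        simpa using this

/-- the ring of a place -/
def vring (P : Pl k F) : Subalgebra k F where
  carrier := {a | 0 ≤ ordAt P a}
  mul_mem' := by
    intro a b ha hb
    simp only [Set.mem_ofPred_eq] at *
    by_cases h1 : a = 0
    · rw [h1, zero_mul, ordAt_zero]
    by_cases h2 : b = 0
    · rw [h2, mul_zero, ordAt_zero]
    rw [ordAt_mul P h1 h2]
    omega
  add_mem' := by
    intro a b ha hb
    simp only [Set.mem_ofPred_eq] at *
    by_cases h1 : a = 0
    · rw [h1, zero_add]; exact hb
    by_cases h2 : b = 0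
    · rw [h2, add_zero]; exact ha
    by_cases h3 : a + b = 0
    · rw [h3, ordAt_zero]
    exact (le_min ha hb).trans (ordAt_add P h1 h2 h3)
  algebraMap_mem' := by
    intro c
    simp only [Set.mem_ofPred_eq]
    rw [ordAt_C]

theorem mem_vring (P : Pl k F) (a : F) : a ∈ vring P ↔ 0 ≤ ordAt P a := Iff.rfl

/-- the centre of a place -/
theorem exists_center (P : Pl k F) (A : Subalgebra k F) (hA : A ≤ vring P) :
    ∃ M : Ideal A, M.IsPrime ∧ P.toDVal.HasCenter A M := by
  have h1 : ordAt P (1 : F) = 0 := by
    have := ordAt_C P (1 : k)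
    rwa [map_one] at this
  let M : Ideal A :=
    { carrier := {a | P.toDVal.Small (a : F)}
      add_mem' := by
        intro a b ha hb hab
        change 0 < ordAt P _
        simp only [Set.mem_ofPred_eq] at ha hb
        by_cases h1 : (a : F) = 0
        · have := hb (by intro h; apply hab; push_cast; rw [h1, h, add_zero])
          push_cast
          rw [h1, zero_add]; exact this
        by_cases h2 : (b : F) = 0
        · push_cast
          rw [h2, add_zero]; exact ha h1
        push_cast at hab ⊢
        exact (lt_min (ha h1) (hb h2)).trans_le (ordAt_add P h1 h2 hab)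
      zero_mem' := by
        intro h
        exact absurd rfl h
      smul_mem' := by
        intro c a ha hca
        simp only [Set.mem_ofPred_eq, smul_eq_mul, Subalgebra.coe_mul] at ha hca ⊢
        have h1 := left_ne_zero_of_mul hca
        have h2 := right_ne_zero_of_mul hca
        change 0 < ordAt P _
        rw [ordAt_mul P h1 h2]
        have := ha h2
        have h3 : 0 ≤ ordAt P (c : F) := hA c.2
        change 0 < ordAt P _ at this
        omega }
  have hM : ∀ a : A, a ∈ M ↔ P.toDVal.Small (a : F) := fun a => Iff.rfl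
  refine ⟨M, ⟨?_, ?_⟩, ?_, hM⟩
  · intro h
    have := (hM 1).1 (by rw [h]; trivial) (by simp)
    change 0 < ordAt P _ at this
    rw [OneMemClass.coe_one, h1] at this
    omega
  · intro a b hab
    by_contra hc
    push Not at hc
    obtain ⟨ha, hb⟩ := hc
    rw [hM] at ha hb
    simp only [DVal.Small, not_forall, not_lt] at ha hb
    obtain ⟨ha0, ha⟩ := ha
    obtain ⟨hb0, hb⟩ := hb
    have := (hM _).1 hab (by simp [ha0, hb0])
    change 0 < ordAt P _ at this
    rw [Subalgebra.coe_mul, ordAt_mul P ha0 hb0] at this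
    change ordAt P _ ≤ 0 at ha
    change ordAt P _ ≤ 0 at hb
    omega
  · intro a _
    exact hA a.2

end PLD

/-- number of zeros (PLD) -/
theorem zeros [IsAlgClosed k] [Cv k F] [CharZero k] (g : F) (hg : ∀ c : k, g ≠ algebraMap k F c) :
    ∃ B : Finset (Pl k F), (∀ P, P ∈ B ↔ 0 < ordAt P g) ∧
      ∑ P ∈ B, ordAt P g = Module.finrank (IntermediateField.adjoin k {g}) F := by
  obtain ⟨ht, hfin⟩ := nonconst g hg
  have hg0 : g ≠ 0 := by simpa using hg 0
  set A₀ := Algebra.adjoin k {g} with hA₀
  set E := IntermediateField.adjoin k {g} with hE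
  -- the base ring
  obtain ⟨e, he⟩ : ∃ e : Polynomial k ≃ₐ[k] A₀, ((e Polynomial.X : A₀) : F) = g := by
    refine ⟨(AlgEquiv.ofInjective (Polynomial.aeval g)
      (transcendental_iff_injective.1 ht)).trans (Subalgebra.equivOfEq _ _
        (Algebra.adjoin_singleton_eq_range_aeval k g).symm), ?_⟩
    simp
  have hpid : IsPrincipalIdealRing A₀ :=
    IsPrincipalIdealRing.of_surjective e.toRingEquiv.toRingHom e.surjective
  set π : A₀ := e Polynomial.X with hπ
  have hirr : Irreducible π := by
    rw [hπ, MulEquiv.irreducible_iff e]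
    exact Polynomial.irreducible_X
  set p : Ideal A₀ := Ideal.span {π} with hp
  have hpm : p.IsMaximal := PrincipalIdealRing.isMaximal_of_irreducible hirr
  have hp0 : p ≠ ⊥ := by
    rw [hp, Ne, Ideal.span_singleton_eq_bot]
    exact hirr.ne_zero
  -- the integral closure
  set A : Subalgebra k F := (integralClosure A₀ F).restrictScalars k with hA
  have hAmem : ∀ b : F, b ∈ A ↔ IsIntegral A₀ b := fun b => Iff.rfl
  have hle : A₀ ≤ A := by
    intro a ha
    rw [hAmem]
    exact isIntegral_algebraMap (R := A₀) (A := F) (x := ⟨a, ha⟩)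
  let _ : Algebra A₀ A := (Subalgebra.inclusion hle).toAlgebra
  have : IsScalarTower A₀ A F := IsScalarTower.of_algebraMap_eq fun _ => rfl
  have hic : IsIntegralClosure A A₀ F :=
    { algebraMap_injective := Subtype.val_injective
      isIntegral_iff := by
        intro x
        rw [← hAmem]
        exact ⟨fun h => ⟨⟨x, h⟩, rfl⟩, fun ⟨y, hy⟩ => hy ▸ y.2⟩ }
  have hsep : Algebra.IsSeparable E F := Algebra.IsAlgebraic.isSeparable_of_perfectField
  have hfr : IsFractionRing A F := IsIntegralClosure.isFractionRing_of_finite_extension A₀ E F A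
  have hded : IsDedekindDomain A := IsIntegralClosure.isDedekindDomain A₀ E F A
  have hfinA : Module.Finite A₀ A := IsIntegralClosure.finite A₀ E F A
  have hinjA : Function.Injective (algebraMap A₀ A) := Subalgebra.inclusion_injective hle
  have hfaith : FaithfulSMul A₀ A := (faithfulSMul_iff_algebraMap_injective A₀ A).2 hinjA
  have htf : Module.IsTorsionFree A₀ A := inferInstance
  have hsum := Ideal.sum_ramification_inertia A E F hp0 (p := p)
  have hint : Algebra.IsIntegral A₀ A := IsIntegralClosure.isIntegral_algebra A₀ F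
  have hfrac : ∀ f : F, ∃ a b : A, (b : F) ≠ 0 ∧ f = (a : F) / b := by
    intro f
    obtain ⟨a, b, hb, h⟩ := IsFractionRing.div_surjective (A := A) f
    exact ⟨a, b, by simpa using nonZeroDivisors.ne_zero hb, h.symm⟩
  have hnorm : ∀ f : F, IsIntegral A f → f ∈ A := fun f hf => by
    rw [hAmem]
    exact isIntegral_trans (R := A₀) f hf
  have hgA : g ∈ A := hle (Algebra.self_mem_adjoin_singleton k g)
  set γ : A := ⟨g, hgA⟩ with hγdef
  have hγ : algebraMap A₀ A π = γ := Subtype.ext he
  have hγ0 : γ ≠ 0 := by
    intro h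
    exact hg0 (congrArg Subtype.val h)
  have hmap : p.map (algebraMap A₀ A) = Ideal.span {γ} := by
    rw [hp, Ideal.map_span, Set.image_singleton, hγ]
  have hlies : ∀ M : Ideal A, M.IsPrime → γ ∈ M → M.LiesOver p := by
    intro M hM hγM
    constructor
    have h1 : p ≤ M.under A₀ := by
      rw [hp, Ideal.span_singleton_le_iff_mem, Ideal.mem_comap, hγ]
      exact hγM
    exact hpm.eq_of_le (Ideal.IsPrime.under A₀ M).ne_top h1
  have hmem : ∀ M : Ideal A, M ∈ IsDedekindDomain.primesOverFinset p A ↔ M.IsPrime ∧ γ ∈ M := by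
    intro M
    rw [IsDedekindDomain.mem_primesOverFinset_iff hp0]
    constructor
    · rintro ⟨h1, h2⟩
      refine ⟨h1, ?_⟩
      have h3 : π ∈ p := Ideal.mem_span_singleton_self π
      rw [h2.over, Ideal.mem_comap, hγ] at h3
      exact h3
    · rintro ⟨h1, h2⟩
      exact ⟨h1, hlies M h1 h2⟩
  have hone : ∀ M : Ideal A, M.IsPrime → γ ∈ M → IsHeightOne M := by
    intro M hM hγM
    refine ⟨hM, ?_, ?_⟩
    · rintro rfl
      exact hγ0 (by simpa using hγM)
    · intro q hq hq0 hqM
      exact (hq.isMaximal hq0).eq_of_le hM.ne_top hqM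
  have hpl : ∀ M ∈ IsDedekindDomain.primesOverFinset p A, ∃ P : Pl k F,
      P.toDVal.HasCenter A M ∧
      ∀ a : A, a ≠ 0 → ∀ n : ℕ, (n : ℤ) ≤ ordAt P (a : F) ↔ a ∈ M ^ n := by
    intro M hM
    obtain ⟨h1, h2⟩ := (hmem M).1 hM
    exact PLD.adic A ⟨M, h1, (hone M h1 h2).2.1⟩
  choose φ hφc hφ using hpl
  have hφpos : ∀ M hM, 0 < ordAt (φ M hM) g := fun M hM =>
    ((hφc M hM).2 γ).1 ((hmem M).1 hM).2 hg0
  have hram : ∀ M hM, (Ideal.ramificationIdx' p M : ℤ) = ordAt (φ M hM) g := by
    intro M hM
    have h1 := hφ M hM γ hγ0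
    have h2 := hφpos M hM
    have h3 : Ideal.ramificationIdx' p M = (ordAt (φ M hM) g).toNat := by
      refine Ideal.ramificationIdx'_spec ?_ ?_
      · rw [hmap, Ideal.span_singleton_le_iff_mem, ← h1]
        change _ ≤ ordAt (φ M hM) g
        omega
      · rw [hmap, Ideal.span_singleton_le_iff_mem, ← h1]
        change ¬ _ ≤ ordAt (φ M hM) g
        push_cast
        omega
    rw [h3]
    omega
  have hdeg : ∀ M ∈ IsDedekindDomain.primesOverFinset p A, Ideal.inertiaDeg' p M = 1 := by
    intro M hM
    obtain ⟨h1, h2⟩ := (hmem M).1 hM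
    have := hlies M h1 h2
    rw [Ideal.inertiaDeg'_algebraMap]
    have hnt : (1 : A ⧸ M) ≠ 0 := by
      have := Ideal.Quotient.nontrivial_iff.2 h1.ne_top
      exact one_ne_zero
    let _ := Ideal.Quotient.field p
    refine finrank_eq_one (1 : A ⧸ M) hnt ?_
    intro w
    obtain ⟨a, rfl⟩ := Ideal.Quotient.mk_surjective w
    have hc : ∃ c : k, a - algebraMap k A c ∈ M := by
      by_cases ha : a = 0
      · exact ⟨0, by simp [ha]⟩
      · have ha' : (a : F) ≠ 0 := by simpa using ha
        obtain ⟨c, hc⟩ := ordAt_value (φ M hM) ha' ((hφc M hM).1 a ha')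
        refine ⟨c, ((hφc M hM).2 _).2 ?_⟩
        intro hne
        rcases hc with hc | hc
        · exact absurd (sub_eq_zero.2 hc) hne
        · exact hc
    obtain ⟨c, hc⟩ := hc
    refine ⟨Ideal.Quotient.mk p (algebraMap k A₀ c), ?_⟩
    rw [Algebra.smul_def, mul_one, Ideal.Quotient.algebraMap_mk_of_liesOver]
    exact (Ideal.Quotient.eq.2 hc).symm
  have hinj : ∀ M hM M' hM', φ M hM = φ M' hM' → M = M' := by
    intro M hM M' hM' h
    ext a
    rw [(hφc M hM).2 a, (hφc M' hM').2 a, h]
  refine ⟨(IsDedekindDomain.primesOverFinset p A).attach.image fun M => φ M.1 M.2, ?_, ?_⟩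
  · intro P
    simp only [Finset.mem_image, Finset.mem_attach, true_and, Subtype.exists]
    constructor
    · rintro ⟨M, hM, rfl⟩
      exact hφpos M hM
    · intro hP
      have h1 : A₀ ≤ PLD.vring P := by
        rw [hA₀, Algebra.adjoin_le_iff, Set.singleton_subset_iff]
        exact hP.le
      have h2 : A ≤ PLD.vring P := fun b hb => integral_nonneg P A₀ h1 b ((hAmem b).1 hb)
      obtain ⟨M, hM, hMc⟩ := PLD.exists_center P A h2
      have hγM : γ ∈ M := (hMc.2 γ).2 fun _ => hP
      have hMm := (hmem M).2 ⟨hM, hγM⟩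
      refine ⟨M, hMm, pl_ext fun f => ?_⟩
      by_cases hf : f = 0
      · rw [hf, ordAt_zero, ordAt_zero]
      · exact dvr_unique A inferInstance hfrac hnorm M (hone M hM hγM) _ _ (hφc M hMm) hMc f hf
  · rw [Finset.sum_image fun M _ M' _ h => Subtype.ext (hinj _ _ _ _ h)]
    rw [← hsum, ← Finset.sum_attach (IsDedekindDomain.primesOverFinset p A)
      (fun M => Ideal.ramificationIdx' p M * Ideal.inertiaDeg' p M)]
    push_cast
    refine Finset.sum_congr rfl fun M _ => ?_
    rw [hdeg M.1 M.2, hram M.1 M.2]
    simp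

end

end Pool.Agent.MLD.C
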