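import Pool.Agent.Lib.MP_f23696_ag.C.Pla
import Pool.Agent.Lib.MP_f23696_ag.C.Pld

/-!
Places of a function field of one variable: existence, finiteness of the zeros and poles, the
product formula, restriction of discrete valuations (module PLE of the project LSC-C).
-/

namespace Pool.Agent.MLD.C

open scoped Classical
noncomputable section

universe u v w w'

section CRV
variable {k : Type u} [Field k] [IsAlgClosed k] {F : Type v} [Field F] [Algebra k F] [Cv k F]

/-- the chosen transcendental element is not a constant -/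
theorem Ple.z_ne (c : k) : Cv.z (k := k) (F := F) ≠ algebraMap k F c := by
  intro h
  have h1 := Cv.tr (k := k) (F := F)
  rw [h] at h1
  exact h1 (isAlgebraic_algebraMap c)

/-- the inverse of a nonconstant element is not a constant -/
theorem Ple.inv_ne {g : F} (hg : ∀ c : k, g ≠ algebraMap k F c) (c : k) :
    g⁻¹ ≠ algebraMap k F c := by
  intro h
  apply hg c⁻¹
  rw [map_inv₀, ← h, inv_inv]

/-- `g` and its inverse generate the same field -/
theorem Ple.adjoin_inv (g : F) :
    IntermediateField.adjoin k {g} = IntermediateField.adjoin k {g⁻¹} := by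
  apply le_antisymm
  · rw [IntermediateField.adjoin_simple_le_iff]
    have h := inv_mem (IntermediateField.mem_adjoin_simple_self k g⁻¹)
    rwa [inv_inv] at h
  · rw [IntermediateField.adjoin_simple_le_iff]
    exact inv_mem (IntermediateField.mem_adjoin_simple_self k g)

/-- (PLE, from `zeros`) -/
theorem exists_pl [CharZero k] : Nonempty (Pl k F) := by
  obtain ⟨B, -, hB⟩ := zeros (k := k) (F := F) (Cv.z (k := k) (F := F)) Ple.z_ne
  have hfin := Cv.fin (k := k) (F := F)
  have hpos : 0 < Module.finrank (IntermediateField.adjoin k {Cv.z (k := k) (F := F)}) F :=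
    Module.finrank_pos
  have hne : B.Nonempty := by
    rw [Finset.nonempty_iff_ne_empty]
    intro h
    rw [h, Finset.sum_empty] at hB
    omega
  obtain ⟨P, -⟩ := hne
  exact ⟨P⟩

theorem ordAt_finite [CharZero k] {g : F} (hg : g ≠ 0) :
    ∃ B : Finset (Pl k F), ∀ P, ordAt P g ≠ 0 → P ∈ B := by
  by_cases hc : ∃ c : k, g = algebraMap k F c
  · obtain ⟨c, rfl⟩ := hc
    exact ⟨∅, fun P h => absurd (ordAt_C P c) h⟩
  · push Not at hc
    obtain ⟨B₁, hB₁, -⟩ := zeros g hc
    obtain ⟨B₂, hB₂, -⟩ := zeros g⁻¹ (Ple.inv_ne hc)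
    refine ⟨B₁ ∪ B₂, fun P hP => ?_⟩
    rw [Finset.mem_union, hB₁, hB₂, ordAt_inv]
    omega

theorem ordAt_sum [CharZero k] {g : F} (hg : g ≠ 0) (B : Finset (Pl k F))
    (hB : ∀ P, ordAt P g ≠ 0 → P ∈ B) : ∑ P ∈ B, ordAt P g = 0 := by
  by_cases hc : ∃ c : k, g = algebraMap k F c
  · obtain ⟨c, rfl⟩ := hc
    exact Finset.sum_eq_zero fun P _ => ordAt_C P c
  · push Not at hc
    obtain ⟨B₁, hB₁, hs₁⟩ := zeros g hc
    obtain ⟨B₂, hB₂, hs₂⟩ := zeros g⁻¹ (Ple.inv_ne hc)
    have hdeg : Module.finrank (IntermediateField.adjoin k {g}) F =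
        Module.finrank (IntermediateField.adjoin k {g⁻¹}) F :=
      congrArg (fun S : IntermediateField k F => Module.finrank S F) (Ple.adjoin_inv g)
    have e₁ : ∑ P ∈ B₁, ordAt P g = ∑ P ∈ B, max 0 (ordAt P g) := by
      have h1 : ∑ P ∈ B₁, ordAt P g = ∑ P ∈ B₁, max 0 (ordAt P g) := by
        refine Finset.sum_congr rfl fun P hP => ?_
        have := (hB₁ P).1 hP
        omega
      rw [h1]
      refine Finset.sum_subset (fun P hP => hB P ?_) fun P _ hP => ?_
      · have := (hB₁ P).1 hP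
        omega
      · have h2 : ¬ 0 < ordAt P g := fun h => hP ((hB₁ P).2 h)
        omega
    have e₂ : ∑ P ∈ B₂, ordAt P g⁻¹ = ∑ P ∈ B, max 0 (-ordAt P g) := by
      have h1 : ∑ P ∈ B₂, ordAt P g⁻¹ = ∑ P ∈ B₂, max 0 (-ordAt P g) := by
        refine Finset.sum_congr rfl fun P hP => ?_
        have := (hB₂ P).1 hP
        rw [ordAt_inv] at this ⊢
        omega
      rw [h1]
      refine Finset.sum_subset (fun P hP => hB P ?_) fun P _ hP => ?_
      · have := (hB₂ P).1 hP
        rw [ordAt_inv] at this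
        omega
      · have h2 : ¬ 0 < ordAt P g⁻¹ := fun h => hP ((hB₂ P).2 h)
        rw [ordAt_inv] at h2
        omega
    have e₃ : ∑ P ∈ B, ordAt P g = ∑ P ∈ B, max 0 (ordAt P g) - ∑ P ∈ B, max 0 (-ordAt P g) := by
      rw [← Finset.sum_sub_distrib]
      refine Finset.sum_congr rfl fun P _ => ?_
      omega
    rw [e₃, ← e₁, ← e₂, hs₁, hs₂, hdeg, sub_self]

/-- restriction of a discrete valuation to `F` (PLE) -/
theorem cls [CharZero k] {K : Type w} [Field K] [Algebra k K] (v : DVal k K) (ι : F →ₐ[k] K) :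
    ∃ (P : Pl k F) (n : ℕ), ∀ g, g ≠ 0 → v.ord (ι g) = n * ordAt P g := by
  by_cases hn : ∃ a : F, a ≠ 0 ∧ v.ord (ι a) ≠ 0
  · have hι : ∀ a : F, a ≠ 0 → ι a ≠ 0 := fun a ha => (map_ne_zero ι).2 ha
    obtain ⟨P, n, -, h⟩ := exists_place (k := k) (F := F) (o := fun g => v.ord (ι g))
      (fun a b ha hb => by
        show v.ord (ι (a * b)) = v.ord (ι a) + v.ord (ι b)
        rw [map_mul]
        exact v.ord_mul _ _ (hι a ha) (hι b hb))
      (fun a b ha hb hab => by
        show min (v.ord (ι a)) (v.ord (ι b)) ≤ v.ord (ι (a + b))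
        have h1 := hι _ hab
        rw [map_add] at h1 ⊢
        exact v.ord_add _ _ (hι a ha) (hι b hb) h1)
      (fun c hc => by
        show v.ord (ι (algebraMap k F c)) = 0
        rw [AlgHom.commutes]
        exact v.ord_algebraMap c hc) hn
    exact ⟨P, n, h⟩
  · push Not at hn
    obtain ⟨P⟩ := exists_pl (k := k) (F := F)
    refine ⟨P, 0, fun g hg => ?_⟩
    rw [hn g hg]
    simp

end CRV
end
end Pool.Agent.MLD.C
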