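import Pool.Agent.Lib.MP_f23696_ag.C.KapA
import Pool.Agent.Lib.MP_f23696_ag.C.Plb
import Pool.Agent.Lib.MP_f23696_ag.C.Ple
import Pool.Agent.Lib.MP_f23696_ag.C.Exp

/-!
The numbers `kap` (module KAP of the project LSC-C).
-/

namespace Pool.Agent.MLD.C

open scoped Classical
noncomputable section

universe u v w w'

section KAPM
variable {k : Type u} [Field k] [IsAlgClosed k] {F : Type v} [Field F] [Algebra k F] [Cv k F]

theorem KAP.hasExp [CharZero k] (P : Pl k F) : KAP.HasExp P := by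
  obtain ⟨ψ, h1, -, h2⟩ := expand P 1 le_rfl k
  refine ⟨ψ, fun g hg => by rw [h1 g hg]; push_cast; ring, fun f hf => ?_⟩
  obtain ⟨h3, h4⟩ := h2 f hf
  exact ⟨h3, by rw [h4]; push_cast; ring⟩

/-- `kap` is computed by every uniformiser (KAP) -/
theorem kap_eq [CharZero k] (P : Pl k F) (t : F) (ht : ordAt P t = 1) :
    kap P = 1 - ordAt P (Cv.d (k := k) (F := F) t) := KAP.kap_eq_of (KAP.hasExp P) t ht

/-- `t d/dt` preserves the valuation ring: `ord_P (d g) ≥ ord_P g - kap P` (KAP) -/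
theorem ord_der [CharZero k] (P : Pl k F) (g : F) (hg : g ≠ 0)
    (hd : Cv.d (k := k) (F := F) g ≠ 0) :
    ordAt P g - kap P ≤ ordAt P (Cv.d (k := k) (F := F) g) :=
  KAP.ord_der_of (KAP.hasExp P) g hg hd

theorem kap_finite [CharZero k] : ∃ B : Finset (Pl k F), ∀ P : Pl k F, P ∉ B → kap P = 1 :=
  KAP.kap_finite_of (fun P => KAP.hasExp P) (fun P _ hg h => ordAt_value P hg h)
    (fun _ hg => ordAt_finite hg)

end KAPM

end

end Pool.Agent.MLD.C
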