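import Pool.Agent.Lib.MP_f23696_ag.C.Plb

/-!
The kernel of the derivation `d/dz` of a function field of one variable is the field of constants
(project LSC-C, MP_f23696_ag).
-/

set_option autoImplicit false

namespace Pool.Agent.MLD.C

open scoped Classical
noncomputable section

universe u v w

namespace Ker

variable {k : Type u} [Field k] {F : Type v} [Field F] [Algebra k F]

/-- the constants of a derivation as an intermediate field -/
def consts (D : Derivation k F F) : IntermediateField k F where
  carrier := {a | D a = 0}
  mul_mem' := by
    intro a b ha hb
    simp only [Set.mem_ofPred_eq] at ha hb ⊢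
    rw [Derivation.leibniz, ha, hb, smul_zero, smul_zero, add_zero]
  add_mem' := by
    intro a b ha hb
    simp only [Set.mem_ofPred_eq] at ha hb ⊢
    rw [map_add, ha, hb, add_zero]
  algebraMap_mem' := fun c => by
    simp only [Set.mem_ofPred_eq, Derivation.map_algebraMap]
  inv_mem' := by
    intro a ha
    simp only [Set.mem_ofPred_eq] at ha ⊢
    rw [Derivation.leibniz_inv, ha, smul_zero]

theorem mem_consts (D : Derivation k F F) (a : F) : a ∈ consts D ↔ D a = 0 := Iff.rfl

/-- the derivation is linear over its constants -/
def linD (D : Derivation k F F) (L : IntermediateField k F) (hL : L ≤ consts D) :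
    Derivation L F F :=
  Derivation.mk'
    { toFun := D
      map_add' := fun a b => map_add D a b
      map_smul' := fun c a => by
        rw [Algebra.smul_def, Derivation.leibniz]
        have h : D (algebraMap L F c) = 0 := hL c.2
        rw [h, smul_zero, add_zero]
        rfl }
    (fun a b => D.leibniz a b)

theorem linD_apply (D : Derivation k F F) (L : IntermediateField k F) (hL : L ≤ consts D) (a : F) :
    linD D L hL a = D a := rfl

theorem eq_zero_of_finite [CharZero k] (D : Derivation k F F) (L : IntermediateField k F)
    (hL : L ≤ consts D) (hf : FiniteDimensional L F) (a : F) : D a = 0 := by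
  have : CharZero L := charZero_of_injective_algebraMap (algebraMap k L).injective
  have hs : (minpoly L a).Separable := Algebra.IsSeparable.isSeparable L a
  have h1 := (linD D L hL).map_aeval (minpoly L a) a
  rw [minpoly.aeval, map_zero, linD_apply, smul_eq_mul] at h1
  have h2 := hs.aeval_derivative_ne_zero (minpoly.aeval L a)
  rcases mul_eq_zero.1 h1.symm with h | h
  · exact absurd h h2
  · exact h

end Ker

variable {k : Type u} [Field k] [IsAlgClosed k] [CharZero k] {F : Type v} [Field F] [Algebra k F]
  [Cv k F]

/-- the kernel of `d/dz` consists of the constants -/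
theorem const_of_der (g : F) (hg : Cv.d (k := k) (F := F) g = 0) :
    ∃ c : k, g = algebraMap k F c := by
  by_contra hc
  push Not at hc
  have hf := (nonconst g hc).2
  have h1 := Ker.eq_zero_of_finite (Cv.d (k := k) (F := F)) (IntermediateField.adjoin k {g})
    (by
      rw [IntermediateField.adjoin_simple_le_iff]
      exact hg) hf (Cv.z k)
  rw [Cv.dz] at h1
  exact one_ne_zero h1

/-- the derivative of a uniformiser is not zero -/
theorem der_ne_zero (P : Pl k F) (t : F) (ht : ordAt P t ≠ 0) :
    Cv.d (k := k) (F := F) t ≠ 0 := by
  intro h
  obtain ⟨c, rfl⟩ := const_of_der t h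
  exact ht (ordAt_C P c)

end

end Pool.Agent.MLD.C
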