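import Pool.Agent.Lib.MP_f23696_ag.C.Phi
import Pool.Agent.Lib.MP_f23696_ag.C.Exp
import Pool.Agent.Lib.MP_f23696_ag.C.Kap
import Pool.Agent.Lib.MP_f23696_ag.C.Ker
import Pool.Agent.Lib.MP_f23696_ag.C.Ple
import Pool.Agent.Lib.MP_f23696_ag.C.Gr
import Pool.Agent.Lib.MP_f23696_ag.Mono
import Pool.Agent.Lib.MP_f23696_ag.JacLog

/-!
Module MONO of project LSC-C (MP_f23696_ag): monomial valuations over a curve (helper43).
-/

namespace Pool.Agent.MLD.C

open scoped Classical
noncomputable section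

universe u v w w'

namespace MonoC

section Ord
variable {k : Type u} [Field k] {F : Type v} [Field F] [Algebra k F]

theorem ord_zpow (P : Pl k F) {g : F} (hg : g ≠ 0) (a : ℤ) :
    ordAt P (g ^ a) = a * ordAt P g :=
  PLA.o_zpow (o := ordAt P) (fun _ _ ha hb => ordAt_mul P ha hb) hg a

end Ord

section Res
open Mono
variable {E : Type v} [Field E] {k : Type u} [Field k] [Algebra k E]

/-- a Laurent series without negative part is a power series -/
theorem eq_ofPS (f : LaurentSeries E) (h : ∀ i < 0, f.coeff i = 0) :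
    f = HahnSeries.ofPowerSeries ℤ E (PowerSeries.mk fun n => f.coeff n) := by
  ext i
  by_cases hi : i < 0
  · rw [h i hi, HahnSeries.ofPowerSeries_apply, HahnSeries.embDomain_of_notMem_range]
    rintro ⟨n, hn⟩
    have h1 : ((n : ℕ) : ℤ) = i := hn
    omega
  · obtain ⟨n, rfl⟩ := Int.eq_ofNat_of_zero_le (not_lt.1 hi)
    have := HahnSeries.ofPowerSeries_apply_coeff (Γ := ℤ) (PowerSeries.mk fun n => f.coeff n) n
    rw [PowerSeries.coeff_mk] at this
    exact this.symm

/-- residues of polynomials in power series -/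
theorem aeval_res {n : ℕ} (f : Fin n → LaurentSeries E) (τ : Fin n → E)
    (h : ∀ i, ∀ j < 0, (f i).coeff j = 0) (h0 : ∀ i, (f i).coeff 0 = τ i)
    (p : MvPolynomial (Fin n) k) :
    (∀ j < 0, (MvPolynomial.aeval f p).coeff j = 0) ∧
      (MvPolynomial.aeval f p).coeff 0 = MvPolynomial.aeval τ p := by
  set q : Fin n → PowerSeries E := fun i => PowerSeries.mk fun r => (f i).coeff r with hq
  have hf : f = fun i => HahnSeries.ofPowerSeries ℤ E (q i) := funext fun i => eq_ofPS (f i) (h i)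
  have hτ : τ = fun i => PowerSeries.constantCoeff (q i) := by
    funext i
    rw [hq, ← h0 i, ← PowerSeries.coeff_zero_eq_constantCoeff_apply, PowerSeries.coeff_mk]
    rfl
  have h1 : MvPolynomial.aeval f p =
      HahnSeries.ofPowerSeries ℤ E (MvPolynomial.aeval q p) := by
    have hh : algebraMap k (LaurentSeries E) =
        (HahnSeries.ofPowerSeries ℤ E).comp (algebraMap k (PowerSeries E)) := by
      ext c : 1
      rw [RingHom.comp_apply, algMap_L, PowerSeries.algebraMap_apply, HahnSeries.ofPowerSeries_C]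
    rw [MvPolynomial.aeval_def, MvPolynomial.aeval_def, MvPolynomial.eval₂_comp_left, ← hh]
    exact congrArg (fun g => MvPolynomial.eval₂ (algebraMap k (LaurentSeries E)) g p) hf
  have h2 : MvPolynomial.aeval τ p = PowerSeries.constantCoeff (MvPolynomial.aeval q p) := by
    have hh : algebraMap k E =
        (PowerSeries.constantCoeff (R := E)).comp (algebraMap k (PowerSeries E)) := by
      ext c : 1
      rw [RingHom.comp_apply, PowerSeries.algebraMap_apply, PowerSeries.constantCoeff_C]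
    rw [hτ, MvPolynomial.aeval_def, MvPolynomial.aeval_def, MvPolynomial.eval₂_comp_left, ← hh]
    rfl
  rw [h1, h2]
  constructor
  · intro j hj
    rw [HahnSeries.ofPowerSeries_apply, HahnSeries.embDomain_of_notMem_range]
    rintro ⟨r, hr⟩
    have h1 : ((r : ℕ) : ℤ) = j := hr
    omega
  · have := HahnSeries.ofPowerSeries_apply_coeff (Γ := ℤ) (MvPolynomial.aeval q p) 0
    rw [PowerSeries.coeff_zero_eq_constantCoeff_apply] at this
    exact this

end Res

section Mon
open Mono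
variable {G : Type w'} [Field G] {m : ℕ} {k : Type u} [Field k] [Algebra k G]
  {F : Type v} [Field F] [Algebra k F] {K : Type w} [Field K] [Algebra k K] [Cv k F]

/-- embedding adapted to the homogeneous valuation `V` -/
structure Adapted (C : Ctx k F K m) (V : HV k F m) (Φ : K →ₐ[k] LL G m) : Prop where
  rat : ∀ g : F, g ≠ 0 →
    ∃ c : G, c ≠ 0 ∧ Ld (Φ (C.ι g)) (V.n * ordAt V.P g) (HahnSeries.C c)
  xx : ∀ j, Φ (C.x j) = ss G m ^ V.w j * TL G m j

theorem Adapted.mon {C : Ctx k F K m} {V : HV k F m} {Φ : K →ₐ[k] LL G m} (h : Adapted C V Φ)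
    (g : F) (hg : g ≠ 0) (u : Fin m → ℤ) :
    ∃ c : G, c ≠ 0 ∧ Ld (Φ (C.mon g u)) (V.val g u) (HahnSeries.single (toLex u) c) := by
  obtain ⟨c, hc, h1⟩ := h.rat g hg
  refine ⟨c, hc, ?_⟩
  have h2 : ∀ j, Ld (Φ (C.x j ^ u j)) (u j * V.w j) (TT G m j ^ u j) := by
    intro j
    have e : Φ (C.x j ^ u j) = (Φ (C.x j)) ^ u j := map_zpow₀ Φ (C.x j) (u j)
    rw [e, h.xx]
    have h3 : Ld (ss G m ^ V.w j * TL G m j) (V.w j) (TT G m j) := by
      have h4 := (ld_ss (F := G) (m := m)).zpow (V.w j)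
      have h5 := h4.mul (ld_C (TT_ne (F := G) j))
      rw [one_zpow, one_mul, mul_one, add_zero] at h5
      exact h5
    exact h3.zpow (u j)
  have h3 := Ld.prod Finset.univ (fun j => Φ (C.x j ^ u j)) (fun j => u j * V.w j)
    (fun j => TT G m j ^ u j) fun j _ => h2 j
  rw [prod_TT] at h3
  have h4 := h1.mul h3
  have e1 : Φ (C.ι g) * ∏ j, Φ (C.x j ^ u j) = Φ (C.mon g u) := by
    rw [Ctx.mon, map_mul, map_prod]
  have e2 : (HahnSeries.C c : EE G m) * HahnSeries.single (toLex u) 1 =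
      HahnSeries.single (toLex u) c := by
    rw [HahnSeries.C_apply, HahnSeries.single_mul_single, zero_add, mul_one]
  have e3 : V.val g u = V.n * ordAt V.P g + ∑ j, u j * V.w j := by
    rw [HV.val]
    congr 1
    exact Finset.sum_congr rfl fun j _ => mul_comm _ _
  rw [e1, e2, ← e3] at h4
  exact h4

theorem Adapted.sum {C : Ctx k F K m} {V : HV k F m} {Φ : K →ₐ[k] LL G m} (h : Adapted C V Φ)
    (s : Finset (Fin m → ℤ)) (hs : s.Nonempty) (g : (Fin m → ℤ) → F)
    (hg : ∀ u ∈ s, g u ≠ 0) :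
    Φ (∑ u ∈ s, C.mon (g u) u) ≠ 0 ∧
      (Φ (∑ u ∈ s, C.mon (g u) u)).order = s.inf' hs fun u => V.val (g u) u := by
  have h1 : ∀ u, ∃ c : G, u ∈ s → c ≠ 0 ∧
      Ld (Φ (C.mon (g u) u)) (V.val (g u) u) (HahnSeries.single (toLex u) c) := by
    intro u
    by_cases hu : u ∈ s
    · obtain ⟨c, hc, h2⟩ := h.mon (g u) (hg u hu) u
      exact ⟨c, fun _ => ⟨hc, h2⟩⟩
    · exact ⟨1, fun h3 => absurd h3 hu⟩
  choose c hc using h1
  set μ := s.inf' hs fun u => V.val (g u) u with hμ
  obtain ⟨u₀, hu₀, hu₀'⟩ := Finset.exists_mem_eq_inf' hs (fun u => V.val (g u) u)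
  have h2 : ∑ u ∈ s.filter (fun u => V.val (g u) u = μ),
      (HahnSeries.single (toLex u) (c u) : EE G m) ≠ 0 := by
    intro h3
    have h4 : (∑ u ∈ s.filter (fun u => V.val (g u) u = μ),
      (HahnSeries.single (toLex u) (c u) : EE G m)).coeff (toLex u₀) = 0 := by
      rw [h3]; rfl
    rw [coeff_fsum', Finset.sum_eq_single u₀] at h4
    · rw [HahnSeries.coeff_single_same] at h4
      exact (hc u₀ hu₀).1 h4
    · intro u _ hu
      exact HahnSeries.coeff_single_of_ne fun h5 => hu (toLex.injective h5).symm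
    · intro h5
      exact absurd (Finset.mem_filter.2 ⟨hu₀, by rw [hμ, hu₀']⟩) h5
  have h3 := ld_sum s (fun u => Φ (C.mon (g u) u)) (fun u => V.val (g u) u)
    (fun u => (HahnSeries.single (toLex u) (c u) : EE G m)) (fun u hu => (hc u hu).2) μ
    (fun u hu => Finset.inf'_le _ hu) _ rfl h2
  rw [← map_sum] at h3
  exact ⟨h3.1, h3.2.1⟩

end Mon

section Div
open Mono
variable {G : Type w'} [Field G] {m : ℕ} {k : Type u} [Field k] [Algebra k G]
  {K : Type w} [Field K] [Algebra k K]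

theorem div_of (Φ : K →ₐ[k] LL G m) (v : DVal k K) (hv : ∀ a, a ≠ 0 → v.ord a = (Φ a).order)
    (t : Fin m → K) (τ : Fin m → EE G m) (ht : ∀ i, ∀ j < 0, (Φ (t i)).coeff j = 0)
    (ht0 : ∀ i, (Φ (t i)).coeff 0 = τ i)
    (hind : ∀ p : MvPolynomial (Fin m) k, p ≠ 0 → MvPolynomial.aeval τ p ≠ 0) :
    v.IsDivisorial m := by
  refine ⟨t, fun i h0 => ?_, fun p hp hs => ?_⟩
  · rw [hv _ h0]
    by_contra hneg
    have h1 : Φ (t i) ≠ 0 := by
      rw [Ne, map_eq_zero]; exact h0
    apply HahnSeries.leadingCoeff_ne_zero.2 h1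
    rw [HahnSeries.leadingCoeff_eq]
    exact ht i _ (not_le.1 hneg)
  · have h1 : Φ (MvPolynomial.aeval t p) = MvPolynomial.aeval (fun i => Φ (t i)) p := by
      rw [MvPolynomial.aeval_def, MvPolynomial.aeval_def, MvPolynomial.eval₂_eq',
        MvPolynomial.eval₂_eq', map_sum]
      refine Finset.sum_congr rfl fun α _ => ?_
      rw [map_mul, map_prod, AlgHom.commutes]
      congr 1
      refine Finset.prod_congr rfl fun i _ => ?_
      rw [map_pow]
    have h2 := (aeval_res (fun i => Φ (t i)) τ ht ht0 p).2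
    rw [← h1] at h2
    have h3 : MvPolynomial.aeval t p ≠ 0 := by
      intro h
      rw [h, map_zero] at h2
      exact hind p hp h2.symm
    have h4 := hs h3
    rw [hv _ h3] at h4
    have h5 : (Φ (MvPolynomial.aeval t p)).coeff 0 = 0 :=
      HahnSeries.coeff_eq_zero_of_lt_order h4
    rw [h5] at h2
    exact hind p hp h2.symm

/-- the vertical case -/
theorem ind_vert (n : ℕ) (hn : 1 ≤ n) (a : Fin m → G) (ha : ∀ i, a i ≠ 0)
    (p : MvPolynomial (Fin m) k) (hp : p ≠ 0) :
    MvPolynomial.aeval (fun i => (HahnSeries.single (toLex (Pi.single i (n : ℤ)) :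
      Lex (Fin m → ℤ)) (a i) : EE G m)) p ≠ 0 := by
  obtain ⟨α₀, hα₀⟩ := MvPolynomial.support_nonempty.2 hp
  intro h
  have h1 := aeval_single (fun i => (toLex (Pi.single i (n : ℤ)) : Lex (Fin m → ℤ)))
    a p (∑ i, α₀ i • (toLex (Pi.single i (n : ℤ)) : Lex (Fin m → ℤ)))
  rw [h] at h1
  have key : ∀ α : Fin m →₀ ℕ, ∑ i, α i • (toLex (Pi.single i (n : ℤ)) : Lex (Fin m → ℤ)) =
      toLex fun i => (α i : ℤ) * n := by
    intro α
    rw [← sum_toLex]
    refine Finset.sum_congr rfl fun i _ => ?_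
    apply ofLex.injective
    ext j
    show α i • (Pi.single i (n : ℤ) : Fin m → ℤ) j = ((α i : ℤ) * n) • (Pi.single i (1 : ℤ) : Fin m → ℤ) j
    rcases eq_or_ne j i with rfl | hj
    · simp
    · simp [hj]
  have h2 : p.support.filter (fun α => ∑ i, α i • (toLex (Pi.single i (n : ℤ)) :
      Lex (Fin m → ℤ)) = ∑ i, α₀ i • (toLex (Pi.single i (n : ℤ)) : Lex (Fin m → ℤ))) = {α₀} := by
    ext α
    simp only [Finset.mem_filter, Finset.mem_singleton]
    constructor
    · rintro ⟨_, h3⟩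
      rw [key, key] at h3
      have h4 := toLex.injective h3
      ext i
      have h5 := congrFun h4 i
      have h6 : (n : ℤ) ≠ 0 := by omega
      exact_mod_cast mul_right_cancel₀ h6 h5
    · rintro rfl
      exact ⟨hα₀, rfl⟩
  rw [h2, Finset.sum_singleton] at h1
  have h3 : algebraMap k G (p.coeff α₀) * ∏ i, a i ^ α₀ i = 0 := h1.symm
  have h4 : ∏ i, a i ^ α₀ i ≠ 0 := Finset.prod_ne_zero_iff.2 fun i _ => pow_ne_zero _ (ha i)
  have h5 : algebraMap k G (p.coeff α₀) = 0 := (mul_eq_zero.1 h3).resolve_right h4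
  have h6 : p.coeff α₀ = 0 := by
    apply (algebraMap k G).injective
    rw [h5, map_zero]
  exact MvPolynomial.mem_support_iff.1 hα₀ h6

/-- the horizontal case -/
theorem ind_horiz (b : G) (hb : Transcendental k b) (w : Fin m → ℤ) (r : Fin m) (hr : w r ≠ 0)
    (p : MvPolynomial (Fin m) k) (hp : p ≠ 0) :
    MvPolynomial.aeval (fun i => (HahnSeries.single (if i = r then 0 else
      w r • (toLex (Pi.single i (1 : ℤ)) : Lex (Fin m → ℤ)) - w i • toLex (Pi.single r (1 : ℤ)))
        (if i = r then b else 1) : EE G m)) p ≠ 0 := by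
  set γ : Fin m → Lex (Fin m → ℤ) := fun i => if i = r then 0 else
      w r • (toLex (Pi.single i (1 : ℤ)) : Lex (Fin m → ℤ)) - w i • toLex (Pi.single r (1 : ℤ))
    with hγ
  set a : Fin m → G := fun i => if i = r then b else 1 with ha
  obtain ⟨α₀, hα₀⟩ := MvPolynomial.support_nonempty.2 hp
  intro h
  have h1 := aeval_single γ a p (∑ i, α₀ i • γ i)
  have h0 : (MvPolynomial.aeval (fun i => (HahnSeries.single (γ i) (a i) : EE G m)) p) = 0 := h
  rw [h0] at h1
  have key : ∀ (α : Fin m →₀ ℕ) (j : Fin m), j ≠ r →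
      ofLex (∑ i, α i • γ i) j = (α j : ℤ) * w r := by
    intro α j hj
    have e : ∀ s : Finset (Fin m), ofLex (∑ i ∈ s, α i • γ i) j =
        ∑ i ∈ s, α i • ofLex (γ i) j := by
      intro s
      induction s using Finset.induction_on with
      | empty => rfl
      | insert i s hi ih =>
        rw [Finset.sum_insert hi, Finset.sum_insert hi, ← ih]; rfl
    rw [e, Finset.sum_eq_single j]
    · have e2 : ofLex (γ j) j = w r := by
        simp only [hγ, if_neg hj]
        show w r • (Pi.single j (1 : ℤ) : Fin m → ℤ) j - w j • (Pi.single r (1 : ℤ) : Fin m → ℤ) j = w r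
        simp [hj]
      rw [e2, nsmul_eq_mul]
    · intro i _ hi
      have e2 : ofLex (γ i) j = 0 := by
        by_cases hir : i = r
        · simp only [hγ, if_pos hir]; rfl
        · simp only [hγ, if_neg hir]
          show w r • (Pi.single i (1 : ℤ) : Fin m → ℤ) j - w i • (Pi.single r (1 : ℤ) : Fin m → ℤ) j = 0
          simp [hj, Ne.symm hi]
      rw [e2, smul_zero]
    · intro h; exact absurd (Finset.mem_univ j) h
  set S := p.support.filter (fun α => ∑ i, α i • γ i = ∑ i, α₀ i • γ i) with hS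
  have hS' : ∀ α ∈ S, ∀ j, j ≠ r → α j = α₀ j := by
    intro α hα j hj
    have h2 := (Finset.mem_filter.1 hα).2
    have h3 := key α j hj
    rw [h2, key α₀ j hj] at h3
    exact_mod_cast (mul_right_cancel₀ hr h3).symm
  have hprod : ∀ α : Fin m →₀ ℕ, ∏ i, a i ^ α i = b ^ α r := by
    intro α
    rw [Finset.prod_eq_single r]
    · simp only [ha, if_true]
    · intro i _ hi
      simp only [ha, if_neg hi, one_pow]
    · intro h; exact absurd (Finset.mem_univ r) h
  let q : Polynomial k := ∑ α ∈ S, Polynomial.monomial (α r) (p.coeff α)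
  have hq : q.coeff (α₀ r) = p.coeff α₀ := by
    show (∑ α ∈ S, Polynomial.monomial (α r) (p.coeff α)).coeff (α₀ r) = _
    rw [Polynomial.finsetSum_coeff, Finset.sum_eq_single α₀]
    · rw [Polynomial.coeff_monomial, if_pos rfl]
    · intro α hα hne
      rw [Polynomial.coeff_monomial, if_neg]
      intro h2
      apply hne
      ext j
      by_cases hj : j = r
      · rw [hj, h2]
      · exact hS' α hα j hj
    · intro h2
      exact absurd (show α₀ ∈ S from Finset.mem_filter.2 ⟨hα₀, rfl⟩) h2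
  have hq0 : q ≠ 0 := by
    intro h2
    rw [h2, Polynomial.coeff_zero] at hq
    exact MvPolynomial.mem_support_iff.1 hα₀ hq.symm
  have h3 : ∑ α ∈ S, algebraMap k G (p.coeff α) * ∏ i, a i ^ α i =
      Polynomial.aeval b q := by
    show _ = Polynomial.aeval b (∑ α ∈ S, Polynomial.monomial (α r) (p.coeff α))
    rw [map_sum]
    refine Finset.sum_congr rfl fun α _ => ?_
    rw [Polynomial.aeval_monomial, hprod]
  rw [h3] at h1
  exact hq0 ((transcendental_iff.1 hb) q h1.symm)

end Div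

section FO
variable {m : ℕ} {k : Type u} [Field k] {F : Type v} [Field F] [Algebra k F] [Cv k F]
  {K : Type w} [Field K] [Algebra k K]

theorem jac_cons (C : Ctx k F K m) (z d : K) (h0 : C.der 0 z = d)
    (hS : ∀ j : Fin m, C.der j.succ z = 0) : jac C.der (Fin.cons z C.x : Fin (m + 1) → K) = d := by
  have h : (Matrix.of fun i j => C.der i ((Fin.cons z C.x : Fin (m + 1) → K) j)) =
      Matrix.diagonal (Fin.cons d (fun _ => 1) : Fin (m + 1) → K) := by
    ext i j
    rw [Matrix.of_apply]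
    refine Fin.cases ?_ (fun i => ?_) i
    · refine Fin.cases ?_ (fun j => ?_) j
      · rw [Fin.cons_zero, Matrix.diagonal_apply_eq, Fin.cons_zero, h0]
      · rw [Fin.cons_succ, C.der0_x, Matrix.diagonal_apply_ne _ (Fin.succ_ne_zero j).symm]
    · refine Fin.cases ?_ (fun j => ?_) j
      · rw [Fin.cons_zero, hS, Matrix.diagonal_apply_ne _ (Fin.succ_ne_zero i)]
      · rw [Fin.cons_succ, C.derS_x]
        by_cases hij : j = i
        · rw [if_pos hij, hij, Matrix.diagonal_apply_eq, Fin.cons_succ]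
        · rw [if_neg hij, Matrix.diagonal_apply_ne]
          intro h
          exact hij (Fin.succ_injective _ h).symm
  rw [jac, h, Matrix.det_diagonal, Fin.prod_univ_succ, Fin.cons_zero]
  simp

theorem form_ord [CharZero k] (C : Ctx k F K m) (V : HV k F m) (v : DVal k K)
    (hB : ∀ a : Fin (m + 1) → K, (∀ i, v.Integral (a i)) → jac C.der a ≠ 0 →
      1 - V.disc ≤ v.ord (jac C.der a))
    (hx : ∀ j, v.ord (C.x j) = V.w j) (z d : K) (hz : z ≠ 0) (hd : d ≠ 0) (h0 : C.der 0 z = d)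
    (hS : ∀ j : Fin m, C.der j.succ z = 0) (hzd : v.ord z - v.ord d = V.n * kap V.P) :
    v.FormOrd C.der (V.disc - 1) := by
  obtain ⟨j, hj, hj1⟩ := formOrd_exists C v (1 - V.disc) hB
  have hJ := jac_cons C z d h0 hS
  have h1 := log_ineq v C.der j hj (Fin.cons z C.x) (fun i => by
    refine Fin.cases ?_ (fun i => ?_) i
    · rw [Fin.cons_zero]; exact hz
    · rw [Fin.cons_succ]; exact C.x_ne i) (by rw [hJ]; exact hd)
  rw [hJ, Fin.sum_univ_succ, Fin.cons_zero] at h1
  have h2 : ∑ i : Fin m, v.ord ((Fin.cons z C.x : Fin (m + 1) → K) i.succ) = ∑ i, V.w i :=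
    Finset.sum_congr rfl fun i _ => by rw [Fin.cons_succ, hx]
  rw [h2] at h1
  have h3 : V.disc = V.n * kap V.P + ∑ i, V.w i := rfl
  have h4 : j = V.disc - 1 := by
    apply le_antisymm
    · linarith
    · rw [h3]; linarith
  rw [← h4]; exact hj

end FO

section Glue
open Mono
variable {G : Type w'} [Field G] {m : ℕ} {k : Type u} [Field k] [CharZero k] [Algebra k G]
  {F : Type v} [Field F] [Algebra k F] [Cv k F] {K : Type w} [Field K] [Algebra k K]

theorem glue (C : Ctx k F K m) (V : HV k F m) (hV : ∃ g u, g ≠ 0 ∧ V.val g u = 1)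
    (Φ : K →ₐ[k] LL G m) (hA : Adapted C V Φ)
    (hB : ∀ a : Fin (m + 1) → K, (∀ j, 0 ≤ (Φ (a j)).order) → jac C.der a ≠ 0 →
      1 - V.disc ≤ (Φ (jac C.der a)).order)
    (t : Fin m → K) (τ : Fin m → EE G m) (ht : ∀ i, ∀ j < 0, (Φ (t i)).coeff j = 0)
    (ht0 : ∀ i, (Φ (t i)).coeff 0 = τ i)
    (hind : ∀ p : MvPolynomial (Fin m) k, p ≠ 0 → MvPolynomial.aeval τ p ≠ 0)
    (z d : K) (hz : z ≠ 0) (hd : d ≠ 0) (h0 : C.der 0 z = d)
    (hS : ∀ j : Fin m, C.der j.succ z = 0)
    (hzd : (Φ z).order - (Φ d).order = V.n * kap V.P) :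
    ∃ v : DVal k K, v.IsDivisorial m ∧ v.FormOrd C.der (V.disc - 1) ∧
      (∀ g u, g ≠ 0 → v.ord (C.mon g u) = V.val g u) ∧
      ∀ (s : Finset (Fin m → ℤ)) (hs : s.Nonempty) (g : (Fin m → ℤ) → F),
        (∀ u ∈ s, g u ≠ 0) →
          v.ord (∑ u ∈ s, C.mon (g u) u) = s.inf' hs fun u => V.val (g u) u := by
  have hmon : ∀ g u, g ≠ 0 → (Φ (C.mon g u)).order = V.val g u := by
    intro g u hg
    obtain ⟨c, _, h⟩ := hA.mon g hg u
    exact h.2.1
  obtain ⟨v, hv⟩ := exists_dval Φ (by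
    obtain ⟨g, u, hg, h⟩ := hV
    exact ⟨C.mon g u, mon_ne_zero C hg u, by rw [hmon g u hg, h]⟩)
  have hint : ∀ a : K, v.Integral a → 0 ≤ (Φ a).order := by
    intro a ha
    by_cases h : a = 0
    · rw [h, map_zero, HahnSeries.order_zero]
    · rw [← hv a h]; exact ha h
  refine ⟨v, div_of Φ v hv t τ ht ht0 hind, form_ord C V v ?_ ?_ z d hz hd h0 hS ?_, ?_, ?_⟩
  · intro a ha hJ
    rw [hv _ hJ]
    exact hB a (fun j => hint _ (ha j)) hJ
  · intro j
    rw [hv _ (C.x_ne j), hA.xx]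
    have h4 := (ld_ss (F := G) (m := m)).zpow (V.w j)
    have h5 := h4.mul (ld_C (TT_ne (F := G) j))
    exact (show (ss G m ^ V.w j * TL G m j).order = _ from h5.2.1).trans (by ring)
  · rw [hv _ hz, hv _ hd, hzd]
  · intro g u hg
    rw [hv _ (mon_ne_zero C hg u), hmon g u hg]
  · intro s hs g hg
    obtain ⟨h1, h2⟩ := hA.sum s hs g hg
    have h3 : ∑ u ∈ s, C.mon (g u) u ≠ 0 := by
      intro h; rw [h, map_zero] at h1; exact h1 rfl
    rw [hv _ h3, h2]

omit [CharZero k] in
theorem ι_ne (C : Ctx k F K m) {g : F} (hg : g ≠ 0) : C.ι g ≠ 0 := fun h =>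
  hg (C.ι.toRingHom.injective (by rw [map_zero]; exact h))

end Glue

end MonoC

section MONO
variable {k : Type u} [Field k] [IsAlgClosed k] [CharZero k] {F : Type v} [Field F] [Algebra k F] [Cv k F]
  {m : ℕ} {K : Type w} [Field K] [Algebra k K]

open Mono MonoC in
theorem mono (C : Ctx k F K m) (V : HV k F m) (hV : ∃ g u, g ≠ 0 ∧ V.val g u = 1) :
    ∃ v : DVal k K, v.IsDivisorial m ∧ v.FormOrd C.der (V.disc - 1) ∧
      (∀ g u, g ≠ 0 → v.ord (C.mon g u) = V.val g u) ∧
      ∀ (s : Finset (Fin m → ℤ)) (hs : s.Nonempty) (g : (Fin m → ℤ) → F),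
        (∀ u ∈ s, g u ≠ 0) →
          v.ord (∑ u ∈ s, C.mon (g u) u) = s.inf' hs fun u => V.val (g u) u := by
  have hdet : (1 : Matrix (Fin m) (Fin m) ℤ).det ≠ 0 := by rw [Matrix.det_one]; exact one_ne_zero
  by_cases hn : V.n = 0
  · -- horizontal
    have hδ : C.der 0 (C.ι (Cv.z k)) = 1 := by rw [C.der0_ι, Cv.dz, map_one]
    obtain ⟨Φ, hz, hx⟩ := phi_horiz C (G := K) C.ι (C.der 0) hδ (fun _ => 1)
      (fun _ => one_ne_zero) V.w 1 hdet ∅
    have hx' : ∀ j, Φ (C.x j) = ss K m ^ V.w j * TL K m j := fun j => by rw [hx, xi_one]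
    have hzne : (Cv.z k : F) ≠ 0 := fun h => by
      have h1 := Cv.tr (k := k) (F := F)
      rw [h] at h1
      exact h1 isAlgebraic_zero
    have hιz : C.ι (Cv.z k) ≠ 0 := MonoC.ι_ne C hzne
    have htr : Transcendental k (C.ι (Cv.z k)) := by
      rw [transcendental_iff]
      intro p hp
      rw [Polynomial.aeval_algHom_apply] at hp
      have h1 : Polynomial.aeval (Cv.z k : F) p = 0 := by
        by_contra h2
        exact MonoC.ι_ne C h2 hp
      exact transcendental_iff.1 (Cv.tr (k := k) (F := F)) p h1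
    have hA : MonoC.Adapted C V Φ := by
      refine ⟨fun g hg => ⟨C.ι g, ?_, ?_⟩, hx'⟩
      · exact MonoC.ι_ne C hg
      · rw [hz, hn]
        have h1 : C.ι g ≠ 0 := MonoC.ι_ne C hg
        have h2 : (HahnSeries.C (C.ι g) : EE K m) ≠ 0 := HahnSeries.C_ne_zero h1
        have h3 := ld_C h2
        have e : ((0 : ℕ) : ℤ) * ordAt V.P g = 0 := by simp
        rw [e]; exact h3
    obtain ⟨r, hr⟩ : ∃ r, V.w r ≠ 0 := by
      by_contra hc
      push Not at hc
      obtain ⟨g, u, _, h⟩ := hV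
      simp [HV.val, hn, hc] at h
    have hs0 : ss K m ≠ 0 := (ld_ss (F := K) (m := m)).1
    have hz1 : (Φ (C.ι (Cv.z k))).order = 0 := by
      rw [hz]
      exact HahnSeries.order_C
    have hconst : ∀ i, Φ (if i = r then C.ι (Cv.z k) else
        C.x i ^ V.w r * C.x r ^ (-V.w i)) =
        HahnSeries.C (HahnSeries.single (if i = r then 0 else
          V.w r • (toLex (Pi.single i (1 : ℤ)) : Lex (Fin m → ℤ)) -
            V.w i • toLex (Pi.single r (1 : ℤ)))
          (if i = r then C.ι (Cv.z k) else 1) : EE K m) := by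
      intro i
      by_cases hi : i = r
      · simp only [if_pos hi]
        rw [hz]; rfl
      · simp only [if_neg hi]
        have e1 : Φ (C.x i ^ V.w r * C.x r ^ (-V.w i)) =
            TL K m i ^ V.w r * TL K m r ^ (-V.w i) := by
          rw [map_mul]
          have e2 : Φ (C.x i ^ V.w r) = (Φ (C.x i)) ^ V.w r := map_zpow₀ Φ _ _
          have e3 : Φ (C.x r ^ (-V.w i)) = (Φ (C.x r)) ^ (-V.w i) := map_zpow₀ Φ _ _
          rw [e2, e3, hx', hx']
          exact fld2 (ss K m) (TL K m i) (TL K m r) hs0 (V.w i) (V.w r)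
        rw [e1]
        have e4 : TL K m i ^ V.w r = HahnSeries.C (TT K m i ^ V.w r) := by
          have h6 := single_zpow' (F := EE K m) (0 : ℤ) (TT K m i) (V.w r)
          rw [smul_zero] at h6
          exact h6
        have e5 : TL K m r ^ (-V.w i) = HahnSeries.C (TT K m r ^ (-V.w i)) := by
          have h6 := single_zpow' (F := EE K m) (0 : ℤ) (TT K m r) (-V.w i)
          rw [smul_zero] at h6
          exact h6
        rw [e4, e5, ← map_mul, TT, TT, single_zpow', single_zpow', HahnSeries.single_mul_single,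
          one_zpow, one_zpow, one_mul, neg_smul, ← sub_eq_add_neg]
    refine MonoC.glue C V hV Φ hA ?_ (fun i => if i = r then C.ι (Cv.z k) else
        C.x i ^ V.w r * C.x r ^ (-V.w i)) _ ?_ ?_ (MonoC.ind_horiz _ htr V.w r hr)
        (C.ι (Cv.z k)) 1 hιz one_ne_zero hδ (fun j => C.derS_ι j _) ?_
    · intro a ha hJ
      have h := bound_horiz C (G := K) C.ι (C.der 0) hδ (fun _ => 1)
        (fun _ => one_ne_zero) V.w 1 hdet ∅ (fun i => (V.w i : ℚ))
        ⟨r, Finset.notMem_empty r, by exact_mod_cast hr⟩ (fun j => by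
          rw [Finset.compl_empty, Finset.sum_eq_single j]
          · rw [Matrix.one_apply_eq]; simp
          · intro i _ hi
            rw [Matrix.one_apply_ne hi]; simp
          · intro h; exact absurd (Finset.mem_univ j) h) Φ hz hx a ha hJ
      rw [Finset.card_empty] at h
      have h3 : V.disc = ∑ i, V.w i := by
        rw [HV.disc, hn]; simp
      rw [h3]
      simpa using h
    · intro i j hj
      rw [hconst i]
      exact HahnSeries.coeff_single_of_ne hj.ne
    · intro i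
      rw [hconst i]
      exact HahnSeries.coeff_single_same _ _
    · rw [hz1, hn, map_one, HahnSeries.order_one]; simp
  · -- vertical
    have hn1 : 1 ≤ V.n := by omega
    obtain ⟨ψ, hψo, hψc, hψz⟩ := expand V.P V.n hn1 (EE k m)
    obtain ⟨Φ, hz, hx⟩ := phi_vert C (G := k) V.P V.n hn1 ψ hψc hψz (fun _ => 1)
      (fun _ => one_ne_zero) V.w 1 hdet ∅
    have hx' : ∀ j, Φ (C.x j) = ss k m ^ V.w j * TL k m j := fun j => by rw [hx, xi_one]
    have hrat : ∀ g : F, g ≠ 0 →
        ∃ c : k, c ≠ 0 ∧ Ld (Φ (C.ι g)) (V.n * ordAt V.P g) (HahnSeries.C c) := by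
      intro g hg
      have h1 : ψ g ≠ 0 := by
        rw [Ne, map_eq_zero]; exact hg
      obtain ⟨c, hc⟩ := hψc g (ψ g).order
      have h2 : (ψ g).leadingCoeff = HahnSeries.C c := by
        rw [HahnSeries.leadingCoeff_eq, hc, HahnSeries.algebraMap_apply]
        rfl
      refine ⟨c, ?_, ?_⟩
      · rintro rfl
        rw [map_zero] at h2
        exact HahnSeries.leadingCoeff_ne_zero.2 h1 h2
      · rw [hz]
        exact ⟨h1, hψo g hg, h2⟩
    have hA : MonoC.Adapted C V Φ := ⟨hrat, hx'⟩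
    obtain ⟨t, ht0, ht⟩ := V.P.exists_ord_eq_one
    have ht1 : ordAt V.P t = 1 := ht
    have hd : Cv.d (k := k) (F := F) t ≠ 0 := der_ne_zero V.P t (by rw [ht1]; exact one_ne_zero)
    obtain ⟨c₀, hc₀, hLd⟩ := hrat t ht0
    have hLt : ∀ i, Ld (Φ (C.x i ^ V.n * C.ι t ^ (-V.w i))) 0
        (HahnSeries.single (toLex (Pi.single i (V.n : ℤ)) : Lex (Fin m → ℤ)) (c₀ ^ (-V.w i)) :
          EE k m) := by
      intro i
      have e1 : Φ (C.x i ^ V.n * C.ι t ^ (-V.w i)) =
          (Φ (C.x i)) ^ V.n * (Φ (C.ι t)) ^ (-V.w i) := by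
        rw [map_mul, map_pow]
        have e3 : Φ (C.ι t ^ (-V.w i)) = (Φ (C.ι t)) ^ (-V.w i) := map_zpow₀ Φ _ _
        rw [e3]
      have h3 : Ld (Φ (C.x i)) (V.w i) (TT k m i) := by
        rw [hx']
        have h4 := (ld_ss (F := k) (m := m)).zpow (V.w i)
        have h5 := h4.mul (ld_C (TT_ne (F := k) i))
        rw [one_zpow, one_mul, mul_one, add_zero] at h5
        exact h5
      have h4 := (h3.pow V.n).mul (hLd.zpow (-V.w i))
      rw [← e1] at h4
      have e4 : (V.n : ℤ) * V.w i + -V.w i * (V.n * ordAt V.P t) = 0 := by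
        rw [ht1]; ring
      rw [e4] at h4
      have e6 : V.n • (toLex (Pi.single i (1 : ℤ)) : Lex (Fin m → ℤ)) =
          toLex (Pi.single i (V.n : ℤ)) := by
        apply ofLex.injective
        ext j
        show V.n • (Pi.single i (1 : ℤ) : Fin m → ℤ) j = (Pi.single i (V.n : ℤ) : Fin m → ℤ) j
        rcases eq_or_ne j i with rfl | hj
        · simp
        · simp [hj]
      have e5 : TT k m i ^ V.n * (HahnSeries.C c₀ : EE k m) ^ (-V.w i) =
          HahnSeries.single (toLex (Pi.single i (V.n : ℤ)) : Lex (Fin m → ℤ)) (c₀ ^ (-V.w i)) := by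
        have e7 : (HahnSeries.C c₀ : EE k m) ^ (-V.w i) = HahnSeries.C (c₀ ^ (-V.w i)) :=
          (map_zpow₀ (HahnSeries.C : k →+* EE k m) c₀ (-V.w i)).symm
        rw [TT, HahnSeries.single_pow, one_pow, e6, e7, HahnSeries.C_apply,
          HahnSeries.single_mul_single, add_zero, one_mul]
      rw [e5] at h4
      exact h4
    refine MonoC.glue C V hV Φ hA ?_ (fun i => C.x i ^ V.n * C.ι t ^ (-V.w i)) _ ?_ ?_
      (MonoC.ind_vert V.n hn1 (fun i => c₀ ^ (-V.w i)) fun i => zpow_ne_zero _ hc₀)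
      (C.ι t) (C.ι (Cv.d (k := k) (F := F) t)) (MonoC.ι_ne C ht0) (MonoC.ι_ne C hd)
      (C.der0_ι t) (fun j => C.derS_ι j t) ?_
    · intro a ha hJ
      have h := bound_vert C (G := k) V.P V.n hn1 ψ hψc hψz (fun _ => 1)
        (fun _ => one_ne_zero) V.w 1 hdet ∅ Φ hz hx a ha hJ
      rw [Finset.card_empty] at h
      have h3 : V.disc = V.n * kap V.P + ∑ i, V.w i := rfl
      rw [h3]
      simpa using h
    · intro i j hj
      exact (hLt i).coeff_lt hj
    · intro i
      exact (hLt i).coeff_eq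
    · rw [hz, hz, hψo t ht0, hψo _ hd, ht1, kap_eq V.P t ht1]
      ring

open MonoC in
/-- every nonzero homogeneous valuation is a multiple of a primitive one -/
theorem prim (V : HV k F m) (hV : ∃ g u, g ≠ 0 ∧ V.val g u ≠ 0) :
    ∃ (N : ℕ) (V₀ : HV k F m), 1 ≤ N ∧ (∃ g u, g ≠ 0 ∧ V₀.val g u = 1) ∧
      (∀ g u, V.val g u = N * V₀.val g u) ∧ V.disc = N * V₀.disc ∧ V₀.P = V.P ∧
      (V₀.n = 0 ↔ V.n = 0) := by
  have h0 : ∃ i, (Fin.cons (V.n : ℤ) V.w : Fin (m + 1) → ℤ) i ≠ 0 := by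
    by_contra hc
    push Not at hc
    obtain ⟨g, u, _, h⟩ := hV
    apply h
    have hn : (V.n : ℤ) = 0 := hc 0
    have hw : ∀ i, V.w i = 0 := fun i => by
      have := hc i.succ
      simpa using this
    simp [HV.val, hn, hw]
  obtain ⟨N, f₀, c, hN, hf, hc⟩ := Mono.bez _ h0
  obtain ⟨t, ht0, ht⟩ := V.P.exists_ord_eq_one
  have ht1 : ordAt V.P t = 1 := ht
  have hn : (V.n : ℤ) = N * f₀ 0 := by
    have := hf 0
    simpa using this
  have hw : ∀ i : Fin m, V.w i = N * f₀ i.succ := fun i => by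
    have := hf i.succ
    simpa using this
  have hf0 : 0 ≤ f₀ 0 := by
    by_contra hneg
    push Not at hneg
    have h1 : (0 : ℤ) ≤ V.n := Int.natCast_nonneg _
    have h2 : (1 : ℤ) ≤ N := by exact_mod_cast hN
    nlinarith
  obtain ⟨n₀, hn₀⟩ := Int.eq_ofNat_of_zero_le hf0
  have hn' : V.n = N * n₀ := by
    have : (V.n : ℤ) = ((N * n₀ : ℕ) : ℤ) := by
      rw [hn, hn₀]; push_cast; ring
    exact_mod_cast this
  refine ⟨N, ⟨V.P, n₀, fun i => f₀ i.succ⟩, hN, ⟨t ^ (c 0), fun i => c i.succ,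
    zpow_ne_zero _ ht0, ?_⟩, ?_, ?_, rfl, ?_⟩
  · rw [Fin.sum_univ_succ] at hc
    simp only [HV.val]
    rw [ord_zpow V.P ht0, ht1, mul_one, ← hc, hn₀]
    congr 1
    · exact mul_comm _ _
    · exact Finset.sum_congr rfl fun i _ => mul_comm _ _
  · intro g u
    simp only [HV.val]
    rw [hn, hn₀, mul_add, Finset.mul_sum]
    congr 1
    · ring
    · refine Finset.sum_congr rfl fun i _ => ?_
      rw [hw i]; ring
  · simp only [HV.disc]
    rw [hn, hn₀, mul_add, Finset.mul_sum]
    congr 1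
    · ring
    · exact Finset.sum_congr rfl fun i _ => hw i
  · constructor
    · intro h
      have h : n₀ = 0 := h
      rw [hn', h, mul_zero]
    · intro h
      rw [hn'] at h
      rcases Nat.mul_eq_zero.1 h with h | h
      · omega
      · exact h

end MONO

end

end Pool.Agent.MLD.C
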