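import Pool.Agent.Lib.MP_f23696_ag.C.Ctx

/-!
Values of regular functions at closed points (Nullstellensatz), for the project LSC (MP_f23696_ag).
-/

namespace Pool.Agent.MLD.C

open scoped Classical
noncomputable section

universe u v w

variable {k : Type u} [Field k] {F : Type v} [Field F] [Algebra k F] [Cv k F] {m : ℕ}
  {K : Type w} [Field K] [Algebra k K] {C : Ctx k F K m}

theorem finiteType (X : TV C) : Algebra.FiniteType k X.A := by
  rw [← Subalgebra.fg_iff_finiteType]
  rw [Subalgebra.fg_def]
  exact ⟨_, X.gens.finite_toSet.image _, X.adj⟩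

/-- Nullstellensatz: the value of a regular function at a closed point is a constant. -/
theorem exists_const [IsAlgClosed k] (X : TV C) (x : MaximalSpectrum X.A) (a : X.A) :
    ∃ c : k, a - algebraMap k X.A c ∈ x.asIdeal := by
  have := finiteType X
  have hm := x.isMaximal
  let _ := Ideal.Quotient.field x.asIdeal
  have hfin : Module.Finite k (X.A ⧸ x.asIdeal) := finite_of_finite_type_of_isJacobsonRing k _
  obtain ⟨c, hc⟩ := (IsAlgClosed.algebraMap_bijective_of_isIntegral
    (k := k) (K := X.A ⧸ x.asIdeal)).2 (Ideal.Quotient.mk x.asIdeal a)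
  refine ⟨c, ?_⟩
  rw [← Ideal.Quotient.eq, ← hc]
  rfl

theorem exists_const_ne [IsAlgClosed k] (X : TV C) (x : MaximalSpectrum X.A) (a : X.A)
    (ha : a ∉ x.asIdeal) : ∃ c : k, c ≠ 0 ∧ a - algebraMap k X.A c ∈ x.asIdeal := by
  obtain ⟨c, hc⟩ := exists_const X x a
  refine ⟨c, ?_, hc⟩
  rintro rfl
  rw [map_zero, sub_zero] at hc
  exact ha hc

end

end Pool.Agent.MLD.C
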