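import Pool.Agent.Lib.MP_f23696_ag.C.Jind
import Pool.Agent.Lib.MP_f23696_ag.Phi1
import Pool.Agent.Lib.MP_f23696_ag.Phi2

/-!
# Module PHI (version over curves): embeddings of `K` into `G((T))((s))`, bound of the Jacobians,
existence of the order of the form
-/

namespace Pool.Agent.MLD.C

open scoped Classical
noncomputable section

universe u v w w'

namespace PhiC

open Pool.Agent.MLD.Phi2

/-! ### The order of the form -/
section Form

variable {k : Type u} [Field k] {F : Type v} [Field F] [Algebra k F] [Cv k F]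
  {m : ℕ} {K : Type w} [Field K] [Algebra k K]

theorem z_ne : (Cv.z k : F) ≠ 0 := by
  intro h
  have h1 := Cv.dz (k := k) (F := F)
  rw [h, map_zero] at h1
  exact zero_ne_one h1

/-- the transcendence basis `z, x_1, …, x_m`. -/
def yy (C : Ctx k F K m) : Fin (m + 1) → K := Fin.cons (C.ι (Cv.z k)) C.x

theorem yy_ne (C : Ctx k F K m) (j : Fin (m + 1)) : yy C j ≠ 0 := by
  refine Fin.cases ?_ (fun i => ?_) j
  · simp only [yy, Fin.cons_zero]
    rw [Ne, map_eq_zero]
    exact z_ne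
  · simp only [yy, Fin.cons_succ]
    exact C.x_ne i

theorem der_yy (C : Ctx k F K m) (i j : Fin (m + 1)) :
    C.der i (yy C j) = if i = j then 1 else 0 := by
  refine Fin.cases ?_ (fun i' => ?_) i <;> refine Fin.cases ?_ (fun j' => ?_) j
  · simp only [yy, Fin.cons_zero, if_true]
    rw [C.der0_ι, Cv.dz, map_one]
  · simp only [yy, Fin.cons_succ]
    rw [C.der0_x, if_neg (Fin.succ_ne_zero j').symm]
  · simp only [yy, Fin.cons_zero]
    rw [C.derS_ι, if_neg (Fin.succ_ne_zero i')]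
  · simp only [yy, Fin.cons_succ]
    rw [C.derS_x]
    by_cases h : j' = i'
    · rw [if_pos h, if_pos (by rw [h])]
    · rw [if_neg h, if_neg (fun h' => h (Fin.succ_injective _ h').symm)]

theorem exists_integral_frame (C : Ctx k F K m) (v : DVal k K) :
    ∃ a : Fin (m + 1) → K, (∀ i, v.Integral (a i)) ∧ jac C.der a ≠ 0 := by
  have key : ∀ j : Fin (m + 1), ∃ b : K, v.Integral b ∧ ∃ e : K, e ≠ 0 ∧
      ∀ i, C.der i b = if i = j then e else 0 := by
    intro j
    by_cases hj : v.Integral (yy C j)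
    · exact ⟨yy C j, hj, 1, one_ne_zero, fun i => der_yy C i j⟩
    · refine ⟨(yy C j)⁻¹, ?_, -(yy C j)⁻¹ ^ 2, ?_, ?_⟩
      · intro _
        rw [PHI1.ord_inv v _ (yy_ne C j)]
        by_contra h
        apply hj
        intro _
        omega
      · exact neg_ne_zero.2 (pow_ne_zero _ (inv_ne_zero (yy_ne C j)))
      · intro i
        rw [Derivation.leibniz_inv, der_yy C i j]
        by_cases h : i = j
        · rw [if_pos h, if_pos h, smul_eq_mul, mul_one]
        · rw [if_neg h, if_neg h, smul_zero]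
  choose b hb e he hd using key
  refine ⟨b, hb, ?_⟩
  have : (Matrix.of fun i j => C.der i (b j)) = Matrix.diagonal e := by
    ext i j
    rw [Matrix.of_apply, hd j i, Matrix.diagonal_apply]
    by_cases h : i = j
    · rw [if_pos h, if_pos h, h]
    · rw [if_neg h, if_neg h]
  unfold jac
  rw [this, Matrix.det_diagonal]
  exact Finset.prod_ne_zero_iff.2 fun i _ => he i

end Form

/-! ### The bound, abstractly -/
section Abs

variable {k : Type u} [Field k] {F : Type v} [Field F] [Algebra k F] [Cv k F]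
  {m : ℕ} {K : Type w} [Field K] [Algebra k K]
  {L : Type w'} [Field L] [Algebra k L]
  {V : VD L} {s : L} {T a : Fin m → L}

theorem abs_bound [CharZero k] (H : Dat V s T a) (C : Ctx k F K m)
    (D0 : Derivation k L L) (e : Fin m → Derivation k L L) (ζ : L)
    (hζ : ∀ i, e i ζ = 0) (h1 : ∀ i j, e i (a j) = 0) (h2 : ∀ i, e i s = 0)
    (h3 : ∀ i j, e i (T j) = if i = j then T j else 0) (w : Fin m → ℤ)
    (β : Matrix (Fin m) (Fin m) ℤ) (hβ : β.det ≠ 0) (I : Finset (Fin m)) (hx0 : D0 ζ ≠ 0)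
    (Φ : K →ₐ[k] L) (hz : Φ (C.ι (Cv.z k)) = ζ) (hx : ∀ j, Φ (C.x j) = axi s T a w β I j)
    (b : Fin (m + 1) → K) (hJ : jac C.der b ≠ 0)
    (hdet : V.P 1 (Matrix.of fun i j =>
      (Fin.cons D0 e : Fin (m + 1) → Derivation k L L) i (Φ (b j))).det) :
    1 - (V.ord (D0 ζ) + (∑ j, w j + I.card)) ≤ V.ord (Φ (jac C.der b)) := by
  have hQ : Φ (jac C.der b) ≠ 0 := (map_ne_zero Φ).2 hJ
  have hch := jac_chain C Φ (Fin.cons D0 e : Fin (m + 1) → Derivation k L L) b
  have hy : ∀ j, Φ ((Fin.cons (C.ι (Cv.z k)) C.x : Fin (m + 1) → K) j) =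
      (Fin.cons ζ (axi s T a w β I) : Fin (m + 1) → L) j := by
    intro j
    refine Fin.cases ?_ (fun j => ?_) j
    · simpa using hz
    · simpa using hx j
  simp only [hy] at hch
  rw [J0 H D0 e ζ hζ h1 h2 h3 w β I] at hch
  rw [hch] at hdet
  have hJn := J0_ne H hx0 w β hβ I
  have h := V.to_ord 1 _ (mul_ne_zero hJn hQ) hdet
  rw [V.ord_mul _ _ hJn hQ, J0_ord H hx0 w β hβ I] at h
  linarith

theorem der_zero (C : Ctx k F K m) (Φ : K →ₐ[k] L)
    (E : Derivation k L L) (h0 : ∀ g, E (Φ (C.ι g)) = 0) (hx : ∀ i, E (Φ (C.x i)) = 0)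
    (x : K) : E (Φ x) = 0 := by
  have hmem : x ∈ IntermediateField.adjoin k (Set.range C.ι ∪ Set.range C.x) := by
    rw [C.gen]
    exact IntermediateField.mem_top
  induction hmem using IntermediateField.adjoin_induction with
  | mem x hx' =>
    rcases hx' with ⟨g, h⟩ | ⟨i, h⟩
    · rw [← h]
      exact h0 g
    · rw [← h]
      exact hx i
  | algebraMap c =>
    rw [AlgHom.commutes]
    exact Derivation.map_algebraMap E c
  | add a b _ _ ha hb => rw [map_add, map_add, ha, hb, add_zero]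
  | inv a _ ha =>
    rw [map_inv₀]
    by_cases h : Φ a = 0
    · rw [h, inv_zero, map_zero]
    · have h1 : E (Φ a * (Φ a)⁻¹) = 0 := by
        rw [mul_inv_cancel₀ h]
        exact Derivation.map_one_eq_zero E
      rw [Derivation.leibniz, ha, smul_zero, add_zero, smul_eq_mul] at h1
      exact (mul_eq_zero.1 h1).resolve_left h
  | mul a b _ _ ha hb => rw [map_mul, Derivation.leibniz, ha, hb, smul_zero, smul_zero, add_zero]

/-- the relation between the outer and the inner Euler derivations on `K` -/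
theorem rel_horiz [CharZero L] (H : Dat V s T a) (C : Ctx k F K m)
    (ds : Derivation k L L) (e : Fin m → Derivation k L L) (Φ : K →ₐ[k] L)
    (hζ : ∀ i g, e i (Φ (C.ι g)) = 0) (h1 : ∀ i j, e i (a j) = 0) (h2 : ∀ i, e i s = 0)
    (h3 : ∀ i j, e i (T j) = if i = j then T j else 0)
    (sζ : ∀ g, ds (Φ (C.ι g)) = 0) (s1 : ∀ j, ds (a j) = 0) (s2 : ds s = s)
    (s3 : ∀ j, ds (T j) = 0)
    (w : Fin m → ℤ) (β : Matrix (Fin m) (Fin m) ℤ) (I : Finset (Fin m))
    (l : Fin m → ℚ) (hw : ∀ j, (w j : ℚ) = ∑ i ∈ Iᶜ, l i * β i j)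
    (hx : ∀ j, Φ (C.x j) = axi s T a w β I j)
    (x : K) : ds (Φ x) = ∑ i, (if i ∈ I then (1 : L) else (l i : L)) * e i (Φ x) := by
  have h := der_zero C Φ (ds - ∑ i, (if i ∈ I then (1 : L) else (l i : L)) • e i) ?_ ?_ x
  · have h4 : (∑ i, (if i ∈ I then (1 : L) else (l i : L)) • e i) (Φ x) =
        ∑ i, (if i ∈ I then (1 : L) else (l i : L)) * e i (Φ x) := by
      rw [der_sum]
      rfl
    rw [Derivation.sub_apply, h4, sub_eq_zero] at h
    exact h
  · intro g
    rw [Derivation.sub_apply, sζ, der_sum, zero_sub,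
      neg_eq_zero]
    refine Finset.sum_eq_zero fun i _ => ?_
    rw [Derivation.smul_apply, hζ i, smul_zero]
  · intro j
    rw [hx, Derivation.sub_apply, ds_axi H s1 s2 s3, der_sum,
      sub_eq_zero]
    have h5 : ∀ i ∈ Finset.univ,
        ((if i ∈ I then (1 : L) else (l i : L)) • e i) (axi s T a w β I j) =
        axi s T a w β I j * ((if i ∈ I then (1 : L) else (l i : L)) *
          (((β i j : ℤ) : L) * akk s T I i)) := by
      intro i _
      rw [Derivation.smul_apply, e_axi H (h1 i) (h2 i) (h3 i), smul_eq_mul]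
      ring
    rw [Finset.sum_congr rfl h5, ← Finset.mul_sum]
    congr 1
    have h6 : ((w j : ℤ) : L) = ∑ i ∈ Iᶜ, (l i : L) * ((β i j : ℤ) : L) := by
      have := congrArg (fun q : ℚ => (q : L)) (hw j)
      simpa using this
    rw [h6, ← Finset.sum_add_sum_compl I]
    rw [add_comm]
    congr 1
    · refine Finset.sum_congr rfl fun i hi => ?_
      rw [if_pos hi, one_mul]
    · refine Finset.sum_congr rfl fun i hi => ?_
      have hi' : i ∉ I := by simpa using hi
      rw [if_neg hi']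
      unfold akk
      rw [if_neg hi', mul_one]

end Abs

/-! ### The derivations of the big field -/
section Con

variable {G : Type w'} [Field G] {m : ℕ} {k : Type u} [Field k] [Algebra k G]

theorem exists_ds : ∃ D : DDer k (LL G m),
    (∀ f, (vd (EE G m)).P 0 f → (vd (EE G m)).P 1 (D f)) ∧ (∀ a : G, D (cc G m a) = 0) ∧
      D (ss G m) = ss G m ∧ (∀ j, D (TL G m j) = 0) ∧
      ∀ (f : LL G m) (i : ℤ), HahnSeries.coeff (D f) i = (i : EE G m) * HahnSeries.coeff f i := by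
  obtain ⟨D, hadd, hmul, hD⟩ := heul_fun (k := k) (Γ := ℤ) (R := EE G m) (AddMonoidHom.id ℤ)
  have hC : ∀ a : EE G m, D (HahnSeries.C a) = 0 := by
    intro a
    ext γ
    rw [hD, HahnSeries.C_apply]
    by_cases h : γ = 0
    · subst h
      simp
    · rw [HahnSeries.coeff_single_of_ne h]
      simp
  obtain ⟨D', hD'⟩ := mkDer (k := k) (L := LL G m) D hadd hmul (fun c => by
      rw [alg_eq]
      exact hC _)
  refine ⟨D', ?_, fun a => by rw [hD']; exact hC _, ?_, fun j => by rw [hD']; exact hC _, ?_⟩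
  · intro f hf γ hγ
    rw [hD']
    refine (hD f γ).trans ?_
    rcases lt_or_ge γ 0 with h | h
    · have h1 : HahnSeries.coeff f γ = 0 := hf γ h
      rw [h1, mul_zero]
    · have : γ = 0 := by omega
      subst this
      simp
  · rw [hD']
    change D (ss G m) = ss G m
    ext γ
    rw [hD]
    by_cases h : γ = 1
    · subst h
      simp [ss]
    · unfold ss
      rw [HahnSeries.coeff_single_of_ne h, mul_zero]
  · intro f i
    rw [hD']
    exact hD f i

/-- a coefficientwise derivation of the big field -/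
theorem exists_coef (Δ : DDer k (EE G m)) :
    ∃ D : DDer k (LL G m), (∀ f, (vd (EE G m)).P 0 f → (vd (EE G m)).P 0 (D f)) ∧
      (∀ a, D (HahnSeries.C a) = HahnSeries.C (Δ a)) ∧ D (ss G m) = 0 ∧
      ∀ (f : LL G m) (i : ℤ), HahnSeries.coeff (D f) i = Δ (HahnSeries.coeff f i) := by
  obtain ⟨D, hadd, hmul, hD⟩ := hcoef_fun (k := k) (Γ := ℤ) Δ
  have hC : ∀ a, D (HahnSeries.C a) = HahnSeries.C (Δ a) := by
    intro a
    ext γ
    rw [hD, HahnSeries.C_apply, HahnSeries.C_apply]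
    by_cases h : γ = 0
    · subst h
      simp
    · rw [HahnSeries.coeff_single_of_ne h, HahnSeries.coeff_single_of_ne h, map_zero]
  obtain ⟨D', hD'⟩ := mkDer (k := k) (L := LL G m) D hadd hmul (fun c => by
      rw [alg_eq]
      refine (hC _).trans ?_
      rw [Derivation.map_algebraMap, map_zero])
  refine ⟨D', ?_, fun a => by rw [hD']; exact hC _, ?_, ?_⟩
  · intro f hf γ hγ
    rw [hD']
    refine (hD f γ).trans ?_
    have h1 : HahnSeries.coeff f γ = 0 := hf γ hγ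
    rw [h1, map_zero]
  · rw [hD']
    change D (ss G m) = 0
    ext γ
    rw [hD]
    unfold ss
    by_cases h : γ = 1
    · subst h
      simp
    · rw [HahnSeries.coeff_single_of_ne h, map_zero]
      rfl
  · intro f i
    rw [hD']
    exact hD f i

theorem exists_e (i : Fin m) : ∃ D : DDer k (LL G m),
    (∀ f, (vd (EE G m)).P 0 f → (vd (EE G m)).P 0 (D f)) ∧ (∀ a : G, D (cc G m a) = 0) ∧
      D (ss G m) = 0 ∧ (∀ j, D (TL G m j) = if i = j then TL G m j else 0) ∧
      ∀ f : LL G m, (∀ i : ℤ, ∃ c : k, HahnSeries.coeff f i = algebraMap k (EE G m) c) →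
        D f = 0 := by
  obtain ⟨Δ, hΔ⟩ := heul_exists (k := k) (Γ := Lex (Fin m → ℤ)) (R := G) (crd m i)
  obtain ⟨D, h1, h2, h3, h4⟩ := exists_coef (k := k) (G := G) (m := m) Δ
  refine ⟨D, h1, ?_, h3, ?_, ?_⟩
  · intro a
    have : Δ (HahnSeries.C a) = 0 := by
      ext γ
      rw [hΔ, HahnSeries.C_apply]
      by_cases h : γ = 0
      · subst h
        simp
      · rw [HahnSeries.coeff_single_of_ne h]
        simp
    unfold cc
    rw [RingHom.comp_apply, h2, this, map_zero]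
  · intro j
    have : Δ (TT G m j) = if i = j then TT G m j else 0 := by
      ext γ
      rw [hΔ]
      by_cases h : γ = toLex (Pi.single j (1 : ℤ))
      · subst h
        unfold TT
        by_cases hij : i = j
        · subst hij
          simp [crd]
        · simp [crd, hij]
      · have h0 : (TT G m j).coeff γ = 0 := by
          unfold TT
          rw [HahnSeries.coeff_single_of_ne h]
        rw [h0, mul_zero]
        split_ifs
        · rw [h0]
        · rfl
    unfold TL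
    rw [h2, this]
    split_ifs
    · rfl
    · rw [map_zero]
  · intro f hf
    have h5 : ∀ i : ℤ, HahnSeries.coeff (D f) i = 0 := by
      intro i
      obtain ⟨c, hc⟩ := hf i
      rw [h4, hc]
      exact Derivation.map_algebraMap Δ c
    apply HahnSeries.ext
    funext i
    exact h5 i

/-- all the derivations of the vertical case -/
theorem ders_vert (k : Type u) [Field k] (G : Type w') [Field G] [Algebra k G] (m : ℕ) :
    ∃ (D0 : DDer k (LL G m)) (e : Fin m → DDer k (LL G m)),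
      (∀ f, (vd (EE G m)).P 0 f → (vd (EE G m)).P 1 (D0 f)) ∧
      (∀ i f, (vd (EE G m)).P 0 f → (vd (EE G m)).P 0 (e i f)) ∧
      (∀ a : G, D0 (cc G m a) = 0) ∧ D0 (ss G m) = ss G m ∧ (∀ j, D0 (TL G m j) = 0) ∧
      (∀ i, ∀ a : G, e i (cc G m a) = 0) ∧ (∀ i, e i (ss G m) = 0) ∧
      (∀ i j, e i (TL G m j) = if i = j then TL G m j else 0) ∧
      (∀ (f : LL G m) (i : ℤ),
        HahnSeries.coeff (D0 f) i = (i : EE G m) * HahnSeries.coeff f i) ∧
      ∀ i, ∀ f : LL G m, (∀ i : ℤ, ∃ c : k, HahnSeries.coeff f i = algebraMap k (EE G m) c) →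
        e i f = 0 := by
  obtain ⟨D0, a1, a2, a3, a4, a5⟩ := exists_ds (k := k) (G := G) (m := m)
  choose e b1 b2 b3 b4 b5 using fun i => exists_e (k := k) (G := G) (m := m) i
  exact ⟨D0, e, a1, b1, a2, a3, a4, b2, b3, b4, a5, b5⟩

end Con

end PhiC

open Pool.Agent.MLD.Phi2 PhiC

section PHI

variable {k : Type u} [Field k] [CharZero k] {F : Type v} [Field F] [Algebra k F] [Cv k F]
  {m : ℕ} {K : Type w} [Field K] [Algebra k K] (C : Ctx k F K m)
  {G : Type w'} [Field G] [Algebra k G]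

theorem phi_vert (P : Pl k F) (n : ℕ) (hn : 1 ≤ n) (ψ : F →ₐ[k] LL G m)
    (hψ : ∀ g i, ∃ c : k, (ψ g).coeff i = algebraMap k (EE G m) c)
    (hz : ∀ f : LL G m, (∀ i : ℤ, f.coeff i = (i : EE G m) * (ψ (Cv.z k)).coeff i) →
      f ≠ 0 ∧ f.order = n * kap P) (c : Fin m → G) (hc : ∀ i, c i ≠ 0)
    (w : Fin m → ℤ) (β : Matrix (Fin m) (Fin m) ℤ) (hβ : β.det ≠ 0) (I : Finset (Fin m)) :
    ∃ Φ : K →ₐ[k] LL G m, (∀ g, Φ (C.ι g) = ψ g) ∧ ∀ j, Φ (C.x j) = xi c w β I j := by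
  have : CharZero G := charZero_of_injective_algebraMap (algebraMap k G).injective
  have hd := dat (F := G) (m := m) c hc
  obtain ⟨D0, e, a1, b1, a2, a3, a4, b2, b3, b4, a5, b5⟩ := PhiC.ders_vert k G m
  have hv := hz (D0 (ψ (Cv.z k))) (a5 _)
  have he : ∀ i, e i (ψ (Cv.z k)) = 0 := fun i => b5 i _ (hψ _)
  have hJ := J0 hd D0 e (ψ (Cv.z k)) he (fun i j => b2 i _) b3 b4 w β I
  have hJn := J0_ne hd hv.1 w β hβ I
  rw [← hJ] at hJn
  exact embed C ψ (xi c w β I) (jac_indep _ _ hJn)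

theorem phi_horiz (ρ : F →ₐ[k] G) (δ : Derivation k G G) (hδ : δ (ρ (Cv.z k)) = 1)
    (c : Fin m → G) (hc : ∀ i, c i ≠ 0)
    (w : Fin m → ℤ) (β : Matrix (Fin m) (Fin m) ℤ) (hβ : β.det ≠ 0) (I : Finset (Fin m)) :
    ∃ Φ : K →ₐ[k] LL G m, (∀ g, Φ (C.ι g) = cc G m (ρ g)) ∧ ∀ j, Φ (C.x j) = xi c w β I j := by
  have : CharZero G := charZero_of_injective_algebraMap (algebraMap k G).injective
  have hd := dat (F := G) (m := m) c hc
  obtain ⟨_, e, _, b1, _, _, _, b2, b3, b4, _, _⟩ := PhiC.ders_vert k G m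
  obtain ⟨D0, a1, a2, a3, a4⟩ := exists_d0 (k := k) (F := G) (m := m) δ
  have h0 : D0 (cc G m (ρ (Cv.z k))) = 1 := by
    rw [a2, hδ, map_one]
  have hx0 : D0 (cc G m (ρ (Cv.z k))) ≠ 0 := by
    rw [h0]
    exact one_ne_zero
  have hJ := J0 hd D0 e (cc G m (ρ (Cv.z k))) (fun i => b2 i _) (fun i j => b2 i _) b3 b4 w β I
  have hJn := J0_ne hd hx0 w β hβ I
  rw [← hJ] at hJn
  have hcomm : ∀ r : k, ((cc G m).comp ρ.toRingHom) (algebraMap k F r) =
      algebraMap k (LL G m) r := by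
    intro r
    rw [alg_eq]
    change cc G m (ρ (algebraMap k F r)) = _
    rw [AlgHom.commutes]
    rfl
  let ψ : F →ₐ[k] LL G m := { (cc G m).comp ρ.toRingHom with commutes' := hcomm }
  obtain ⟨Φ, h1, h2⟩ := embed C ψ (xi c w β I) (jac_indep _ _ hJn)
  exact ⟨Φ, fun g => h1 g, h2⟩

theorem bound_vert (P : Pl k F) (n : ℕ) (hn : 1 ≤ n) (ψ : F →ₐ[k] LL G m)
    (hψ : ∀ g i, ∃ c : k, (ψ g).coeff i = algebraMap k (EE G m) c)
    (hz : ∀ f : LL G m, (∀ i : ℤ, f.coeff i = (i : EE G m) * (ψ (Cv.z k)).coeff i) →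
      f ≠ 0 ∧ f.order = n * kap P) (c : Fin m → G) (hc : ∀ i, c i ≠ 0)
    (w : Fin m → ℤ) (β : Matrix (Fin m) (Fin m) ℤ) (hβ : β.det ≠ 0) (I : Finset (Fin m))
    (Φ : K →ₐ[k] LL G m) (hΦ : ∀ g, Φ (C.ι g) = ψ g)
    (hx : ∀ j, Φ (C.x j) = xi c w β I j) (a : Fin (m + 1) → K)
    (ha : ∀ j, 0 ≤ (Φ (a j)).order) (hJ : jac C.der a ≠ 0) :
    1 - (n * kap P + ∑ i, w i + I.card) ≤ (Φ (jac C.der a)).order := by
  have : CharZero G := charZero_of_injective_algebraMap (algebraMap k G).injective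
  have hd := dat (F := G) (m := m) c hc
  obtain ⟨D0, e, a1, b1, a2, a3, a4, b2, b3, b4, a5, b5⟩ := PhiC.ders_vert k G m
  have hv := hz (D0 (ψ (Cv.z k))) (a5 _)
  have he : ∀ i, e i (ψ (Cv.z k)) = 0 := fun i => b5 i _ (hψ _)
  have hdet := det_vert (vd (EE G m)) D0 e a1 b1 (fun j => Φ (a j))
    (fun j => (vd (EE G m)).of_ord 0 _ (ha j))
  have h := PhiC.abs_bound hd C D0 e (ψ (Cv.z k)) he (fun i j => b2 i _) b3 b4 w β hβ I hv.1 Φ
    (hΦ _) hx a hJ hdet
  have h2 : (vd (EE G m)).ord (D0 (ψ (Cv.z k))) = n * kap P := hv.2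
  rw [h2, ← add_assoc] at h
  exact h

theorem bound_horiz (ρ : F →ₐ[k] G) (δ : Derivation k G G) (hδ : δ (ρ (Cv.z k)) = 1)
    (c : Fin m → G) (hc : ∀ i, c i ≠ 0)
    (w : Fin m → ℤ) (β : Matrix (Fin m) (Fin m) ℤ) (hβ : β.det ≠ 0) (I : Finset (Fin m))
    (l : Fin m → ℚ) (hl : ∃ i ∉ I, l i ≠ 0) (hw : ∀ j, (w j : ℚ) = ∑ i ∈ Iᶜ, l i * β i j)
    (Φ : K →ₐ[k] LL G m) (hΦ : ∀ g, Φ (C.ι g) = cc G m (ρ g))
    (hx : ∀ j, Φ (C.x j) = xi c w β I j) (a : Fin (m + 1) → K)
    (ha : ∀ j, 0 ≤ (Φ (a j)).order) (hJ : jac C.der a ≠ 0) :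
    1 - (∑ i, w i + I.card) ≤ (Φ (jac C.der a)).order := by
  have : CharZero G := charZero_of_injective_algebraMap (algebraMap k G).injective
  have : CharZero (LL G m) :=
    charZero_of_injective_algebraMap (algebraMap k (LL G m)).injective
  have hd := dat (F := G) (m := m) c hc
  obtain ⟨ds, e, s1, b1, s2, s3, s4, b2, b3, b4, _, _⟩ := PhiC.ders_vert k G m
  obtain ⟨D0, a1, a2, a3, a4⟩ := exists_d0 (k := k) (F := G) (m := m) δ
  have h0 : D0 (cc G m (ρ (Cv.z k))) = 1 := by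
    rw [a2, hδ, map_one]
  have hx0 : D0 (cc G m (ρ (Cv.z k))) ≠ 0 := by
    rw [h0]
    exact one_ne_zero
  obtain ⟨i₀, hi₀, hli⟩ := hl
  have hq := rat_ord hd (q := l i₀) hli
  have hlam : (if i₀ ∈ I then (1 : LL G m) else ((l i₀ : ℚ) : LL G m)) =
      ((l i₀ : ℚ) : LL G m) := if_neg hi₀
  have hdet := det_horiz (vd (EE G m)) D0 ds e a1 s1 b1
    (fun i => if i ∈ I then (1 : LL G m) else ((l i : ℚ) : LL G m)) i₀
    (by
      change (if i₀ ∈ I then (1 : LL G m) else ((l i₀ : ℚ) : LL G m)) ≠ 0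
      rw [hlam]
      exact hq.1)
    (by
      rw [hlam]
      apply (vd (EE G m)).of_ord
      rw [(vd (EE G m)).ord_inv hq.1, hq.2]
      norm_num)
    (fun j => Φ (a j)) (fun j => (vd (EE G m)).of_ord 0 _ (ha j))
    (fun j => PhiC.rel_horiz hd C ds e Φ (fun i g => by rw [hΦ]; exact b2 i _)
      (fun i j => b2 i _) b3 b4
      (fun g => by rw [hΦ]; exact s2 _) (fun j => s2 _) s3 s4 w β I l hw hx (a j))
  have h := PhiC.abs_bound hd C D0 e (cc G m (ρ (Cv.z k))) (fun i => b2 i _) (fun i j => b2 i _)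
    b3 b4 w β hβ I hx0 Φ (hΦ _) hx a hJ hdet
  rw [h0, (vd (EE G m)).ord_one, zero_add] at h
  exact h

/-- existence of the order of the form from a lower bound of the Jacobians -/
theorem formOrd_exists (v : DVal k K) (N : ℤ)
    (h : ∀ a : Fin (m + 1) → K, (∀ i, v.Integral (a i)) → jac C.der a ≠ 0 →
      N ≤ v.ord (jac C.der a)) :
    ∃ j : ℤ, v.FormOrd C.der j ∧ j ≤ -N := by
  obtain ⟨a₀, ha₀, hj₀⟩ := PhiC.exists_integral_frame C v
  obtain ⟨lb, ⟨a, ha, hj, hlb⟩, hmin⟩ := Int.exists_least_of_bdd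
    (P := fun z => ∃ a : Fin (m + 1) → K, (∀ i, v.Integral (a i)) ∧ jac C.der a ≠ 0 ∧
      v.ord (jac C.der a) = z)
    ⟨N, fun z ⟨a, ha, hj, hz⟩ => hz ▸ h a ha hj⟩ ⟨_, a₀, ha₀, hj₀, rfl⟩
  refine ⟨-lb, ⟨?_, a, ha, hj, by rw [hlb, neg_neg]⟩, ?_⟩
  · intro b hb hjb
    rw [neg_neg]
    exact hmin _ ⟨b, hb, hjb, rfl⟩
  · have := h a ha hj
    omega

end PHI

end

end Pool.Agent.MLD.C
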