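import Pool.Agent.Lib.MP_f23696_ag.C.Ctx

/-!
The value of a function at a closed point (Nullstellensatz), MP_f23696_ag.
-/

namespace Pool.Agent.MLD.C

open scoped Classical
noncomputable section

universe u v w

variable {k : Type u} [Field k] {F : Type v} [Field F] [Algebra k F] [Cv k F] {m : ℕ}
  {K : Type w} [Field K] [Algebra k K] {C : Ctx k F K m}

namespace Value

theorem finType (X : TV C) : Algebra.FiniteType k X.A := by
  have h : X.A.FG := by
    rw [← X.adj]
    exact ⟨X.gens.image (fun h : F × (Fin m → ℤ) => C.mon h.1 h.2), by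
      rw [Finset.coe_image]⟩
  exact X.A.fg_iff_finiteType.mp h

/-- the value of a function at a closed point -/
theorem value [IsAlgClosed k] (X : TV C) (x : MaximalSpectrum X.A) (a : X.A) :
    ∃ c : k, a - algebraMap k X.A c ∈ x.asIdeal := by
  have := finType X
  have := x.isMaximal
  let _ : Field (X.A ⧸ x.asIdeal) := Ideal.Quotient.field x.asIdeal
  have : Algebra.FiniteType k (X.A ⧸ x.asIdeal) :=
    Algebra.FiniteType.of_surjective (Ideal.Quotient.mkₐ k x.asIdeal)
      (Ideal.Quotient.mkₐ_surjective k x.asIdeal)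
  have : Module.Finite k (X.A ⧸ x.asIdeal) :=
    finite_of_finite_type_of_isJacobsonRing k (X.A ⧸ x.asIdeal)
  have hb : Function.Bijective (algebraMap k (X.A ⧸ x.asIdeal)) :=
    IsAlgClosed.algebraMap_bijective_of_isIntegral
  obtain ⟨c, hc⟩ := hb.2 (Ideal.Quotient.mk x.asIdeal a)
  refine ⟨c, ?_⟩
  rw [← Ideal.Quotient.eq, ← hc]
  rfl

/-- evaluation at a closed point as a ring homomorphism with kernel the maximal ideal -/
theorem exists_eval [IsAlgClosed k] (X : TV C) (x : MaximalSpectrum X.A) :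
    ∃ ε : X.A →ₐ[k] k, ∀ a : X.A, ε a = 0 ↔ a ∈ x.asIdeal := by
  have := finType X
  have := x.isMaximal
  let _ : Field (X.A ⧸ x.asIdeal) := Ideal.Quotient.field x.asIdeal
  have : Algebra.FiniteType k (X.A ⧸ x.asIdeal) :=
    Algebra.FiniteType.of_surjective (Ideal.Quotient.mkₐ k x.asIdeal)
      (Ideal.Quotient.mkₐ_surjective k x.asIdeal)
  have : Module.Finite k (X.A ⧸ x.asIdeal) :=
    finite_of_finite_type_of_isJacobsonRing k (X.A ⧸ x.asIdeal)
  have hb : Function.Bijective (algebraMap k (X.A ⧸ x.asIdeal)) :=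
    IsAlgClosed.algebraMap_bijective_of_isIntegral
  let e : k ≃ₐ[k] (X.A ⧸ x.asIdeal) := AlgEquiv.ofBijective (Algebra.ofId k _) hb
  refine ⟨e.symm.toAlgHom.comp (Ideal.Quotient.mkₐ k x.asIdeal), ?_⟩
  intro a
  rw [AlgHom.comp_apply]
  rw [Ideal.Quotient.mkₐ_eq_mk]
  change e.symm (Ideal.Quotient.mk x.asIdeal a) = 0 ↔ _
  rw [map_eq_zero_iff _ e.symm.injective, Ideal.Quotient.eq_zero_iff_mem]

theorem not_hS {X : TV C} {p : Ideal X.A} {g : F} {u : Fin m → ℤ} (h : X.hA g u)
    (hn : ¬ X.hS p g u) : (⟨C.mon g u, h.2⟩ : X.A) ∈ p := by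
  by_contra hc
  exact hn ⟨h.1, h.2, hc⟩

/-- if the rank of the degrees is zero, all the degrees are zero -/
theorem deg_zero {S : F → (Fin m → ℤ) → Prop} (h : rk S = 0) {g : F}
    {u : Fin m → ℤ} (hS : S g u) : u = 0 := by
  unfold rk at h
  rw [Submodule.finrank_eq_zero] at h
  have hm : (fun i => (u i : ℚ)) ∈
      Submodule.span ℚ {x : Fin m → ℚ | ∃ g u, S g u ∧ x = fun i => (u i : ℚ)} :=
    Submodule.subset_span ⟨g, u, hS, rfl⟩
  rw [h, Submodule.mem_bot] at hm
  funext i
  have := congrFun hm i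
  simpa using this

theorem iota_C (C : Ctx k F K m) (c : k) : C.ι (algebraMap k F c) = algebraMap k K c :=
  C.ι.commutes c

theorem z_sub_C_ne (k : Type u) [Field k] {F : Type v} [Field F] [Algebra k F] [Cv k F] (c : k) :
    (Cv.z k - algebraMap k F c : F) ≠ 0 := by
  intro h
  refine (Cv.tr (k := k) (F := F)) ?_
  rw [sub_eq_zero] at h
  rw [h]
  exact isAlgebraic_algebraMap c

end Value

end

end Pool.Agent.MLD.C
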