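import Pool.Agent.Lib.MP_f23696_ag.LeHB
import Pool.Agent.Lib.MP_f23696_ag.C.Phi
import Pool.Agent.Lib.MP_f23696_ag.C.Gr
import Pool.Agent.Lib.MP_f23696_ag.C.Value

/-!
Project LSC over curves (MP_f23696_ag), module LEH: upper bound in the horizontal case.
-/

namespace Pool.Agent.MLD.C

open scoped Classical
noncomputable section

universe u v w w'

namespace LECC

section Cen

variable {k : Type u} [Field k] {R : Type w'} [Field R] [Algebra k R]
  {F : Type v} [Field F] [Algebra k F] [Cv k F]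
  {K : Type w} [Field K] [Algebra k K]

open Pool.Agent.MLD.LEC (Pos NN Pos.sum nn_C coeff_C_zero order_of_nn order_of_pos Pos.nn)

variable {m : ℕ} {C : Ctx k F K m}

/-- the centre of the valuation -/
theorem hasCenter_of (X : TV C) (x : MaximalSpectrum X.A) (Φ : K →ₐ[k] LaurentSeries R)
    (v : DVal k K) (hv : ∀ a, a ≠ 0 → v.ord a = (Φ a).order) (ε : X.A →ₐ[k] k)
    (hε : ∀ a : X.A, ε a = 0 ↔ a ∈ x.asIdeal)
    (h : ∀ g u, ∀ hg : X.hA g u,
      Pos (Φ (C.mon g u) - HahnSeries.C (algebraMap k R (ε ⟨C.mon g u, hg.2⟩)))) :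
    v.HasCenter X.A x.asIdeal := by
  have key : ∀ a : X.A, Pos (Φ (a : K) - HahnSeries.C (algebraMap k R (ε a))) := by
    intro a
    obtain ⟨s, g, hs, hA⟩ := gr1 X a
    have ha : a = ∑ u ∈ s.attach, (⟨C.mon (g u) u, (hA u u.2).2⟩ : X.A) := by
      apply Subtype.ext
      rw [hs]
      rw [AddSubmonoidClass.coe_finsetSum]
      exact (Finset.sum_attach s (fun u => C.mon (g u) u)).symm
    have h1 : Φ (a : K) - HahnSeries.C (algebraMap k R (ε a)) = ∑ u ∈ s.attach,
        (Φ (C.mon (g u) u) - HahnSeries.C (algebraMap k R (ε ⟨C.mon (g u) u, (hA u u.2).2⟩))) := by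
      rw [Finset.sum_sub_distrib]
      congr 1
      · conv_lhs => rw [ha]
        rw [AddSubmonoidClass.coe_finsetSum, map_sum]
      · conv_lhs => rw [ha]
        rw [map_sum, map_sum, map_sum]
    rw [h1]
    exact Pos.sum _ _ fun u _ => h _ _ (hA u u.2)
  have hint : ∀ a : X.A, NN (Φ (a : K)) := by
    intro a
    have h1 : Φ (a : K) = (Φ (a : K) - HahnSeries.C (algebraMap k R (ε a)))
        + HahnSeries.C (algebraMap k R (ε a)) := by ring
    rw [h1]
    exact (key a).nn.add (nn_C _)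
  refine ⟨fun a ha => ?_, fun a => ⟨fun hp ha => ?_, fun hs => ?_⟩⟩
  · rw [hv _ ha]
    exact order_of_nn (hint a)
  · rw [hv _ ha]
    have h1 := key a
    rw [(hε a).2 hp, map_zero, map_zero, sub_zero] at h1
    refine order_of_pos h1 ?_
    intro h2
    exact ha ((map_eq_zero Φ).1 h2)
  · rw [← hε]
    by_cases ha : (a : K) = 0
    · have : a = 0 := Subtype.ext ha
      rw [this, map_zero]
    · have h1 := hs ha
      rw [hv _ ha] at h1
      have h2 := key a 0 le_rfl
      rw [HahnSeries.coeff_sub, HahnSeries.coeff_eq_zero_of_lt_order h1, coeff_C_zero,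
        zero_sub, neg_eq_zero] at h2
      exact (map_eq_zero _).1 h2

/-- degrees of the semi-invariants not vanishing at `x` -/
def Gam (X : TV C) (x : MaximalSpectrum X.A) : AddSubmonoid (Fin m → ℤ) where
  carrier := {u | ∃ g, X.hS x.asIdeal g u}
  zero_mem' := by
    refine ⟨1, one_ne_zero, ?_⟩
    have h1 : C.mon 1 0 = 1 := GR.mon_one C
    refine ⟨by rw [h1]; exact X.A.one_mem, ?_⟩
    intro h
    have h2 : (⟨C.mon 1 0, by rw [h1]; exact X.A.one_mem⟩ : X.A) = 1 := Subtype.ext h1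
    rw [h2] at h
    exact x.isMaximal.ne_top ((Ideal.eq_top_iff_one _).2 h)
  add_mem' := by
    rintro u t ⟨g, hg, hgA, hgx⟩ ⟨h, hh, hhA, hhx⟩
    refine ⟨g * h, mul_ne_zero hg hh, ?_⟩
    have h1 := mon_mul C g h u t
    refine ⟨by rw [h1]; exact X.A.mul_mem hgA hhA, ?_⟩
    intro h2
    have h3 : (⟨C.mon (g * h) (u + t), by rw [h1]; exact X.A.mul_mem hgA hhA⟩ : X.A)
        = ⟨C.mon g u, hgA⟩ * ⟨C.mon h t, hhA⟩ := Subtype.ext h1
    rw [h3] at h2
    rcases x.isMaximal.isPrime.mem_or_mem h2 with h4 | h4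
    · exact hgx h4
    · exact hhx h4

theorem mem_Gam (X : TV C) (x : MaximalSpectrum X.A) (u : Fin m → ℤ) :
    u ∈ Gam X x ↔ ∃ g, X.hS x.asIdeal g u := Iff.rfl

theorem rk_Gam (X : TV C) (x : MaximalSpectrum X.A) :
    rk (X.hS x.asIdeal) = Module.finrank ℚ (Submodule.span ℚ
        {y : Fin m → ℚ | ∃ u ∈ Gam X x, y = fun i => (u i : ℚ)}) := by
  have h : {y : Fin m → ℚ | ∃ g u, X.hS x.asIdeal g u ∧ y = fun i => (u i : ℚ)}
      = {y : Fin m → ℚ | ∃ u ∈ Gam X x, y = fun i => (u i : ℚ)} := by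
    ext y
    constructor
    · rintro ⟨g, u, hS, rfl⟩
      exact ⟨u, ⟨g, hS⟩, rfl⟩
    · rintro ⟨u, ⟨g, hS⟩, rfl⟩
      exact ⟨g, u, hS, rfl⟩
  unfold rk
  rw [h]

end Cen

section Char

variable {k : Type u} [Field k] [IsAlgClosed k] [CharZero k]
  {F : Type v} [Field F] [Algebra k F] [Cv k F] {m : ℕ} {K : Type w} [Field K]
  [Algebra k K] {C : Ctx k F K m}

/-- functions on the curve as elements of the algebraic closure -/
def lam (C : Ctx k F K m) : F →ₐ[k] AlgebraicClosure K :=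
  (IsScalarTower.toAlgHom k K (AlgebraicClosure K)).comp C.ι

theorem lam_C (c : k) : lam C (algebraMap k F c) = algebraMap k (AlgebraicClosure K) c :=
  (lam C).commutes c

theorem lam_ne {g : F} (hg : g ≠ 0) : lam C g ≠ 0 := by
  rw [Ne, map_eq_zero]
  exact hg

theorem val_eq {V : HV k F m} (hn : V.n = 0) (g : F) (u : Fin m → ℤ) :
    V.val g u = ∑ i, V.w i * u i := by
  unfold HV.val
  rw [hn]
  simp

theorem val_S {X : TV C} {x : MaximalSpectrum X.A} {V : HV k F m} (hV : V.CenterEq X x.asIdeal)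
    {g : F} {u : Fin m → ℤ} (h : X.hS x.asIdeal g u) : V.val g u = 0 := by
  have hA : X.hA g u := ⟨h.1, h.2.choose⟩
  have h1 := hV.1 g u hA
  have h2 := (hV.2 g u hA)
  by_contra hne
  exact (h2.1 (lt_of_le_of_ne h1 (Ne.symm hne))) h

theorem hS_iff {X : TV C} {x : MaximalSpectrum X.A} {ε : X.A →ₐ[k] k}
    (hε : ∀ a : X.A, ε a = 0 ↔ a ∈ x.asIdeal) {g : F} {u : Fin m → ℤ} (hg : g ≠ 0)
    (hA : C.mon g u ∈ X.A) : X.hS x.asIdeal g u ↔ ε ⟨_, hA⟩ ≠ 0 := by
  rw [Ne, hε]
  exact ⟨fun h => h.2.choose_spec, fun h => ⟨hg, hA, h⟩⟩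

theorem mon_sub_C (C : Ctx k F K m) (g g' : F) (c : k) (u : Fin m → ℤ) :
    C.mon (g - algebraMap k F c * g') u = C.mon g u - algebraMap k K c * C.mon g' u := by
  unfold Ctx.mon
  rw [map_sub, map_mul, Value.iota_C]
  ring

/-- two semi-invariants of the same degree not vanishing at `x` are proportional -/
theorem same_degree {X : TV C} {x : MaximalSpectrum X.A} {V : HV k F m}
    (hV : V.CenterEq X x.asIdeal) (hn : V.n = 0) {ε : X.A →ₐ[k] k}
    (hε : ∀ a : X.A, ε a = 0 ↔ a ∈ x.asIdeal) {g g' : F} {u : Fin m → ℤ}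
    (hg : g ≠ 0) (hA : C.mon g u ∈ X.A) (hA' : C.mon g' u ∈ X.A)
    (he : ε ⟨_, hA⟩ ≠ 0) (he' : ε ⟨_, hA'⟩ ≠ 0) :
    g = algebraMap k F (ε ⟨_, hA⟩ / ε ⟨_, hA'⟩) * g' := by
  set c := ε ⟨_, hA⟩ / ε ⟨_, hA'⟩ with hc
  by_contra hne
  have h0 : g - algebraMap k F c * g' ≠ 0 := sub_ne_zero.2 hne
  have h1 := mon_sub_C C g g' c u
  have hmem : C.mon (g - algebraMap k F c * g') u ∈ X.A := by
    rw [h1]
    exact X.A.sub_mem hA (X.A.mul_mem (X.A.algebraMap_mem c) hA')
  have h2 : ε ⟨_, hmem⟩ = 0 := by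
    have h3 : (⟨_, hmem⟩ : X.A) = ⟨_, hA⟩ - algebraMap k X.A c * ⟨_, hA'⟩ := Subtype.ext h1
    rw [h3, map_sub, map_mul, AlgHom.commutes]
    simp only [Algebra.algebraMap_self, RingHom.id_apply]
    rw [hc, div_mul_cancel₀ _ he', sub_self]
  have h3 : ¬ X.hS x.asIdeal (g - algebraMap k F c * g') u := by
    rw [hS_iff hε h0 hmem]
    exact fun h => h h2
  have h4 := (hV.2 _ _ ⟨h0, hmem⟩).2 h3
  rw [val_eq hn] at h4
  have h5 := val_S hV ((hS_iff hε hg hA).2 he)
  rw [val_eq hn] at h5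
  omega

/-- the character -/
theorem exists_char {X : TV C} {x : MaximalSpectrum X.A} {V : HV k F m}
    (hV : V.CenterEq X x.asIdeal) (hn : V.n = 0) {ε : X.A →ₐ[k] k}
    (hε : ∀ a : X.A, ε a = 0 ↔ a ∈ x.asIdeal) :
    ∃ c : Fin m → AlgebraicClosure K, (∀ i, c i ≠ 0) ∧
      ∀ g u, g ≠ 0 → ∀ hA : C.mon g u ∈ X.A, ε ⟨_, hA⟩ ≠ 0 →
        lam C g * ∏ i, c i ^ u i = algebraMap k (AlgebraicClosure K) (ε ⟨_, hA⟩) := by
  set Fb := AlgebraicClosure K
  let ψ : (Fin m → ℤ) → Fb := fun u =>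
    if h : ∃ g, X.hS x.asIdeal g u then
      algebraMap k Fb (ε ⟨_, h.choose_spec.2.choose⟩) / lam C h.choose else 1
  have key : ∀ g u, ∀ hg : g ≠ 0, ∀ hA : C.mon g u ∈ X.A, ε ⟨_, hA⟩ ≠ 0 →
      ψ u = algebraMap k Fb (ε ⟨_, hA⟩) / lam C g := by
    intro g u hg hA he
    have hex : ∃ g, X.hS x.asIdeal g u := ⟨g, (hS_iff hε hg hA).2 he⟩
    have hψ : ψ u = algebraMap k Fb (ε ⟨_, hex.choose_spec.2.choose⟩) / lam C hex.choose := by
      simp only [ψ]
      rw [dif_pos hex]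
    set g' := hex.choose with hg'
    have hg'0 : g' ≠ 0 := hex.choose_spec.1
    have hA' : C.mon g' u ∈ X.A := hex.choose_spec.2.choose
    have he' : ε ⟨_, hA'⟩ ≠ 0 := (hS_iff hε hg'0 hA').1 hex.choose_spec
    have h1 := same_degree hV hn hε hg'0 hA' hA he' he
    have h2 : lam C g' = algebraMap k Fb (ε ⟨_, hA'⟩ / ε ⟨_, hA⟩) * lam C g := by
      rw [← lam_C (C := C), ← map_mul, ← h1]
    have n1 : algebraMap k Fb (ε ⟨_, hA'⟩) ≠ 0 := by rw [Ne, map_eq_zero]; exact he'
    rw [hψ, h2, map_div₀, div_mul_eq_mul_div, div_div_eq_mul_div, mul_div_mul_left _ _ n1]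
  have h0 : ∀ u ∈ Gam X x, ψ u ≠ 0 := by
    rintro u ⟨g, hS⟩
    have hA := hS.2.choose
    have he := (hS_iff hε hS.1 hA).1 hS
    rw [key g u hS.1 hA he]
    refine div_ne_zero ?_ (lam_ne hS.1)
    rw [Ne, map_eq_zero]
    exact he
  have hm : ∀ u ∈ Gam X x, ∀ t ∈ Gam X x, ψ (u + t) = ψ u * ψ t := by
    rintro u ⟨g, hS⟩ t ⟨h, hT⟩
    have hA := hS.2.choose
    have he := (hS_iff hε hS.1 hA).1 hS
    have hB := hT.2.choose
    have hf := (hS_iff hε hT.1 hB).1 hT
    have h1 := mon_mul C g h u t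
    have hAB : C.mon (g * h) (u + t) ∈ X.A := by
      rw [h1]
      exact X.A.mul_mem hA hB
    have h2 : ε ⟨_, hAB⟩ = ε ⟨_, hA⟩ * ε ⟨_, hB⟩ := by
      rw [← map_mul]
      congr 1
      exact Subtype.ext h1
    have h3 : ε ⟨_, hAB⟩ ≠ 0 := by
      rw [h2]
      exact mul_ne_zero he hf
    rw [key g u hS.1 hA he, key h t hT.1 hB hf, key (g * h) (u + t) (mul_ne_zero hS.1 hT.1) hAB h3,
      h2, map_mul, map_mul]
    rw [mul_div_mul_comm]
  obtain ⟨c, hc, hcu⟩ := chext (Gam X x) ψ h0 hm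
  refine ⟨c, hc, fun g u hg hA he => ?_⟩
  rw [hcu u ⟨g, (hS_iff hε hg hA).2 he⟩, key g u hg hA he]
  rw [mul_comm, div_mul_cancel₀ _ (lam_ne hg)]

/-- the horizontal valuation is not trivial -/
theorem w_ne {X : TV C} {x : MaximalSpectrum X.A} {V : HV k F m}
    (hV : V.CenterEq X x.asIdeal) (hn : V.n = 0) {ε : X.A →ₐ[k] k}
    (hε : ∀ a : X.A, ε a = 0 ↔ a ∈ x.asIdeal) : V.w ≠ 0 := by
  intro hw
  have hval : ∀ g u, V.val g u = 0 := by
    intro g u
    rw [val_eq hn, hw]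
    simp
  have hall : ∀ g u, X.hA g u → X.hS x.asIdeal g u := by
    intro g u hA
    by_contra hnS
    have := (hV.2 g u hA).2 hnS
    rw [hval] at this
    exact lt_irrefl _ this
  have hX : (Cv.z k : F) ≠ 0 := PhiC.z_ne
  obtain ⟨g₁, g₂, u₁, u₂, h1, h2, h3, h4⟩ := ratio X hX 0
  rw [zero_add] at h4
  subst h4
  have e1 := (hS_iff hε h1.1 h1.2).1 (hall _ _ h1)
  have e2 := (hS_iff hε h2.1 h2.2).1 (hall _ _ h2)
  have h5 := h3.symm.trans (same_degree hV hn hε h1.1 h1.2 h2.2 e1 e2)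
  have h6 := mul_right_cancel₀ h2.1 h5
  exact Value.z_sub_C_ne k _ (sub_eq_zero.2 h6)

end Char

end LECC

theorem LECC.cancel_div {L : Type*} [Field L] {a : L} (h : a ≠ 0) (y : L) :
    a * y / a = y := by
  field_simp

section LE
variable {k : Type u} [Field k] [IsAlgClosed k] [CharZero k] {F : Type v} [Field F] [Algebra k F] [Cv k F]
  {m : ℕ} {K : Type w} [Field K] [Algebra k K] {C : Ctx k F K m}

theorem le_horiz (X : TV C) (x : MaximalSpectrum X.A) (V : HV k F m)
    (hV : V.CenterEq X x.asIdeal) (hn : V.n = 0) (hr : 1 ≤ rk (X.hS x.asIdeal)) :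
    ∃ (v : DVal k K) (j : ℤ), v.IsDivisorial m ∧ v.HasCenter X.A x.asIdeal ∧
      v.FormOrd C.der j ∧ (∀ g u, g ≠ 0 → v.ord (C.mon g u) = V.val g u) ∧
      j + 1 ≤ V.disc + rk (X.hS x.asIdeal) := by
  have : CharZero K := charZero_of_injective_algebraMap (algebraMap k K).injective
  have : CharZero (AlgebraicClosure K) :=
    charZero_of_injective_algebraMap (algebraMap K (AlgebraicClosure K)).injective
  obtain ⟨ε, hε⟩ := Value.exists_eval X x
  obtain ⟨c, hc, hchar⟩ := LECC.exists_char hV hn hε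
  obtain ⟨β, I, α, e, hβ, hI, hΓI, hα, hβe, heΓ, hw⟩ := beta (LECC.Gam X x)
  rw [← LECC.rk_Gam] at hI
  have hwΓ : ∀ u ∈ LECC.Gam X x, ∑ i, V.w i * u i = 0 := by
    rintro u ⟨g, hS⟩
    rw [← LECC.val_eq hn g u]
    exact LECC.val_S hV hS
  obtain ⟨l, hl⟩ := hw V.w hwΓ
  have hlne : ∃ i ∉ I, l i ≠ 0 := by
    by_contra hcon
    push Not at hcon
    apply LECC.w_ne hV hn hε
    funext j
    have h1 := hl j
    rw [Finset.sum_eq_zero] at h1
    · exact_mod_cast h1
    · intro i hi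
      rw [hcon i (Finset.mem_compl.1 hi), zero_mul]
  obtain ⟨p, hpI, hlp⟩ := hlne
  obtain ⟨δ, hδ⟩ := dext (C.der 0)
  have hδz : δ (LECC.lam C (Cv.z k)) = 1 := by
    have h1 : LECC.lam C (Cv.z k) = algebraMap K (AlgebraicClosure K) (C.ι (Cv.z k)) := rfl
    rw [h1, hδ, C.der0_ι, Cv.dz, map_one, map_one]
  obtain ⟨Φ, hΦg, hΦx⟩ := phi_horiz C (LECC.lam C) δ hδz c hc V.w β hβ I
  have hmon : ∀ g u, Φ (C.mon g u) = cc (AlgebraicClosure K) m (LECC.lam C g) *
      ∏ j, xi c V.w β I j ^ u j := by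
    intro g u
    unfold Ctx.mon
    rw [map_mul, hΦg, map_prod]
    congr 1
    exact Finset.prod_congr rfl fun j _ => by rw [map_zpow₀, hΦx]
  have hord : ∀ g u, g ≠ 0 → (Φ (C.mon g u)).order = ∑ i, V.w i * u i := by
    intro g u hg
    rw [hmon, LEC.order_xi' hc V.w β I u (LECC.lam_ne hg)]
  have hlc : ∀ g u, LEC.lc (EE (AlgebraicClosure K) m) (Φ (C.mon g u)) = HahnSeries.single
      (toLex fun i => if i ∈ I then 0 else ∑ j, β i j * u j)
      (LECC.lam C g * ∏ j, c j ^ u j) := by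
    intro g u
    rw [hmon, LEC.lc_xi']
  have hconst : ∀ b : k, Φ (algebraMap k K b)
      = cc (AlgebraicClosure K) m (algebraMap k (AlgebraicClosure K) b) := by
    intro b
    rw [AlgHom.commutes, PHI1.algebraMap_laurent]
    rfl
  have hNe : ∀ {a : K}, a ≠ 0 → Φ a ≠ 0 := fun {a} ha => by
    rw [Ne, map_eq_zero]
    exact ha
  -- the natural number α
  obtain ⟨n, hnα⟩ : ∃ n : ℕ, α = n := ⟨α.toNat, (Int.toNat_of_nonneg hα.le).symm⟩
  have hn0 : 0 < n := by omega
  -- the elements of order one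
  have hτ : ∀ i ∈ I, ∃ τ : K, Φ τ = (1 + ss (AlgebraicClosure K) m * TL _ m i) ^ n - 1 := by
    intro i hi
    obtain ⟨u, ⟨g1, hS1⟩, t, ⟨g2, hS2⟩, heut⟩ := heΓ i hi
    have hA1 := hS1.2.choose
    have hA2 := hS2.2.choose
    have e1 := (LECC.hS_iff hε hS1.1 hA1).1 hS1
    have e2 := (LECC.hS_iff hε hS2.1 hA2).1 hS2
    have c1 := hchar g1 u hS1.1 hA1 e1
    have c2 := hchar g2 t hS2.1 hA2 e2
    set a1 := ε ⟨_, hA1⟩
    set a2 := ε ⟨_, hA2⟩
    have hcu : ∏ j, c j ^ u j = (∏ j, c j ^ e i j) * ∏ j, c j ^ t j := by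
      rw [← Finset.prod_mul_distrib]
      refine Finset.prod_congr rfl fun j _ => ?_
      rw [← zpow_add₀ (hc j), ← heut]
      rfl
    have hwe : ∑ j, V.w j * e i j = 0 := by
      have h1 := hwΓ u ⟨g1, hS1⟩
      have h2 := hwΓ t ⟨g2, hS2⟩
      rw [← heut] at h1
      have h3 : ∑ j, V.w j * (e i + t) j = ∑ j, V.w j * e i j + ∑ j, V.w j * t j := by
        rw [← Finset.sum_add_distrib]
        exact Finset.sum_congr rfl fun j _ => by rw [Pi.add_apply, mul_add]
      omega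
    have hct : ∏ j, c j ^ t j ≠ 0 := Finset.prod_ne_zero_iff.2 fun j _ => zpow_ne_zero _ (hc j)
    have hl2 : LECC.lam C g2 ≠ 0 := LECC.lam_ne hS2.1
    have hlam : LECC.lam C (g1 / g2) * ∏ j, c j ^ e i j
        = algebraMap k (AlgebraicClosure K) (a1 / a2) := by
      rw [map_div₀, map_div₀, ← c1, ← c2, hcu]
      field_simp
    have ha : a1 / a2 ≠ 0 := div_ne_zero e1 e2
    refine ⟨C.mon (g1 / g2) (e i) / algebraMap k K (a1 / a2) - 1, ?_⟩
    have hmonv : Φ (C.mon (g1 / g2) (e i)) = cc (AlgebraicClosure K) m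
        (algebraMap k (AlgebraicClosure K) (a1 / a2)) *
        (1 + ss (AlgebraicClosure K) m * TL _ m i) ^ n := by
      rw [hmon, LEC.xi_prod, hwe, ← hlam, map_mul]
      have h1 : ∏ i', LEC.fac (AlgebraicClosure K) m I i' ^ ∑ j, β i' j * e i j
          = (1 + ss (AlgebraicClosure K) m * TL _ m i) ^ n := by
        rw [Finset.prod_eq_single i]
        · rw [hβe i i, if_pos rfl, hnα, zpow_natCast]
          unfold LEC.fac
          rw [if_pos hi]
        · intro i' _ hi'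
          rw [hβe i i', if_neg (Ne.symm hi'), zpow_zero]
        · intro h
          exact absurd (Finset.mem_univ i) h
      rw [h1, zpow_zero]
      ring
    have hane : cc (AlgebraicClosure K) m (algebraMap k (AlgebraicClosure K) (a1 / a2)) ≠ 0 := by
      apply LEC.cc_ne
      rw [Ne, map_eq_zero]
      exact ha
    rw [map_sub, map_one, map_div₀, hmonv, hconst]
    congr 1
    exact LECC.cancel_div (L := LL (AlgebraicClosure K) m) hane _
  choose! τ hτ using hτ
  have hτne : ∀ i ∈ I, Φ (τ i) ≠ 0 := fun i hi => by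
    rw [hτ i hi]
    exact (LEC.geom i hn0).1
  have hτne' : ∀ i ∈ I, τ i ≠ 0 := fun i hi h => hτne i hi (by rw [h, map_zero])
  have hτord : ∀ i ∈ I, (Φ (τ i)).order = 1 := fun i hi => by
    rw [hτ i hi]
    exact (LEC.geom i hn0).2.1
  have hτlc : ∀ i ∈ I, LEC.lc (EE (AlgebraicClosure K) m) (Φ (τ i))
      = HahnSeries.single (toLex (Pi.single i 1)) (n : AlgebraicClosure K) := fun i hi => by
    rw [hτ i hi]
    exact (LEC.geom i hn0).2.2
  have hIne : I.Nonempty := by
    rw [← Finset.card_pos]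
    omega
  obtain ⟨i₀, hi₀⟩ := hIne
  obtain ⟨v, hv⟩ := exists_dval Φ ⟨τ i₀, hτne' i₀ hi₀, hτord i₀ hi₀⟩
  have hvmon : ∀ g u, g ≠ 0 → v.ord (C.mon g u) = V.val g u := by
    intro g u hg
    rw [hv _ (mon_ne_zero C hg u), hord g u hg, LECC.val_eq hn]
  -- centre
  have hcenter : v.HasCenter X.A x.asIdeal := by
    refine LECC.hasCenter_of X x Φ v hv ε hε fun g u hA => ?_
    by_cases hS : X.hS x.asIdeal g u
    · have he := (LECC.hS_iff hε hA.1 hA.2).1 hS
      have h0 : (Φ (C.mon g u)).order = 0 := by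
        rw [hord g u hA.1, ← LECC.val_eq hn g u]
        exact LECC.val_S hV hS
      have h1 : (Φ (C.mon g u)).coeff 0 = algebraMap k (EE (AlgebraicClosure K) m)
          (ε ⟨C.mon g u, hA.2⟩) := by
        rw [LEC.coeff_zero_of_order h0, hlc, hchar g u hA.1 hA.2 he]
        have h2 : (fun i => if i ∈ I then (0 : ℤ) else ∑ j, β i j * u j) = 0 := by
          funext i
          by_cases hi : i ∈ I
          · rw [if_pos hi]
            rfl
          · rw [if_neg hi]
            exact hΓI u ⟨g, hS⟩ i hi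
        rw [h2]
        rfl
      intro q hq
      rw [HahnSeries.coeff_sub]
      rcases hq.lt_or_eq with hq | hq
      · rw [LEC.nn_of_order h0.ge q hq, LEC.nn_C _ q hq, sub_zero]
      · rw [hq, h1, LEC.coeff_C_zero, sub_self]
    · have h1 := Value.not_hS hA hS
      have h2 := (hε _).2 h1
      rw [h2, map_zero, map_zero, sub_zero]
      apply LEC.pos_of_order
      rw [hord g u hA.1, ← LECC.val_eq hn g u]
      exact (hV.2 g u hA).2 hS
  -- the residues
  set qq : Fin m → ℤ := fun i => ∑ j, V.w j * e i j with hqq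
  have hqp : qq p ≠ 0 := by
    have h1 : ((qq p : ℤ) : ℚ) = l p * α := by
      rw [hqq]
      push_cast
      have h2 : ∀ j, (V.w j : ℚ) * (e p j : ℚ) = ∑ i ∈ Iᶜ, l i * (β i j * e p j) := by
        intro j
        rw [hl j, Finset.sum_mul]
        exact Finset.sum_congr rfl fun i _ => by ring
      rw [Finset.sum_congr rfl fun j _ => h2 j, Finset.sum_comm]
      have h3 : ∀ i ∈ Iᶜ, ∑ j, l i * ((β i j : ℚ) * e p j) = l i * (if p = i then α else 0 : ℤ) := by
        intro i _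
        rw [← Finset.mul_sum, ← hβe p i]
        push_cast
        rfl
      rw [Finset.sum_congr rfl h3, Finset.sum_eq_single p]
      · rw [if_pos rfl]
      · intro i _ hi
        rw [if_neg (Ne.symm hi), Int.cast_zero, mul_zero]
      · intro h
        exact absurd (Finset.mem_compl.2 hpI) h
    intro h
    rw [h, Int.cast_zero] at h1
    rcases mul_eq_zero.1 h1.symm with h2 | h2
    · exact hlp h2
    · have : α = 0 := by exact_mod_cast h2
      omega
  set q := qq p with hq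
  let t : Fin m → K := fun i => if i = p then C.ι (Cv.z k) else
    if i ∈ I then τ i ^ q * C.mon 1 (-e p) else C.mon 1 (q • e i - qq i • e p)
  have htp : t p = C.ι (Cv.z k) := if_pos rfl
  have htI : ∀ i, i ≠ p → i ∈ I → t i = τ i ^ q * C.mon 1 (-e p) := fun i h1 h2 => by
    simp only [t]
    rw [if_neg h1, if_pos h2]
  have htJ : ∀ i, i ≠ p → i ∉ I → t i = C.mon 1 (q • e i - qq i • e p) := fun i h1 h2 => by
    simp only [t]
    rw [if_neg h1, if_neg h2]
  have hm1 : ∀ u, C.mon 1 u ≠ 0 := fun u => mon_ne_zero C one_ne_zero u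
  have hord0 : ∀ i, (Φ (t i)).order = 0 := by
    intro i
    by_cases hip : i = p
    · rw [hip, htp, hΦg, LEC.order_cc]
    · by_cases hiI : i ∈ I
      · rw [htI i hip hiI, map_mul, map_zpow₀]
        have h1 : (Φ (τ i)) ^ q ≠ 0 := LEC.zne (hτne i hiI) q
        rw [HahnSeries.order_mul h1 (hNe (hm1 _)), hord 1 _ one_ne_zero]
        have h2 : ((Φ (τ i)) ^ q).order = q * (Φ (τ i)).order := LEC.order_zpow (hτne i hiI) q
        rw [h2, hτord i hiI]
        have h3 : ∑ j, V.w j * (-e p) j = -qq p := by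
          rw [hqq, ← Finset.sum_neg_distrib]
          exact Finset.sum_congr rfl fun j _ => by rw [Pi.neg_apply]; ring
        rw [h3]
        omega
      · rw [htJ i hip hiI, hord 1 _ one_ne_zero]
        have h3 : ∑ j, V.w j * (q • e i - qq i • e p) j = q * qq i - qq i * qq p := by
          rw [hqq]
          simp only
          rw [Finset.mul_sum, Finset.mul_sum, ← Finset.sum_sub_distrib]
          refine Finset.sum_congr rfl fun j _ => ?_
          rw [Pi.sub_apply, Pi.smul_apply, Pi.smul_apply, smul_eq_mul, smul_eq_mul]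
          ring
        rw [h3]
        ring
  let B : Fin m → Fin m → ℤ := fun i => if i ∈ I then
      q • Pi.single i 1 + (fun i' => if i' ∈ I then 0 else ∑ j, β i' j * (-e p) j)
    else fun i' => if i' ∈ I then 0 else ∑ j, β i' j * (q • e i - qq i • e p) j
  let aa : Fin m → AlgebraicClosure K := fun i => if i ∈ I then
      (n : AlgebraicClosure K) ^ q * (LECC.lam C 1 * ∏ j, c j ^ (-e p) j)
    else LECC.lam C 1 * ∏ j, c j ^ (q • e i - qq i • e p) j
  have hcprod : ∀ u : Fin m → ℤ, LECC.lam C 1 * ∏ j, c j ^ u j ≠ 0 := fun u =>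
    mul_ne_zero (LECC.lam_ne one_ne_zero)
      (Finset.prod_ne_zero_iff.2 fun j _ => zpow_ne_zero _ (hc j))
  have hnK : (n : AlgebraicClosure K) ≠ 0 := by exact_mod_cast hn0.ne'
  have hβneg : ∀ i', ∑ j, β i' j * (-e p) j = -(if p = i' then α else 0) := by
    intro i'
    rw [← hβe p i', ← Finset.sum_neg_distrib]
    exact Finset.sum_congr rfl fun j _ => by rw [Pi.neg_apply]; ring
  have hβJ : ∀ i i', ∑ j, β i' j * (q • e i - qq i • e p) j
      = q * (if i = i' then α else 0) - qq i * (if p = i' then α else 0) := by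
    intro i i'
    rw [← hβe p i', ← hβe i i', Finset.mul_sum, Finset.mul_sum, ← Finset.sum_sub_distrib]
    refine Finset.sum_congr rfl fun j _ => ?_
    rw [Pi.sub_apply, Pi.smul_apply, Pi.smul_apply, smul_eq_mul, smul_eq_mul]
    ring
  have hind : AlgebraicIndependent k fun i => (Φ (t i)).coeff 0 := by
    refine LEC.indep p B aa (LECC.lam C (Cv.z k)) δ hδz ?_ ?_ ?_ _ ?_ ?_
    · intro i _
      simp only [aa]
      split_ifs
      · exact mul_ne_zero (zpow_ne_zero _ hnK) (hcprod _)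
      · exact hcprod _
    · intro i hip
      simp only [B]
      by_cases hiI : i ∈ I
      · rw [if_pos hiI, Pi.add_apply, Pi.smul_apply, Pi.single_eq_same, if_pos hiI]
        simpa using hqp
      · rw [if_neg hiI, if_neg hiI, hβJ, if_pos rfl, if_neg (Ne.symm hip)]
        rw [mul_zero, sub_zero]
        exact mul_ne_zero hqp hα.ne'
    · intro i hip j hji hjp
      simp only [B]
      by_cases hiI : i ∈ I
      · rw [if_pos hiI, Pi.add_apply, Pi.smul_apply, Pi.single_eq_of_ne hji, smul_zero, zero_add]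
        by_cases hjI : j ∈ I
        · rw [if_pos hjI]
        · rw [if_neg hjI, hβneg, if_neg (Ne.symm hjp), neg_zero]
      · rw [if_neg hiI]
        by_cases hjI : j ∈ I
        · rw [if_pos hjI]
        · rw [if_neg hjI, hβJ, if_neg (Ne.symm hji), if_neg (Ne.symm hjp), mul_zero, mul_zero,
            sub_zero]
    · rw [htp, hΦg]
      exact LEC.coeff_C_zero _
    · intro i hip
      rw [LEC.coeff_zero_of_order (hord0 i)]
      by_cases hiI : i ∈ I
      · rw [htI i hip hiI, map_mul, map_mul, map_zpow₀, map_zpow₀, hlc, hτlc i hiI,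
          LEC.single_zpow, HahnSeries.single_mul_single]
        simp only [B, aa]
        rw [if_pos hiI, if_pos hiI]
        rfl
      · rw [htJ i hip hiI, hlc]
        simp only [B, aa]
        rw [if_neg hiI, if_neg hiI]
  have hdiv : v.IsDivisorial m :=
    LEC.divisorial_of Φ v hv t (fun i => LEC.nn_of_order (hord0 i).ge) hind
  -- the order of the form
  obtain ⟨j, hj, hjle⟩ := formOrd_exists (C := C) v (1 - (∑ i, V.w i + I.card)) (by
    intro a ha hJ
    rw [hv _ hJ]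
    refine bound_horiz C (LECC.lam C) δ hδz c hc V.w β hβ I l ⟨p, hpI, hlp⟩ hl Φ hΦg hΦx
      a ?_ hJ
    intro i
    by_cases h0 : a i = 0
    · rw [h0, map_zero, HahnSeries.order_zero]
    · rw [← hv _ h0]
      exact ha i h0)
  refine ⟨v, j, hdiv, hcenter, hj, hvmon, ?_⟩
  have hdisc : V.disc = ∑ i, V.w i := by
    unfold HV.disc
    rw [hn]
    simp
  rw [hdisc, ← hI]
  omega

end LE

end

end Pool.Agent.MLD.C
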