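import Pool.Agent.Lib.MP_f23696_ag.C.Phi
import Pool.Agent.Lib.MP_f23696_ag.C.Exp
import Pool.Agent.Lib.MP_f23696_ag.C.Gr
import Pool.Agent.Lib.MP_f23696_ag.C.Pla
import Pool.Agent.Lib.MP_f23696_ag.Chx
import Pool.Agent.Lib.MP_f23696_ag.Bet
import Pool.Agent.Lib.MP_f23696_ag.LeV

/-!
# Module LEV over curves: upper bound, vertical case
-/

set_option linter.unusedSectionVars false
set_option linter.style.haveILetI false

namespace Pool.Agent.MLD.C

open scoped Classical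
noncomputable section

universe u v w w'

namespace LeV

open Ser
open Pool.Agent.MLD.LeV (Ld_one_of_R coeff_s_mul R_natCast der_form eta eta0 eta0_ne prod_xi
  Ld_cc Ld_ss Ld_eta cc_eq ss_ne TT_ne R_TL R_if IsDer)

/-! ### leading coefficients -/
section Lc
variable {k : Type u} [Field k] {F : Type v} [Field F] [Algebra k F] {E : Type w} [Field E]
  [Algebra k E]

/-- leading coefficient of `g` -/
def lc (ψ : F →ₐ[k] LaurentSeries E) (g : F) : k :=
  if h : ∃ c : k, c ≠ 0 ∧ (ψ g).coeff (ψ g).order = algebraMap k E c then h.choose else 1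

theorem lc_ne (ψ : F →ₐ[k] LaurentSeries E) (g : F) : lc ψ g ≠ 0 := by
  unfold lc
  split_ifs with h
  · exact h.choose_spec.1
  · exact one_ne_zero

variable {P : Pl k F} {n : ℕ} (hn : 1 ≤ n) {ψ : F →ₐ[k] LaurentSeries E}
  (ho : ∀ g, g ≠ 0 → (ψ g).order = n * ordAt P g)
  (hco : ∀ g i, ∃ c : k, (ψ g).coeff i = algebraMap k E c)

theorem Ld_of_order {a : LaurentSeries E} {r : ℤ} (h : a.order = r) : Ld a r (a.coeff r) := by
  have h1 : s E ^ r * (s E ^ (-r) * a) = a := by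
    rw [← mul_assoc, ← zpow_add₀ s_ne, add_neg_cancel, zpow_zero, one_mul]
  have h2 : ∀ i, (s E ^ (-r) * a).coeff i = a.coeff (i + r) := by
    have h3 : ∀ r : ℤ, (s E ^ r : LaurentSeries E) = HahnSeries.single r 1 := by
      intro r
      exact (RatFunc.single_zpow r).symm
    intro i
    rw [h3]
    have := HahnSeries.coeff_single_mul_add (r := (1 : E)) (x := a) (a := i + r) (b := -r)
    rw [one_mul] at this
    rw [← this]
    congr 1
    ring
  refine ⟨s E ^ (-r) * a, h1.symm, ?_, ?_⟩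
  · intro i hi
    rw [h2]
    exact HahnSeries.coeff_eq_zero_of_lt_order (by omega)
  · rw [h2, zero_add]

include ho hco in
theorem lc_spec {g : F} (hg : g ≠ 0) : Ld (ψ g) (n * ordAt P g) (algebraMap k E (lc ψ g)) := by
  have h0 : ψ g ≠ 0 := fun h => hg ((map_eq_zero ψ).1 h)
  have hex : ∃ c : k, c ≠ 0 ∧ (ψ g).coeff (ψ g).order = algebraMap k E c := by
    obtain ⟨c, hc⟩ := hco g (ψ g).order
    refine ⟨c, ?_, hc⟩
    rintro rfl
    rw [map_zero] at hc
    exact HahnSeries.coeff_order_eq_zero.not.2 h0 hc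
  have h1 : (ψ g).coeff (ψ g).order = algebraMap k E (lc ψ g) := by
    unfold lc
    rw [dif_pos hex]
    exact hex.choose_spec.2
  have h2 := Ld_of_order (ho g hg)
  rw [← ho g hg] at h2 ⊢
  rwa [h1] at h2

include ho hco in
theorem lc_mul {g h : F} (hg : g ≠ 0) (hh : h ≠ 0) : lc ψ (g * h) = lc ψ g * lc ψ h := by
  have h1 := lc_spec ho hco hg
  have h2 := lc_spec ho hco hh
  have h3 := lc_spec ho hco (mul_ne_zero hg hh)
  have h4 := h1.mul h2
  rw [← map_mul, ← map_mul] at h4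
  have h5 : ∀ (f : F) (c : k), c ≠ 0 → ∀ r, Ld (ψ f) r (algebraMap k E c) →
      (ψ f).order = r := fun f c hc r h => h.order_eq (fun h => hc ((map_eq_zero _).1 h))
  have h6 := h5 _ _ (lc_ne ψ _) _ h3
  have h7 := h5 _ _ (mul_ne_zero (lc_ne ψ g) (lc_ne ψ h)) _ h4
  rw [h6] at h7
  rw [h7] at h3
  exact (algebraMap k E).injective (h3.unique h4)

include hn ho hco in
theorem lc_sub {g h : F} (hg : g ≠ 0) (hh : h ≠ 0) (hgh : ordAt P g = ordAt P h)
    (hne : g - algebraMap k F (lc ψ g / lc ψ h) * h ≠ 0) :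
    ordAt P h < ordAt P (g - algebraMap k F (lc ψ g / lc ψ h) * h) := by
  obtain ⟨b, hb1, hb2⟩ := lc_spec ho hco hg
  obtain ⟨b', hb1', hb2'⟩ := lc_spec ho hco hh
  have h1 : ψ (g - algebraMap k F (lc ψ g / lc ψ h) * h) = s E ^ ((n : ℤ) * ordAt P h) *
      (b - algebraMap k _ (lc ψ g / lc ψ h) * b') := by
    rw [map_sub, map_mul, AlgHom.commutes, hb1, hb1', hgh]
    ring
  have h2 : R (b - algebraMap k _ (lc ψ g / lc ψ h) * b') 0 := by
    have := hb2.sub ((R.algebraMap (E := E) (lc ψ g / lc ψ h)).mul hb2')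
    rwa [← map_mul, div_mul_cancel₀ _ (lc_ne ψ h), sub_self] at this
  have h3 : ψ (g - algebraMap k F (lc ψ g / lc ψ h) * h) ≠ 0 :=
    fun h => hne ((map_eq_zero ψ).1 h)
  have h4 : b - algebraMap k _ (lc ψ g / lc ψ h) * b' ≠ 0 := by
    intro h0
    rw [h1, h0, mul_zero] at h3
    exact h3 rfl
  have h5 := h2.order_pos h4
  have h6 := ho _ hne
  rw [h1, HahnSeries.order_mul (zpow_ne_zero _ s_ne) h4, order_s_zpow] at h6
  have h7 : (n : ℤ) * ordAt P h < n * ordAt P (g - algebraMap k F (lc ψ g / lc ψ h) * h) := by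
    omega
  exact lt_of_mul_lt_mul_left h7 (by omega)

end Lc

/-! ### values at a closed point -/
section Ev
variable {k : Type u} [Field k] [IsAlgClosed k] [CharZero k] {F : Type v} [Field F] [Algebra k F]
  [Cv k F] {m : ℕ} {K : Type w} [Field K] [Algebra k K] {C : Ctx k F K m}

theorem fg (X : TV C) : X.A.FG := ⟨X.gens.image fun h : F × (Fin m → ℤ) => C.mon h.1 h.2, by
  rw [Finset.coe_image]; exact X.adj⟩

theorem exists_ev (X : TV C) (x : MaximalSpectrum X.A) :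
    ∃ ev : X.A →ₐ[k] k, ∀ a, ev a = 0 ↔ a ∈ x.asIdeal := by
  haveI : Algebra.FiniteType k X.A := (Subalgebra.fg_iff_finiteType X.A).1 (fg X)
  haveI := x.isMaximal
  letI : Field (X.A ⧸ x.asIdeal) := Ideal.Quotient.field x.asIdeal
  haveI : Algebra.FiniteType k (X.A ⧸ x.asIdeal) := inferInstance
  haveI : Module.Finite k (X.A ⧸ x.asIdeal) := finite_of_finite_type_of_isJacobsonRing k _
  have hb := IsAlgClosed.algebraMap_bijective_of_isIntegral (k := k) (K := X.A ⧸ x.asIdeal)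
  let φ : k ≃ₐ[k] (X.A ⧸ x.asIdeal) := AlgEquiv.ofBijective (Algebra.ofId k _) hb
  refine ⟨(φ.symm.toAlgHom).comp (Ideal.Quotient.mkₐ k x.asIdeal), fun a => ?_⟩
  show φ.symm (Ideal.Quotient.mk x.asIdeal a) = 0 ↔ _
  rw [EmbeddingLike.map_eq_zero_iff, Ideal.Quotient.eq_zero_iff_mem]

theorem center_val {X : TV C} {x : Ideal X.A} {V : HV k F m} (hV : V.CenterEq X x)
    {g : F} {u : Fin m → ℤ} (hA : X.hA g u) : V.val g u = 0 ↔ X.hS x g u := by
  have h1 := hV.1 g u hA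
  have h2 := hV.2 g u hA
  constructor
  · intro h0
    by_contra hn
    have := h2.2 hn
    omega
  · intro hs
    by_contra hn
    have h3 : 0 < V.val g u := lt_of_le_of_ne h1 (Ne.symm hn)
    exact h2.1 h3 hs

theorem hS_hA {X : TV C} {p : Ideal X.A} {g : F} {u : Fin m → ℤ} (h : X.hS p g u) :
    X.hA g u := ⟨h.1, h.2.1⟩

theorem hS_mul {X : TV C} {p : Ideal X.A} (hp : p.IsPrime) {g h : F} {u t : Fin m → ℤ}
    (h1 : X.hS p g u) (h2 : X.hS p h t) : X.hS p (g * h) (u + t) := by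
  obtain ⟨hg, hgA, hgp⟩ := h1
  obtain ⟨hh, hhA, hhp⟩ := h2
  have e := mon_mul C g h u t
  refine ⟨mul_ne_zero hg hh, by rw [e]; exact X.A.mul_mem hgA hhA, fun hmem => ?_⟩
  have : (⟨C.mon g u, hgA⟩ : X.A) * ⟨C.mon h t, hhA⟩ ∈ p := by
    convert hmem using 1
    exact Subtype.ext e.symm
  rcases hp.mem_or_mem this with h | h
  · exact hgp h
  · exact hhp h

theorem mon_one (C : Ctx k F K m) : C.mon 1 0 = 1 := by
  simp [Ctx.mon]

theorem hS_one {X : TV C} {p : Ideal X.A} (hp : p.IsPrime) : X.hS p 1 0 := by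
  refine ⟨one_ne_zero, by rw [mon_one]; exact X.A.one_mem, fun h => hp.ne_top ?_⟩
  rw [Ideal.eq_top_iff_one]
  convert h using 1
  exact Subtype.ext (mon_one C).symm

/-- the degrees of the semi-invariants not in `p` -/
def Gam (X : TV C) (p : Ideal X.A) (hp : p.IsPrime) : AddSubmonoid (Fin m → ℤ) where
  carrier := {u | ∃ g, X.hS p g u}
  add_mem' := by
    rintro u t ⟨g, hg⟩ ⟨h, hh⟩
    exact ⟨g * h, hS_mul hp hg hh⟩
  zero_mem' := ⟨1, hS_one hp⟩

/-- extension of the value at the point by zero -/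
def evK (X : TV C) (ev : X.A →ₐ[k] k) (f : K) : k := if h : f ∈ X.A then ev ⟨f, h⟩ else 0

theorem evK_eq {X : TV C} {ev : X.A →ₐ[k] k} {f : K} (h : f ∈ X.A) :
    evK X ev f = ev ⟨f, h⟩ := by
  unfold evK
  rw [dif_pos h]

theorem evK_mul {X : TV C} {ev : X.A →ₐ[k] k} {f g : K} (hf : f ∈ X.A) (hg : g ∈ X.A) :
    evK X ev (f * g) = evK X ev f * evK X ev g := by
  rw [evK_eq hf, evK_eq hg, evK_eq (X.A.mul_mem hf hg), ← map_mul]
  rfl

/-- the character -/
def psi {E : Type w'} [Field E] [Algebra k E] (X : TV C) (p : Ideal X.A) (ev : X.A →ₐ[k] k)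
    (ψ : F →ₐ[k] LaurentSeries E) (u : Fin m → ℤ) : k :=
  if h : ∃ g, X.hS p g u then evK X ev (C.mon h.choose u) / lc ψ h.choose else 1

theorem mon_sub_C (C : Ctx k F K m) (g h : F) (c : k) (u : Fin m → ℤ) :
    C.mon (g - algebraMap k F c * h) u = C.mon g u - algebraMap k K c * C.mon h u := by
  have e : C.ι (algebraMap k F c) = algebraMap k K c := C.ι.commutes c
  simp only [Ctx.mon, map_sub, map_mul, e]
  ring

variable {X : TV C} {x : MaximalSpectrum X.A} {V : HV k F m} (hV : V.CenterEq X x.asIdeal)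
  (hn : 1 ≤ V.n) {E : Type w'} [Field E] [Algebra k E] {ψ : F →ₐ[k] LaurentSeries E}
  (ho : ∀ g, g ≠ 0 → (ψ g).order = V.n * ordAt V.P g)
  (hco : ∀ g i, ∃ c : k, (ψ g).coeff i = algebraMap k E c) {ev : X.A →ₐ[k] k} (hev : ∀ a, ev a = 0 ↔ a ∈ x.asIdeal)

include hV hn ho hco hev in
theorem ev_lc {g h : F} {u : Fin m → ℤ} (hg : X.hS x.asIdeal g u)
    (hh : X.hS x.asIdeal h u) :
    evK X ev (C.mon g u) / lc ψ g = evK X ev (C.mon h u) / lc ψ h := by
  have h1 : V.val g u = 0 := (center_val hV (hS_hA hg)).2 hg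
  have h2 : V.val h u = 0 := (center_val hV (hS_hA hh)).2 hh
  have hgh : ordAt V.P g = ordAt V.P h := by
    unfold HV.val at h1 h2
    have h3 : (V.n : ℤ) * (ordAt V.P g - ordAt V.P h) = 0 := by rw [mul_sub]; omega
    rcases mul_eq_zero.1 h3 with h4 | h4 <;> omega
  have hlg := lc_ne ψ g
  have hlh := lc_ne ψ h
  set c := lc ψ g / lc ψ h with hc
  have hcA : algebraMap k K c ∈ X.A := X.A.algebraMap_mem c
  have hmonA : C.mon (g - algebraMap k F c * h) u ∈ X.A := by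
    rw [mon_sub_C]
    exact X.A.sub_mem hg.2.1 (X.A.mul_mem hcA hh.2.1)
  have hkey : (⟨C.mon (g - algebraMap k F c * h) u, hmonA⟩ : X.A) ∈ x.asIdeal := by
    by_cases he : g - algebraMap k F c * h = 0
    · have : (⟨C.mon (g - algebraMap k F c * h) u, hmonA⟩ : X.A) = 0 := by
        apply Subtype.ext
        simp [he, Ctx.mon]
      rw [this]
      exact Ideal.zero_mem _
    · have h3 := lc_sub hn ho hco hg.1 hh.1 hgh (by rw [← hc]; exact he)
      rw [← hc] at h3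
      have h4 : 0 < V.val (g - algebraMap k F c * h) u := by
        unfold HV.val at h2 ⊢
        have h5 : (V.n : ℤ) * ordAt V.P h < V.n * ordAt V.P (g - algebraMap k F c * h) :=
          mul_lt_mul_of_pos_left h3 (by omega)
        omega
      have h5 := (hV.2 _ _ ⟨he, hmonA⟩).1 h4
      by_contra hmem
      exact h5 ⟨he, hmonA, hmem⟩
  have h6 := (hev _).2 hkey
  have h7 : (⟨C.mon (g - algebraMap k F c * h) u, hmonA⟩ : X.A) =
      ⟨C.mon g u, hg.2.1⟩ - algebraMap k X.A c * ⟨C.mon h u, hh.2.1⟩ := by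
    apply Subtype.ext
    exact mon_sub_C C g h c u
  rw [h7, map_sub, map_mul, AlgHom.commutes, ← evK_eq, ← evK_eq, sub_eq_zero] at h6
  rw [h6, hc]
  simp only [Algebra.algebraMap_self, RingHom.id_apply]
  field_simp

include hV hn ho hco hev in
theorem psi_eq {g : F} {u : Fin m → ℤ} (hg : X.hS x.asIdeal g u) :
    psi X x.asIdeal ev ψ u = evK X ev (C.mon g u) / lc ψ g := by
  have hex : ∃ g, X.hS x.asIdeal g u := ⟨g, hg⟩
  unfold psi
  rw [dif_pos hex]
  exact ev_lc hV hn ho hco hev hex.choose_spec hg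

include hV hn ho hco hev in
theorem psi_ne (u : Fin m → ℤ) (hu : u ∈ Gam X x.asIdeal x.isMaximal.isPrime) :
    psi X x.asIdeal ev ψ u ≠ 0 := by
  obtain ⟨g, hg⟩ := hu
  rw [psi_eq hV hn ho hco hev hg]
  refine div_ne_zero ?_ (lc_ne _ _)
  rw [evK_eq hg.2.1, Ne, hev]
  exact hg.2.2

include hV hn ho hco hev in
theorem psi_add (u : Fin m → ℤ) (hu : u ∈ Gam X x.asIdeal x.isMaximal.isPrime)
    (t : Fin m → ℤ) (ht : t ∈ Gam X x.asIdeal x.isMaximal.isPrime) :
    psi X x.asIdeal ev ψ (u + t) = psi X x.asIdeal ev ψ u * psi X x.asIdeal ev ψ t := by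
  obtain ⟨g, hg⟩ := hu
  obtain ⟨h, hh⟩ := ht
  rw [psi_eq hV hn ho hco hev hg, psi_eq hV hn ho hco hev hh,
    psi_eq hV hn ho hco hev (hS_mul x.isMaximal.isPrime hg hh), mon_mul, evK_mul hg.2.1 hh.2.1,
    lc_mul ho hco hg.1 hh.1, div_mul_div_comm]

end Ev


/-! ### elements of order one, abstract form -/
section Abs
variable {E : Type v} [Field E] {k : Type u} [Field k] [Algebra k E]

theorem der_form2 {L : Type v} [Field L] [Algebra k L] (D : Derivation k L L) (s A T : L)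
    (κ' : k) (hs : D s = 0) (hA : D A = 0) (a : ℕ) :
    D (algebraMap k L κ' * (A * (1 + s * T) ^ a) - 1) =
      s * (algebraMap k L κ' * (A * ((a : L) * (1 + s * T) ^ (a - 1) * D T))) :=
  der_form D s A T _ hs hA (Derivation.map_algebraMap D _) a

theorem abs_in {K : Type w} [Field K] [Algebra k K]
    (Φ : K →ₐ[k] LaurentSeries E) (A : LaurentSeries E)
    (κ : k) (hκ0 : κ ≠ 0) (a : ℕ) (T : LaurentSeries E) (T0 : E) (hT : R T T0) (f : K)
    (hf : Φ f = A * (1 + s E * T) ^ a) (hRA : R A (algebraMap k E κ)) :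
    ∃ (t : K) (τ : E), Ld (Φ t) 1 τ ∧ ∀ (Δ : E → E) (D : Phi2.DDer k (LaurentSeries E)),
      (∀ f r, HahnSeries.coeff (D f) r = Δ (HahnSeries.coeff f r)) → D (s E) = 0 →
      D A = 0 → ∀ T1 : E, R (D T) T1 → Δ τ = (a : E) * T1 := by
  have hR1 : R (1 + s E * T) 1 := by
    have h := (R.s_pow (E := E) le_rfl).mul hT
    rw [pow_one, zero_mul] at h
    have := (R.one (E := E)).add h
    rwa [add_zero] at this
  have ht : Φ (algebraMap k K κ⁻¹ * f - 1) =
      algebraMap k (LaurentSeries E) κ⁻¹ * (A * (1 + s E * T) ^ a) - 1 := by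
    rw [map_sub, map_mul, map_one, AlgHom.commutes, hf]
  have hRt : R (Φ (algebraMap k K κ⁻¹ * f - 1)) 0 := by
    rw [ht]
    have h1 := ((R.algebraMap (E := E) κ⁻¹).mul (hRA.mul (hR1.pow a))).sub R.one
    rwa [one_pow, mul_one, ← map_mul, inv_mul_cancel₀ hκ0, map_one, sub_self] at h1
  refine ⟨algebraMap k K κ⁻¹ * f - 1, _, Ld_one_of_R hRt, fun Δ D hΔ hs hA T1 hT1 => ?_⟩
  rw [← hΔ, ht, der_form2 D (s E) A T κ⁻¹ hs hA a]
  have h6 := coeff_s_mul (E := E) (algebraMap k (LaurentSeries E) κ⁻¹ *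
    (A * ((a : LaurentSeries E) * (1 + s E * T) ^ (a - 1) * D T))) 0
  rw [zero_add] at h6
  have h7 := (R.algebraMap (E := E) κ⁻¹).mul (hRA.mul (((R_natCast (E := E) a).mul
    (hR1.pow (a - 1))).mul hT1))
  rw [h6, h7.2, one_pow, mul_one, ← mul_assoc, ← map_mul, inv_mul_cancel₀ hκ0, map_one, one_mul]

theorem der_A {L : Type v} [Field L] [Algebra k L] (D : Derivation k L L) (x s : L) (c' : k)
    (hx : D x = 0) (hs0 : s ≠ 0) (hs : D s = 0) (r : ℤ) :
    D (x * (algebraMap k L c' * s ^ r)) = 0 := by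
  have h3 : D (s ^ r) = 0 := by
    rw [Phi2.der_zpow D (q := 0) hs0 (by rw [hs, zero_mul]), mul_zero, zero_mul]
  rw [Derivation.leibniz, Derivation.leibniz, hx, h3, Derivation.map_algebraMap]
  simp

end Abs

/-! ### the embedding -/
section Emb
variable {k : Type u} [Field k] [CharZero k] {F : Type v} [Field F] [Algebra k F] [Cv k F]
  {m : ℕ} {K : Type w} [Field K] [Algebra k K] {C : Ctx k F K m}
  {P : Pl k F} {n : ℕ} (hn : 1 ≤ n) {ψ : F →ₐ[k] LL k m}
  (ho : ∀ g, g ≠ 0 → (ψ g).order = n * ordAt P g)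
  (hco : ∀ g i, ∃ c : k, (ψ g).coeff i = algebraMap k (EE k m) c)
  {c : Fin m → k} (hc : ∀ i, c i ≠ 0)
  {w : Fin m → ℤ} {β : Matrix (Fin m) (Fin m) ℤ} {B : Fin m → Fin m → ℤ}
  (hB : ∀ i j, β i j = B i j) {I : Finset (Fin m)} {Φ : K →ₐ[k] LL k m}
  (hΦ : ∀ g, Φ (C.ι g) = ψ g) (hx : ∀ j, Φ (C.x j) = xi c w β I j)

include hΦ hx hB in
theorem phi_mon (g : F) (u : Fin m → ℤ) :
    Φ (C.mon g u) = ψ g * (cc k m (∏ j, c j ^ u j) * ss k m ^ (∑ i, w i * u i) *
      ∏ i, eta k m I i ^ ∑ j, B i j * u j) := by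
  rw [Ctx.mon, map_mul, map_prod, ← prod_xi c w β B hB I u, hΦ]
  congr 1
  refine Finset.prod_congr rfl fun j _ => ?_
  rw [map_zpow₀, hx]

include ho hco hΦ hx hB in
theorem Ld_phi_mon {g : F} (hg : g ≠ 0) (u : Fin m → ℤ) :
    Ld (Φ (C.mon g u)) (n * ordAt P g + ∑ i, w i * u i)
      (algebraMap k (EE k m) (lc ψ g * ∏ j, c j ^ u j) *
        ∏ i, eta0 k m I i ^ ∑ j, B i j * u j) := by
  rw [phi_mon hB hΦ hx]
  have h := (lc_spec ho hco hg).mul (((Ld_cc (m := m) (∏ j, c j ^ u j)).mul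
    (Ld_ss (∑ i, w i * u i))).mul (Ld_eta (I := I) fun i => ∑ j, B i j * u j))
  rw [map_mul]
  convert h using 1
  · ring
  · ring

include hc in
theorem Ld_phi_mon_ne (g : F) (u : Fin m → ℤ) :
    (algebraMap k (EE k m) (lc ψ g * ∏ j, c j ^ u j) *
        ∏ i, eta0 k m I i ^ ∑ j, B i j * u j) ≠ 0 := by
  refine mul_ne_zero ?_ (Finset.prod_ne_zero_iff.2 fun i _ => zpow_ne_zero _ (eta0_ne I i))
  rw [Ne, map_eq_zero]
  exact mul_ne_zero (lc_ne ψ g) (Finset.prod_ne_zero_iff.2 fun j _ => zpow_ne_zero _ (hc j))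

include hco in
theorem der_psi0 {j : Fin m} {Δ : Phi2.DDer k (EE k m)} {D : Phi2.DDer k (LL k m)}
    (h : IsDer j Δ D) (g : F) : D (ψ g) = 0 := by
  ext1
  funext r
  rw [h.1]
  obtain ⟨c, hc⟩ := hco g r
  rw [hc, Derivation.map_algebraMap]
  rfl

include ho hco hc hB hΦ hx in
theorem res_in {i : Fin m} (hi : i ∈ I) (a : ℕ) (g : F) (hg : g ≠ 0)
    (e : Fin m → ℤ) (he : ∀ i', ∑ j, B i' j * e j = if i' = i then (a : ℤ) else 0)
    (h0 : (n : ℤ) * ordAt P g + ∑ l, w l * e l = 0) :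
    ∃ (t : K) (τ : EE k m), Ld (Φ t) 1 τ ∧ ∀ j Δ D, IsDer j Δ D →
      Δ τ = if j = i then (a : EE k m) * TT k m i else 0 := by
  set κ : k := lc ψ g * ∏ j, c j ^ e j with hκ
  have hκ0 : κ ≠ 0 := mul_ne_zero (lc_ne ψ g) (Finset.prod_ne_zero_iff.2 fun j _ =>
    zpow_ne_zero _ (hc j))
  set c' : k := ∏ j, c j ^ e j with hc'
  set r : ℤ := ∑ l, w l * e l with hr
  set A : LL k m := ψ g * (algebraMap k (LL k m) c' * ss k m ^ r) with hA
  have hRA : R A (algebraMap k (EE k m) κ) := by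
    have h1 := (lc_spec ho hco hg).mul ((Ld_cc (m := m) c').mul (Ld_ss r))
    rw [zero_add, h0, mul_one, ← map_mul, cc_eq] at h1
    exact h1.to_R
  have hprod : ∏ i', eta k m I i' ^ ∑ j, B i' j * e j = (1 + ss k m * TL k m i) ^ a := by
    have h1 : ∀ i', eta k m I i' ^ ∑ j, B i' j * e j =
        if i' = i then (1 + ss k m * TL k m i) ^ a else 1 := by
      intro i'
      rw [he]
      by_cases h : i' = i
      · rw [if_pos h, if_pos h, h]
        unfold eta
        rw [if_pos hi]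
        exact zpow_natCast _ _
      · rw [if_neg h, if_neg h]
        exact zpow_zero _
    rw [Finset.prod_congr rfl fun i' _ => h1 i', Finset.prod_ite_eq' Finset.univ i,
      if_pos (Finset.mem_univ i)]
  have hmon : Φ (C.mon g e) = A * (1 + ss k m * TL k m i) ^ a := by
    rw [phi_mon hB hΦ hx, hprod, cc_eq]
    exact (mul_assoc (ψ g) (algebraMap k (LL k m) c' * ss k m ^ r)
      ((1 + ss k m * TL k m i) ^ a)).symm
  obtain ⟨t, τ, h1, h2⟩ := abs_in (E := EE k m) Φ A κ hκ0 a (TL k m i)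
    (TT k m i) (R_TL i) (C.mon g e) hmon hRA
  refine ⟨t, τ, h1, fun j Δ D hD => ?_⟩
  have hDA : D A = 0 :=
    @der_A k _ (LL k m) _ _ D (ψ g) (ss k m) c' (der_psi0 hco hD g) ss_ne hD.2.1 r
  have hT1 : R (D (TL k m i)) (if j = i then TT k m i else 0) := by
    rw [hD.2.2.1]
    exact R_if (E := EE k m) (R_TL i)
  have h3 := h2 Δ D hD.1 hD.2.1 hDA _ hT1
  refine h3.trans ?_
  split_ifs
  · rfl
  · exact mul_zero (a : EE k m)

include ho hco hc hB hΦ hx in
theorem res_out {i : Fin m} (hi : i ∉ I) (b : ℤ) (g : F) (hg : g ≠ 0)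
    (e : Fin m → ℤ) (he : ∀ i', ∑ j, B i' j * e j = if i' = i then b else 0)
    (h0 : (n : ℤ) * ordAt P g + ∑ l, w l * e l = 0) :
    ∃ (ρ : EE k m), ρ ≠ 0 ∧ R (Φ (C.mon g e)) ρ ∧ ∀ j Δ D, IsDer j Δ D →
      Δ ρ = if j = i then (b : EE k m) * ρ else 0 := by
  set κ : k := lc ψ g * ∏ j, c j ^ e j with hκ
  have hκ0 : κ ≠ 0 := mul_ne_zero (lc_ne ψ g) (Finset.prod_ne_zero_iff.2 fun j _ =>
    zpow_ne_zero _ (hc j))
  have hprod : ∏ i', eta0 k m I i' ^ ∑ j, B i' j * e j = TT k m i ^ b := by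
    have h1 : ∀ i', eta0 k m I i' ^ ∑ j, B i' j * e j = if i' = i then TT k m i ^ b else 1 := by
      intro i'
      rw [he]
      by_cases h : i' = i
      · rw [if_pos h, if_pos h, h]
        unfold eta0
        rw [if_neg hi]
      · rw [if_neg h, if_neg h]
        exact zpow_zero _
    rw [Finset.prod_congr rfl fun i' _ => h1 i', Finset.prod_ite_eq' Finset.univ i,
      if_pos (Finset.mem_univ i)]
  have h1 := Ld_phi_mon ho hco hB hΦ hx hg e
  rw [h0, hprod, ← hκ] at h1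
  have hρ0 : algebraMap k (EE k m) κ * TT k m i ^ b ≠ 0 :=
    mul_ne_zero (fun h => hκ0 ((map_eq_zero _).1 h)) (zpow_ne_zero _ (TT_ne i))
  refine ⟨_, hρ0, h1.to_R, fun j Δ D hD => ?_⟩
  have h2 : Δ (TT k m i) = (if j = i then (1 : EE k m) else 0) * TT k m i := by
    rw [hD.2.2.2]
    split_ifs
    · rw [one_mul]
    · rw [zero_mul]
  have h3 := Phi2.der_zpow (L := EE k m) Δ (s := TT k m i) (TT_ne i) h2 b
  rw [Derivation.leibniz, Derivation.map_algebraMap, h3]
  split_ifs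
  · simp only [smul_eq_mul]
    ring
  · simp

end Emb

/-! ### the theorem -/
section Main
variable {k : Type u} [Field k] [IsAlgClosed k] [CharZero k] {F : Type v} [Field F] [Algebra k F]
  [Cv k F] {m : ℕ} {K : Type w} [Field K] [Algebra k K] {C : Ctx k F K m}

theorem rk_eq (X : TV C) (x : MaximalSpectrum X.A) :
    rk (X.hS x.asIdeal) = Module.finrank ℚ (Submodule.span ℚ
        {y : Fin m → ℚ | ∃ u ∈ Gam X x.asIdeal x.isMaximal.isPrime, y = fun i => (u i : ℚ)}) := by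
  have e : {y : Fin m → ℚ | ∃ g u, X.hS x.asIdeal g u ∧ y = fun i => (u i : ℚ)} =
      {y : Fin m → ℚ | ∃ u ∈ Gam X x.asIdeal x.isMaximal.isPrime, y = fun i => (u i : ℚ)} := by
    ext y
    constructor
    · rintro ⟨g, u, h, rfl⟩
      exact ⟨u, ⟨g, h⟩, rfl⟩
    · rintro ⟨u, ⟨g, h⟩, rfl⟩
      exact ⟨g, u, h, rfl⟩
  unfold rk
  rw [e]

end Main

end LeV

section LE
variable {k : Type u} [Field k] [IsAlgClosed k] [CharZero k] {F : Type v} [Field F] [Algebra k F] [Cv k F]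
  {m : ℕ} {K : Type w} [Field K] [Algebra k K] {C : Ctx k F K m}

open Ser in
open Pool.Agent.MLD.C.LeV in
open Pool.Agent.MLD.LeV (IsDer exists_der natCast_TT_ne indep_res eta0_prod) in
theorem le_vert (X : TV C) (x : MaximalSpectrum X.A) (V : HV k F m)
    (hV : V.CenterEq X x.asIdeal) (hn : 1 ≤ V.n) (hr : 1 ≤ rk (X.hS x.asIdeal)) :
    ∃ (v : DVal k K) (j : ℤ), v.IsDivisorial m ∧ v.HasCenter X.A x.asIdeal ∧
      v.FormOrd C.der j ∧ (∀ g u, g ≠ 0 → v.ord (C.mon g u) = V.val g u) ∧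
      j + 1 ≤ V.disc + rk (X.hS x.asIdeal) := by
  have hpr : x.asIdeal.IsPrime := x.isMaximal.isPrime
  obtain ⟨ev, hev⟩ := exists_ev X x
  obtain ⟨ψ, ho, hco, hzψ⟩ := expand (k := k) V.P V.n hn (EE k m)
  obtain ⟨c, hc, hcψ⟩ := chext (F := k) (Gam X x.asIdeal hpr) (psi X x.asIdeal ev ψ)
    (psi_ne hV hn ho hco hev) (psi_add hV hn ho hco hev)
  obtain ⟨β, I, α, e, hβ, hI, hβΓ, hα, hβe, heΓ, -⟩ := beta (Gam X x.asIdeal hpr)
  obtain ⟨Φ, hΦ, hx⟩ := phi_vert (G := k) C V.P V.n hn ψ hco hzψ c hc V.w β hβ I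
  obtain ⟨B, hB⟩ : ∃ B : Fin m → Fin m → ℤ, ∀ i j, β i j = B i j := ⟨fun i j => β i j, fun _ _ => rfl⟩
  have hβΓ' : ∀ u ∈ Gam X x.asIdeal hpr, ∀ i ∉ I, ∑ j, B i j * u j = 0 := by
    intro u hu i hi
    rw [← hβΓ u hu i hi]
    exact Finset.sum_congr rfl fun j _ => by rw [← hB]
  have hBe : ∀ i i', ∑ j, B i' j * e i j = if i = i' then α else 0 := by
    intro i i'
    rw [← hβe i i']
    exact Finset.sum_congr rfl fun j _ => by rw [← hB]
  clear hβΓ hβe
  rw [← rk_eq X x] at hI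
  obtain ⟨a, rfl⟩ : ∃ a : ℕ, α = a := ⟨α.toNat, by omega⟩
  have ha : 0 < a := by exact_mod_cast hα
  -- orders
  have hord : ∀ g u, g ≠ 0 → (Φ (C.mon g u)).order = V.val g u := fun g u hg =>
    (Ld_phi_mon ho hco hB hΦ hx hg u).order_eq (Ld_phi_mon_ne hc g u)
  -- values
  have hR : ∀ b : X.A, R (Φ (b : K)) (algebraMap k (EE k m) (ev b)) := by
    intro b
    obtain ⟨S, g, hS, hg⟩ := gr1 X b
    have hsum : b = ∑ u ∈ S.attach, (⟨C.mon (g u) u, (hg u u.2).2⟩ : X.A) := by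
      apply Subtype.ext
      rw [hS, ← Finset.sum_attach]
      simp
    have h1 : Φ (b : K) = ∑ u ∈ S.attach, Φ (C.mon (g u) u) := by
      rw [hS, map_sum, ← Finset.sum_attach]
    have h2 : algebraMap k (EE k m) (ev b) =
        ∑ u ∈ S.attach, algebraMap k (EE k m) (ev ⟨C.mon (g u) u, (hg u u.2).2⟩) := by
      conv_lhs => rw [hsum]
      rw [map_sum, map_sum]
    rw [h1, h2]
    refine R.sum _ fun u _ => ?_
    have hA := hg u u.2
    by_cases hSu : X.hS x.asIdeal (g u) u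
    · have h3 := Ld_phi_mon ho hco hB hΦ hx hA.1 u
      have h4 : V.val (g u) u = 0 := (center_val hV hA).2 hSu
      have h5 : (u : Fin m → ℤ) ∈ Gam X x.asIdeal hpr := ⟨g u, hSu⟩
      rw [eta0_prod (I := I) _ (hβΓ' u h5), mul_one, hcψ u h5,
        psi_eq hV hn ho hco hev hSu, mul_div_cancel₀ _ (lc_ne ψ (g u)),
        evK_eq hSu.2.1] at h3
      have h6 : (V.n : ℤ) * ordAt V.P (g u) + ∑ i, V.w i * (u : Fin m → ℤ) i = 0 := h4
      rw [h6] at h3
      exact h3.to_R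
    · have h3 := Ld_phi_mon ho hco hB hΦ hx hA.1 u
      have h4 : 0 < V.val (g u) u := (hV.2 _ _ hA).2 hSu
      have h5 : ev ⟨C.mon (g u) u, hA.2⟩ = 0 := by
        rw [hev]
        by_contra h
        exact hSu ⟨hA.1, hA.2, h⟩
      rw [h5, map_zero]
      exact h3.R_of_pos h4
  -- the quotients of degree `e i`, `i ∈ I`
  have hquot : ∀ i ∈ I, ∃ g : F, g ≠ 0 ∧
      (V.n : ℤ) * ordAt V.P g + ∑ l, V.w l * e i l = 0 := by
    intro i hi
    obtain ⟨u, ⟨g₁, h₁⟩, t, ⟨g₂, h₂⟩, hut⟩ := heΓ i hi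
    refine ⟨g₁ / g₂, div_ne_zero h₁.1 h₂.1, ?_⟩
    have h3 : V.val g₁ u = 0 := (center_val hV (LeV.hS_hA h₁)).2 h₁
    have h4 : V.val g₂ t = 0 := (center_val hV (LeV.hS_hA h₂)).2 h₂
    have h5 : ordAt V.P g₁ = ordAt V.P (g₁ / g₂) + ordAt V.P g₂ := by
      rw [← ordAt_mul V.P (div_ne_zero h₁.1 h₂.1) h₂.1, div_mul_cancel₀ _ h₂.1]
    have h6 : ∑ l, V.w l * u l = ∑ l, V.w l * e i l + ∑ l, V.w l * t l := by
      rw [← Finset.sum_add_distrib]
      refine Finset.sum_congr rfl fun l _ => ?_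
      rw [← hut, Pi.add_apply]
      ring
    unfold HV.val at h3 h4
    rw [h5, h6, mul_add] at h3
    omega
  choose Δ D hD using exists_der (k := k) (m := m)
  have hD' : ∀ j, IsDer j (Δ j) (D j) := hD
  -- elements of order one
  have hT : ∀ i ∈ I, ∃ (t : K) (τ : EE k m), Ld (Φ t) 1 τ ∧
      ∀ j, Δ j τ = if j = i then (a : EE k m) * TT k m i else 0 := by
    intro i hi
    obtain ⟨g, hg, h0⟩ := hquot i hi
    obtain ⟨t, τ, h1, h2⟩ := res_in ho hco hc hB hΦ hx hi a g hg (e i)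
      (fun i' => by rw [hBe]; simp only [eq_comm]) h0
    exact ⟨t, τ, h1, fun j => h2 j _ _ (hD' j)⟩
  have hτ : ∀ i (τ : EE k m), (∀ j, Δ j τ = if j = i then (a : EE k m) * TT k m i else 0) →
      τ ≠ 0 := by
    rintro i τ h rfl
    have h1 := h i
    rw [if_pos rfl, map_zero] at h1
    exact natCast_TT_ne ha i h1.symm
  obtain ⟨i₀, hi₀⟩ : I.Nonempty := by
    rw [← Finset.card_pos, hI]
    exact hr
  obtain ⟨t₀, τ₀, h₀, h₀'⟩ := hT i₀ hi₀
  have hτ₀ := hτ i₀ τ₀ h₀'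
  obtain ⟨v, hv⟩ := exists_dval (L := EE k m) Φ ⟨t₀, fun h => h₀.ne_zero hτ₀ (by rw [h, map_zero]),
    h₀.order_eq hτ₀⟩
  have hint : ∀ b : K, ∀ f : EE k m, R (Φ b) f → v.Integral b := by
    intro b f hb hb0
    rw [hv b hb0]
    exact hb.order_nonneg
  have hint' : ∀ b : K, v.Integral b → 0 ≤ (Φ b).order := by
    intro b hb
    by_cases h0 : b = 0
    · rw [h0, map_zero, HahnSeries.order_zero]
    · rw [← hv b h0]
      exact hb h0
  -- a uniformiser of the place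
  obtain ⟨tP, htP0, htP1⟩ := V.P.exists_ord_eq_one
  have htP : ∀ r : ℤ, tP ^ r ≠ 0 ∧ ordAt V.P (tP ^ r) = r := by
    intro r
    have h0 : tP ^ r ≠ 0 := zpow_ne_zero _ htP0
    refine ⟨h0, ?_⟩
    have h1 := lc_spec ho hco htP0
    have h2 : ordAt V.P tP = 1 := htP1
    rw [h2, mul_one] at h1
    have hne : algebraMap k (EE k m) (lc ψ tP) ≠ 0 := fun h => lc_ne ψ tP ((map_eq_zero _).1 h)
    have h3 := h1.zpow hne r
    have h4 : ψ (tP ^ r) = ψ tP ^ r := map_zpow₀ ψ tP r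
    rw [← h4] at h3
    have h5 := h3.order_eq (zpow_ne_zero _ hne)
    rw [ho _ h0, mul_comm r] at h5
    exact mul_left_cancel₀ (by omega) h5
  -- form order
  obtain ⟨j, hj, hjN⟩ := formOrd_exists (C := C) v (1 - (V.n * kap V.P + ∑ i, V.w i + I.card)) (by
    intro b hb hJ
    rw [hv _ hJ]
    exact bound_vert C V.P V.n hn ψ hco hzψ c hc V.w β hβ I Φ hΦ hx b
      (fun i => hint' _ (hb i)) hJ)
  refine ⟨v, j, ?_, ⟨fun b => hint _ _ (hR b), fun b => ?_⟩, hj, fun g u hg => ?_, ?_⟩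
  · -- divisorial
    have hres : ∀ i, ∃ (t : K) (ρ q : EE k m), R (Φ t) ρ ∧ q ≠ 0 ∧
        ∀ j, Δ j ρ = if j = i then q else 0 := by
      intro i
      by_cases hi : i ∈ I
      · obtain ⟨t, τ, h1, h2⟩ := hT i hi
        have hτ0 := hτ i τ h2
        haveI : CharZero (EE k m) :=
          charZero_of_injective_algebraMap (algebraMap k (EE k m)).injective
        set l := lc ψ (tP ^ (-1 : ℤ)) with hl
        have hl0 : algebraMap k (EE k m) l ≠ 0 := fun h => lc_ne ψ _ ((map_eq_zero _).1 h)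
        refine ⟨t ^ V.n * C.ι (tP ^ (-1 : ℤ)), τ ^ V.n * algebraMap k (EE k m) l,
          (V.n : EE k m) * τ ^ (V.n - 1) * ((a : EE k m) * TT k m i) * algebraMap k (EE k m) l,
          ?_, ?_, ?_⟩
        · have h3 : Φ (t ^ V.n * C.ι (tP ^ (-1 : ℤ))) = Φ t ^ (V.n : ℤ) * ψ (tP ^ (-1 : ℤ)) := by
            rw [map_mul, map_pow, zpow_natCast, hΦ]
          rw [h3]
          have h5 := (h1.zpow hτ0 (V.n : ℤ)).mul (lc_spec ho hco (htP (-1)).1)
          rw [(htP (-1)).2] at h5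
          have h6 : (V.n : ℤ) * 1 + (V.n : ℤ) * (-1) = 0 := by ring
          rw [h6, zpow_natCast] at h5
          exact h5.to_R
        · exact mul_ne_zero (mul_ne_zero (mul_ne_zero (Nat.cast_ne_zero.2 (by omega))
            (pow_ne_zero _ hτ0)) (natCast_TT_ne ha i)) hl0
        · intro j
          rw [Derivation.leibniz, Derivation.map_algebraMap, Derivation.leibniz_pow, h2]
          split_ifs
          · simp only [smul_eq_mul, nsmul_eq_mul]
            ring
          · simp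
      · obtain ⟨ρ, h1, h2, h3⟩ := res_out ho hco hc hB hΦ hx hi ((V.n : ℤ) * a)
          (tP ^ (-∑ l, V.w l * e i l)) (htP _).1 (fun l => V.n * e i l) (by
            intro i'
            have h4 : ∑ j, B i' j * ((V.n : ℤ) * e i j) = V.n * ∑ j, B i' j * e i j := by
              rw [Finset.mul_sum]
              exact Finset.sum_congr rfl fun _ _ => by ring
            rw [h4, hBe]
            by_cases h5 : i = i'
            · rw [if_pos h5, if_pos h5.symm]
            · rw [if_neg h5, if_neg (Ne.symm h5), mul_zero]) (by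
            rw [(htP _).2]
            have h4 : ∑ l, V.w l * ((V.n : ℤ) * e i l) = V.n * ∑ l, V.w l * e i l := by
              rw [Finset.mul_sum]
              exact Finset.sum_congr rfl fun _ _ => by ring
            rw [h4]
            ring)
        haveI : CharZero (EE k m) :=
          charZero_of_injective_algebraMap (algebraMap k (EE k m)).injective
        refine ⟨_, ρ, (((V.n : ℤ) * a : ℤ) : EE k m) * ρ, h2, mul_ne_zero ?_ h1,
          fun j => h3 j _ _ (hD' j)⟩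
        rw [Int.cast_ne_zero]
        positivity
    choose t ρ q h1 h2 h3 using hres
    refine ⟨t, fun i => hint _ _ (h1 i), fun G hG hsm => ?_⟩
    have hind := indep_res Δ q h2 fun i j => h3 i j
    have h4 : Φ (MvPolynomial.aeval t G) = MvPolynomial.aeval (fun i => Φ (t i)) G :=
      MvPolynomial.comp_aeval_apply t Φ G
    have h5 := R.mvaeval (E := EE k m) h1 G
    rw [← h4] at h5
    have h6 : MvPolynomial.aeval ρ G ≠ 0 := fun h => hG ((hind.eq_zero_of_aeval_eq_zero G h))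
    have h7 : (MvPolynomial.aeval t G : K) ≠ 0 := fun h => h5.ne_zero h6 (by rw [h, map_zero])
    have h8 := hsm h7
    rw [hv _ h7, h5.order_eq h6] at h8
    exact lt_irrefl _ h8
  · -- centre
    rw [← hev b]
    have hb := hR b
    constructor
    · intro h0 hb0
      rw [hv _ hb0]
      rw [h0, map_zero] at hb
      exact hb.order_pos fun h => hb0 ((map_eq_zero Φ).1 h)
    · intro hsm
      by_contra h0
      have h1 : algebraMap k (EE k m) (ev b) ≠ 0 := fun h => h0 ((map_eq_zero _).1 h)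
      have h2 : (b : K) ≠ 0 := fun h => hb.ne_zero h1 (by rw [h, map_zero])
      have h3 := hsm h2
      rw [hv _ h2, hb.order_eq h1] at h3
      exact lt_irrefl _ h3
  · rw [hv _ (mon_ne_zero C hg u), hord g u hg]
  · rw [← hI]
    unfold HV.disc
    omega

end LE

end

end Pool.Agent.MLD.C
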