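import Pool.Agent.Lib.MP_f23696_ag.C.Loc
import Pool.Agent.Lib.MP_f23696_ag.C.Heq
import Pool.Agent.Lib.MP_f23696_ag.C.Opn
import Pool.Agent.Lib.MP_f23696_ag.C.Le
import Pool.Agent.Lib.MP_f23696_ag.C.Jac
import Pool.Agent.Lib.MP_f23696_ag.C.Chain
import Pool.Agent.Lib.MP_f23696_ag.C.Cen

/-!
Module KEY over curves: semicontinuity (MP_f23696_ag).
-/

namespace Pool.Agent.MLD.C

open scoped Classical
noncomputable section

universe u v w w'

variable {k : Type u} [Field k] [IsAlgClosed k] [CharZero k] {F : Type v} [Field F] [Algebra k F]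
  [Cv k F] {m : ℕ} {K : Type w} [Field K] [Algebra k K] {C : Ctx k F K m}

namespace Key

/-- evaluation at a closed point -/
theorem exists_eval (X : TV C) (x : MaximalSpectrum X.A) :
    ∃ ε : X.A →ₐ[k] k, ∀ a : X.A, ε a = 0 ↔ a ∈ x.asIdeal := by
  have hfg : X.A.FG := by
    rw [← X.adj]
    exact ⟨X.gens.image (fun h : F × (Fin m → ℤ) => C.mon h.1 h.2), by
      rw [Finset.coe_image]⟩
  have := X.A.fg_iff_finiteType.mp hfg
  have := x.isMaximal
  let _ : Field (X.A ⧸ x.asIdeal) := Ideal.Quotient.field x.asIdeal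
  have : Algebra.FiniteType k (X.A ⧸ x.asIdeal) :=
    Algebra.FiniteType.of_surjective (Ideal.Quotient.mkₐ k x.asIdeal)
      (Ideal.Quotient.mkₐ_surjective k x.asIdeal)
  have : Module.Finite k (X.A ⧸ x.asIdeal) :=
    finite_of_finite_type_of_isJacobsonRing k (X.A ⧸ x.asIdeal)
  have hb : Function.Bijective (algebraMap k (X.A ⧸ x.asIdeal)) :=
    IsAlgClosed.algebraMap_bijective_of_isIntegral
  let e : k ≃ₐ[k] (X.A ⧸ x.asIdeal) := AlgEquiv.ofBijective (Algebra.ofId k _) hb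
  refine ⟨e.symm.toAlgHom.comp (Ideal.Quotient.mkₐ k x.asIdeal), ?_⟩
  intro a
  rw [AlgHom.comp_apply]
  rw [Ideal.Quotient.mkₐ_eq_mk]
  change e.symm (Ideal.Quotient.mk x.asIdeal a) = 0 ↔ _
  rw [map_eq_zero_iff _ e.symm.injective, Ideal.Quotient.eq_zero_iff_mem]

theorem hS_hA {X : TV C} {p : Ideal X.A} {g : F} {u : Fin m → ℤ} (h : X.hS p g u) :
    X.hA g u := ⟨h.1, h.2.choose⟩

theorem rk_mono {S T : F → (Fin m → ℤ) → Prop}
    (h : ∀ g u, S g u → (fun i => (u i : ℚ)) ∈ Submodule.span ℚ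
      {x : Fin m → ℚ | ∃ g u, T g u ∧ x = fun i => (u i : ℚ)}) : rk S ≤ rk T := by
  unfold rk
  refine Submodule.finrank_mono (Submodule.span_le.mpr ?_)
  rintro x ⟨g, u, hS, rfl⟩
  exact h g u hS

/-- the properties of the modified valuation -/
structure Good (X : TV C) (γ' : (F × (Fin m → ℤ)) →₀ ℝ) (B : Finset (Pl k F)) (b : ℝ)
    (x : MaximalSpectrum X.A) (V : HV k F m) : Prop where
  nonneg : ∀ g u, X.hA g u → 0 ≤ V.val g u
  pos : ∀ g u, X.hA g u → 0 < V.val g u → ¬ X.hS x.asIdeal g u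
  ld : V.ld γ' + rk (zeroSet X.hA V) + kapV X.hA V < b
  mem : V.n = 0 ∨ V.P ∈ B

/-- first case: the valuation itself -/
theorem good_self (X : TV C) (γ' : (F × (Fin m → ℤ)) →₀ ℝ) (B : Finset (Pl k F))
    (b : ℝ) (x : MaximalSpectrum X.A) (V : HV k F m) (hV : V.CenterEq X x.asIdeal)
    (hl : V.ld γ' + rk (X.hS x.asIdeal) < b) (hm : V.n = 0 ∨ V.P ∈ B) :
    Good X γ' B b x V := by
  have hz : zeroSet X.hA V = X.hS x.asIdeal := by
    funext g u
    refine propext ⟨fun h => ?_, fun h => ?_⟩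
    · by_contra hn
      have := (hV.2 g u h.1).mpr hn
      have h2 := h.2
      omega
    · refine ⟨hS_hA h, ?_⟩
      have h1 := hV.1 g u (hS_hA h)
      have h2 : ¬ 0 < V.val g u := fun hp => ((hV.2 g u (hS_hA h)).mp hp) h
      omega
  have hk : kapV X.hA V = 0 := by
    unfold kapV
    rw [if_neg]
    rintro ⟨hn, g, h, u, hg, hh, hc⟩
    rw [hz] at hg hh
    obtain ⟨ε, hε⟩ := exists_eval X x
    obtain ⟨hg0, hgA, hgx⟩ := hg
    obtain ⟨hh0, hhA, hhx⟩ := hh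
    set a : X.A := ⟨C.mon g u, hgA⟩ with ha
    set a' : X.A := ⟨C.mon h u, hhA⟩ with ha'
    have ha'0 : ε a' ≠ 0 := fun h0 => hhx ((hε a').mp h0)
    set c : k := ε a / ε a' with hcdef
    have h1 : a - algebraMap k X.A c * a' ∈ x.asIdeal := by
      rw [← hε, map_sub, map_mul, AlgHom.commutes, Algebra.algebraMap_self, RingHom.id_apply,
        hcdef, div_mul_cancel₀ _ ha'0, sub_self]
    have h2 : C.mon (g - algebraMap k F c * h) u = C.mon g u - algebraMap k K c * C.mon h u := by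
      unfold Ctx.mon
      rw [map_sub, map_mul, C.ι.commutes]
      ring
    have h3 : ((a - algebraMap k X.A c * a' : X.A) : K) = C.mon (g - algebraMap k F c * h) u := by
      rw [h2]
      rfl
    have hne : g - algebraMap k F c * h ≠ 0 := fun h0 => hc ⟨c, sub_eq_zero.mp h0⟩
    have hA' : X.hA (g - algebraMap k F c * h) u := by
      refine ⟨hne, ?_⟩
      rw [← h3]
      exact (a - algebraMap k X.A c * a' : X.A).2
    have h4 : ¬ X.hS x.asIdeal (g - algebraMap k F c * h) u := by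
      rintro ⟨_, h5, h6⟩
      apply h6
      have e : (⟨C.mon (g - algebraMap k F c * h) u, h5⟩ : X.A) = a - algebraMap k X.A c * a' :=
        Subtype.ext h3.symm
      rw [e]
      exact h1
    have h7 := (hV.2 _ _ hA').mpr h4
    have h8 : V.val (g - algebraMap k F c * h) u = V.val g u := by
      unfold HV.val
      rw [hn]
      simp
    have h9 : ¬ 0 < V.val g u := fun hp => ((hV.2 g u ⟨hg0, hgA⟩).mp hp) ⟨hg0, hgA, hgx⟩
    rw [h8] at h7
    exact h9 h7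
  refine ⟨hV.1, fun g u hA hp => (hV.2 g u hA).mp hp, ?_, hm⟩
  rw [hz, hk]
  simpa using hl

/-- second case: a vertical valuation over a general place is replaced by its horizontal part -/
theorem good_horiz (X : TV C) (γ' : (F × (Fin m → ℤ)) →₀ ℝ) (B : Finset (Pl k F))
    (b : ℝ) (x : MaximalSpectrum X.A) (V : HV k F m) (hV : V.CenterEq X x.asIdeal)
    (hl : V.ld γ' + rk (X.hS x.asIdeal) < b) (hn : 1 ≤ V.n) (hP : V.P ∉ B)
    (hkap1 : ∀ Q ∉ B, kap Q = 1)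
    (hpos : ∀ Q ∉ B, ∀ g u, X.hA g u → 0 ≤ ordAt Q g)
    (hγB : ∀ h ∈ γ'.support, ∀ Q ∉ B, ordAt Q h.1 = 0)
    (hgB : ∀ h ∈ X.gens, ∀ Q ∉ B, ordAt Q h.1 = 0) :
    Good X γ' B b x ⟨V.P, 0, V.w⟩ := by
  have hval : ∀ g u, (⟨V.P, 0, V.w⟩ : HV k F m).val g u = ∑ i, V.w i * u i := by
    intro g u
    simp [HV.val]
  -- generators
  have hgenA : ∀ h ∈ X.gens, X.hA h.1 h.2 := by
    intro h hh
    refine ⟨X.gens_ne h hh, ?_⟩
    rw [← X.adj]
    exact Algebra.subset_adjoin ⟨h, hh, rfl⟩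
  have hgenval : ∀ h ∈ X.gens, V.val h.1 h.2 = ∑ i, V.w i * h.2 i := by
    intro h hh
    unfold HV.val
    rw [hgB h hh _ hP]
    simp
  have hgen0 : ∀ h ∈ X.gens, 0 ≤ ∑ i, V.w i * h.2 i := by
    intro h hh
    rw [← hgenval h hh]
    exact hV.1 _ _ (hgenA h hh)
  -- pairing with a sum
  have hpair : ∀ α : (F × (Fin m → ℤ)) →₀ ℕ, ∑ i, V.w i * (α.sum fun h a => a • h.2) i =
      α.sum fun h a => (a : ℤ) * ∑ i, V.w i * h.2 i := by
    intro α
    unfold Finsupp.sum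
    simp only [Finset.sum_apply, Finset.mul_sum]
    rw [Finset.sum_comm]
    refine Finset.sum_congr rfl fun h _ => Finset.sum_congr rfl fun i _ => ?_
    simp only [Pi.smul_apply, nsmul_eq_mul]
    ring
  have hexp : ∀ g u, X.hA g u → ∃ α : (F × (Fin m → ℤ)) →₀ ℕ,
      α.support ⊆ X.gens ∧ (α.sum fun h a => a • h.2) = u := by
    intro g u hA
    obtain ⟨T, c', hT, hg⟩ := gr3 X g u hA
    have hne : T.Nonempty := by
      rw [Finset.nonempty_iff_ne_empty]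
      rintro rfl
      exact hA.1 (by rw [hg, Finset.sum_empty])
    obtain ⟨α, hα⟩ := hne
    exact ⟨α, hT α hα⟩
  have hw0 : ∀ g u, X.hA g u → 0 ≤ ∑ i, V.w i * u i := by
    intro g u hA
    obtain ⟨α, hα, hu⟩ := hexp g u hA
    rw [← hu, hpair]
    exact Finset.sum_nonneg fun h hh => mul_nonneg (Int.natCast_nonneg _) (hgen0 h (hα hh))
  have hrk : rk (zeroSet X.hA (⟨V.P, 0, V.w⟩ : HV k F m)) ≤ rk (X.hS x.asIdeal) := by
    refine rk_mono fun g u hz => ?_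
    obtain ⟨hA, hz0⟩ := hz
    rw [hval] at hz0
    obtain ⟨α, hα, hu⟩ := hexp g u hA
    rw [← hu, hpair] at hz0
    have h1 : ∀ h ∈ α.support, (α h : ℤ) * ∑ i, V.w i * h.2 i = 0 :=
      (Finset.sum_eq_zero_iff_of_nonneg fun h hh =>
        mul_nonneg (Int.natCast_nonneg _) (hgen0 h (hα hh))).mp hz0
    have h2 : (fun i => (u i : ℚ)) = ∑ h ∈ α.support, (α h : ℚ) • (fun i => (h.2 i : ℚ)) := by
      rw [← hu]
      funext i
      unfold Finsupp.sum
      rw [Finset.sum_apply, Finset.sum_apply]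
      push_cast
      refine Finset.sum_congr rfl fun h _ => ?_
      simp only [Pi.smul_apply, nsmul_eq_mul, smul_eq_mul]
      push_cast
      ring
    rw [h2]
    refine Submodule.sum_mem _ fun h hh => Submodule.smul_mem _ _ (Submodule.subset_span ?_)
    refine ⟨h.1, h.2, ?_, rfl⟩
    have h3 : ∑ i, V.w i * h.2 i = 0 := by
      rcases mul_eq_zero.mp (h1 h hh) with h4 | h4
      · exact absurd (by exact_mod_cast h4) (Finsupp.mem_support_iff.mp hh)
      · exact h4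
    have hA' := hgenA h (hα hh)
    by_contra hnS
    have h5 := (hV.2 _ _ hA').mpr hnS
    rw [hgenval h (hα hh), h3] at h5
    exact lt_irrefl _ h5
  have hkap : kapV X.hA (⟨V.P, 0, V.w⟩ : HV k F m) ≤ 1 := by
    unfold kapV
    split_ifs <;> omega
  have hld : (⟨V.P, 0, V.w⟩ : HV k F m).ld γ' = V.ld γ' - V.n := by
    have h1 : (⟨V.P, 0, V.w⟩ : HV k F m).valR γ' = V.valR γ' := by
      unfold HV.valR Finsupp.sum
      refine Finset.sum_congr rfl fun h hh => ?_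
      beta_reduce
      rw [hval]
      unfold HV.val
      rw [hγB h hh _ hP]
      simp
    unfold HV.ld
    rw [h1]
    unfold HV.disc
    rw [hkap1 _ hP]
    push_cast
    ring
  refine ⟨fun g u hA => ?_, fun g u hA hp => ?_, ?_, Or.inl rfl⟩
  · rw [hval]
    exact hw0 g u hA
  · refine (hV.2 g u hA).mp ?_
    rw [hval] at hp
    unfold HV.val
    have := mul_nonneg (Int.natCast_nonneg V.n) (hpos _ hP g u hA)
    linarith
  · rw [hld]
    have h1 : (rk (zeroSet X.hA (⟨V.P, 0, V.w⟩ : HV k F m)) : ℝ) ≤ rk (X.hS x.asIdeal) := by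
      exact_mod_cast hrk
    have h2 : (kapV X.hA (⟨V.P, 0, V.w⟩ : HV k F m) : ℝ) ≤ 1 := by exact_mod_cast hkap
    have h3 : (1 : ℝ) ≤ V.n := by exact_mod_cast hn
    linarith

/-- a log discrepancy below `b` gives a homogeneous valuation -/
theorem exists_hv (X : TV C) (δ : Ideal X.A →₀ ℝ) (b : ℝ)
    (γ' : (F × (Fin m → ℤ)) →₀ ℝ) (hγ : ∀ h ∈ γ'.support, h.1 ≠ 0)
    (x : MaximalSpectrum X.A) (hx : IsLocalEq X.A C.der δ x.asIdeal (C.toEq γ'))
    (hl : ∃ l ∈ logDiscs X.A C.der δ x, l < b) :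
    ∃ V : HV k F m, V.CenterEq X x.asIdeal ∧ V.ld γ' + rk (X.hS x.asIdeal) < b := by
  obtain ⟨l, ⟨v, _, hv, j, hj, γx, hγx, rfl⟩, hlb⟩ := hl
  have hprime : x.asIdeal.IsPrime := x.isMaximal.isPrime
  have h1 := indep X δ x.asIdeal x.asIdeal x.asIdeal hprime le_rfl le_rfl γx (C.toEq γ') hγx hx v hv
  obtain ⟨V, hVv, hVd⟩ := ge X x v hv j hj
  have hmon : ∀ g u, g ≠ 0 → C.mon g u ≠ 0 := fun g u hg => mon_ne_zero C hg u
  refine ⟨V, ⟨fun g u hA => ?_, fun g u hA => ?_⟩, ?_⟩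
  · rw [hVv g u hA.1]
    exact hv.1 ⟨C.mon g u, hA.2⟩ (hmon g u hA.1)
  · rw [hVv g u hA.1]
    constructor
    · rintro hp ⟨_, hA', hn⟩
      exact hn ((hv.2 ⟨C.mon g u, hA'⟩).mpr fun _ => hp)
    · intro hn
      by_contra hp
      refine hn ⟨hA.1, hA.2, fun hmem => hp ?_⟩
      exact (hv.2 ⟨C.mon g u, hA.2⟩).mp hmem (hmon g u hA.1)
  · have h2 := toEq_val C γ' hγ V v 1 (fun g u hg => by rw [hVv g u hg, one_mul])
    rw [one_mul] at h2
    have h3 : ((V.disc : ℤ) : ℝ) + (rk (X.hS x.asIdeal) : ℝ) ≤ (j : ℝ) + 1 := by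
      exact_mod_cast hVd
    unfold HV.ld
    rw [← h2, ← h1]
    linarith

theorem good_exists (X : TV C) (γ' : (F × (Fin m → ℤ)) →₀ ℝ) (B : Finset (Pl k F))
    (b : ℝ) (x : MaximalSpectrum X.A) (V : HV k F m) (hV : V.CenterEq X x.asIdeal)
    (hl : V.ld γ' + rk (X.hS x.asIdeal) < b) (hkap1 : ∀ Q ∉ B, kap Q = 1)
    (hpos : ∀ Q ∉ B, ∀ g u, X.hA g u → 0 ≤ ordAt Q g)
    (hγB : ∀ h ∈ γ'.support, ∀ Q ∉ B, ordAt Q h.1 = 0)
    (hgB : ∀ h ∈ X.gens, ∀ Q ∉ B, ordAt Q h.1 = 0) :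
    ∃ W : HV k F m, Good X γ' B b x W := by
  by_cases h0 : V.n = 0
  · exact ⟨V, good_self X γ' B b x V hV hl (Or.inl h0)⟩
  by_cases hP : V.P ∈ B
  · exact ⟨V, good_self X γ' B b x V hV hl (Or.inr hP)⟩
  · exact ⟨_, good_horiz X γ' B b x V hV hl (by omega) hP hkap1 hpos hγB hgB⟩

theorem isClosed_ge (X : TV C) (p : Ideal X.A) :
    IsClosed {x : MaximalSpectrum X.A | p ≤ x.asIdeal} := by
  have h1 : {x : MaximalSpectrum X.A | p ≤ x.asIdeal} =
      MaximalSpectrum.toPrimeSpectrum ⁻¹' PrimeSpectrum.zeroLocus (p : Set X.A) := by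
    ext x
    simp only [Set.mem_ofPred_eq, Set.mem_preimage, PrimeSpectrum.mem_zeroLocus]
    rfl
  rw [h1]
  exact (PrimeSpectrum.isClosed_zeroLocus _).preimage
    MaximalSpectrum.toPrimeSpectrum_continuous

end Key

open Key in
/-- the key semicontinuity statement -/
theorem key (X : TV C) (δ : Ideal X.A →₀ ℝ) (hδ0 : ∀ q, 0 ≤ δ q)
    (hδ : ∀ q, IsHeightOne q → δ q ≠ 0 → X.Inv q)
    (hRC : ∀ x : MaximalSpectrum X.A, ∃ γ, IsLocalEq X.A C.der δ x.asIdeal γ) (b : ℝ)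
    (y : MaximalSpectrum X.A)
    (hy : y ∈ closure {x : MaximalSpectrum X.A | ∃ l ∈ logDiscs X.A C.der δ x, l < b}) :
    ∃ l ∈ logDiscs X.A C.der δ y, l < b ∨ l < 0 := by
  obtain ⟨γy, hγy⟩ := hRC y
  obtain ⟨γ', hγ, hloc⟩ := homEq X δ hδ y.asIdeal y.isMaximal.isPrime γy hγy
  obtain ⟨U, hU, hyU, hUx⟩ := open_localEq X δ hδ y γ' hγ hloc
  obtain ⟨L, hLA, hLS, hLγ, hLB⟩ := locData X δ hδ0 hδ y γ' hγ hloc
  -- the types
  obtain ⟨N, f, hf⟩ := types X L.B hLB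
  have hy1 : y ∈ closure (U ∩ {x : MaximalSpectrum X.A | ∃ l ∈ logDiscs X.A C.der δ x, l < b}) :=
    hU.inter_closure ⟨hyU, hy⟩
  have hsub : U ∩ {x : MaximalSpectrum X.A | ∃ l ∈ logDiscs X.A C.der δ x, l < b} ⊆
      ⋃ i : Fin N, {x : MaximalSpectrum X.A | ∃ W : HV k F m, Good X γ' L.B b x W ∧ f W = i} := by
    rintro x ⟨hxU, hxl⟩
    obtain ⟨V, hV, hl⟩ := exists_hv X δ b γ' hγ x (hUx x hxU) hxl
    obtain ⟨W, hW⟩ := good_exists X γ' L.B b x V hV hl L.kap_one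
      (fun Q hQ g u hA => L.gen_pos Q hQ g u (hLA ▸ hA))
      (fun h hh Q hQ => L.γ_B h (hLγ ▸ hh) Q hQ) hLB
    exact Set.mem_iUnion.mpr ⟨f W, W, hW, rfl⟩
  have hy2 := closure_mono hsub hy1
  rw [closure_iUnion_of_finite] at hy2
  obtain ⟨i, hi⟩ := Set.mem_iUnion.mp hy2
  obtain ⟨x₀, W₀, hW₀, hfW₀⟩ : {x : MaximalSpectrum X.A | ∃ W : HV k F m,
      Good X γ' L.B b x W ∧ f W = i}.Nonempty := by
    rw [← closure_nonempty_iff]
    exact ⟨y, hi⟩
  obtain ⟨p, hp, hpinv, hpc⟩ := center_prime X W₀ hW₀.nonneg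
  have hsub2 : {x : MaximalSpectrum X.A | ∃ W : HV k F m, Good X γ' L.B b x W ∧ f W = i} ⊆
      {x : MaximalSpectrum X.A | p ≤ x.asIdeal} := by
    rintro x ⟨W, hW, hfW⟩ a ha
    obtain ⟨s, g, hsum, hsA⟩ := gr1 X a
    have hmem : ∀ u, (hu : u ∈ s) → (⟨C.mon (g u) u, (hsA u hu).2⟩ : X.A) ∈ x.asIdeal := by
      intro u hu
      have h1 := hpinv a ha s g hsum u hu (hsA u hu).2
      have h2 : ¬ X.hS p (g u) u := fun ⟨_, _, h3⟩ => h3 h1
      have h3 := (hpc.2 (g u) u (hsA u hu)).mpr h2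
      have h4 : W.val (g u) u ≠ 0 := by
        intro h0
        have := (hf W₀ W hW₀.nonneg hW.nonneg hW₀.mem hW.mem (hfW₀.trans hfW.symm) (g u) u
          (hsA u hu)).mpr h0
        omega
      have h5 : 0 < W.val (g u) u :=
        lt_of_le_of_ne (hW.nonneg _ _ (hsA u hu)) (Ne.symm h4)
      have h6 := hW.pos _ _ (hsA u hu) h5
      by_contra hn
      exact h6 ⟨(hsA u hu).1, (hsA u hu).2, hn⟩
    have h7 : a = ∑ u ∈ s.attach, (⟨C.mon (g u.1) u.1, (hsA u.1 u.2).2⟩ : X.A) := by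
      apply Subtype.ext
      rw [AddSubmonoidClass.coe_finsetSum, hsum, ← Finset.sum_attach]
    rw [h7]
    exact Ideal.sum_mem _ fun u _ => hmem u.1 u.2
  have hpy : p ≤ y.asIdeal := closure_minimal hsub2 (isClosed_ge X p) hi
  have hWS : ∀ g u, X.hS y.asIdeal g u → W₀.val g u = 0 := by
    intro g u hS
    have h1 : X.hS p g u := ⟨hS.1, hS.2.choose, fun hm => hS.2.choose_spec (hpy hm)⟩
    have h2 := hW₀.nonneg g u (hS_hA hS)
    have h3 : ¬ 0 < W₀.val g u := fun h => (hpc.2 g u (hS_hA hS)).mp h h1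
    omega
  obtain ⟨V', h1, h2, h3, h4⟩ := chain L W₀ (by rw [hLA]; exact hW₀.nonneg)
    (by rw [hLS]; exact hWS)
  rw [hLA] at h1 h3 h4
  rw [hLS] at h2 h3 h4
  rw [hLγ] at h4
  have hV' : V'.CenterEq X y.asIdeal := by
    refine ⟨h1, fun g u hA => ⟨fun hpos hS => ?_, fun hS => h3 g u hA hS⟩⟩
    rw [h2 g u hS] at hpos
    exact lt_irrefl _ hpos
  obtain ⟨M, v, j, hM, hdiv, hcen, hform, hord, hle⟩ := le X y V' hV'
  have h5 := toEq_val C γ' hγ V' v (M : ℝ) (fun g u hg => by exact_mod_cast hord g u hg)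
  refine ⟨1 + (j : ℝ) - v.val (C.toEq γ'), ⟨v, hdiv, hcen, j, hform, _, hloc, rfl⟩, ?_⟩
  have h6 : (M : ℝ) * ((j : ℝ) + 1) ≤ (V'.disc : ℝ) + rk (X.hS y.asIdeal) := by
    exact_mod_cast hle
  have h7 : (M : ℝ) * (1 + (j : ℝ) - v.val (C.toEq γ')) < b := by
    have h8 := hW₀.ld
    have h9 : V'.ld γ' = (V'.disc : ℝ) - V'.valR γ' := rfl
    have h10 : (M : ℝ) * (1 + (j : ℝ) - v.val (C.toEq γ')) =
        (M : ℝ) * ((j : ℝ) + 1) - (M : ℝ) * v.val (C.toEq γ') := by ring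
    rw [h10, h5]
    linarith
  by_cases hneg : 1 + (j : ℝ) - v.val (C.toEq γ') < 0
  · exact Or.inr hneg
  · push Not at hneg
    have hM1 : (1 : ℝ) ≤ M := by exact_mod_cast hM
    left
    nlinarith

theorem lsc_tv (X : TV C) (δ : Ideal X.A →₀ ℝ) (hδ0 : ∀ q, 0 ≤ δ q)
    (hδ : ∀ q, IsHeightOne q → δ q ≠ 0 → X.Inv q)
    (hRC : ∀ x : MaximalSpectrum X.A, ∃ γ, IsLocalEq X.A C.der δ x.asIdeal γ) :
    LowerSemicontinuous (mld X.A C.der δ) := by
  have hbot : ∀ x : MaximalSpectrum X.A, (¬ ∃ l ∈ logDiscs X.A C.der δ x, l < 0) →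
      0 ≤ mld X.A C.der δ x := by
    intro x hx
    unfold mld
    rw [if_neg hx]
    refine le_iInf₂ fun l hl => ?_
    by_contra hlt
    push Not at hlt
    exact hx ⟨l, hl, by exact_mod_cast hlt⟩
  have hneg : ∀ x : MaximalSpectrum X.A, (∃ l ∈ logDiscs X.A C.der δ x, l < 0) →
      mld X.A C.der δ x = ⊥ := by
    intro x hx
    unfold mld
    rw [if_pos hx]
  have hkey0 : ∀ a : EReal, a < 0 → closure (mld X.A C.der δ ⁻¹' Set.Iic a) ⊆
      mld X.A C.der δ ⁻¹' Set.Iic a := by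
    intro a ha y hy
    have h1 : mld X.A C.der δ ⁻¹' Set.Iic a ⊆
        {x : MaximalSpectrum X.A | ∃ l ∈ logDiscs X.A C.der δ x, l < 0} := by
      intro x hx
      by_contra hn
      exact absurd (lt_of_le_of_lt (hbot x hn) (lt_of_le_of_lt hx ha)) (lt_irrefl _)
    obtain ⟨l, hl, hl0⟩ := key X δ hδ0 hδ hRC 0 y (closure_mono h1 hy)
    have h2 := hneg y ⟨l, hl, or_self_iff.mp hl0⟩
    simp only [Set.mem_preimage, Set.mem_Iic, h2, bot_le]
  rw [lowerSemicontinuous_iff_isClosed_preimage]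
  intro a
  refine isClosed_of_closure_subset ?_
  by_cases ha : a < 0
  · exact hkey0 a ha
  push Not at ha
  intro y hy
  simp only [Set.mem_preimage, Set.mem_Iic]
  by_contra hlt
  push Not at hlt
  obtain ⟨b, hab, hby⟩ := EReal.lt_iff_exists_real_btwn.mp hlt
  have h1 : mld X.A C.der δ ⁻¹' Set.Iic a ⊆
      {x : MaximalSpectrum X.A | ∃ l ∈ logDiscs X.A C.der δ x, l < b} := by
    intro x hx
    have hb0 : (0 : EReal) < b := lt_of_le_of_lt ha hab
    by_cases hn : ∃ l ∈ logDiscs X.A C.der δ x, l < 0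
    · obtain ⟨l, hl, hl0⟩ := hn
      exact ⟨l, hl, hl0.trans (by exact_mod_cast hb0)⟩
    · have h2 : mld X.A C.der δ x < b := lt_of_le_of_lt hx hab
      unfold mld at h2
      rw [if_neg hn] at h2
      obtain ⟨l, h3⟩ := iInf_lt_iff.mp h2
      obtain ⟨hl, hlb⟩ := iInf_lt_iff.mp h3
      exact ⟨l, hl, by exact_mod_cast hlb⟩
  obtain ⟨l, hl, hl0⟩ := key X δ hδ0 hδ hRC b y (closure_mono h1 hy)
  by_cases hn : ∃ l ∈ logDiscs X.A C.der δ y, l < 0
  · rw [hneg y hn] at hby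
    exact not_lt_bot hby
  · have hlb : l < b := by
      rcases hl0 with h | h
      · exact h
      · exact absurd ⟨l, hl, h⟩ hn
    unfold mld at hby
    rw [if_neg hn] at hby
    have h3 : (b : EReal) < l := lt_of_lt_of_le hby (iInf₂_le l hl)
    exact absurd (by exact_mod_cast h3 : b < l) (not_lt.mpr hlb.le)

end

end Pool.Agent.MLD.C
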