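import Pool.Agent.Lib.MP_f23696_ag.C.KapA

/-!
Embeddings of `K`, chain rule for Jacobians (module JIND of the project LSC-C).
-/

namespace Pool.Agent.MLD.C

open scoped Classical
noncomputable section

universe u v w w'

variable {k : Type u} [Field k] [CharZero k] {F : Type v} [Field F] [Algebra k F]
  [Cv k F] {m : ℕ} {K : Type w} [Field K] [Algebra k K] (C : Ctx k F K m)

namespace Jind

/-- `F` as an algebra over `k[X]` -/
abbrev algF : Algebra (Polynomial k) F :=
  (Polynomial.aeval (R := k) (Cv.z k : F)).toRingHom.toAlgebra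

omit [CharZero k] in
theorem isAlg : letI : Algebra (Polynomial k) F := algF (k := k) (F := F)
    Algebra.IsAlgebraic (Polynomial k) F := by
  letI : Algebra (Polynomial k) F := algF (k := k) (F := F)
  let K1 := IntermediateField.adjoin k {(Cv.z k : F)}
  have hfin : FiniteDimensional K1 F := Cv.fin
  letI : Algebra (Polynomial k) K1 :=
    (Polynomial.aeval (R := k) (IntermediateField.AdjoinSimple.gen k (Cv.z k : F))).toRingHom.toAlgebra
  have htow : IsScalarTower (Polynomial k) K1 F := by
    refine IsScalarTower.of_algebraMap_eq fun p => ?_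
    show Polynomial.aeval (Cv.z k : F) p = ((Polynomial.aeval (R := k)
      (IntermediateField.AdjoinSimple.gen k (Cv.z k : F)) p : K1) : F)
    exact (IntermediateField.AdjoinSimple.coe_aeval_gen_apply (F := k) (Cv.z k : F) p).symm
  have h1 : Algebra.IsAlgebraic (Polynomial k) K1 := by
    refine ⟨fun a => ?_⟩
    obtain ⟨r, s, hrs⟩ := IntermediateField.mem_adjoin_simple_iff k _ |>.1 a.2
    rcases eq_or_ne (a : F) 0 with h0 | h0
    · have : a = 0 := Subtype.ext h0
      rw [this]
      exact isAlgebraic_zero
    · have hs : Polynomial.aeval (Cv.z k : F) s ≠ 0 := by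
        intro h
        rw [h, div_zero] at hrs
        exact h0 hrs
      refine ⟨Polynomial.C s * Polynomial.X - Polynomial.C r, ?_, ?_⟩
      · intro h
        have h2 := congrArg (fun p => Polynomial.coeff p 1) h
        simp only [Polynomial.coeff_sub, Polynomial.coeff_C_mul, Polynomial.coeff_X_one, mul_one,
          Polynomial.coeff_C_ne_zero one_ne_zero, sub_zero, Polynomial.coeff_zero] at h2
        rw [h2, map_zero] at hs
        exact hs rfl
      · apply Subtype.ext
        have e1 : ∀ p : Polynomial k, ((algebraMap (Polynomial k) K1 p : K1) : F) =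
            Polynomial.aeval (Cv.z k : F) p := fun p =>
          IntermediateField.AdjoinSimple.coe_aeval_gen_apply (F := k) (Cv.z k : F) p
        rw [map_sub, map_mul, Polynomial.aeval_C, Polynomial.aeval_X, Polynomial.aeval_C]
        show ((algebraMap (Polynomial k) K1 s : K1) : F) * (a : F) -
          ((algebraMap (Polynomial k) K1 r : K1) : F) = 0
        rw [e1, e1, hrs, mul_div_cancel₀ _ hs, sub_self]
  exact Algebra.IsAlgebraic.trans (Polynomial k) K1 F

omit [CharZero k] in
/-- algebraic independence over `F` -/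
theorem indepF {L : Type w'} [Field L] [Algebra k L] (ψ : F →ₐ[k] L) (ξ : Fin m → L)
    (h : AlgebraicIndependent k (Fin.cons (ψ (Cv.z k)) ξ : Fin (m + 1) → L)) :
    letI : Algebra F L := ψ.toRingHom.toAlgebra
    AlgebraicIndependent F ξ := by
  letI : Algebra F L := ψ.toRingHom.toAlgebra
  letI : Algebra (Polynomial k) F := algF (k := k) (F := F)
  letI : Algebra (Polynomial k) L :=
    (Polynomial.aeval (R := k) (ψ (Cv.z k))).toRingHom.toAlgebra
  have htow : IsScalarTower (Polynomial k) F L := by
    refine IsScalarTower.of_algebraMap_eq fun p => ?_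
    exact Polynomial.aeval_algHom_apply ψ (Cv.z k : F) p
  have h1 : AlgebraicIndependent k (Sum.elim ξ fun _ : Unit => ψ (Cv.z k)) := by
    have h2 := h.comp (Sum.elim (fun i : Fin m => i.succ) fun _ : Unit => (0 : Fin (m + 1))) ?_
    · convert h2 using 1
      funext i
      rcases i with i | i
      · rfl
      · rfl
    · rintro (i | i) (j | j) hij
      · exact congrArg Sum.inl (Fin.succ_injective _ hij)
      · exact absurd hij (Fin.succ_ne_zero i)
      · exact absurd hij.symm (Fin.succ_ne_zero j)
      · rfl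
  obtain ⟨h2, h3⟩ := AlgebraicIndependent.sumElim_iff.1 h1
  let R0 := Algebra.adjoin k (Set.range fun _ : Unit => ψ (Cv.z k))
  have hz : ψ (Cv.z k) ∈ R0 := Algebra.subset_adjoin ⟨(), rfl⟩
  letI : Algebra (Polynomial k) R0 :=
    (Polynomial.aeval (R := k) (⟨ψ (Cv.z k), hz⟩ : R0)).toRingHom.toAlgebra
  have e1 : ∀ p : Polynomial k, ((algebraMap (Polynomial k) R0 p : R0) : L) =
      Polynomial.aeval (ψ (Cv.z k)) p := fun p =>
    (Polynomial.aeval_algHom_apply R0.val (⟨ψ (Cv.z k), hz⟩ : R0) p).symm
  have htow2 : IsScalarTower (Polynomial k) R0 L :=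
    IsScalarTower.of_algebraMap_eq fun p => (e1 p).symm
  have h4 : Function.Injective (algebraMap (Polynomial k) R0) := by
    intro p q hpq
    have h5 : Transcendental k (ψ (Cv.z k)) := h.transcendental 0
    have h6 := congrArg (fun a : R0 => (a : L)) hpq
    simp only [e1] at h6
    exact transcendental_iff_injective.1 h5 h6
  have h5 : AlgebraicIndependent (Polynomial k) ξ := h3.restrictScalars h4
  have h6 := isAlg (k := k) (F := F)
  exact h5.extendScalars F

omit [CharZero k] in
theorem indepK : letI : Algebra F K := C.ι.toRingHom.toAlgebra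
    AlgebraicIndependent F C.x := by
  letI : Algebra F K := C.ι.toRingHom.toAlgebra
  rw [algebraicIndependent_iff]
  intro p hp
  let uu : (Fin m →₀ ℕ) → (Fin m → ℤ) := fun d i => ((d i : ℕ) : ℤ)
  have hinj : Function.Injective uu := by
    intro d e hde
    ext i
    have h5 : ((d i : ℕ) : ℤ) = ((e i : ℕ) : ℤ) := congrFun hde i
    exact_mod_cast h5
  by_contra hne
  obtain ⟨d0, hd0⟩ := MvPolynomial.support_nonempty.2 hne
  have h1 : ∑ u ∈ p.support.image uu,
      C.ι (∑ d ∈ p.support with uu d = u, p.coeff d) * ∏ i, C.x i ^ u i = 0 := by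
    rw [← hp, MvPolynomial.aeval_def, MvPolynomial.eval₂_eq', ← Finset.sum_fiberwise_of_maps_to
      (fun d hd => Finset.mem_image_of_mem uu hd)]
    refine Finset.sum_congr rfl fun u _ => ?_
    rw [map_sum, Finset.sum_mul]
    refine Finset.sum_congr rfl fun d hd => ?_
    rw [← (Finset.mem_filter.1 hd).2]
    simp only [uu, zpow_natCast]
    rfl
  have h2 := C.li _ _ h1 (uu d0) (Finset.mem_image_of_mem uu hd0)
  have hm : d0 ∈ p.support.filter (fun d => uu d = uu d0) := Finset.mem_filter.2 ⟨hd0, rfl⟩
  rw [Finset.sum_eq_single_of_mem d0 hm] at h2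
  · exact MvPolynomial.mem_support_iff.1 hd0 h2
  · intro d hd hdne
    exact absurd (hinj (Finset.mem_filter.1 hd).2) hdne

omit [CharZero k] in
theorem adjF : letI : Algebra F K := C.ι.toRingHom.toAlgebra
    IntermediateField.adjoin F (Set.range C.x) = ⊤ := by
  letI : Algebra F K := C.ι.toRingHom.toAlgebra
  rw [eq_top_iff]
  intro b _
  have hb : b ∈ IntermediateField.adjoin k (Set.range C.ι ∪ Set.range C.x) := by
    rw [C.gen]; trivial
  induction hb using IntermediateField.adjoin_induction with
  | mem x hx =>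
    rcases hx with ⟨g, rfl⟩ | hx
    · exact IntermediateField.algebraMap_mem _ g
    · exact IntermediateField.subset_adjoin _ _ hx
  | algebraMap c =>
    rw [← C.ι.commutes c]
    exact IntermediateField.algebraMap_mem _ _
  | add x y _ _ hx hy => exact add_mem (hx trivial) (hy trivial)
  | inv x _ hx => exact inv_mem (hx trivial)
  | mul x y _ _ hx hy => exact mul_mem (hx trivial) (hy trivial)

/-- the generators of the field `K` over `F(z)` -/
def yy (C : Ctx k F K m) : Fin (m + 1) → K := Fin.cons (C.ι (Cv.z k)) C.x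

end Jind

omit [CharZero k] in
/-- embedding of `K` extending an embedding of `F` with algebraically independent images of
`z, x_1, …, x_m` -/
theorem embed {L : Type w'} [Field L] [Algebra k L] (ψ : F →ₐ[k] L) (ξ : Fin m → L)
    (h : AlgebraicIndependent k (Fin.cons (ψ (Cv.z k)) ξ : Fin (m + 1) → L)) :
    ∃ Φ : K →ₐ[k] L, (∀ g, Φ (C.ι g) = ψ g) ∧ ∀ i, Φ (C.x i) = ξ i := by
  letI : Algebra F K := C.ι.toRingHom.toAlgebra
  letI : Algebra F L := ψ.toRingHom.toAlgebra
  have t1 : IsScalarTower k F K := IsScalarTower.of_algebraMap_eq fun c => (C.ι.commutes c).symm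
  have t2 : IsScalarTower k F L := IsScalarTower.of_algebraMap_eq fun c => (ψ.commutes c).symm
  have hy : AlgebraicIndependent F C.x := Jind.indepK C
  have hξ : AlgebraicIndependent F ξ := Jind.indepF ψ ξ h
  have hadj : IntermediateField.adjoin F (Set.range C.x) = ⊤ := Jind.adjF C
  let e : K ≃ₐ[F] FractionRing (MvPolynomial (Fin m) F) :=
    (IntermediateField.topEquiv.symm.trans
      (IntermediateField.equivOfEq hadj.symm)).trans hy.aevalEquivField.symm
  have he : ∀ i, e (C.x i) = algebraMap (MvPolynomial (Fin m) F) _ (MvPolynomial.X i) := by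
    intro i
    have h1 : e.symm (algebraMap (MvPolynomial (Fin m) F) _ (MvPolynomial.X i)) = C.x i := by
      change ((hy.aevalEquivField (algebraMap _ _ (MvPolynomial.X i)) :
        IntermediateField.adjoin F (Set.range C.x)) : K) = _
      rw [hy.aevalEquivField_algebraMap_apply_coe, MvPolynomial.aeval_X]
    rw [← h1, AlgEquiv.apply_symm_apply]
  let f : FractionRing (MvPolynomial (Fin m) F) →ₐ[F] L :=
    IsFractionRing.liftAlgHom (K := FractionRing (MvPolynomial (Fin m) F))
      (algebraicIndependent_iff_injective_aeval.2 hξ)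
  have hf : ∀ i, f (algebraMap (MvPolynomial (Fin m) F) _ (MvPolynomial.X i)) = ξ i := by
    intro i
    have := IsFractionRing.lift_algebraMap (K := FractionRing (MvPolynomial (Fin m) F))
      (algebraicIndependent_iff_injective_aeval.2 hξ) (MvPolynomial.X i)
    rw [show f (algebraMap (MvPolynomial (Fin m) F) _ (MvPolynomial.X i)) =
      IsFractionRing.lift (algebraicIndependent_iff_injective_aeval.2 hξ)
        (algebraMap (MvPolynomial (Fin m) F) _ (MvPolynomial.X i)) from rfl, this]
    exact MvPolynomial.aeval_X _ _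
  refine ⟨(f.comp e.toAlgHom).restrictScalars k, fun g => ?_, fun i => ?_⟩
  · exact (f.comp e.toAlgHom).commutes g
  · have := hf i
    rw [← he i] at this
    exact this

theorem Jind.chain {L : Type w'} [Field L] [Algebra k L] (Φ : K →ₐ[k] L) (D : Derivation k L L)
    (b : K) : D (Φ b) = ∑ l, D (Φ (Jind.yy C l)) * Φ (C.der l b) := by
  have hb : b ∈ IntermediateField.adjoin k (Set.range C.ι ∪ Set.range C.x) := by
    rw [C.gen]; trivial
  induction hb using IntermediateField.adjoin_induction with
  | mem x hx =>
    rcases hx with ⟨g, rfl⟩ | ⟨i, rfl⟩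
    · rw [Fin.sum_univ_succ]
      simp only [C.der0_ι, C.derS_ι, map_zero, mul_zero, Finset.sum_const_zero,
        add_zero, Jind.yy, Fin.cons_zero]
      have := KAP.chain_rule (Φ.comp C.ι) D g
      simp only [AlgHom.comp_apply] at this
      rw [this, mul_comm]
    · rw [Fin.sum_univ_succ]
      simp only [C.der0_x, C.derS_x, map_zero, mul_zero, zero_add, Jind.yy, Fin.cons_succ]
      rw [Finset.sum_eq_single i]
      · simp
      · intro j _ hj
        simp [Ne.symm hj]
      · simp
  | algebraMap c => simp
  | add x y _ _ hx hy => simp only [map_add, hx, hy, mul_add, Finset.sum_add_distrib]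
  | inv x _ hx =>
    rw [map_inv₀, Derivation.leibniz_inv, hx, smul_eq_mul, Finset.mul_sum]
    refine Finset.sum_congr rfl fun l _ => ?_
    rw [Derivation.leibniz_inv, smul_eq_mul, map_mul, map_neg, map_pow, map_inv₀]
    ring
  | mul x y _ _ hx hy =>
    rw [map_mul, Derivation.leibniz, hx, hy, smul_eq_mul, smul_eq_mul, Finset.mul_sum,
      Finset.mul_sum, ← Finset.sum_add_distrib]
    refine Finset.sum_congr rfl fun l _ => ?_
    rw [Derivation.leibniz, smul_eq_mul, smul_eq_mul, map_add, map_mul, map_mul]
    ring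

/-- chain rule for Jacobian determinants -/
theorem jac_chain {L : Type w'} [Field L] [Algebra k L] (Φ : K →ₐ[k] L)
    (D : Fin (m + 1) → Derivation k L L) (a : Fin (m + 1) → K) :
    Matrix.det (Matrix.of fun i j => D i (Φ (a j))) =
      Matrix.det (Matrix.of fun i j => D i
        (Φ ((Fin.cons (C.ι (Cv.z k)) C.x : Fin (m + 1) → K) j))) * Φ (jac C.der a) := by
  have h1 : (Matrix.of fun i j => D i (Φ (a j))) =
      (Matrix.of fun i j => D i (Φ ((Fin.cons (C.ι (Cv.z k)) C.x : Fin (m + 1) → K) j))) *
        (Matrix.of fun i j => C.der i (a j)).map Φ := by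
    ext i j
    rw [Matrix.mul_apply]
    exact Jind.chain C Φ (D i) (a j)
  rw [h1, Matrix.det_mul, jac]
  congr 1
  exact (Φ.toRingHom.map_det _).symm

end

end Pool.Agent.MLD.C
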