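import Pool.Agent.Lib.MP_f23696_ag.C.Pla
import Pool.Agent.Lib.MP_f23696_ag.Hahn
import Pool.Agent.Lib.MP_f23696_ag.DerInst

/-!
The numbers `kap` (module KAP of the project LSC-C): the part that does not need the expansions.
-/

namespace Pool.Agent.MLD.C

open scoped Classical
noncomputable section

universe u v w w'

namespace KAP

section DER
variable {k : Type u} [Field k] [CharZero k] {F : Type v} [Field F] [Algebra k F] [Cv k F]

/-- a `k`-derivation of `F` into an `F`-vector space vanishing at `z` is zero -/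
theorem der_zero {L : Type w} [Field L] [Algebra k L] [Algebra F L] [IsScalarTower k F L]
    (D : Derivation k F L) (hz : D (Cv.z k) = 0) (g : F) : D g = 0 := by
  have hK : ∀ x ∈ IntermediateField.adjoin k {(Cv.z k : F)}, D x = 0 := by
    intro x hx
    induction hx using IntermediateField.adjoin_induction with
    | mem x hx =>
      rw [Set.mem_singleton_iff.mp hx]; exact hz
    | algebraMap c => exact D.map_algebraMap c
    | add x y _ _ hx hy => rw [map_add, hx, hy, add_zero]
    | inv x _ hx => rw [Derivation.leibniz_inv, hx, smul_zero]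
    | mul x y _ _ hx hy => rw [Derivation.leibniz, hx, hy, smul_zero, smul_zero, add_zero]
  let K1 := IntermediateField.adjoin k {(Cv.z k : F)}
  have hfin : FiniteDimensional K1 F := Cv.fin
  have hcz : CharZero K1 := inferInstance
  have hsep : Algebra.IsSeparable K1 F := inferInstance
  have hun : Algebra.FormallyUnramified K1 F := Algebra.FormallyUnramified.of_isSeparable K1 F
  let D' : Derivation K1 F L := Derivation.mk'
    { toFun := D
      map_add' := map_add D
      map_smul' := by
        intro c x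
        rw [RingHom.id_apply, Algebra.smul_def c x, Derivation.leibniz]
        rw [hK (algebraMap K1 F c) c.2, smul_zero, add_zero]
        rfl } (fun a b => D.leibniz a b)
  have h1 : D' g = D g := rfl
  rw [← h1, ← Derivation.liftKaehlerDifferential_comp_D D' g]
  have : KaehlerDifferential.D K1 F g = 0 := Subsingleton.elim _ _
  rw [this, map_zero]

/-- chain rule: `E (ψ g) = ψ (d g) E (ψ z)` -/
theorem chain_rule {L : Type w} [Field L] [Algebra k L] (ψ : F →ₐ[k] L) (E : Derivation k L L)
    (g : F) : E (ψ g) = ψ (Cv.d (k := k) (F := F) g) * E (ψ (Cv.z k)) := by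
  let _ : Algebra F L := ψ.toRingHom.toAlgebra
  have : IsScalarTower k F L := IsScalarTower.of_algebraMap_eq fun c => (ψ.commutes c).symm
  have h := der_zero (k := k) (F := F) (E.compAlgebraMap F -
    (LinearMap.toSpanSingleton F L (E (ψ (Cv.z k)))).compDer (Cv.d (k := k) (F := F))) ?_ g
  · rw [Derivation.sub_apply, sub_eq_zero] at h
    exact h
  · rw [Derivation.sub_apply, sub_eq_zero]
    show E (ψ (Cv.z k)) = (Cv.d (k := k) (F := F) (Cv.z k)) • E (ψ (Cv.z k))
    rw [Cv.dz, one_smul]

end DER

section ORDS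
variable {k : Type u} [Field k] [CharZero k]

/-- derivations of the field of Laurent series -/
abbrev LD (k : Type u) [Field k] : Type u :=
  @Derivation k (LaurentSeries k) (LaurentSeries k) _ _ _
        (HahnSeries.powerSeriesAlgebra ℤ k) _ (HahnSeries.powerSeriesAlgebra ℤ k).toModule

/-- the Euler derivation of Laurent series -/
theorem euler : ∃ E : LD k, ∀ f i, (E f).coeff i = (i : k) * f.coeff i := by
  obtain ⟨E, hE⟩ := heul_exists (k := k) (Γ := ℤ) (R := k) (AddMonoidHom.id ℤ)
  obtain ⟨E', hE'⟩ := der_laurent E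
  exact ⟨E', fun f i => by rw [hE', hE]; rfl⟩

theorem euler_le {E : LD k}
    (hE : ∀ f i, (E f).coeff i = (i : k) * f.coeff i) {f : LaurentSeries k} (h : E f ≠ 0) :
    f.order ≤ (E f).order := by
  have h1 : (E f).coeff (E f).order ≠ 0 := HahnSeries.coeff_order_eq_zero.not.mpr h
  rw [hE] at h1
  exact HahnSeries.order_le_of_coeff_ne_zero (right_ne_zero_of_mul h1)

theorem euler_eq {E : LD k}
    (hE : ∀ f i, (E f).coeff i = (i : k) * f.coeff i) {f : LaurentSeries k} (h : f.order ≠ 0) :
    E f ≠ 0 ∧ (E f).order = f.order := by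
  have hf : f ≠ 0 := by
    rintro rfl
    exact h HahnSeries.order_zero
  have h1 : (E f).coeff f.order ≠ 0 := by
    rw [hE]
    exact mul_ne_zero (Int.cast_ne_zero.mpr h) (HahnSeries.coeff_order_eq_zero.not.mpr hf)
  have h2 : E f ≠ 0 := by
    intro h3
    rw [h3] at h1
    exact h1 rfl
  exact ⟨h2, le_antisymm (HahnSeries.order_le_of_coeff_ne_zero h1) (euler_le hE h2)⟩

end ORDS

section MAIN
variable {k : Type u} [Field k] [CharZero k] {F : Type v} [Field F] [Algebra k F] [Cv k F]

/-- the expansion of `F` in a uniformiser at `P` -/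
def HasExp (P : Pl k F) : Prop :=
  ∃ ψ : F →ₐ[k] LaurentSeries k, (∀ g, g ≠ 0 → (ψ g).order = ordAt P g) ∧
      ∀ f : LaurentSeries k, (∀ i : ℤ, f.coeff i = (i : k) * (ψ (Cv.z k)).coeff i) →
        f ≠ 0 ∧ f.order = kap P

theorem ord_der_of {P : Pl k F} (h : HasExp P) (g : F) (hg : g ≠ 0)
    (hd : Cv.d (k := k) (F := F) g ≠ 0) :
    ordAt P g - kap P ≤ ordAt P (Cv.d (k := k) (F := F) g) := by
  obtain ⟨ψ, h1, h2⟩ := h
  obtain ⟨E, hE⟩ := euler (k := k)
  obtain ⟨h3, h4⟩ := h2 (E (ψ (Cv.z k))) (fun i => hE _ i)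
  have h5 := chain_rule ψ E g
  have h6 : ψ (Cv.d (k := k) (F := F) g) ≠ 0 := (map_ne_zero ψ).mpr hd
  have h7 : E (ψ g) ≠ 0 := by
    rw [h5]; exact mul_ne_zero h6 h3
  have h8 := euler_le hE h7
  rw [h5, HahnSeries.order_mul h6 h3, h4, h1 g hg, h1 _ hd] at h8
  linarith

theorem der_eq_of {P : Pl k F} (h : HasExp P) (g : F) (hg : ordAt P g ≠ 0) :
    Cv.d (k := k) (F := F) g ≠ 0 ∧
      ordAt P (Cv.d (k := k) (F := F) g) = ordAt P g - kap P := by
  obtain ⟨ψ, h1, h2⟩ := h
  obtain ⟨E, hE⟩ := euler (k := k)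
  obtain ⟨h3, h4⟩ := h2 (E (ψ (Cv.z k))) (fun i => hE _ i)
  have hg0 : g ≠ 0 := by
    rintro rfl
    exact hg (ordAt_zero P)
  have h5 := chain_rule ψ E g
  obtain ⟨h6, h7⟩ := euler_eq hE (f := ψ g) (by rw [h1 g hg0]; exact hg)
  have h8 : Cv.d (k := k) (F := F) g ≠ 0 := by
    intro h9
    rw [h5, h9, map_zero, zero_mul] at h6
    exact h6 rfl
  refine ⟨h8, ?_⟩
  have h9 : ψ (Cv.d (k := k) (F := F) g) ≠ 0 := (map_ne_zero ψ).mpr h8
  rw [h5, HahnSeries.order_mul h9 h3, h4, h1 g hg0, h1 _ h8] at h7
  linarith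

theorem kap_eq_of {P : Pl k F} (h : HasExp P) (t : F) (ht : ordAt P t = 1) :
    kap P = 1 - ordAt P (Cv.d (k := k) (F := F) t) := by
  have := (der_eq_of h t (by rw [ht]; exact one_ne_zero)).2
  rw [ht] at this
  linarith

/-- the elements of nonnegative order -/
def vring (P : Pl k F) : Subalgebra k F where
  carrier := {g | 0 ≤ ordAt P g}
  mul_mem' := by
    intro a b ha hb
    rcases eq_or_ne a 0 with h | h
    · show 0 ≤ ordAt P (a * b)
      rw [h, zero_mul, ordAt_zero]
    rcases eq_or_ne b 0 with h' | h'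
    · show 0 ≤ ordAt P (a * b)
      rw [h', mul_zero, ordAt_zero]
    show 0 ≤ ordAt P (a * b)
    rw [ordAt_mul P h h']
    exact add_nonneg ha hb
  add_mem' := by
    intro a b ha hb
    rcases eq_or_ne a 0 with h | h
    · show 0 ≤ ordAt P (a + b)
      rw [h, zero_add]; exact hb
    rcases eq_or_ne b 0 with h' | h'
    · show 0 ≤ ordAt P (a + b)
      rw [h', add_zero]; exact ha
    rcases eq_or_ne (a + b) 0 with h'' | h''
    · show 0 ≤ ordAt P (a + b)
      rw [h'', ordAt_zero]
    exact le_trans (le_min ha hb) (ordAt_add P h h' h'')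
  algebraMap_mem' c := by
    show 0 ≤ ordAt P (algebraMap k F c)
    rw [ordAt_C]

/-- a ring stable under `d`, nonnegative at `P`, with fraction field `F`, forces `kap P ≤ 1` -/
theorem kap_le_one {P : Pl k F} (h : HasExp P) (B : Subalgebra k F)
    (hd : ∀ b ∈ B, Cv.d (k := k) (F := F) b ∈ B) (hB : ∀ b ∈ B, 0 ≤ ordAt P b)
    (hfr : ∀ f : F, ∃ a ∈ B, ∃ b ∈ B, f = a / b) : kap P ≤ 1 := by
  by_contra hc
  push Not at hc
  have key : ∀ n : ℕ, ∀ b ∈ B, ordAt P b < n → kap P ∣ ordAt P b := by
    intro n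
    induction n with
    | zero =>
      intro b hb hn
      have := hB b hb
      push_cast at hn
      omega
    | succ n ih =>
      intro b hb hn
      rcases eq_or_ne (ordAt P b) 0 with h0 | h0
      · rw [h0]; exact dvd_zero _
      obtain ⟨-, h2⟩ := der_eq_of h b h0
      have h3 := ih _ (hd b hb) (by rw [h2]; push_cast at hn; omega)
      rw [h2] at h3
      exact (Int.dvd_iff_dvd_of_dvd_sub h3).mpr (dvd_refl _) |> fun h => by
        have := dvd_add h3 (dvd_refl (kap P))
        rwa [sub_add_cancel] at this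
  obtain ⟨t, ht0, ht⟩ := P.exists_ord_eq_one
  obtain ⟨a, ha, b, hb, hab⟩ := hfr t
  have hb0 : b ≠ 0 := by
    rintro rfl
    rw [div_zero] at hab
    exact ht0 hab
  have ha0 : a ≠ 0 := by
    rintro rfl
    rw [zero_div] at hab
    exact ht0 hab
  have h1 : kap P ∣ ordAt P a :=
    key ((ordAt P a).toNat + 1) a ha (by have := hB a ha; push_cast; omega)
  have h2 : kap P ∣ ordAt P b :=
    key ((ordAt P b).toNat + 1) b hb (by have := hB b hb; push_cast; omega)
  have h3 : ordAt P t = ordAt P a - ordAt P b := by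
    rw [hab, div_eq_mul_inv, ordAt_mul P ha0 (inv_ne_zero hb0), ordAt_inv]
    ring
  have h4 : kap P ∣ 1 := by
    have h5 : ordAt P t = 1 := ht
    rw [← h5, h3]
    exact dvd_sub h1 h2
  have h6 := Int.le_of_dvd one_pos h4
  omega

/-- finitely many elements generate `F` as a field -/
theorem exists_gens : ∃ S : Finset F, (Cv.z k : F) ∈ S ∧
    IntermediateField.adjoin k (S : Set F) = ⊤ := by
  have hfin : FiniteDimensional (IntermediateField.adjoin k {(Cv.z k : F)}) F := Cv.fin
  obtain ⟨T, hT⟩ := (Module.finite_def.mp hfin)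
  refine ⟨insert (Cv.z k) T, Finset.mem_insert_self _ _, ?_⟩
  rw [eq_top_iff]
  intro x _
  have hx : x ∈ Submodule.span (IntermediateField.adjoin k {(Cv.z k : F)}) (T : Set F) := by
    rw [hT]; trivial
  induction hx using Submodule.span_induction with
  | mem x hx =>
    apply IntermediateField.subset_adjoin
    exact Finset.mem_coe.mpr (Finset.mem_insert_of_mem hx)
  | zero => exact zero_mem _
  | add x y _ _ hx hy => exact add_mem (hx trivial) (hy trivial)
  | smul c x _ hx =>
    rw [Algebra.smul_def]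
    refine mul_mem ?_ (hx trivial)
    have : IntermediateField.adjoin k {(Cv.z k : F)} ≤
        IntermediateField.adjoin k ((insert (Cv.z k) T : Finset F) : Set F) := by
      apply IntermediateField.adjoin.mono
      intro y hy
      rw [Set.mem_singleton_iff.mp hy]
      exact Finset.mem_coe.mpr (Finset.mem_insert_self _ _)
    exact this c.2

/-- a finitely generated subring stable under `d` with fraction field `F` -/
theorem exists_ring : ∃ S : Finset F, (Cv.z k : F) ∈ S ∧
    (∀ b ∈ Algebra.adjoin k (S : Set F), Cv.d (k := k) (F := F) b ∈ Algebra.adjoin k (S : Set F)) ∧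
    ∀ f : F, ∃ a ∈ Algebra.adjoin k (S : Set F), ∃ b ∈ Algebra.adjoin k (S : Set F), f = a / b := by
  obtain ⟨S, hz, hS⟩ := exists_gens (k := k) (F := F)
  have hfr : ∀ f : F, ∃ a ∈ Algebra.adjoin k (S : Set F), ∃ b ∈ Algebra.adjoin k (S : Set F),
      f = a / b := by
    intro f
    have hf : f ∈ IntermediateField.adjoin k (S : Set F) := by rw [hS]; trivial
    obtain ⟨a, ha, b, hb, h⟩ := (IntermediateField.mem_adjoin_iff_div).mp hf
    exact ⟨a, ha, b, hb, h⟩
  choose num hnum den hden hnd using hfr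
  -- common denominator of the derivatives of the generators
  let f : F := ∏ s ∈ S, (if den (Cv.d (k := k) (F := F) s) = 0 then 1
    else den (Cv.d (k := k) (F := F) s))
  have hf0 : f ≠ 0 := by
    refine Finset.prod_ne_zero_iff.mpr fun s _ => ?_
    split_ifs with h
    · exact one_ne_zero
    · exact h
  have hfm : f ∈ Algebra.adjoin k (S : Set F) := by
    refine Subalgebra.prod_mem _ fun s _ => ?_
    split_ifs with h
    · exact one_mem _
    · exact hden _
  have hle : Algebra.adjoin k (S : Set F) ≤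
      Algebra.adjoin k ((insert f⁻¹ S : Finset F) : Set F) := by
    apply Algebra.adjoin_mono
    intro x hx
    exact Finset.mem_coe.mpr (Finset.mem_insert_of_mem (Finset.mem_coe.mp hx))
  have hfi : f⁻¹ ∈ Algebra.adjoin k ((insert f⁻¹ S : Finset F) : Set F) :=
    Algebra.subset_adjoin (Finset.mem_coe.mpr (Finset.mem_insert_self _ _))
  have hdS : ∀ s ∈ S, Cv.d (k := k) (F := F) s ∈
      Algebra.adjoin k ((insert f⁻¹ S : Finset F) : Set F) := by
    intro s hs
    have h1 := hnd (Cv.d (k := k) (F := F) s)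
    by_cases h0 : den (Cv.d (k := k) (F := F) s) = 0
    · rw [h1, h0, div_zero]; exact zero_mem _
    have h2 : f = den (Cv.d (k := k) (F := F) s) * ∏ s' ∈ S.erase s,
        (if den (Cv.d (k := k) (F := F) s') = 0 then 1
          else den (Cv.d (k := k) (F := F) s')) := by
      show (∏ s ∈ S, (if den (Cv.d (k := k) (F := F) s) = 0 then 1
        else den (Cv.d (k := k) (F := F) s))) = _
      rw [← Finset.mul_prod_erase S _ hs, if_neg h0]
    have h3 : Cv.d (k := k) (F := F) s = num (Cv.d (k := k) (F := F) s) *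
        (∏ s' ∈ S.erase s, (if den (Cv.d (k := k) (F := F) s') = 0 then 1
          else den (Cv.d (k := k) (F := F) s'))) * f⁻¹ := by
      have h4 : (∏ s' ∈ S.erase s, (if den (Cv.d (k := k) (F := F) s') = 0 then 1
          else den (Cv.d (k := k) (F := F) s'))) ≠ 0 := by
        intro h5
        rw [h5, mul_zero] at h2
        exact hf0 h2
      rw [h2, mul_inv]
      conv_lhs => rw [h1]
      field_simp
    rw [h3]
    refine mul_mem (mul_mem (hle (hnum _)) (hle ?_)) hfi
    refine Subalgebra.prod_mem _ fun s' _ => ?_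
    split_ifs with h
    · exact one_mem _
    · exact hden _
  have hd0 : ∀ b ∈ Algebra.adjoin k (S : Set F), Cv.d (k := k) (F := F) b ∈
      Algebra.adjoin k ((insert f⁻¹ S : Finset F) : Set F) := by
    intro b hb
    induction hb using Algebra.adjoin_induction with
    | mem x hx => exact hdS x (Finset.mem_coe.mp hx)
    | algebraMap r => rw [Derivation.map_algebraMap]; exact zero_mem _
    | add x y _ _ hx hy => rw [map_add]; exact add_mem hx hy
    | mul x y hx' hy' hx hy =>
      rw [Derivation.leibniz, smul_eq_mul, smul_eq_mul]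
      exact add_mem (mul_mem (hle hx') hy) (mul_mem (hle hy') hx)
  refine ⟨insert f⁻¹ S, Finset.mem_insert_of_mem hz, ?_, ?_⟩
  · intro b hb
    induction hb using Algebra.adjoin_induction with
    | mem x hx =>
      rcases Finset.mem_insert.mp (Finset.mem_coe.mp hx) with h | h
      · rw [h, Derivation.leibniz_inv, smul_eq_mul]
        exact mul_mem (neg_mem (pow_mem hfi 2)) (hd0 f hfm)
      · exact hdS x h
    | algebraMap r => rw [Derivation.map_algebraMap]; exact zero_mem _
    | add x y _ _ hx hy => rw [map_add]; exact add_mem hx hy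
    | mul x y hx' hy' hx hy =>
      rw [Derivation.leibniz, smul_eq_mul, smul_eq_mul]
      exact add_mem (mul_mem hx' hy) (mul_mem hy' hx)
  · intro g
    exact ⟨num g, hle (hnum g), den g, hle (hden g), hnd g⟩

theorem kap_finite_of (h : ∀ P : Pl k F, HasExp P)
    (hval : ∀ (P : Pl k F) (g : F), g ≠ 0 → 0 ≤ ordAt P g →
      ∃ c : k, g = algebraMap k F c ∨ 0 < ordAt P (g - algebraMap k F c))
    (hfin : ∀ g : F, g ≠ 0 → ∃ B : Finset (Pl k F), ∀ P, ordAt P g ≠ 0 → P ∈ B) :
    ∃ B : Finset (Pl k F), ∀ P : Pl k F, P ∉ B → kap P = 1 := by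
  obtain ⟨S, hz, hd, hfr⟩ := exists_ring (k := k) (F := F)
  have hfin' : ∀ g : F, ∃ B : Finset (Pl k F), ∀ P, ordAt P g ≠ 0 → P ∈ B := by
    intro g
    rcases eq_or_ne g 0 with h0 | h0
    · exact ⟨∅, fun P hP => absurd (by rw [h0, ordAt_zero]) hP⟩
    · exact hfin g h0
  choose BB hBB using hfin'
  refine ⟨S.biUnion BB, fun P hP => ?_⟩
  have hS : ∀ s ∈ S, ordAt P s = 0 := by
    intro s hs
    by_contra h0
    exact hP (Finset.mem_biUnion.mpr ⟨s, hs, hBB s P h0⟩)
  have hB : ∀ b ∈ Algebra.adjoin k (S : Set F), 0 ≤ ordAt P b := by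
    have : Algebra.adjoin k (S : Set F) ≤ vring P := by
      rw [Algebra.adjoin_le_iff]
      intro s hs
      exact le_of_eq (hS s (Finset.mem_coe.mp hs)).symm
    exact fun b hb => this hb
  have h1 := kap_le_one (h P) _ hd hB hfr
  have hz0 : (Cv.z k : F) ≠ 0 := by
    intro h0
    have := Cv.tr (k := k) (F := F)
    rw [h0] at this
    exact this (isAlgebraic_zero)
  obtain ⟨c, hc⟩ := hval P (Cv.z k) hz0 (le_of_eq (hS _ hz).symm)
  have hzc : ∀ c : k, (Cv.z k : F) ≠ algebraMap k F c := by
    intro c h0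
    have := Cv.tr (k := k) (F := F)
    rw [h0] at this
    exact this (isAlgebraic_algebraMap c)
  rcases hc with hc | hc
  · exact absurd hc (hzc c)
  have h2 : Cv.d (k := k) (F := F) (Cv.z k - algebraMap k F c) = 1 := by
    rw [map_sub, Derivation.map_algebraMap, Cv.dz, sub_zero]
  have h3 := ord_der_of (h P) (Cv.z k - algebraMap k F c) (sub_ne_zero.mpr (hzc c))
    (by rw [h2]; exact one_ne_zero)
  have h4 : ordAt P (1 : F) = 0 := by
    have := ordAt_C P (1 : k)
    rwa [map_one] at this
  rw [h2, h4] at h3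
  omega

end MAIN

end KAP

end

end Pool.Agent.MLD.C
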