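import Pool.Agent.Lib.MP_f23696_ag.C.Ple

/-!
Module PLR of the project LSC-C: many linearly independent functions whose poles are at the poles
of a given function.
-/

namespace Pool.Agent.MLD.C

open scoped Classical
noncomputable section

universe u v w

variable {k : Type u} [Field k] [IsAlgClosed k] {F : Type v} [Field F] [Algebra k F] [Cv k F]

namespace PLR

omit [IsAlgClosed k] [Cv k F] in
theorem ordAt_pow (P : Pl k F) {g : F} (hg : g ≠ 0) (n : ℕ) :
    ordAt P (g ^ n) = n * ordAt P g :=
  PLA.o_pow (o := ordAt P) (fun _ _ ha hb => ordAt_mul P ha hb) hg n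

omit [IsAlgClosed k] [Cv k F] in
/-- `k[z]` is contained in the valuation ring if `z` is -/
theorem adjoin_nonneg (P : Pl k F) {z : F} (hz : 0 ≤ ordAt P z) :
    ∀ a ∈ Algebra.adjoin k {z}, 0 ≤ ordAt P a := by
  intro a ha
  induction ha using Algebra.adjoin_induction with
  | mem x hx =>
    rw [Set.mem_singleton_iff] at hx
    rw [hx]
    exact hz
  | algebraMap c => rw [ordAt_C]
  | add x y _ _ hx hy =>
    by_cases h0 : x = 0
    · rw [h0, zero_add]; exact hy
    by_cases h1 : y = 0
    · rw [h1, add_zero]; exact hx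
    by_cases h2 : x + y = 0
    · rw [h2, ordAt_zero]
    exact le_trans (le_min hx hy) (ordAt_add P h0 h1 h2)
  | mul x y _ _ hx hy =>
    by_cases h0 : x = 0
    · rw [h0, zero_mul, ordAt_zero]
    by_cases h1 : y = 0
    · rw [h1, mul_zero, ordAt_zero]
    rw [ordAt_mul P h0 h1]
    exact add_nonneg hx hy

open scoped IntermediateField.algebraAdjoinAdjoin in
omit [IsAlgClosed k] [Cv k F] in
/-- a basis of `F` over `k(z)` consisting of elements integral over `k[z]` -/
theorem exists_basis (z : F) [FiniteDimensional (IntermediateField.adjoin k {z}) F] :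
    ∃ b : Module.Basis (Fin (Module.finrank (IntermediateField.adjoin k {z}) F))
      (IntermediateField.adjoin k {z}) F, ∀ i, IsIntegral (Algebra.adjoin k {z}) (b i) := by
  obtain ⟨s, b, hb⟩ := FiniteDimensional.exists_is_basis_integral (Algebra.adjoin k {z})
    (IntermediateField.adjoin k {z}) F
  have hcard : Fintype.card s = Module.finrank (IntermediateField.adjoin k {z}) F :=
    (Module.finrank_eq_card_basis b).symm
  refine ⟨b.reindex (Fintype.equivFinOfCardEq hcard), fun i => ?_⟩
  rw [Module.Basis.reindex_apply]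
  exact hb _

omit [IsAlgClosed k] [Cv k F] in
/-- the powers of a transcendental element are linearly independent in `k(z)` -/
theorem powers_li (z : F) (hz : Transcendental k z) (r : ℕ) :
    LinearIndependent k fun j : Fin r =>
      ((⟨z, IntermediateField.mem_adjoin_simple_self k z⟩ :
        IntermediateField.adjoin k {z}) ^ (j : ℕ)) := by
  set z' : IntermediateField.adjoin k {z} := ⟨z, IntermediateField.mem_adjoin_simple_self k z⟩
  have hz' : Transcendental k z' := by
    intro h
    apply hz
    have := h.algHom (IntermediateField.adjoin k {z}).val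
    exact this
  have hker : LinearMap.ker (Polynomial.aeval (R := k) z').toLinearMap = ⊥ :=
    LinearMap.ker_eq_bot.mpr (transcendental_iff_injective.mp hz')
  have h := (Polynomial.basisMonomials k).linearIndependent.map' _ hker
  have h2 := h.comp (fun j : Fin r => (j : ℕ)) Fin.val_injective
  refine (linearIndependent_equiv' (Equiv.refl _) ?_).mp h2
  funext j
  simp [Polynomial.coe_basisMonomials]

end PLR

/-- linearly independent functions with poles at the poles of `z` only (PLR) -/
theorem riemann [CharZero k] (z : F) (hz : ∀ c : k, z ≠ algebraMap k F c) :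
    ∃ c : ℕ, ∀ r : ℕ, ∃ f : Fin (Module.finrank (IntermediateField.adjoin k {z}) F * r) → F,
      LinearIndependent k f ∧ ∀ i, ∀ P : Pl k F, f i ≠ 0 →
        -((r + c : ℕ) : ℤ) * max 0 (-ordAt P z) ≤ ordAt P (f i) := by
  obtain ⟨htr, hfin⟩ := nonconst z hz
  have hz0 : z ≠ 0 := by
    have := hz 0
    rwa [map_zero] at this
  obtain ⟨w, hw⟩ := PLR.exists_basis (k := k) z
  obtain ⟨B, hB⟩ := ordAt_finite (k := k) hz0
  refine ⟨∑ P ∈ B, ∑ i, (ordAt P (w i)).natAbs, fun r => ?_⟩
  set c := ∑ P ∈ B, ∑ i, (ordAt P (w i)).natAbs with hc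
  refine ⟨fun q => z ^ ((finProdFinEquiv.symm q).2 : ℕ) * w (finProdFinEquiv.symm q).1, ?_, ?_⟩
  · have h1 := linearIndependent_smul (PLR.powers_li z htr r) w.linearIndependent
    have h2 := h1.comp (fun q : Fin (Module.finrank (IntermediateField.adjoin k {z}) F * r) =>
      ((finProdFinEquiv.symm q).2, (finProdFinEquiv.symm q).1)) (by
        intro a b hab
        rw [Prod.mk.injEq] at hab
        apply finProdFinEquiv.symm.injective
        exact Prod.ext hab.2 hab.1)
    exact h2
  · intro q P _
    set i := (finProdFinEquiv.symm q).1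
    set j := (finProdFinEquiv.symm q).2
    have hwi : w i ≠ 0 := w.ne_zero i
    change _ ≤ ordAt P (z ^ (j : ℕ) * w i)
    rw [ordAt_mul P (pow_ne_zero _ hz0) hwi, PLR.ordAt_pow P hz0]
    by_cases hP : 0 ≤ ordAt P z
    · have h1 : 0 ≤ ordAt P (w i) :=
        integral_nonneg P _ (PLR.adjoin_nonneg P hP) (w i) (hw i)
      rw [max_eq_left (by omega), mul_zero]
      exact add_nonneg (mul_nonneg (by positivity) hP) h1
    · push Not at hP
      have hPB : P ∈ B := hB P (by omega)
      have h1 : (ordAt P (w i)).natAbs ≤ c := by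
        refine le_trans ?_ (Finset.single_le_sum (f := fun P => ∑ i, (ordAt P (w i)).natAbs)
          (fun _ _ => Nat.zero_le _) hPB)
        exact Finset.single_le_sum (f := fun i => (ordAt P (w i)).natAbs)
          (fun _ _ => Nat.zero_le _) (Finset.mem_univ i)
      have h2 : (-(c : ℤ)) ≤ ordAt P (w i) := by omega
      rw [max_eq_right (by omega)]
      have hj : ((j : ℕ) : ℤ) ≤ r := by exact_mod_cast j.2.le
      have he : 1 ≤ -ordAt P z := by omega
      push_cast
      nlinarith [mul_nonneg (sub_nonneg.mpr hj) (by omega : 0 ≤ -ordAt P z),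
        mul_nonneg (Int.natCast_nonneg c) (by omega : 0 ≤ -ordAt P z - 1)]

end
end Pool.Agent.MLD.C
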