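import Pool.Agent.Lib.MP_f23696_ag.C.Pla
import Pool.Agent.Lib.MP_f23696_ag.C.Plb

/-!
Separation of places (module PLS of the project LSC-C, MP_f23696_ag).
-/

namespace Pool.Agent.MLD.C

open scoped Classical
noncomputable section

universe u v w w'

namespace PLS

section
variable {k : Type u} [Field k] {F : Type v} [Field F] [Algebra k F]

lemma ord_one (P : Pl k F) : ordAt P (1 : F) = 0 := by
  have h := ordAt_C P (1 : k)
  rwa [map_one] at h

lemma ord_neg (P : Pl k F) (g : F) : ordAt P (-g) = ordAt P g := by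
  by_cases hg : g = 0
  · rw [hg, neg_zero]
  · have h := ordAt_C P (-1 : k)
    rw [map_neg, map_one] at h
    rw [← neg_one_mul, ordAt_mul P (neg_ne_zero.2 one_ne_zero) hg, h, zero_add]

lemma ord_zpow (P : Pl k F) {g : F} (hg : g ≠ 0) (n : ℤ) : ordAt P (g ^ n) = n * ordAt P g :=
  PLA.o_zpow (o := ordAt P) (fun _ _ ha hb => ordAt_mul P ha hb) hg n

/-- two places with the same units and the same zeros are equal -/
lemma eq_of_sign (P P' : Pl k F)
    (h : ∀ f : F, f ≠ 0 → (0 < ordAt P f ↔ 0 < ordAt P' f))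
    (h0 : ∀ f : F, f ≠ 0 → (ordAt P f = 0 → ordAt P' f = 0)) : P = P' := by
  obtain ⟨t, ht0, ht⟩ := P.exists_ord_eq_one
  have ht' : ordAt P t = 1 := ht
  obtain ⟨s, hs0, hs⟩ := P'.exists_ord_eq_one
  have hs' : ordAt P' s = 1 := hs
  have key : ∀ f : F, f ≠ 0 → ordAt P' f = ordAt P f * ordAt P' t := by
    intro f hf
    have h1 : ordAt P (f * t ^ (-(ordAt P f))) = 0 := by
      rw [ordAt_mul P hf (zpow_ne_zero _ ht0), ord_zpow P ht0, ht']
      ring
    have h2 := h0 _ (mul_ne_zero hf (zpow_ne_zero _ ht0)) h1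
    rw [ordAt_mul P' hf (zpow_ne_zero _ ht0), ord_zpow P' ht0] at h2
    linarith
  have h3 : 0 < ordAt P' t := (h t ht0).1 (by rw [ht']; norm_num)
  have h4 := key s hs0
  rw [hs'] at h4
  have h5 : ordAt P' t = 1 := by
    have h6 : ordAt P' t ∣ 1 := ⟨ordAt P s, by rw [h4]; ring⟩
    exact Int.eq_one_of_dvd_one h3.le h6
  refine pl_ext fun g => ?_
  by_cases hg : g = 0
  · rw [hg, ordAt_zero, ordAt_zero]
  · rw [key g hg, h5, mul_one]

/-- a Dedekind domain with fraction field `F` on which the place is nonnegative determines the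
place by its zeros -/
lemma eq_of_dedekind (O : Type*) [CommRing O] [IsDedekindDomain O] [Algebra O F]
    [IsFractionRing O F] (P P' : Pl k F)
    (hP : ∀ a : O, 0 ≤ ordAt P (algebraMap O F a)) (hP' : ∀ a : O, 0 ≤ ordAt P' (algebraMap O F a))
    (h : ∀ a : O, 0 < ordAt P (algebraMap O F a) ↔ 0 < ordAt P' (algebraMap O F a)) : P = P' := by
  have hinj : Function.Injective (algebraMap O F) := IsFractionRing.injective O F
  have hne : ∀ a : O, a ≠ 0 → algebraMap O F a ≠ 0 := fun a ha =>
    (map_ne_zero_iff _ hinj).2 ha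
  -- the centre
  let M : Ideal O :=
    { carrier := {a | a = 0 ∨ 0 < ordAt P (algebraMap O F a)}
      add_mem' := by
        rintro a b ha hb
        by_cases ha0 : a = 0
        · rw [ha0, zero_add]; exact hb
        by_cases hb0 : b = 0
        · rw [hb0, add_zero]; exact ha
        by_cases hab : a + b = 0
        · exact Or.inl hab
        · right
          have h1 := ha.resolve_left ha0
          have h2 := hb.resolve_left hb0
          have h3 := ordAt_add P (hne a ha0) (hne b hb0) (by rw [← map_add]; exact hne _ hab)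
          rw [map_add]
          exact lt_of_lt_of_le (lt_min h1 h2) h3
      zero_mem' := Or.inl rfl
      smul_mem' := by
        rintro c a ha
        rw [smul_eq_mul]
        by_cases ha0 : a = 0
        · left; rw [ha0, mul_zero]
        by_cases hc0 : c = 0
        · left; rw [hc0, zero_mul]
        · right
          rw [map_mul, ordAt_mul P (hne c hc0) (hne a ha0)]
          have h1 := ha.resolve_left ha0
          have h2 := hP c
          omega }
  have hMmem : ∀ a : O, a ∈ M ↔ a = 0 ∨ 0 < ordAt P (algebraMap O F a) := fun a => Iff.rfl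
  have hMprime : M.IsPrime := by
    constructor
    · rw [Ne, Ideal.eq_top_iff_one, hMmem, map_one, ord_one]
      rintro (h1 | h1)
      · exact one_ne_zero h1
      · exact lt_irrefl _ h1
    · intro a b hab
      rw [hMmem] at hab ⊢
      rw [hMmem]
      by_cases ha0 : a = 0
      · exact Or.inl (Or.inl ha0)
      by_cases hb0 : b = 0
      · exact Or.inr (Or.inl hb0)
      rcases hab with h1 | h1
      · exact absurd h1 (mul_ne_zero ha0 hb0)
      · rw [map_mul, ordAt_mul P (hne a ha0) (hne b hb0)] at h1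
        have h2 := hP a
        have h3 := hP b
        by_cases h4 : 0 < ordAt P (algebraMap O F a)
        · exact Or.inl (Or.inr h4)
        · right; right; omega
  have hMbot : M ≠ ⊥ := by
    obtain ⟨t, ht0, ht⟩ := P.exists_ord_eq_one
    have ht' : ordAt P t = 1 := ht
    obtain ⟨a, b, hb, rfl⟩ := IsFractionRing.div_surjective (A := O) t
    have hb0 : b ≠ 0 := nonZeroDivisors.ne_zero hb
    have ha0 : a ≠ 0 := by
      rintro rfl
      rw [map_zero, zero_div] at ht0
      exact ht0 rfl
    intro hbot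
    have h1 : a ∈ M := by
      right
      rw [div_eq_mul_inv, ordAt_mul P (hne a ha0) (inv_ne_zero (hne b hb0)), ordAt_inv] at ht'
      have := hP b
      omega
    rw [hbot, Ideal.mem_bot] at h1
    exact ha0 h1
  have : M.IsPrime := hMprime
  have : IsDiscreteValuationRing (Localization.AtPrime M) :=
    IsLocalization.AtPrime.isDiscreteValuationRing_of_dedekind_domain O hMbot _
  -- elements outside of `M` are units at both places
  have hunit : ∀ s : O, s ∉ M → s ≠ 0 ∧ ordAt P (algebraMap O F s) = 0 ∧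
      ordAt P' (algebraMap O F s) = 0 := by
    intro s hs
    rw [hMmem, not_or] at hs
    refine ⟨hs.1, ?_, ?_⟩
    · have := hP s
      omega
    · have h1 := (h s).not.1 hs.2
      have := hP' s
      omega
  -- comparison of two elements
  have hdvd : ∀ a b : O, (Localization.mk a (1 : M.primeCompl)) ∣ Localization.mk b 1 →
      ∃ s c : O, s ∉ M ∧ s * b = a * c := by
    rintro a b ⟨x, hx⟩
    obtain ⟨⟨c, s⟩, rfl⟩ : ∃ p : O × M.primeCompl, x = Localization.mk p.1 p.2 := by
      induction x using Localization.ind with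
      | _ p => exact ⟨p, rfl⟩
    rw [Localization.mk_mul, Localization.mk_eq_mk_iff, Localization.r_iff_exists] at hx
    obtain ⟨e, he⟩ := hx
    refine ⟨s, c, s.2, ?_⟩
    have he0 : (e : O) ≠ 0 := fun h0 => e.2 (by rw [h0]; exact M.zero_mem)
    simp only [one_mul, Submonoid.coe_one] at he
    exact mul_left_cancel₀ he0 he
  have hfrac : ∀ f : F, f ≠ 0 → ∃ s c : O, s ∉ M ∧ c ≠ 0 ∧
      (f = algebraMap O F c / algebraMap O F s ∨ f = algebraMap O F s / algebraMap O F c) := by
    intro f hf
    obtain ⟨a, b, hb, rfl⟩ := IsFractionRing.div_surjective (A := O) f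
    have hb0 : b ≠ 0 := nonZeroDivisors.ne_zero hb
    have ha0 : a ≠ 0 := by
      rintro rfl
      rw [map_zero, zero_div] at hf
      exact hf rfl
    rcases ValuationRing.dvd_total (Localization.mk a (1 : M.primeCompl)) (Localization.mk b 1)
      with h1 | h1
    · obtain ⟨s, c, hs, hsc⟩ := hdvd a b h1
      have hs0 := (hunit s hs).1
      have hc0 : c ≠ 0 := by
        rintro rfl
        rw [mul_zero] at hsc
        exact mul_ne_zero hs0 hb0 hsc
      refine ⟨s, c, hs, hc0, Or.inr ?_⟩
      rw [div_eq_div_iff (hne b hb0) (hne c hc0), ← map_mul, ← map_mul, hsc]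
    · obtain ⟨s, c, hs, hsc⟩ := hdvd b a h1
      have hs0 := (hunit s hs).1
      have hc0 : c ≠ 0 := by
        rintro rfl
        rw [mul_zero] at hsc
        exact mul_ne_zero hs0 ha0 hsc
      refine ⟨s, c, hs, hc0, Or.inl ?_⟩
      rw [div_eq_div_iff (hne b hb0) (hne s hs0), ← map_mul, ← map_mul, mul_comm a s, hsc,
        mul_comm]
  have hord : ∀ f : F, f ≠ 0 → (0 < ordAt P f ↔ 0 < ordAt P' f) ∧
      (ordAt P f = 0 → ordAt P' f = 0) := by
    intro f hf
    obtain ⟨s, c, hs, hc0, h1⟩ := hfrac f hf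
    obtain ⟨hs0, hs1, hs2⟩ := hunit s hs
    have hc1 := hP c
    have hc2 := hP' c
    have hc3 := h c
    rcases h1 with rfl | rfl
    · rw [div_eq_mul_inv, ordAt_mul P (hne c hc0) (inv_ne_zero (hne s hs0)),
        ordAt_mul P' (hne c hc0) (inv_ne_zero (hne s hs0)), ordAt_inv, ordAt_inv, hs1, hs2]
      constructor
      · simpa using hc3
      · intro h2
        by_contra h3
        have := hc3.2 (by omega)
        omega
    · rw [div_eq_mul_inv, ordAt_mul P (hne s hs0) (inv_ne_zero (hne c hc0)),
        ordAt_mul P' (hne s hs0) (inv_ne_zero (hne c hc0)), ordAt_inv, ordAt_inv, hs1, hs2]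
      constructor
      · constructor <;> intro h2 <;> omega
      · intro h2
        by_contra h3
        have := hc3.2 (by omega)
        omega
  exact eq_of_sign P P' (fun f hf => (hord f hf).1) fun f hf => (hord f hf).2

end

end PLS

section CRV
variable {k : Type u} [Field k] [IsAlgClosed k] {F : Type v} [Field F] [Algebra k F] [Cv k F]

namespace PLS

/-- from an element which vanishes at `P` only -/
lemma sep_of_elt (R : Subalgebra k F) (P P' : Pl k F) (a : F) (ha : a ∈ R)
    (h1 : 0 < ordAt P a) (h2 : ordAt P' a = 0) :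
    ∃ h ∈ R, h ≠ 0 ∧ h ≠ 1 ∧ 0 < ordAt P h ∧ 0 < ordAt P' (h - 1) := by
  have ha0 : a ≠ 0 := by
    rintro rfl
    rw [ordAt_zero] at h1
    exact lt_irrefl _ h1
  obtain ⟨c, hc⟩ := ordAt_value P' ha0 h2.ge
  have hac : a ≠ algebraMap k F c := by
    intro h
    rw [h, ordAt_C] at h1
    exact lt_irrefl _ h1
  have hc' := hc.resolve_left hac
  have hc0 : c ≠ 0 := by
    rintro rfl
    rw [map_zero, sub_zero, h2] at hc'
    exact lt_irrefl _ hc'
  have hci : algebraMap k F c⁻¹ ≠ 0 := (map_ne_zero _).2 (inv_ne_zero hc0)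
  have hmem : algebraMap k F c⁻¹ * a ∈ R := R.mul_mem (R.algebraMap_mem _) ha
  have h3 : ordAt P (algebraMap k F c⁻¹ * a) = ordAt P a := by
    rw [ordAt_mul P hci ha0, ordAt_C, zero_add]
  refine ⟨algebraMap k F c⁻¹ * a, hmem, mul_ne_zero hci ha0, ?_, by rw [h3]; exact h1, ?_⟩
  · intro h
    rw [h, ord_one] at h3
    omega
  · have e : algebraMap k F c⁻¹ * a - 1 = algebraMap k F c⁻¹ * (a - algebraMap k F c) := by
      rw [mul_sub, ← map_mul, inv_mul_cancel₀ hc0, map_one]
    rw [e, ordAt_mul P' hci (sub_ne_zero.2 hac), ordAt_C, zero_add]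
    exact hc'

end PLS

open IntermediateField algebraAdjoinAdjoin in
/-- two places that are nonnegative on an integrally closed ring with nonconstant elements are
separated by it (PLS) -/
theorem separate [CharZero k] (R : Subalgebra k F) (hR : ∀ b : F, IsIntegral R b → b ∈ R)
    (g : F) (hgR : g ∈ R) (hg : ∀ c : k, g ≠ algebraMap k F c) (P P' : Pl k F) (hPP : P ≠ P')
    (hP : ∀ a ∈ R, 0 ≤ ordAt P a) (hP' : ∀ a ∈ R, 0 ≤ ordAt P' a) :
    ∃ h ∈ R, h ≠ 0 ∧ h ≠ 1 ∧ 0 < ordAt P h ∧ 0 < ordAt P' (h - 1) := by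
  obtain ⟨htr, hfd⟩ := nonconst (k := k) g hg
  have := hfd
  have : IsPrincipalIdealRing (Algebra.adjoin k {g}) :=
    IsPrincipalIdealRing.of_surjective
      (Polynomial.algEquivOfTranscendental k g htr).toRingEquiv.toRingHom
      (Polynomial.algEquivOfTranscendental k g htr).surjective
  have : IsDedekindDomain (integralClosure (Algebra.adjoin k {g}) F) :=
    integralClosure.isDedekindDomain (Algebra.adjoin k {g}) (adjoin k {g}) F
  have : IsFractionRing (integralClosure (Algebra.adjoin k {g}) F) F :=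
    integralClosure.isFractionRing_of_finite_extension (adjoin k {g}) F
  have hle : Algebra.adjoin k {g} ≤ R := Algebra.adjoin_le (by
    rintro x rfl
    exact hgR)
  have hmem : ∀ a : integralClosure (Algebra.adjoin k {g}) F, (a : F) ∈ R := by
    intro a
    refine hR _ ?_
    have h1 : IsIntegral (Algebra.adjoin k {g}) (a : F) := a.2
    obtain ⟨p, hp, hpa⟩ := h1
    refine ⟨p.map (Subalgebra.inclusion hle).toRingHom, hp.map _, ?_⟩
    rw [Polynomial.eval₂_map]
    exact hpa
  by_contra hcon
  apply hPP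
  refine PLS.eq_of_dedekind (integralClosure (Algebra.adjoin k {g}) F) P P'
    (fun a => hP _ (hmem a)) (fun a => hP' _ (hmem a)) fun a => ?_
  constructor
  · intro h1
    by_contra h2
    have h3 := hP' _ (hmem a)
    exact hcon (PLS.sep_of_elt R P P' (a : F) (hmem a) h1 (le_antisymm (not_lt.1 h2) h3))
  · intro h1
    by_contra h2
    have h3 := hP _ (hmem a)
    obtain ⟨h, hh, hh0, hh1, hh2, hh3⟩ :=
      PLS.sep_of_elt R P' P (a : F) (hmem a) h1 (le_antisymm (not_lt.1 h2) h3)
    refine hcon ⟨1 - h, R.sub_mem R.one_mem hh, sub_ne_zero.2 (Ne.symm hh1), ?_, ?_, ?_⟩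
    · intro h4
      apply hh0
      have : h = 1 - (1 - h) := by ring
      rw [this, h4, sub_self]
    · rw [← neg_sub, PLS.ord_neg]
      exact hh3
    · have e : 1 - h - 1 = -h := by ring
      rw [e, PLS.ord_neg]
      exact hh2

end CRV

end

end Pool.Agent.MLD.C
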