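import Pool.Agent.Lib.MP_f23696_ag.C.Ple
import Pool.Agent.Lib.MP_f23696_ag.C.Pls
import Pool.Agent.Lib.MP_f23696_ag.C.Plr

/-!
Functions with a pole at one place only (module PLP of the project LSC-C, MP_f23696_ag).
-/

namespace Pool.Agent.MLD.C

open scoped Classical
noncomputable section

universe u v w w'

namespace Plp

variable {k : Type u} [Field k] {F : Type v} [Field F] [Algebra k F]

/-- the functions of order at least `a` at `P` -/
def Ls (P : Pl k F) (a : ℤ) : Submodule k F where
  carrier := {f | f ≠ 0 → a ≤ ordAt P f}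
  zero_mem' := fun h => absurd rfl h
  add_mem' := by
    intro f g hf hg hs
    by_cases hf0 : f = 0
    · rw [hf0, zero_add] at hs ⊢
      exact hg hs
    by_cases hg0 : g = 0
    · rw [hg0, add_zero] at hs ⊢
      exact hf hs
    exact le_trans (le_min (hf hf0) (hg hg0)) (ordAt_add P hf0 hg0 hs)
  smul_mem' := by
    intro c f hf hs
    have hc : c ≠ 0 := by
      rintro rfl
      exact hs (zero_smul k f)
    have hf0 : f ≠ 0 := by
      rintro rfl
      exact hs (smul_zero c)
    rw [Algebra.smul_def, ordAt_mul P ((map_ne_zero _).2 hc) hf0, ordAt_C, zero_add]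
    exact hf hf0

theorem mem_Ls {P : Pl k F} {a : ℤ} {f : F} : f ∈ Ls P a ↔ (f ≠ 0 → a ≤ ordAt P f) := Iff.rfl

variable [IsAlgClosed k] [Cv k F]

/-- raising the order by one costs at most one dimension -/
theorem step (P : Pl k F) (a : ℤ) (U : Submodule k F) [FiniteDimensional k U] (hU : U ≤ Ls P a) :
    Module.finrank k U ≤ Module.finrank k (U ⊓ Ls P (a + 1) : Submodule k F) + 1 := by
  by_cases h : U ≤ Ls P (a + 1)
  · rw [inf_eq_left.2 h]
    exact Nat.le_succ _
  · obtain ⟨f, hfU, hf⟩ := Set.not_subset.1 h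
    have hf1 : f ≠ 0 ∧ ¬ (a + 1 ≤ ordAt P f) := by
      by_contra hcon
      apply hf
      intro hf0
      by_contra h1
      exact hcon ⟨hf0, h1⟩
    obtain ⟨hf0, hf2⟩ := hf1
    have hfa : ordAt P f = a := by
      have := hU hfU hf0
      omega
    have hle : U ≤ (U ⊓ Ls P (a + 1)) ⊔ Submodule.span k {f} := by
      intro g hg
      have hex : ∃ c : k, g - c • f ∈ Ls P (a + 1) := by
        by_cases hg0 : g = 0
        · refine ⟨0, ?_⟩
          rw [hg0, zero_smul, sub_zero]
          exact Submodule.zero_mem _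
        · have hq : g / f ≠ 0 := div_ne_zero hg0 hf0
          have hord : 0 ≤ ordAt P (g / f) := by
            rw [div_eq_mul_inv, ordAt_mul P hg0 (inv_ne_zero hf0), ordAt_inv, hfa]
            have := hU hg hg0
            omega
          obtain ⟨c, hc⟩ := ordAt_value P hq hord
          refine ⟨c, ?_⟩
          have he : g - c • f = f * (g / f - algebraMap k F c) := by
            rw [Algebra.smul_def, mul_sub, mul_div_cancel₀ _ hf0, mul_comm f (algebraMap k F c)]
          rw [he]
          rcases hc with hc | hc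
          · rw [hc, sub_self, mul_zero]
            exact Submodule.zero_mem _
          · intro hne
            have h1 : g / f - algebraMap k F c ≠ 0 := right_ne_zero_of_mul hne
            rw [ordAt_mul P hf0 h1, hfa]
            omega
      obtain ⟨c, hc⟩ := hex
      have hmem : g - c • f ∈ U ⊓ Ls P (a + 1) :=
        ⟨U.sub_mem hg (U.smul_mem c hfU), hc⟩
      have he : g = (g - c • f) + c • f := (sub_add_cancel g (c • f)).symm
      rw [he]
      exact Submodule.add_mem_sup hmem (Submodule.smul_mem _ c (Submodule.mem_span_singleton_self f))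
    have hfd : FiniteDimensional k (U ⊓ Ls P (a + 1) : Submodule k F) :=
      Submodule.finiteDimensional_of_le inf_le_left
    calc Module.finrank k U
        ≤ Module.finrank k ((U ⊓ Ls P (a + 1)) ⊔ Submodule.span k {f} : Submodule k F) :=
          Submodule.finrank_mono hle
      _ ≤ Module.finrank k (U ⊓ Ls P (a + 1) : Submodule k F) +
            Module.finrank k (Submodule.span k {f}) :=
          Submodule.finrank_add_le_finrank_add_finrank _ _
      _ ≤ Module.finrank k (U ⊓ Ls P (a + 1) : Submodule k F) + 1 := by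
          have := finrank_span_le_card (R := k) ({f} : Set F)
          simp only [Set.toFinset_singleton, Finset.card_singleton] at this
          omega

/-- raising the order by `j` costs at most `j` dimensions -/
theorem steps (P : Pl k F) (j : ℕ) : ∀ (a : ℤ) (U : Submodule k F) [FiniteDimensional k U]
    (_ : U ≤ Ls P a),
    Module.finrank k U ≤ Module.finrank k (U ⊓ Ls P (a + j) : Submodule k F) + j := by
  induction j with
  | zero =>
    intro a U _ hU
    have h0 : a + ((0 : ℕ) : ℤ) = a := by simp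
    rw [h0, inf_eq_left.2 hU]
    exact Nat.le_add_right _ _
  | succ j ih =>
    intro a U _ hU
    have h1 := ih a U hU
    have hfd : FiniteDimensional k (U ⊓ Ls P (a + j) : Submodule k F) :=
      Submodule.finiteDimensional_of_le inf_le_left
    have h2 := step P (a + j) (U ⊓ Ls P (a + j)) inf_le_right
    have h3 : (U ⊓ Ls P (a + j)) ⊓ Ls P (a + j + 1) ≤ U ⊓ Ls P (a + ((j + 1 : ℕ) : ℤ)) := by
      refine le_inf (inf_le_left.trans inf_le_left) ?_
      have h4 : a + ((j + 1 : ℕ) : ℤ) = a + j + 1 := by push_cast; ring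
      rw [h4]
      exact inf_le_right
    have hfd' : FiniteDimensional k (U ⊓ Ls P (a + ((j + 1 : ℕ) : ℤ)) : Submodule k F) :=
      Submodule.finiteDimensional_of_le inf_le_left
    have h5 := Submodule.finrank_mono h3
    omega

/-- imposing regularity at a finite set of places -/
theorem impose (e : Pl k F → ℕ) (U : Submodule k F) [FiniteDimensional k U]
    (hU : ∀ P, U ≤ Ls P (-(e P : ℤ))) (s : Finset (Pl k F)) :
    Module.finrank k U ≤
      Module.finrank k (U ⊓ ⨅ P ∈ s, Ls P 0 : Submodule k F) + ∑ P ∈ s, e P := by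
  induction s using Finset.induction_on with
  | empty =>
    have h0 : (⨅ P ∈ (∅ : Finset (Pl k F)), Ls P 0 : Submodule k F) = ⊤ := by
      rw [eq_top_iff]
      intro x _
      simp only [Submodule.mem_iInf]
      intro P hP
      exact absurd hP (Finset.notMem_empty P)
    rw [h0, inf_top_eq, Finset.sum_empty, add_zero]
  | insert P s hP ih =>
    have hfd : FiniteDimensional k (U ⊓ ⨅ P ∈ s, Ls P 0 : Submodule k F) :=
      Submodule.finiteDimensional_of_le inf_le_left
    have h1 := steps P (e P) (-(e P : ℤ)) (U ⊓ ⨅ P ∈ s, Ls P 0) (inf_le_left.trans (hU P))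
    have h0 : -(e P : ℤ) + (e P : ℤ) = 0 := by ring
    rw [h0] at h1
    have h2 : ((U ⊓ ⨅ P ∈ s, Ls P 0) ⊓ Ls P 0 : Submodule k F) =
        U ⊓ ⨅ P' ∈ insert P s, Ls P' 0 := by
      rw [Finset.iInf_insert, inf_assoc, inf_comm (⨅ P ∈ s, Ls P 0) (Ls P 0)]
    rw [h2] at h1
    rw [Finset.sum_insert hP]
    omega

end Plp

section CRV
variable {k : Type u} [Field k] [IsAlgClosed k] {F : Type v} [Field F] [Algebra k F] [Cv k F]

/-- a function with a pole only at `Q` (PLP, from `riemann`) -/
theorem exists_pole [CharZero k] (Q : Pl k F) : ∃ h : F, h ≠ 0 ∧ ordAt Q h < 0 ∧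
    ∀ P, P ≠ Q → 0 ≤ ordAt P h := by
  obtain ⟨t, ht0, ht1⟩ := Q.exists_ord_eq_one
  have htQ : ordAt Q t = 1 := ht1
  have htc : ∀ c : k, t ≠ algebraMap k F c := by
    rintro c rfl
    rw [ordAt_C] at htQ
    omega
  have hzc : ∀ c : k, t⁻¹ ≠ algebraMap k F c := by
    intro c hc
    apply htc c⁻¹
    rw [map_inv₀, ← hc, inv_inv]
  have hadj : IntermediateField.adjoin k {t⁻¹} = IntermediateField.adjoin k {t} := by
    apply le_antisymm
    · rw [IntermediateField.adjoin_simple_le_iff]
      exact inv_mem (IntermediateField.mem_adjoin_simple_self k t)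
    · rw [IntermediateField.adjoin_simple_le_iff]
      have := inv_mem (IntermediateField.mem_adjoin_simple_self k t⁻¹)
      rwa [inv_inv] at this
  obtain ⟨B, hB, hsum⟩ := zeros t htc
  obtain ⟨c, hc⟩ := riemann t⁻¹ hzc
  rw [hadj] at hc
  set n : ℕ := Module.finrank (IntermediateField.adjoin k {t}) F with hn
  set r : ℕ := c * (n - 1) + 2 with hr
  obtain ⟨f, hfli, hf⟩ := hc r
  set e : Pl k F → ℕ := fun P => (r + c) * (ordAt P t).toNat with he
  have hfU : ∀ P, Submodule.span k (Set.range f) ≤ Plp.Ls P (-(e P : ℤ)) := by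
    intro P
    rw [Submodule.span_le]
    rintro _ ⟨i, rfl⟩ hi
    have h1 := hf i P hi
    rw [ordAt_inv, neg_neg] at h1
    have h2 : (e P : ℤ) = ((r + c : ℕ) : ℤ) * max 0 (ordAt P t) := by
      rw [he]
      push_cast
      rw [Int.toNat_eq_max, max_comm]
    rw [h2]
    linarith
  have hQB : Q ∈ B := (hB Q).2 (by omega)
  have hfd : FiniteDimensional k (Submodule.span k (Set.range f)) :=
    FiniteDimensional.span_of_finite k (Set.finite_range f)
  have h1 := Plp.impose e (Submodule.span k (Set.range f)) hfU (B.erase Q)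
  rw [finrank_span_eq_card hfli, Fintype.card_fin] at h1
  have h2 : ∑ P ∈ B.erase Q, (ordAt P t).toNat + 1 = n := by
    have h3 : ∑ P ∈ B, (ordAt P t).toNat = n := by
      have h4 : ((∑ P ∈ B, (ordAt P t).toNat : ℕ) : ℤ) = n := by
        rw [← hsum]
        push_cast
        refine Finset.sum_congr rfl fun P hP => ?_
        have := (hB P).1 hP
        omega
      exact_mod_cast h4
    have h5 := Finset.sum_erase_add B (fun P => (ordAt P t).toNat) hQB
    simp only [htQ] at h5
    have h6 : (1 : ℤ).toNat = 1 := rfl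
    omega
  have h3 : ∑ P ∈ B.erase Q, e P = (r + c) * (n - 1) := by
    rw [he, ← Finset.mul_sum]
    congr 1
    omega
  rw [h3] at h1
  have hn1 : 1 ≤ n := by omega
  set W : Submodule k F := Submodule.span k (Set.range f) ⊓ ⨅ P ∈ B.erase Q, Plp.Ls P 0 with hW
  have hWfd : FiniteDimensional k W := Submodule.finiteDimensional_of_le inf_le_left
  have h4 : 2 ≤ Module.finrank k W := by
    obtain ⟨n', hn'⟩ : ∃ n', n = n' + 1 := ⟨n - 1, by omega⟩
    have hr' : r = c * n' + 2 := by rw [hr, hn']; simp
    rw [hn', hr'] at h1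
    simp only [Nat.add_sub_cancel] at h1
    nlinarith
  have h5 : ¬ W ≤ Submodule.span k {(1 : F)} := by
    intro hle
    have h6 := Submodule.finrank_mono hle
    have h7 := finrank_span_le_card (R := k) ({1} : Set F)
    simp only [Set.toFinset_singleton, Finset.card_singleton] at h7
    omega
  obtain ⟨h, hhW, hh1⟩ := Set.not_subset.1 h5
  have hhc : ∀ a : k, h ≠ algebraMap k F a := by
    rintro a rfl
    apply hh1
    rw [Algebra.algebraMap_eq_smul_one]
    exact Submodule.smul_mem _ a (Submodule.mem_span_singleton_self 1)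
  have hh0 : h ≠ 0 := by
    have := hhc 0
    rwa [map_zero] at this
  have hpos : ∀ P, P ≠ Q → 0 ≤ ordAt P h := by
    intro P hPQ
    by_cases hPB : P ∈ B
    · have h6 : h ∈ Plp.Ls P 0 := by
        have h7 : h ∈ (⨅ P ∈ B.erase Q, Plp.Ls P 0 : Submodule k F) := hhW.2
        have h8 := (Submodule.mem_iInf _).1 h7 P
        exact (Submodule.mem_iInf _).1 h8 (Finset.mem_erase.2 ⟨hPQ, hPB⟩)
      exact h6 hh0
    · have h6 := hfU P hhW.1 hh0
      have h7 : (ordAt P t).toNat = 0 := by
        have := (hB P).not.1 hPB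
        omega
      have h8 : e P = 0 := by
        change (r + c) * (ordAt P t).toNat = 0
        rw [h7, mul_zero]
      rw [h8] at h6
      simpa using h6
  refine ⟨h, hh0, ?_, hpos⟩
  by_contra hcon
  obtain ⟨a, ha⟩ := ordAt_value Q hh0 (not_lt.1 hcon)
  have ha' : 0 < ordAt Q (h - algebraMap k F a) := ha.resolve_left (hhc a)
  have hg0 : h - algebraMap k F a ≠ 0 := sub_ne_zero.2 (hhc a)
  have hgpos : ∀ P : Pl k F, 0 ≤ ordAt P (h - algebraMap k F a) := by
    intro P
    by_cases hPQ : P = Q
    · rw [hPQ]; exact ha'.le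
    · have h6 : h - algebraMap k F a ∈ Plp.Ls P 0 := by
        refine Submodule.sub_mem _ (fun _ => hpos P hPQ) fun _ => ?_
        rw [ordAt_C]
      exact h6 hg0
  obtain ⟨B', hB'⟩ := ordAt_finite (k := k) hg0
  have h6 := ordAt_sum hg0 B' hB'
  have h7 : Q ∈ B' := hB' Q ha'.ne'
  have h8 := Finset.single_le_sum (f := fun P => ordAt P (h - algebraMap k F a))
    (fun P _ => hgpos P) h7
  have h9 : ordAt Q (h - algebraMap k F a) ≤ 0 := h6 ▸ h8
  omega

/-- separation by functions with poles at `Q` only (PLP) -/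
theorem exists_sep [CharZero k] (Q P P' : Pl k F) (hPP : P ≠ P') (hP : P ≠ Q) (hP' : P' ≠ Q) :
    ∃ h : F, h ≠ 0 ∧ (∀ R, R ≠ Q → 0 ≤ ordAt R h) ∧
      ∃ a b : k, a ≠ b ∧ 0 < ordAt P (h - algebraMap k F a) ∧
        0 < ordAt P' (h - algebraMap k F b) := by
  obtain ⟨h₀, h₀ne, h₀Q, h₀pos⟩ := exists_pole Q
  have hLs : ∀ (R : Pl k F) (g : F), g ∈ Plp.Ls R 0 ↔ 0 ≤ ordAt R g := by
    intro R g
    rw [Plp.mem_Ls]
    refine ⟨fun hg => ?_, fun hg _ => hg⟩
    by_cases hg0 : g = 0
    · rw [hg0, ordAt_zero]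
    · exact hg hg0
  let A : Subalgebra k F :=
    { carrier := {g | ∀ R, R ≠ Q → 0 ≤ ordAt R g}
      mul_mem' := by
        intro a b ha hb R hR
        by_cases ha0 : a = 0
        · rw [ha0, zero_mul, ordAt_zero]
        by_cases hb0 : b = 0
        · rw [hb0, mul_zero, ordAt_zero]
        rw [ordAt_mul R ha0 hb0]
        have h1 := ha R hR
        have h2 := hb R hR
        omega
      add_mem' := by
        intro a b ha hb R hR
        exact (hLs R _).1 (Submodule.add_mem _ ((hLs R _).2 (ha R hR)) ((hLs R _).2 (hb R hR)))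
      algebraMap_mem' := by
        intro c R _
        rw [ordAt_C] }
  have hA : ∀ g : F, g ∈ A ↔ ∀ R, R ≠ Q → 0 ≤ ordAt R g := fun g => Iff.rfl
  have hint : ∀ b : F, IsIntegral A b → b ∈ A := by
    intro b hb
    rw [hA]
    intro R hR
    exact integral_nonneg R A (fun a ha => (hA a).1 ha R hR) b hb
  have hconst : ∀ c : k, h₀ ≠ algebraMap k F c := by
    rintro c rfl
    rw [ordAt_C] at h₀Q
    omega
  obtain ⟨h, hhA, hh0, _, hP1, hP2⟩ := separate A hint h₀ ((hA _).2 h₀pos) hconst P P' hPP
    (fun a ha => (hA a).1 ha P hP) (fun a ha => (hA a).1 ha P' hP')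
  refine ⟨h, hh0, (hA h).1 hhA, 0, 1, zero_ne_one, ?_, ?_⟩
  · rw [map_zero, sub_zero]; exact hP1
  · rw [map_one]; exact hP2

end CRV

end

end Pool.Agent.MLD.C
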