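import Pool.Agent.Lib.MP_f23696_ag.C.Ker
import Pool.Agent.Lib.MP_f23696_ag.C.Ple
import Pool.Agent.Lib.MP_f23696_ag.C.Plr
import Pool.Agent.Lib.MP_f23696_ag.C.Kap

/-!
The degree of the canonical divisor of a function field of one variable is at least `-2`
(module WRO of the project LSC-C, MP_f23696_ag): Wronskians.
-/

set_option autoImplicit false

namespace Pool.Agent.MLD.C

open scoped Classical
noncomputable section

universe u v w

namespace Wro

section Wronskian

variable {k : Type u} [Field k] {F : Type v} [Field F] [Algebra k F]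

/-- the Wronskian matrix -/
def wm (D : F → F) {l : ℕ} (f : Fin l → F) : Matrix (Fin l) (Fin l) F :=
  Matrix.of fun i j => D^[(i : ℕ)] (f j)

/-- the Wronskian of linearly independent functions is not zero -/
theorem wronskian_ne (D : Derivation k F F)
    (hD : ∀ g, D g = 0 → ∃ c : k, g = algebraMap k F c) (l : ℕ) :
    ∀ f : Fin l → F, LinearIndependent k f → (wm D f).det ≠ 0 := by
  induction l with
  | zero =>
    intro f _
    rw [Matrix.det_isEmpty]
    exact one_ne_zero
  | succ l ih =>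
    intro f hf h0
    have hf' : LinearIndependent k (fun j : Fin l => f j.castSucc) :=
      hf.comp _ (Fin.castSucc_injective l)
    have hW := ih _ hf'
    obtain ⟨c, hc0, hc⟩ := Matrix.exists_mulVec_eq_zero_iff.2 h0
    have hrow : ∀ i : Fin (l + 1), ∑ j, D^[(i : ℕ)] (f j) * c j = 0 := fun i => congrFun hc i
    have key : ∀ c' : Fin l → F,
        (∀ i : Fin l, ∑ j : Fin l, D^[(i : ℕ)] (f j.castSucc) * c' j = 0) → c' = 0 := by
      intro c' h
      refine Matrix.eq_zero_of_mulVec_eq_zero hW (funext fun i => ?_)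
      exact h i
    have hlast : c (Fin.last l) ≠ 0 := by
      intro hl
      apply hc0
      have h1 := key (fun j => c j.castSucc) (fun i => by
        have h2 := hrow i.castSucc
        rw [Fin.sum_univ_castSucc, hl, mul_zero, add_zero] at h2
        exact h2)
      funext j
      refine Fin.lastCases hl (fun j => ?_) j
      exact congrFun h1 j
    set b : Fin (l + 1) → F := fun j => c j * (c (Fin.last l))⁻¹ with hb
    have hbl : b (Fin.last l) = 1 := mul_inv_cancel₀ hlast
    have hbrow : ∀ i : Fin (l + 1), ∑ j, D^[(i : ℕ)] (f j) * b j = 0 := by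
      intro i
      have h1 : ∑ j, D^[(i : ℕ)] (f j) * b j =
          (∑ j, D^[(i : ℕ)] (f j) * c j) * (c (Fin.last l))⁻¹ := by
        rw [Finset.sum_mul]
        refine Finset.sum_congr rfl fun j _ => ?_
        rw [hb]
        ring
      rw [h1, hrow, zero_mul]
    have hder : ∀ i : Fin l, ∑ j : Fin l, D^[(i : ℕ)] (f j.castSucc) * D (b j.castSucc) = 0 := by
      intro i
      have h1 := congrArg D (hbrow i.castSucc)
      rw [map_sum, map_zero] at h1
      have h2 : ∀ j : Fin (l + 1), D (D^[((i.castSucc : Fin (l + 1)) : ℕ)] (f j) * b j) =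
          D^[(i : ℕ)] (f j) * D (b j) + D^[((i.succ : Fin (l + 1)) : ℕ)] (f j) * b j := by
        intro j
        rw [Derivation.leibniz, Fin.val_castSucc, Fin.val_succ, Function.iterate_succ_apply',
          smul_eq_mul, smul_eq_mul]
        ring
      rw [Finset.sum_congr rfl fun j _ => h2 j, Finset.sum_add_distrib, hbrow i.succ, add_zero,
        Fin.sum_univ_castSucc, hbl, Derivation.map_one_eq_zero, mul_zero, add_zero] at h1
      exact h1
    have hzero := key _ hder
    have hDb : ∀ j, D (b j) = 0 := by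
      intro j
      refine Fin.lastCases ?_ (fun j => ?_) j
      · rw [hbl, Derivation.map_one_eq_zero]
      · exact congrFun hzero j
    choose a ha using fun j => hD (b j) (hDb j)
    have h3 : ∑ j, a j • f j = 0 := by
      have h4 := hbrow 0
      rw [← h4]
      refine Finset.sum_congr rfl fun j _ => ?_
      rw [ha j, Algebra.smul_def, mul_comm]
      rfl
    have h5 := Fintype.linearIndependent_iff.1 hf a h3 (Fin.last l)
    rw [ha, h5, map_zero] at hbl
    exact zero_ne_one hbl

/-- iterated derivatives with respect to `d = a δ` in terms of `δ` -/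
theorem iter (D : Derivation k F F) (E : F → F) (a g : F) (h : ∀ x, D x = a * E x) (i : ℕ) :
    ∃ c : ℕ → F, c i = a ^ i * g ∧
      ∀ f, D^[i] (g * f) = ∑ s ∈ Finset.range (i + 1), c s * E^[s] f := by
  induction i with
  | zero =>
    refine ⟨fun _ => g, ?_, fun f => ?_⟩
    · rw [pow_zero, one_mul]
    · rw [Finset.sum_range_one]
      rfl
  | succ i ih =>
    obtain ⟨c, hc1, hc2⟩ := ih
    refine ⟨fun s => (if s = 0 then 0 else c (s - 1) * a) + (if s ≤ i then D (c s) else 0), ?_, ?_⟩
    · simp only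
      rw [if_neg (Nat.succ_ne_zero i), if_neg (by omega), add_zero, Nat.add_sub_cancel, hc1,
        pow_succ]
      ring
    · intro f
      rw [Function.iterate_succ_apply', hc2 f, map_sum]
      have h1 : ∀ s, D (c s * E^[s] f) = c s * a * E^[s + 1] f + D (c s) * E^[s] f := by
        intro s
        rw [Derivation.leibniz, h (E^[s] f), smul_eq_mul, smul_eq_mul,
          Function.iterate_succ_apply']
        ring
      rw [Finset.sum_congr rfl fun s _ => h1 s, Finset.sum_add_distrib]
      simp only [add_mul]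
      rw [Finset.sum_add_distrib]
      congr 1
      · rw [Finset.sum_range_succ' _ (i + 1)]
        simp
      · rw [Finset.sum_range_succ _ (i + 1), if_neg (by omega), zero_mul, add_zero]
        refine Finset.sum_congr rfl fun s hs => ?_
        rw [if_pos (by
          have := Finset.mem_range.1 hs
          omega)]

theorem det_tri {l : ℕ} (D E : ℕ → F → F) (f g : Fin l → F) (a : ℕ → F)
    (h : ∀ i, ∃ c : ℕ → F, c i = a i ∧
      ∀ j, D i (f j) = ∑ s ∈ Finset.range (i + 1), c s * E s (g j)) :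
    (Matrix.of fun i j : Fin l => D (i : ℕ) (f j)).det =
      (∏ i : Fin l, a i) * (Matrix.of fun i j : Fin l => E (i : ℕ) (g j)).det := by
  choose c hc1 hc2 using h
  have h1 : (Matrix.of fun i j : Fin l => D (i : ℕ) (f j)) =
      (Matrix.of fun i s : Fin l => if s ≤ i then c i s else 0) *
        (Matrix.of fun i j : Fin l => E (i : ℕ) (g j)) := by
    ext i j
    rw [Matrix.mul_apply]
    simp only [Matrix.of_apply]
    rw [hc2 i j]
    have h2 := Fin.sum_univ_eq_sum_range
      (fun s => (if s ≤ (i : ℕ) then c i s else 0) * E s (g j)) l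
    have h3 : ∑ s : Fin l, (if s ≤ i then c i s else 0) * E (s : ℕ) (g j) =
        ∑ s : Fin l, (fun s : ℕ => (if s ≤ (i : ℕ) then c i s else 0) * E s (g j)) (s : ℕ) := by
      refine Finset.sum_congr rfl fun s _ => ?_
      simp only [Fin.le_def]
    rw [h3, h2]
    simp only [ite_mul, zero_mul]
    rw [← Finset.sum_filter]
    refine Finset.sum_congr ?_ fun _ _ => rfl
    ext s
    rw [Finset.mem_filter, Finset.mem_range, Finset.mem_range]
    have := i.2
    omega
  rw [h1, Matrix.det_mul]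
  congr 1
  rw [Matrix.det_of_isLowerTriangular]
  · refine Finset.prod_congr rfl fun i _ => ?_
    rw [Matrix.of_apply, if_pos le_rfl, hc1]
  · intro i j hij
    rw [Matrix.of_apply, if_neg]
    exact not_le.2 hij

end Wronskian

section Val

variable {k : Type u} [Field k] {F : Type v} [Field F] [Algebra k F]

theorem ordAt_one (P : Pl k F) : ordAt P (1 : F) = 0 := by
  have h := ordAt_C P 1
  rwa [map_one] at h

theorem ordAt_neg (P : Pl k F) (a : F) : ordAt P (-a) = ordAt P a := by
  by_cases ha : a = 0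
  · rw [ha, neg_zero]
  · have h := ordAt_mul P (g := algebraMap k F (-1)) (h := a)
      ((map_ne_zero _).2 (neg_ne_zero.2 one_ne_zero)) ha
    rw [ordAt_C, zero_add] at h
    rw [← h]
    simp

/-- the valuation ring -/
def vs (P : Pl k F) : Subring F where
  carrier := {a | 0 ≤ ordAt P a}
  mul_mem' := by
    intro a b ha hb
    rw [Set.mem_ofPred_eq] at ha hb ⊢
    by_cases ha0 : a = 0
    · rw [ha0, zero_mul, ordAt_zero]
    by_cases hb0 : b = 0
    · rw [hb0, mul_zero, ordAt_zero]
    rw [ordAt_mul P ha0 hb0]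
    omega
  one_mem' := by
    rw [Set.mem_ofPred_eq, ordAt_one]
  add_mem' := by
    intro a b ha hb
    rw [Set.mem_ofPred_eq] at ha hb ⊢
    by_cases ha0 : a = 0
    · rwa [ha0, zero_add]
    by_cases hb0 : b = 0
    · rwa [hb0, add_zero]
    by_cases hs : a + b = 0
    · rw [hs, ordAt_zero]
    exact le_trans (le_min ha hb) (ordAt_add P ha0 hb0 hs)
  zero_mem' := by
    rw [Set.mem_ofPred_eq, ordAt_zero]
  neg_mem' := by
    intro a ha
    rw [Set.mem_ofPred_eq] at ha ⊢
    rwa [ordAt_neg]

theorem mem_vs (P : Pl k F) (a : F) : a ∈ vs P ↔ 0 ≤ ordAt P a := Iff.rfl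

theorem det_mem (P : Pl k F) {l : ℕ} (M : Matrix (Fin l) (Fin l) F) (h : ∀ i j, M i j ∈ vs P) :
    M.det ∈ vs P := by
  rw [Matrix.det_apply']
  exact (vs P).sum_mem fun σ _ => (vs P).mul_mem (intCast_mem _ _)
    ((vs P).prod_mem fun i _ => h _ _)

theorem ordAt_pow (P : Pl k F) {a : F} (ha : a ≠ 0) (n : ℕ) : ordAt P (a ^ n) = n * ordAt P a :=
  PLA.o_pow (fun _ _ h1 h2 => ordAt_mul P h1 h2) ha n

theorem ordAt_prod (P : Pl k F) {ι : Type*} (s : Finset ι) (f : ι → F) (hf : ∀ i ∈ s, f i ≠ 0) :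
    ordAt P (∏ i ∈ s, f i) = ∑ i ∈ s, ordAt P (f i) := by
  induction s using Finset.induction_on with
  | empty => simp [ordAt_one]
  | insert a s ha ih =>
    rw [Finset.prod_insert ha, Finset.sum_insert ha, ordAt_mul P (hf a (Finset.mem_insert_self _ _))
      (Finset.prod_ne_zero_iff.2 fun i hi => hf i (Finset.mem_insert_of_mem hi)),
      ih fun i hi => hf i (Finset.mem_insert_of_mem hi)]

end Val

section Local

variable {k : Type u} [Field k] [IsAlgClosed k] [CharZero k] {F : Type v} [Field F] [Algebra k F]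
  [Cv k F]

/-- the local estimate of the order of the Wronskian -/
theorem ord_wronskian (P : Pl k F) {l : ℕ} (f : Fin l → F) (N : ℕ)
    (hN : ∀ j, f j ≠ 0 → -(N : ℤ) ≤ ordAt P (f j))
    (hW : (wm (Cv.d (k := k) (F := F)) f).det ≠ 0) :
    (∑ i : Fin l, (i : ℤ)) * (1 - kap P) - N * l ≤
      ordAt P (wm (Cv.d (k := k) (F := F)) f).det := by
  obtain ⟨t, ht0, ht1⟩ := P.exists_ord_eq_one
  have ht : ordAt P t = 1 := ht1
  set a : F := Cv.d (k := k) (F := F) t with ha
  have ha0 : a ≠ 0 := der_ne_zero P t (by rw [ht]; exact one_ne_zero)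
  have hak : ordAt P a = 1 - kap P := by
    rw [kap_eq P t ht]
    ring
  set E : F → F := fun x => a⁻¹ * Cv.d (k := k) (F := F) x with hE
  have hDE : ∀ x, Cv.d (k := k) (F := F) x = a * E x := by
    intro x
    rw [hE]
    simp only
    rw [mul_inv_cancel_left₀ ha0]
  -- `E` preserves the valuation ring
  have hpos : ∀ x, 0 < ordAt P x → E x ∈ vs P := by
    intro x hx
    rw [mem_vs]
    have hx0 : x ≠ 0 := by
      rintro rfl
      rw [ordAt_zero] at hx
      omega
    by_cases hd : Cv.d (k := k) (F := F) x = 0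
    · rw [hE]
      simp only
      rw [hd, mul_zero, ordAt_zero]
    · rw [hE]
      simp only
      rw [ordAt_mul P (inv_ne_zero ha0) hd, ordAt_inv, hak]
      have := ord_der P x hx0 hd
      omega
  have hEO : ∀ x, x ∈ vs P → E x ∈ vs P := by
    intro x hx
    rw [mem_vs] at hx
    by_cases hx0 : x = 0
    · rw [hx0, hE]
      simp only [map_zero, mul_zero]
      exact (vs P).zero_mem
    obtain ⟨c, hc | hc⟩ := ordAt_value P hx0 hx
    · rw [hc, hE]
      simp only [Derivation.map_algebraMap, mul_zero]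
      exact (vs P).zero_mem
    · have h1 : E x = E (x - algebraMap k F c) := by
        rw [hE]
        simp only [map_sub, Derivation.map_algebraMap, sub_zero]
      rw [h1]
      exact hpos _ hc
  have hEi : ∀ (i : ℕ) x, x ∈ vs P → E^[i] x ∈ vs P := by
    intro i
    induction i with
    | zero => exact fun x hx => hx
    | succ i ih =>
      intro x hx
      rw [Function.iterate_succ_apply']
      exact hEO _ (ih x hx)
  -- `f j = g h j`
  have htN : (t ^ N : F) ≠ 0 := pow_ne_zero N ht0
  have hfh : ∀ j, f j = (t ^ N)⁻¹ * (t ^ N * f j) := fun j => by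
    rw [inv_mul_cancel_left₀ htN]
  have hh : ∀ j, t ^ N * f j ∈ vs P := by
    intro j
    by_cases hj : f j = 0
    · rw [hj, mul_zero]
      exact (vs P).zero_mem
    · rw [mem_vs, ordAt_mul P htN hj, ordAt_pow P ht0, ht]
      have := hN j hj
      omega
  have hdet := det_tri (fun i x => (Cv.d (k := k) (F := F))^[i] x) (fun i x => E^[i] x) f
    (fun j => t ^ N * f j) (fun i => a ^ i * (t ^ N)⁻¹) (fun i => by
      obtain ⟨c, hc1, hc2⟩ := iter (Cv.d (k := k) (F := F)) E a (t ^ N)⁻¹ hDE i
      refine ⟨c, hc1, fun j => ?_⟩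
      rw [← hc2, ← hfh])
  have hdet' : (wm (Cv.d (k := k) (F := F)) f).det =
      (∏ i : Fin l, (a ^ (i : ℕ) * (t ^ N)⁻¹)) *
        (Matrix.of fun i j : Fin l => E^[(i : ℕ)] (t ^ N * f j)).det := hdet
  have hM : (Matrix.of fun i j : Fin l => E^[(i : ℕ)] (t ^ N * f j)).det ∈ vs P :=
    det_mem P _ fun i j => hEi _ _ (hh j)
  have hM0 : (Matrix.of fun i j : Fin l => E^[(i : ℕ)] (t ^ N * f j)).det ≠ 0 := by
    intro h
    rw [hdet', h, mul_zero] at hW
    exact hW rfl
  have hp : ∀ i : Fin l, a ^ (i : ℕ) * (t ^ N)⁻¹ ≠ 0 := fun i =>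
    mul_ne_zero (pow_ne_zero _ ha0) (inv_ne_zero htN)
  rw [hdet', ordAt_mul P (Finset.prod_ne_zero_iff.2 fun i _ => hp i) hM0,
    ordAt_prod P _ _ fun i _ => hp i]
  have h1 : ∀ i : Fin l, ordAt P (a ^ (i : ℕ) * (t ^ N)⁻¹) = (i : ℤ) * (1 - kap P) - N := by
    intro i
    rw [ordAt_mul P (pow_ne_zero _ ha0) (inv_ne_zero htN), ordAt_inv, ordAt_pow P ha0,
      ordAt_pow P ht0, hak, ht]
    ring
  rw [Finset.sum_congr rfl fun i _ => h1 i, Finset.sum_sub_distrib, ← Finset.sum_mul]
  rw [mem_vs] at hM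
  simp only [Finset.sum_const, Finset.card_univ, Fintype.card_fin, nsmul_eq_mul]
  have h2 : (l : ℤ) * N = N * l := mul_comm _ _
  omega

end Local

theorem sum_fin (l : ℕ) : 2 * ∑ i : Fin l, (i : ℤ) = l * (l - 1) := by
  induction l with
  | zero => simp
  | succ l ih =>
    rw [Fin.sum_univ_castSucc, mul_add]
    simp only [Fin.val_castSucc, Fin.val_last]
    rw [ih]
    push_cast
    ring

theorem adjoin_inv {k : Type u} [Field k] {F : Type v} [Field F] [Algebra k F] (z : F) :
    IntermediateField.adjoin k {z⁻¹} = IntermediateField.adjoin k {z} := by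
  refine le_antisymm ?_ ?_
  · rw [IntermediateField.adjoin_simple_le_iff]
    exact inv_mem (IntermediateField.mem_adjoin_simple_self k z)
  · rw [IntermediateField.adjoin_simple_le_iff]
    have h := inv_mem (IntermediateField.mem_adjoin_simple_self k z⁻¹)
    rwa [inv_inv] at h

end Wro

open Wro

section CRV

variable {k : Type u} [Field k] [IsAlgClosed k] {F : Type v} [Field F] [Algebra k F] [Cv k F]

/-- the degree of a canonical divisor is at least `-2` (WRO, Wronskians) -/
theorem kap_sum [CharZero k] (B : Finset (Pl k F)) (hB : ∀ Q ∉ B, kap Q = 1) :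
    (B.card : ℤ) - 2 ≤ ∑ Q ∈ B, kap Q := by
  by_contra hlt
  push Not at hlt
  have hz : ∀ c : k, Cv.z k ≠ algebraMap k F c := by
    intro c hc
    exact Cv.tr (k := k) (F := F) (hc ▸ isAlgebraic_algebraMap c)
  have hz' : ∀ c : k, (Cv.z k : F)⁻¹ ≠ algebraMap k F c := by
    intro c hc
    refine hz c⁻¹ ?_
    rw [map_inv₀, ← hc, inv_inv]
  obtain ⟨B₁, hB₁, hs₁⟩ := zeros (k := k) (Cv.z k : F)⁻¹ hz'
  obtain ⟨c, hc⟩ := riemann (k := k) (Cv.z k : F) hz
  rw [adjoin_inv] at hs₁
  set n : ℕ := Module.finrank (IntermediateField.adjoin k {(Cv.z k : F)}) F with hn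
  have hn1 : 1 ≤ n := by
    have := Cv.fin (k := k) (F := F)
    exact Module.finrank_pos
  obtain ⟨r, hr⟩ : ∃ r : ℕ, r = 2 * c + 4 := ⟨_, rfl⟩
  obtain ⟨f, hf, hfo⟩ := hc r
  have hW := wronskian_ne (Cv.d (k := k) (F := F)) (fun g hg => const_of_der g hg) _ f hf
  set W : F := (wm (Cv.d (k := k) (F := F)) f).det with hWdef
  obtain ⟨B₂, hB₂⟩ := ordAt_finite (k := k) hW
  set T : Finset (Pl k F) := B ∪ B₁ ∪ B₂ with hT
  have hsum : ∑ P ∈ T, ordAt P W = 0 :=
    ordAt_sum hW T fun P hP => Finset.mem_union_right _ (hB₂ P hP)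
  have he : ∀ P : Pl k F, ((max 0 (-ordAt P (Cv.z k : F))).toNat : ℤ) =
      max 0 (-ordAt P (Cv.z k : F)) := fun P => Int.toNat_of_nonneg (le_max_left _ _)
  have hloc : ∀ P ∈ T, (∑ i : Fin (n * r), (i : ℤ)) * (1 - kap P) -
      ((r + c : ℕ) : ℤ) * max 0 (-ordAt P (Cv.z k : F)) * (n * r : ℕ) ≤ ordAt P W := by
    intro P _
    have h1 := ord_wronskian P f ((r + c) * (max 0 (-ordAt P (Cv.z k : F))).toNat) (fun j hj => by
      have h2 := hfo j P hj
      rw [Nat.cast_mul, he]
      linarith) hW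
    rw [Nat.cast_mul, he] at h1
    exact h1
  have h1 := Finset.sum_le_sum hloc
  rw [hsum, Finset.sum_sub_distrib, ← Finset.mul_sum, ← Finset.sum_mul, ← Finset.mul_sum] at h1
  -- the sum of `1 - kap`
  have h2 : ∑ P ∈ T, (1 - kap P) = B.card - ∑ Q ∈ B, kap Q := by
    have h3 : ∑ P ∈ B, (1 - kap P) = ∑ P ∈ T, (1 - kap P) :=
      Finset.sum_subset (fun P hP => Finset.mem_union_left _ (Finset.mem_union_left _ hP))
        fun P _ hP => by rw [hB P hP, sub_self]
    rw [← h3, Finset.sum_sub_distrib]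
    simp
  have h4 : ∑ P ∈ T, max 0 (-ordAt P (Cv.z k : F)) = n := by
    have h5 : ∑ P ∈ B₁, max 0 (-ordAt P (Cv.z k : F)) = ∑ P ∈ T, max 0 (-ordAt P (Cv.z k : F)) :=
      Finset.sum_subset (fun P hP => Finset.mem_union_left _ (Finset.mem_union_right _ hP))
        fun P _ hP => by
          rw [hB₁, ordAt_inv] at hP
          exact max_eq_left (by omega)
    rw [← h5, ← hs₁]
    refine Finset.sum_congr rfl fun P hP => ?_
    rw [hB₁, ordAt_inv] at hP
    rw [ordAt_inv]
    exact max_eq_right (by omega)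
  rw [h2, h4] at h1
  set D : ℤ := B.card - ∑ Q ∈ B, kap Q with hD
  have hD3 : 3 ≤ D := by omega
  have h6 := sum_fin (n * r)
  set S : ℤ := ∑ i : Fin (n * r), (i : ℤ) with hS
  have hl : (1 : ℤ) ≤ ((n * r : ℕ) : ℤ) := by
    have : 1 ≤ n * r := Nat.mul_pos hn1 (by omega)
    exact_mod_cast this
  set L : ℤ := ((n * r : ℕ) : ℤ) with hL
  have hS0 : 0 ≤ S := by nlinarith
  have h7 : S * 3 ≤ S * D := mul_le_mul_of_nonneg_left hD3 hS0
  have h8 : 3 * (L * (L - 1)) ≤ 2 * (((r + c : ℕ) : ℤ) * n * L) := by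
    nlinarith
  have h9 : 3 * (L - 1) ≤ 2 * (((r + c : ℕ) : ℤ) * n) := by
    have h10 : L * (3 * (L - 1)) ≤ L * (2 * (((r + c : ℕ) : ℤ) * n)) := by linarith
    exact le_of_mul_le_mul_left h10 (by omega)
  have h11 : L = n * r := by
    rw [hL]
    push_cast
    ring
  have hrc : (r : ℤ) = 2 * c + 4 := by
    rw [hr]
    push_cast
    ring
  have hn1' : (1 : ℤ) ≤ n := by exact_mod_cast hn1
  push_cast at h9
  rw [h11, hrc] at h9
  nlinarith

end CRV

end

end Pool.Agent.MLD.C
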